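import Pool.Agent.Helper4.WC.Rel

set_option autoImplicit false

/-!
# Absolute and definable predicates
-/

open Set Ordinal

namespace Pool.Agent.Helper4.WC

/-- `Q` is given by a formula in all universes -/
def Abs (Q : (ℕ → O) → Prop) : Prop :=
  ∃ φ : Fml, ∀ A, Dom A → ∀ v : ℕ → O, (∀ i, v i ∈ A) → (Sat A E φ v ↔ Q v)

/-- `Q` is given by a formula in the universe of all ordinals -/
def DefU (Q : (ℕ → O) → Prop) : Prop :=
  ∃ φ : Fml, ∀ v : ℕ → O, Sat Set.univ E φ v ↔ Q v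

theorem Dom.P_mem {A : Set O} (hA : Dom A) {y x : O} (hy : y ∈ A) (hx : x ∈ A) : P y x ∈ A := by
  rcases hA with rfl | ⟨e, he, rfl⟩
  · exact mem_univ _
  · exact he.P_lt hy hx

theorem Dom.oo_mem {A : Set O} (hA : Dom A) {ρ : O} (h : ρ ∈ A) : oo ρ ∈ A := by
  rcases hA with rfl | ⟨e, he, rfl⟩
  · exact mem_univ _
  · exact he.cd_lt h zero_le

theorem Dom.lt_mem {A : Set O} (hA : Dom A) {x y : O} (hxy : x < y) (hy : y ∈ A) : x ∈ A := by
  rcases hA with rfl | ⟨e, he, rfl⟩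
  · exact mem_univ _
  · exact hxy.trans hy

/-- lifting of a renaming -/
def absLift (f : ℕ → ℕ) : ℕ → ℕ
  | 0 => 0
  | i + 1 => f i + 1

/-- renaming of the variables of a formula -/
def absRen : Fml → (ℕ → ℕ) → Fml
  | .lt i j, f => .lt (f i) (f j)
  | .mem i j, f => .mem (f i) (f j)
  | .pr i j k, f => .pr (f i) (f j) (f k)
  | .on i j, f => .on (f i) (f j)
  | .bot, _ => .bot
  | .imp φ ψ, f => .imp (absRen φ f) (absRen ψ f)
  | .ex φ, f => .ex (absRen φ (absLift f))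

theorem absSat_ren {A : Set O} {R : O → O → Prop} (φ : Fml) (f : ℕ → ℕ) (v : ℕ → O) :
    Sat A R (absRen φ f) v ↔ Sat A R φ (fun i => v (f i)) := by
  induction φ generalizing f v with
  | lt i j => exact Iff.rfl
  | mem i j => exact Iff.rfl
  | pr i j k => exact Iff.rfl
  | on i j => exact Iff.rfl
  | bot => exact Iff.rfl
  | imp φ ψ ih1 ih2 =>
    simp only [absRen, Sat]
    rw [ih1, ih2]
  | ex φ ih =>
    simp only [absRen, Sat]
    refine exists_congr fun y => and_congr_right fun _ => ?_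
    rw [ih]
    have h : (fun i => cns y v (absLift f i)) = cns y (fun i => v (f i)) := by
      funext i
      cases i with
      | zero => rfl
      | succ i => rfl
    rw [h]

theorem absCns {A : Set O} {y : O} {v : ℕ → O} (hy : y ∈ A) (hv : ∀ i, v i ∈ A) :
    ∀ i, cns y v i ∈ A := by
  intro i
  cases i with
  | zero => exact hy
  | succ i => exact hv i

namespace Abs

variable {Q Q' : (ℕ → O) → Prop}

theorem congr (h : Abs Q) (e : ∀ v, Q v ↔ Q' v) : Abs Q' := by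
  obtain ⟨φ, hφ⟩ := h
  exact ⟨φ, fun A hA v hv => (hφ A hA v hv).trans (e v)⟩

theorem lt (i j : ℕ) : Abs (fun v => v i < v j) := ⟨.lt i j, fun _ _ _ _ => Iff.rfl⟩

theorem mem (i j : ℕ) : Abs (fun v => E (v i) (v j)) := ⟨.mem i j, fun _ _ _ _ => Iff.rfl⟩

theorem pr (i j k : ℕ) : Abs (fun v => v i = P (v j) (v k)) :=
  ⟨.pr i j k, fun _ _ _ _ => Iff.rfl⟩

theorem on (i j : ℕ) : Abs (fun v => v i = oo (v j)) := ⟨.on i j, fun _ _ _ _ => Iff.rfl⟩

theorem fls : Abs (fun _ => False) := ⟨.bot, fun _ _ _ _ => Iff.rfl⟩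

theorem imp (h : Abs Q) (h' : Abs Q') : Abs (fun v => Q v → Q' v) := by
  obtain ⟨φ, hφ⟩ := h
  obtain ⟨ψ, hψ⟩ := h'
  refine ⟨.imp φ ψ, fun A hA v hv => ?_⟩
  simp only [Sat]
  rw [hφ A hA v hv, hψ A hA v hv]

theorem not (h : Abs Q) : Abs (fun v => ¬ Q v) := h.imp fls

theorem and (h : Abs Q) (h' : Abs Q') : Abs (fun v => Q v ∧ Q' v) := by
  refine (h.imp h'.not).not.congr fun v => ?_
  simp only [Classical.not_imp, not_not]

theorem or (h : Abs Q) (h' : Abs Q') : Abs (fun v => Q v ∨ Q' v) := by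
  refine (h.not.imp h').congr fun v => ?_
  exact or_iff_not_imp_left.symm

theorem iff (h : Abs Q) (h' : Abs Q') : Abs (fun v => Q v ↔ Q' v) := by
  refine ((h.imp h').and (h'.imp h)).congr fun v => ?_
  exact iff_iff_implies_and_implies.symm

theorem le (i j : ℕ) : Abs (fun v => v i ≤ v j) := by
  refine (lt j i).not.congr fun v => ?_
  exact not_lt

theorem eq (i j : ℕ) : Abs (fun v => v i = v j) := by
  refine ((le i j).and (le j i)).congr fun v => ?_
  exact le_antisymm_iff.symm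

/-- renaming of variables -/
theorem ren (h : Abs Q) (f : ℕ → ℕ) : Abs (fun v => Q (fun i => v (f i))) := by
  obtain ⟨φ, hφ⟩ := h
  exact ⟨absRen φ f, fun A hA v hv =>
    (absSat_ren φ f v).trans (hφ A hA _ fun i => hv (f i))⟩

theorem abs_ex (h : Abs Q) (hb : ∀ A, Dom A → ∀ v : ℕ → O, (∀ i, v i ∈ A) → ∀ y,
    Q (cns y v) → y ∈ A) : Abs (fun v => ∃ y, Q (cns y v)) := by
  obtain ⟨φ, hφ⟩ := h
  refine ⟨.ex φ, fun A hA v hv => ?_⟩
  simp only [Sat]
  refine exists_congr fun y => ?_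
  constructor
  · rintro ⟨hy, h1⟩
    exact (hφ A hA _ (absCns hy hv)).1 h1
  · intro h1
    have hy := hb A hA v hv y h1
    exact ⟨hy, (hφ A hA _ (absCns hy hv)).2 h1⟩

/-- bounded quantifiers -/
theorem bex (h : Abs Q) (i : ℕ) : Abs (fun v => ∃ y < v i, Q (cns y v)) :=
  ((lt 0 (i + 1)).and h).abs_ex fun _ hA _ hv _ h1 => hA.lt_mem h1.1 (hv i)

theorem ball (h : Abs Q) (i : ℕ) : Abs (fun v => ∀ y < v i, Q (cns y v)) := by
  refine (h.not.bex i).not.congr fun v => ?_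
  push Not
  exact Iff.rfl

theorem exE (h : Abs Q) (i : ℕ) : Abs (fun v => ∃ y, E y (v i) ∧ Q (cns y v)) :=
  ((mem 0 (i + 1)).and h).abs_ex fun _ hA _ hv _ h1 => hA.lt_mem (E_lt h1.1) (hv i)

theorem allE (h : Abs Q) (i : ℕ) : Abs (fun v => ∀ y, E y (v i) → Q (cns y v)) := by
  refine (h.not.exE i).not.congr fun v => ?_
  push Not
  exact Iff.rfl

/-- composition with the pairing function -/
theorem subP (h : Abs Q) (i j : ℕ) : Abs (fun v => Q (cns (P (v i) (v j)) v)) := by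
  have h1 : Abs (fun v => ∃ y, y = P (v i) (v j) ∧ Q (cns y v)) := by
    refine ((pr 0 (i + 1) (j + 1)).and h).abs_ex fun A hA v hv y h1 => ?_
    have h2 : y = P (v i) (v j) := h1.1
    rw [h2]
    exact hA.P_mem (hv i) (hv j)
  refine h1.congr fun v => ?_
  constructor
  · rintro ⟨y, rfl, hQ⟩
    exact hQ
  · intro hQ
    exact ⟨_, rfl, hQ⟩

/-- composition with `oo` -/
theorem subO (h : Abs Q) (i : ℕ) : Abs (fun v => Q (cns (oo (v i)) v)) := by
  have h1 : Abs (fun v => ∃ y, y = oo (v i) ∧ Q (cns y v)) := by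
    refine ((on 0 (i + 1)).and h).abs_ex fun A hA v hv y h1 => ?_
    have h2 : y = oo (v i) := h1.1
    rw [h2]
    exact hA.oo_mem (hv i)
  refine h1.congr fun v => ?_
  constructor
  · rintro ⟨y, rfl, hQ⟩
    exact hQ
  · intro hQ
    exact ⟨_, rfl, hQ⟩

theorem defU (h : Abs Q) : DefU Q := by
  obtain ⟨φ, hφ⟩ := h
  exact ⟨φ, fun v => hφ univ (Or.inl rfl) v fun i => mem_univ _⟩

end Abs

end Pool.Agent.Helper4.WC
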