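import Pool.Agent.Helper4.WC.Cnd
import Pool.Agent.Helper4.KSq.KDefs

set_option autoImplicit false

/-!
# The canonical club of a singularised ordinal
-/

open Set Ordinal

namespace Pool.Agent.Helper4.WC

open Pool.Agent.Helper4.KSq (IsAcc IsClubIn)

/-- the least upper bound (plus one) of `Hull r (δ ∪ p) ∩ β` -/
noncomputable def kk (β : O) (p : Finset O) (r δ : O) : O :=
  sInf {b | ∀ x ∈ Hull r (Iio δ ∪ (p : Set O)), x < β → x < b}

/-- the least ordinal above all `c < β` with `Hull s (c ∪ p) ∩ β ⊆ c` -/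
noncomputable def mm (β s : O) (p : Finset O) : O :=
  sInf {b | ∀ c < β, (∀ x ∈ Hull s (Iio c ∪ (p : Set O)), x < β → x < c) → c < b}

/-- the least `ξ` such that `Hull s (ξ ∪ p) ∩ β` has an element `≥ b` -/
noncomputable def xi (β s : O) (p : Finset O) (b : O) : O :=
  sInf {ξ | ∃ x ∈ Hull s (Iio ξ ∪ (p : Set O)), b ≤ x ∧ x < β}

/-- the least ordinal above `p` -/
noncomputable def r0 (p : Finset O) : O := sInf {r | ∀ x ∈ p, x < r}

/-- the least location at which `Hull r (ξ(b) ∪ p) ∩ β` has an element `≥ b` -/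
noncomputable def rr (β s : O) (p : Finset O) (b : O) : O :=
  sInf {r | r0 p ≤ r ∧ ∃ x ∈ Hull r (Iio (xi β s p b) ∪ (p : Set O)), b ≤ x ∧ x < β}

/-- one step -/
noncomputable def stp (β s : O) (p : Finset O) (z : O × O) : O × O :=
  (kk β p (max z.2 (rr β s p z.1)) z.1, max z.2 (rr β s p z.1))

/-- the sequence of pairs `(b_i, r_i)` -/
noncomputable def sq (β s : O) (p : Finset O) : O → O × O :=
  WellFounded.fix (C := fun _ => O × O) (lt_wf : WellFounded ((· < ·) : O → O → Prop))
    fun i rec => (max (mm β s p) (⨆ j : Iio i, (stp β s p (rec j.1 j.2)).1),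
      max (r0 p) (⨆ j : Iio i, (stp β s p (rec j.1 j.2)).2))

theorem sq_eq (β s : O) (p : Finset O) (i : O) : sq β s p i =
    (max (mm β s p) (⨆ j : Iio i, (stp β s p (sq β s p j)).1),
      max (r0 p) (⨆ j : Iio i, (stp β s p (sq β s p j)).2)) := by
  unfold sq
  rw [WellFounded.fix_eq]

/-- the canonical club -/
def CA (β s : O) (p : Finset O) : Set O := {b | b < β ∧ ∃ i, (sq β s p i).1 = b}

/-- `β` is singularised at the location `s` by `p`, and not before -/
structure ASys (β s : O) (p : Finset O) : Prop where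
  bpos : 0 < β
  blim : ∀ x < β, ∃ y < β, x < y
  slim : ∀ x < s, ∃ y < s, x < y
  mem : β ∈ p
  sub : ∀ x ∈ p, x < s
  bdd : ∀ r < s, ∀ δ < β, BddIn (Hull r (Iio δ ∪ (p : Set O))) β
  cof : ∃ δ < β, Cof (Hull s (Iio δ ∪ (p : Set O))) β

end Pool.Agent.Helper4.WC
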