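import Pool.Agent.Helper4.WC.ADefs

set_option autoImplicit false

open Set Ordinal

namespace Pool.Agent.Helper4.WC

open Pool.Agent.Helper4.KSq (IsAcc IsClubIn)

theorem as1_hull_le {p : Finset O} {r r' δ δ' : O} (hr : r ≤ r') (hδ : δ ≤ δ') :
    Hull r (Iio δ ∪ (p : Set O)) ⊆ Hull r' (Iio δ' ∪ (p : Set O)) :=
  hull_mono hr (union_subset_union_left _ (Iio_subset_Iio hδ))

theorem kk_le (β : O) (p : Finset O) (r δ : O) : kk β p r δ ≤ β :=
  csInf_le' (show β ∈ {b | ∀ x ∈ Hull r (Iio δ ∪ (p : Set O)), x < β → x < b} from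
    fun _ _ h => h)

theorem lt_kk {β : O} {p : Finset O} {r δ x : O} (hx : x ∈ Hull r (Iio δ ∪ (p : Set O)))
    (hβ : x < β) : x < kk β p r δ := by
  have h : kk β p r δ ∈ {b | ∀ x ∈ Hull r (Iio δ ∪ (p : Set O)), x < β → x < b} :=
    csInf_mem ⟨β, fun _ _ h => h⟩
  exact h x hx hβ

theorem kk_le_of {β : O} {p : Finset O} {r δ b : O}
    (h : ∀ x ∈ Hull r (Iio δ ∪ (p : Set O)), x < β → x < b) : kk β p r δ ≤ b :=
  csInf_le' (show b ∈ {b | ∀ x ∈ Hull r (Iio δ ∪ (p : Set O)), x < β → x < b} from h)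

theorem exists_of_lt_kk {β : O} {p : Finset O} {r δ y : O} (h : y < kk β p r δ) :
    ∃ x ∈ Hull r (Iio δ ∪ (p : Set O)), y ≤ x ∧ x < β := by
  by_contra hcon
  push Not at hcon
  have h1 : kk β p r δ ≤ y := by
    apply kk_le_of
    intro x hx hβ
    by_contra h2
    exact absurd hβ (not_lt.2 (hcon x hx (not_lt.1 h2)))
  exact absurd h (not_lt.2 h1)

theorem kk_mono {β : O} {p : Finset O} {r r' δ δ' : O} (hr : r ≤ r') (hδ : δ ≤ δ') :
    kk β p r δ ≤ kk β p r' δ' :=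
  kk_le_of fun _ hx hβ => lt_kk (as1_hull_le hr hδ hx) hβ

theorem lt_r0 {p : Finset O} {x : O} (hx : x ∈ p) : x < r0 p := by
  have h : r0 p ∈ {r | ∀ x ∈ p, x < r} := by
    refine csInf_mem ⟨p.sup id + 1, fun x hx => ?_⟩
    exact Order.lt_add_one_iff.2 (Finset.le_sup (f := id) hx)
  exact h x hx

theorem r0_le {p : Finset O} {r : O} (h : ∀ x ∈ p, x < r) : r0 p ≤ r :=
  csInf_le' (show r ∈ {r | ∀ x ∈ p, x < r} from h)

namespace ASys

variable {β s : O} {p : Finset O}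

theorem spos (h : ASys β s p) : 0 < s := lt_of_le_of_lt zero_le (h.sub β h.mem)

theorem r0_lt (h : ASys β s p) : r0 p < s := by
  have h1 : p.sup id < s := by
    have hb : (⊥ : O) < s := lt_of_le_of_lt bot_le (h.sub β h.mem)
    exact (Finset.sup_lt_iff hb).2 fun b hb => h.sub b hb
  obtain ⟨y, hy, hxy⟩ := h.slim _ h1
  refine lt_of_le_of_lt (r0_le fun x hx => ?_) hy
  exact lt_of_le_of_lt (Finset.le_sup (f := id) hx) hxy

theorem kk_lt (h : ASys β s p) {r δ : O} (hr : r < s) (hδ : δ < β) : kk β p r δ < β := by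
  obtain ⟨b, hb, h1⟩ := h.bdd r hr δ hδ
  exact (kk_le_of h1).trans_lt hb

theorem as1_mm_mem (β s : O) (p : Finset O) :
    ∀ c < β, (∀ x ∈ Hull s (Iio c ∪ (p : Set O)), x < β → x < c) → c < mm β s p := by
  have h : mm β s p ∈
      {b | ∀ c < β, (∀ x ∈ Hull s (Iio c ∪ (p : Set O)), x < β → x < c) → c < b} :=
    csInf_mem ⟨β, fun _ h _ => h⟩
  exact h

theorem as1_mm_lt {β s : O} {p : Finset O} {y : O} (hy : y < mm β s p) :
    ∃ c < β, (∀ x ∈ Hull s (Iio c ∪ (p : Set O)), x < β → x < c) ∧ y ≤ c := by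
  by_contra hcon
  push Not at hcon
  have h1 : mm β s p ≤ y := csInf_le' (show y ∈
    {b | ∀ c < β, (∀ x ∈ Hull s (Iio c ∪ (p : Set O)), x < β → x < c) → c < b} from hcon)
  exact absurd hy (not_lt.2 h1)

/-- `β` is not closed from `mm` on -/
theorem mm_lt (h : ASys β s p) : mm β s p < β := by
  obtain ⟨δ, hδ, hc⟩ := h.cof
  refine lt_of_le_of_lt (csInf_le' (show δ ∈
    {b | ∀ c < β, (∀ x ∈ Hull s (Iio c ∪ (p : Set O)), x < β → x < c) → c < b} from ?_)) hδ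
  intro c hcβ hcl
  by_contra hcon
  obtain ⟨x, hx, h1, h2⟩ := hc c hcβ
  exact absurd (hcl x (as1_hull_le le_rfl (not_lt.1 hcon) hx) h2) (not_lt.2 h1)

theorem not_closed (_h : ASys β s p) {c : O} (hc : mm β s p ≤ c) (hβ : c < β) :
    ∃ x ∈ Hull s (Iio c ∪ (p : Set O)), c ≤ x ∧ x < β := by
  by_contra hcon
  push Not at hcon
  have h1 := as1_mm_mem β s p c hβ fun x hx hxβ => by
    by_contra h2
    exact absurd hxβ (not_lt.2 (hcon x hx (not_lt.1 h2)))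
  exact absurd h1 (not_lt.2 hc)

/-- `mm` is `0`, or the successor of the largest closed ordinal -/
theorem mm_cases (h : ASys β s p) : mm β s p = 0 ∨
    ∃ c, mm β s p = c + 1 ∧ c < β ∧ ∀ x ∈ Hull s (Iio c ∪ (p : Set O)), x < β → x < c := by
  rcases eq_or_ne (mm β s p) 0 with h0 | h0
  · exact Or.inl h0
  right
  have hpos : 0 < mm β s p := pos_iff_ne_zero.2 h0
  by_cases hlim : ∀ y < mm β s p, ∃ z < mm β s p, y < z
  · exfalso
    have h1 := as1_mm_mem β s p (mm β s p) h.mm_lt fun x hx hxβ => by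
      obtain ⟨δ, hδ, h2⟩ := hull_cont_b hpos hlim hx
      obtain ⟨c, hc, h3, h4⟩ := as1_mm_lt hδ
      exact (h3 x (as1_hull_le le_rfl h4 h2) hxβ).trans (as1_mm_mem β s p c hc h3)
    exact lt_irrefl _ h1
  · push Not at hlim
    obtain ⟨y, hy, h1⟩ := hlim
    obtain ⟨c, hc, h3, h4⟩ := as1_mm_lt hy
    have h5 := as1_mm_mem β s p c hc h3
    have h6 : c ≤ y := h1 c h5
    refine ⟨c, le_antisymm ?_ (Order.add_one_le_of_lt h5), hc, h3⟩
    by_contra hcon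
    rw [not_le] at hcon
    have h7 := h1 _ hcon
    exact absurd (lt_of_lt_of_le (Order.lt_add_one_iff.2 h4) h7) (lt_irrefl _)

theorem as1_xi_set (h : ASys β s p) {b : O} (hb : mm β s p ≤ b) (hβ : b < β) :
    b ∈ {ξ | ∃ x ∈ Hull s (Iio ξ ∪ (p : Set O)), b ≤ x ∧ x < β} := h.not_closed hb hβ

theorem xi_le (h : ASys β s p) {b : O} (hb : mm β s p ≤ b) (hβ : b < β) : xi β s p b ≤ b :=
  csInf_le' (h.as1_xi_set hb hβ)

theorem xi_spec (h : ASys β s p) {b : O} (hb : mm β s p ≤ b) (hβ : b < β) :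
    ∃ x ∈ Hull s (Iio (xi β s p b) ∪ (p : Set O)), b ≤ x ∧ x < β := by
  have h1 : xi β s p b ∈ {ξ | ∃ x ∈ Hull s (Iio ξ ∪ (p : Set O)), b ≤ x ∧ x < β} :=
    csInf_mem ⟨b, h.as1_xi_set hb hβ⟩
  exact h1

theorem xi_min (_h : ASys β s p) {b ξ : O} (hξ : ξ < xi β s p b) :
    ∀ x ∈ Hull s (Iio ξ ∪ (p : Set O)), x < β → x < b := by
  intro x hx hβ
  by_contra hcon
  have h1 : xi β s p b ≤ ξ := csInf_le' (show ξ ∈
    {ξ | ∃ x ∈ Hull s (Iio ξ ∪ (p : Set O)), b ≤ x ∧ x < β} from ⟨x, hx, not_lt.1 hcon, hβ⟩)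
  exact absurd hξ (not_lt.2 h1)

theorem xi_mono (h : ASys β s p) {b b' : O} (hb : mm β s p ≤ b) (hbb : b ≤ b') (hβ : b' < β) :
    xi β s p b ≤ xi β s p b' := by
  obtain ⟨x, hx, h1, h2⟩ := h.xi_spec (hb.trans hbb) hβ
  exact csInf_le' (show xi β s p b' ∈
    {ξ | ∃ x ∈ Hull s (Iio ξ ∪ (p : Set O)), b ≤ x ∧ x < β} from ⟨x, hx, hbb.trans h1, h2⟩)

theorem as1_rr_set (h : ASys β s p) {b : O} (hb : mm β s p ≤ b) (hβ : b < β) :
    ∃ r < s, r ∈ {r | r0 p ≤ r ∧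
      ∃ x ∈ Hull r (Iio (xi β s p b) ∪ (p : Set O)), b ≤ x ∧ x < β} := by
  obtain ⟨x, hx, h1, h2⟩ := h.xi_spec hb hβ
  obtain ⟨r, hr, h3⟩ := hull_cont_s h.slim hx
  refine ⟨max r (r0 p), max_lt hr h.r0_lt, le_max_right _ _, x, ?_, h1, h2⟩
  exact as1_hull_le (le_max_left _ _) le_rfl h3

theorem as1_rr_mem (h : ASys β s p) {b : O} (hb : mm β s p ≤ b) (hβ : b < β) :
    r0 p ≤ rr β s p b ∧
      ∃ x ∈ Hull (rr β s p b) (Iio (xi β s p b) ∪ (p : Set O)), b ≤ x ∧ x < β := by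
  obtain ⟨r, _, hr⟩ := h.as1_rr_set hb hβ
  have h1 : rr β s p b ∈ {r | r0 p ≤ r ∧
      ∃ x ∈ Hull r (Iio (xi β s p b) ∪ (p : Set O)), b ≤ x ∧ x < β} := csInf_mem ⟨r, hr⟩
  exact h1

theorem rr_lt (h : ASys β s p) {b : O} (hb : mm β s p ≤ b) (hβ : b < β) : rr β s p b < s := by
  obtain ⟨r, hrs, hr⟩ := h.as1_rr_set hb hβ
  exact (csInf_le' hr).trans_lt hrs

theorem r0_le_rr (h : ASys β s p) {b : O} (hb : mm β s p ≤ b) (hβ : b < β) :
    r0 p ≤ rr β s p b := (h.as1_rr_mem hb hβ).1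

theorem rr_spec (h : ASys β s p) {b : O} (hb : mm β s p ≤ b) (hβ : b < β) :
    ∃ x ∈ Hull (rr β s p b) (Iio (xi β s p b) ∪ (p : Set O)), b ≤ x ∧ x < β :=
  (h.as1_rr_mem hb hβ).2

theorem rr_min (_h : ASys β s p) {b r : O} (hr : r0 p ≤ r) (hx : ∃ x ∈ Hull r (Iio (xi β s p b) ∪
    (p : Set O)), b ≤ x ∧ x < β) : rr β s p b ≤ r :=
  csInf_le' (show r ∈ {r | r0 p ≤ r ∧
    ∃ x ∈ Hull r (Iio (xi β s p b) ∪ (p : Set O)), b ≤ x ∧ x < β} from ⟨hr, hx⟩)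

/-- a step increases the first component -/
theorem lt_stp (h : ASys β s p) {z : O × O} (hz : mm β s p ≤ z.1) (hβ : z.1 < β)
    (hs : z.2 < s) : z.1 < (stp β s p z).1 ∧ (stp β s p z).1 < β ∧
      z.2 ≤ (stp β s p z).2 ∧ (stp β s p z).2 < s := by
  have hr : max z.2 (rr β s p z.1) < s := max_lt hs (h.rr_lt hz hβ)
  obtain ⟨x, hx, h1, h2⟩ := h.rr_spec hz hβ
  refine ⟨?_, h.kk_lt hr hβ, le_max_left _ _, hr⟩
  exact lt_of_le_of_lt h1 (lt_kk (as1_hull_le (le_max_right _ _) (h.xi_le hz hβ) hx) h2)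

end ASys

end Pool.Agent.Helper4.WC
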