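import Pool.Agent.Helper4.WC.AS1

set_option autoImplicit false

open Set Ordinal

namespace Pool.Agent.Helper4.WC

open Pool.Agent.Helper4.KSq (IsAcc IsClubIn)

theorem as2_fst_lt_iff {β s : O} {p : Finset O} {i x : O} : x < (sq β s p i).1 ↔
    x < mm β s p ∨ ∃ j < i, x < (stp β s p (sq β s p j)).1 := by
  rw [sq_eq]
  simp only [lt_max_iff]
  refine or_congr Iff.rfl ?_
  rw [Ordinal.lt_iSup_iff]
  exact ⟨fun ⟨j, hj⟩ => ⟨j.1, j.2, hj⟩, fun ⟨j, hj, h⟩ => ⟨⟨j, hj⟩, h⟩⟩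

theorem as2_snd_lt_iff {β s : O} {p : Finset O} {i x : O} : x < (sq β s p i).2 ↔
    x < r0 p ∨ ∃ j < i, x < (stp β s p (sq β s p j)).2 := by
  rw [sq_eq]
  simp only [lt_max_iff]
  refine or_congr Iff.rfl ?_
  rw [Ordinal.lt_iSup_iff]
  exact ⟨fun ⟨j, hj⟩ => ⟨j.1, j.2, hj⟩, fun ⟨j, hj, h⟩ => ⟨⟨j, hj⟩, h⟩⟩

theorem as2_fst_le_iff {β s : O} {p : Finset O} {i x : O} : (sq β s p i).1 ≤ x ↔
    mm β s p ≤ x ∧ ∀ j < i, (stp β s p (sq β s p j)).1 ≤ x := by
  rw [← not_lt, as2_fst_lt_iff]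
  push Not
  exact Iff.rfl

theorem as2_snd_le_iff {β s : O} {p : Finset O} {i x : O} : (sq β s p i).2 ≤ x ↔
    r0 p ≤ x ∧ ∀ j < i, (stp β s p (sq β s p j)).2 ≤ x := by
  rw [← not_lt, as2_snd_lt_iff]
  push Not
  exact Iff.rfl

theorem as2_mm_le {β s : O} {p : Finset O} (i : O) : mm β s p ≤ (sq β s p i).1 :=
  (as2_fst_le_iff.1 le_rfl).1

theorem as2_r0_le {β s : O} {p : Finset O} (i : O) : r0 p ≤ (sq β s p i).2 :=
  (as2_snd_le_iff.1 le_rfl).1

theorem as2_stp_fst_le {β s : O} {p : Finset O} {i j : O} (h : j < i) :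
    (stp β s p (sq β s p j)).1 ≤ (sq β s p i).1 := (as2_fst_le_iff.1 le_rfl).2 j h

theorem as2_stp_snd_le {β s : O} {p : Finset O} {i j : O} (h : j < i) :
    (stp β s p (sq β s p j)).2 ≤ (sq β s p i).2 := (as2_snd_le_iff.1 le_rfl).2 j h

theorem as2_fst_mono {β s : O} {p : Finset O} {i j : O} (h : j ≤ i) :
    (sq β s p j).1 ≤ (sq β s p i).1 :=
  as2_fst_le_iff.2 ⟨as2_mm_le i, fun _ hl => as2_stp_fst_le (hl.trans_le h)⟩

theorem as2_snd_mono {β s : O} {p : Finset O} {i j : O} (h : j ≤ i) :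
    (sq β s p j).2 ≤ (sq β s p i).2 :=
  as2_snd_le_iff.2 ⟨as2_r0_le i, fun _ hl => as2_stp_snd_le (hl.trans_le h)⟩

theorem as2_zero {β s : O} {p : Finset O} : sq β s p 0 = (mm β s p, r0 p) := by
  have h : ∀ j : O, ¬ j < 0 := fun j hj => not_lt_bot hj
  refine Prod.ext ?_ ?_
  · exact le_antisymm (as2_fst_le_iff.2 ⟨le_rfl, fun j hj => (h j hj).elim⟩) (as2_mm_le 0)
  · exact le_antisymm (as2_snd_le_iff.2 ⟨le_rfl, fun j hj => (h j hj).elim⟩) (as2_r0_le 0)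

theorem as2_succ {β s : O} {p : Finset O} (h : ASys β s p) {i : O}
    (hi : (sq β s p i).1 < β) (hr : (sq β s p i).2 < s) :
    sq β s p (i + 1) = stp β s p (sq β s p i) := by
  obtain ⟨h1, -, h3, -⟩ := h.lt_stp (as2_mm_le i) hi hr
  have hlt : i < i + 1 := lt_add_one i
  refine Prod.ext ?_ ?_
  · refine le_antisymm (as2_fst_le_iff.2 ⟨(as2_mm_le i).trans h1.le, fun j hj => ?_⟩)
      (as2_stp_fst_le hlt)
    rcases (Order.lt_add_one_iff.1 hj).lt_or_eq with hj | rfl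
    · exact (as2_stp_fst_le hj).trans h1.le
    · exact le_rfl
  · refine le_antisymm (as2_snd_le_iff.2 ⟨(as2_r0_le i).trans h3, fun j hj => ?_⟩)
      (as2_stp_snd_le hlt)
    rcases (Order.lt_add_one_iff.1 hj).lt_or_eq with hj | rfl
    · exact (as2_stp_snd_le hj).trans h3
    · exact le_rfl

theorem as2_lim {β s : O} {p : Finset O} (h : ASys β s p) {i : O} (hi : Order.IsSuccLimit i)
    (hβ : ∀ j < i, (sq β s p j).1 < β) (hr : ∀ j < i, (sq β s p j).2 < s) :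
    (∀ x < (sq β s p i).1, ∃ j < i, x < (sq β s p j).1) ∧
    (∀ x < (sq β s p i).2, ∃ j < i, x < (sq β s p j).2) := by
  have h0 : 0 < i := hi.bot_lt
  constructor
  · intro x hx
    rcases as2_fst_lt_iff.1 hx with hx | ⟨j, hj, hx⟩
    · exact ⟨0, h0, hx.trans_le (as2_mm_le 0)⟩
    · refine ⟨j + 1, hi.succ_lt hj, ?_⟩
      rw [as2_succ h (hβ j hj) (hr j hj)]
      exact hx
  · intro x hx
    rcases as2_snd_lt_iff.1 hx with hx | ⟨j, hj, hx⟩
    · exact ⟨0, h0, hx.trans_le (as2_r0_le 0)⟩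
    · refine ⟨j + 1, hi.succ_lt hj, ?_⟩
      rw [as2_succ h (hβ j hj) (hr j hj)]
      exact hx

theorem as2_hull_lim {β s : O} {p : Finset O} (h : ASys β s p) {i : O}
    (hi : Order.IsSuccLimit i)
    (hβ : ∀ j < i, (sq β s p j).1 < β) (hr : ∀ j < i, (sq β s p j).2 < s) {c : O}
    (hc : c ∈ Hull (sq β s p i).2 (Iio (sq β s p i).1 ∪ (p : Set O))) :
    ∃ j < i, c ∈ Hull (sq β s p j).2 (Iio (sq β s p j).1 ∪ (p : Set O)) := by
  have h0 : 0 < i := hi.bot_lt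
  obtain ⟨h1, h2⟩ := as2_lim h hi hβ hr
  haveI : Nonempty (Iio i) := ⟨⟨0, h0⟩⟩
  obtain ⟨j, hj⟩ := hull_cont (ι := Iio i) (fun j => (sq β s p j.1).2)
    (fun j => Iio (sq β s p j.1).1 ∪ (p : Set O))
    (fun a b hab => as2_snd_mono hab)
    (fun a b hab => union_subset_union (Iio_subset_Iio (as2_fst_mono hab)) (subset_refl _))
    (s := (sq β s p i).2) (Z := Iio (sq β s p i).1 ∪ (p : Set O))
    (fun r hr => by
      obtain ⟨j, hj, hx⟩ := h2 r hr
      exact ⟨⟨j, hj⟩, hx⟩)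
    (fun z hz _ => by
      rcases hz with hz | hz
      · obtain ⟨j, hj, hx⟩ := h1 z hz
        exact ⟨⟨j, hj⟩, Or.inl hx⟩
      · exact ⟨⟨0, h0⟩, Or.inr hz⟩) c hc
  exact ⟨j.1, j.2, hj⟩

theorem as2_main {β s : O} {p : Finset O} (h : ASys β s p) (i : O) :
    (sq β s p i).1 < β → (sq β s p i).2 < s := by
  induction i using WellFoundedLT.induction with
  | ind i ih =>
    intro hi
    have hβ : ∀ j < i, (sq β s p j).1 < β := fun j hj => (as2_fst_mono hj.le).trans_lt hi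
    have hr : ∀ j < i, (sq β s p j).2 < s := fun j hj => ih j hj (hβ j hj)
    rcases Ordinal.zero_or_succ_or_isSuccLimit i with rfl | ⟨j, rfl⟩ | hl
    · rw [as2_zero]
      exact h.r0_lt
    · have hj : j < j + 1 := lt_add_one j
      change (sq β s p (j + 1)).2 < s
      rw [as2_succ h (hβ j hj) (hr j hj)]
      exact (h.lt_stp (as2_mm_le j) (hβ j hj) (hr j hj)).2.2.2
    · have hle : (sq β s p i).2 ≤ s := as2_snd_le_iff.2 ⟨h.r0_lt.le, fun j hj =>
        (h.lt_stp (as2_mm_le j) (hβ j hj) (hr j hj)).2.2.2.le⟩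
      refine lt_of_le_of_ne hle fun hs => ?_
      obtain ⟨x, hx, hbx, hxβ⟩ := h.not_closed (as2_mm_le i) hi
      have hx' : x ∈ Hull (sq β s p i).2 (Iio (sq β s p i).1 ∪ (p : Set O)) := by
        rw [hs]
        exact hx
      obtain ⟨j, hj, hxj⟩ := as2_hull_lim h hl hβ hr hx'
      have h1 := lt_kk hxj hxβ
      have h2 : kk β p (sq β s p j).2 (sq β s p j).1 ≤ (stp β s p (sq β s p j)).1 :=
        kk_mono (h.lt_stp (as2_mm_le j) (hβ j hj) (hr j hj)).2.2.1 le_rfl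
      exact absurd (h1.trans_le (h2.trans (as2_stp_fst_le hj))) (not_lt.2 hbx)

namespace ASys

variable {β s : O} {p : Finset O}

theorem sq_le (h : ASys β s p) (i : O) : (sq β s p i).1 ≤ β :=
  as2_fst_le_iff.2 ⟨h.mm_lt.le, fun _ _ => kk_le _ _ _ _⟩

theorem mm_le_sq (_h : ASys β s p) (i : O) : mm β s p ≤ (sq β s p i).1 := as2_mm_le i

theorem r0_le_sq (_h : ASys β s p) (i : O) : r0 p ≤ (sq β s p i).2 := as2_r0_le i

theorem sq_zero (_h : ASys β s p) : sq β s p 0 = (mm β s p, r0 p) := as2_zero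

/-- continuity at limits: the union of the hulls -/
theorem hull_lim (h : ASys β s p) {i : O} (hi : Order.IsSuccLimit i)
    (hβ : ∀ j < i, (sq β s p j).1 < β) {c : O}
    (hc : c ∈ Hull (sq β s p i).2 (Iio (sq β s p i).1 ∪ (p : Set O))) :
    ∃ j < i, c ∈ Hull (sq β s p j).2 (Iio (sq β s p j).1 ∪ (p : Set O)) :=
  as2_hull_lim h hi hβ (fun j hj => as2_main h j (hβ j hj)) hc

/-- main induction: below `β` all locations are below `s` -/
theorem sq_snd_lt (h : ASys β s p) {i : O} (hi : (sq β s p i).1 < β) : (sq β s p i).2 < s :=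
  as2_main h i hi

theorem sq_succ (h : ASys β s p) {i : O} (hi : (sq β s p i).1 < β) :
    sq β s p (i + 1) = stp β s p (sq β s p i) := as2_succ h hi (as2_main h i hi)

/-- increasing -/
theorem sq_lt (h : ASys β s p) {j i : O} (hj : j < i) (hβ : (sq β s p j).1 < β) :
    (sq β s p j).1 < (sq β s p i).1 :=
  (h.lt_stp (as2_mm_le j) hβ (as2_main h j hβ)).1.trans_le (as2_stp_fst_le hj)

theorem sq_mono (h : ASys β s p) {j i : O} (hj : j ≤ i) :
    (sq β s p j).1 ≤ (sq β s p i).1 := as2_fst_mono hj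

theorem sq_snd_mono (h : ASys β s p) {j i : O} (hj : j ≤ i) (hβ : (sq β s p i).1 < β) :
    (sq β s p j).2 ≤ (sq β s p i).2 := as2_snd_mono hj

/-- continuity at limits -/
theorem sq_lim (h : ASys β s p) {i : O} (hi : Order.IsSuccLimit i)
    (hβ : ∀ j < i, (sq β s p j).1 < β) :
    (∀ x < (sq β s p i).1, ∃ j < i, x < (sq β s p j).1) ∧
    (∀ x < (sq β s p i).2, ∃ j < i, x < (sq β s p j).2) :=
  as2_lim h hi hβ fun j hj => as2_main h j (hβ j hj)

/-- the sequence reaches `β` -/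
theorem exists_sq_eq (h : ASys β s p) : ∃ i, (sq β s p i).1 = β := by
  by_contra hc
  push Not at hc
  have hlt : ∀ i, (sq β s p i).1 < β := fun i => lt_of_le_of_ne (h.sq_le i) (hc i)
  have hm : StrictMono fun i => (sq β s p i).1 := fun j i hj => h.sq_lt hj (hlt j)
  exact absurd (hlt β) (not_lt.2 (hm.le_apply))

end ASys

end Pool.Agent.Helper4.WC
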