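import Pool.Agent.Helper4.WC.AS2

set_option autoImplicit false

open Set Ordinal

namespace Pool.Agent.Helper4.WC

open Pool.Agent.Helper4.KSq (IsAcc IsClubIn)

namespace ASys

variable {β s : O} {p : Finset O}

/-- the canonical club is unbounded -/
theorem CA_unb (h : ASys β s p) : ∀ x < β, ∃ b ∈ CA β s p, x < b := by
  intro x hx
  have hne : {i | x < (sq β s p i).1}.Nonempty := by
    obtain ⟨i, hi⟩ := h.exists_sq_eq
    exact ⟨i, by rw [mem_setOf_eq, hi]; exact hx⟩
  set i := sInf {i | x < (sq β s p i).1} with hidef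
  have hi : x < (sq β s p i).1 := csInf_mem hne
  have hmin : ∀ j < i, (sq β s p j).1 ≤ x := fun j hj => by
    by_contra hcon
    exact notMem_of_lt_csInf' hj (not_le.1 hcon)
  refine ⟨(sq β s p i).1, ⟨?_, i, rfl⟩, hi⟩
  rcases Ordinal.zero_or_succ_or_isSuccLimit i with h0 | ⟨j, hj⟩ | hlim
  · rw [h0, h.sq_zero]
    exact h.mm_lt
  · have hji : j < i := by rw [← hj]; exact Order.lt_succ j
    have h1 : (sq β s p j).1 < β := (hmin j hji).trans_lt hx
    have h2 : i = j + 1 := by rw [← hj, Ordinal.add_one_eq_succ]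
    rw [h2, h.sq_succ h1]
    exact (h.lt_stp (h.mm_le_sq j) h1 (h.sq_snd_lt h1)).2.1
  · obtain ⟨j, hj, hxj⟩ := (h.sq_lim hlim fun j hj => (hmin j hj).trans_lt hx).1 x hi
    exact absurd hxj (not_lt.2 (hmin j hj))

/-- the accumulation points of the canonical club are the values at limits -/
theorem CA_acc (h : ASys β s p) {b : O} (hb : b < β) (hacc : IsAcc (CA β s p) b) :
    ∃ i, Order.IsSuccLimit i ∧ (sq β s p i).1 = b := by
  have hne : {i | b ≤ (sq β s p i).1}.Nonempty := by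
    obtain ⟨i, hi⟩ := h.exists_sq_eq
    exact ⟨i, by rw [mem_setOf_eq, hi]; exact hb.le⟩
  set i := sInf {i | b ≤ (sq β s p i).1} with hidef
  have hi : b ≤ (sq β s p i).1 := csInf_mem hne
  have hmin : ∀ j < i, (sq β s p j).1 < b := fun j hj => by
    by_contra hcon
    exact notMem_of_lt_csInf' hj (not_lt.1 hcon)
  have hlt : ∀ l, (sq β s p l).1 < b → l < i := by
    intro l hl
    by_contra hcon
    exact absurd ((hi.trans (h.sq_mono (not_lt.1 hcon))).trans_lt hl) (lt_irrefl _)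
  rcases Ordinal.zero_or_succ_or_isSuccLimit i with h0 | ⟨j, hj⟩ | hlim
  · obtain ⟨c, ⟨-, l, hl⟩, -, hcb⟩ := hacc.2 0 hacc.1
    have := hlt l (by rw [hl]; exact hcb)
    rw [h0] at this
    exact absurd this (not_lt.2 (zero_le (a := l)))
  · have hji : j < i := by rw [← hj]; exact Order.lt_succ j
    obtain ⟨c, ⟨-, l, hl⟩, hc1, hcb⟩ := hacc.2 _ (hmin j hji)
    have h2 := hlt l (by rw [hl]; exact hcb)
    have h3 : l ≤ j := by
      rw [← hj] at h2
      exact Order.lt_succ_iff.1 h2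
    have h4 := h.sq_mono h3
    rw [hl] at h4
    exact absurd (h4.trans_lt hc1) (lt_irrefl _)
  · refine ⟨i, hlim, le_antisymm ?_ hi⟩
    by_contra hcon
    obtain ⟨j, hj, hxj⟩ := (h.sq_lim hlim fun j hj => (hmin j hj).trans hb).1 b (not_le.1 hcon)
    exact absurd (hxj.trans (hmin j hj)) (lt_irrefl _)

/-- the canonical club is closed -/
theorem CA_closed (h : ASys β s p) {b : O} (hb : b < β) (hacc : IsAcc (CA β s p) b) :
    b ∈ CA β s p := by
  obtain ⟨i, -, hi⟩ := h.CA_acc hb hacc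
  exact ⟨hb, i, hi⟩

theorem as3_step (h : ASys β s p) {j : O} (hβ : (sq β s p j).1 < β) :
    ∀ x ∈ Hull (sq β s p j).2 (Iio (sq β s p j).1 ∪ (p : Set O)), x < β →
      x < (sq β s p (j + 1)).1 := by
  intro x hx hxβ
  rw [h.sq_succ hβ]
  exact lt_kk (hull_mono (le_max_left _ _) (subset_refl _) hx) hxβ

/-- at limits, the hull is closed below `β` -/
theorem lim_closed (h : ASys β s p) {i : O} (hi : Order.IsSuccLimit i)
    (hβ : (sq β s p i).1 < β) :
    ∀ x ∈ Hull (sq β s p i).2 (Iio (sq β s p i).1 ∪ (p : Set O)), x < β → x < (sq β s p i).1 := by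
  intro x hx hxβ
  obtain ⟨j, hj, hxj⟩ := h.hull_lim hi (fun j hj => (h.sq_mono hj.le).trans_lt hβ) hx
  have h1 : j + 1 < i := hi.succ_lt hj
  exact (h.as3_step ((h.sq_mono hj.le).trans_lt hβ) x hxj hxβ).trans_le (h.sq_mono h1.le)

/-- hulls at earlier stages are bounded below the limit -/
theorem lim_bdd (h : ASys β s p) {i : O} (hi : Order.IsSuccLimit i)
    (hβ : (sq β s p i).1 < β) {j : O} (hj : j < i) :
    ∀ x ∈ Hull (sq β s p j).2 (Iio (sq β s p j).1 ∪ (p : Set O)), x < β →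
      x < (sq β s p (j + 1)).1 :=
  h.as3_step ((h.sq_mono hj.le).trans_lt hβ)

/-- at limits, the point is singularised -/
theorem lim_cof (h : ASys β s p) {i : O} (hi : Order.IsSuccLimit i)
    (hβ : (sq β s p i).1 < β) : ∃ δ < (sq β s p i).1,
      Cof (Hull (sq β s p i).2 (Iio δ ∪ (p : Set O))) (sq β s p i).1 := by
  have hjβ : ∀ j < i, (sq β s p j).1 < β := fun j hj => (h.sq_mono hj.le).trans_lt hβ
  have hji : ∀ j < i, (sq β s p j).1 < (sq β s p i).1 := fun j hj => h.sq_lt hj (hjβ j hj)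
  have hlim := h.sq_lim hi hjβ
  have hi0 : 0 < i := by
    rcases (zero_le (a := i)).lt_or_eq with h0 | h0
    · exact h0
    · exact absurd hi (by rw [← h0]; exact fun hh => hh.ne_bot rfl)
  have hpos : 0 < (sq β s p i).1 := (zero_le).trans_lt (hji 0 hi0)
  have hl : ∀ x < (sq β s p i).1, ∃ y < (sq β s p i).1, x < y := by
    intro x hx
    obtain ⟨j, hj, hxj⟩ := hlim.1 x hx
    exact ⟨_, hji j hj, hxj⟩
  have hclaim : ∃ δ < (sq β s p i).1, ∀ j < i, xi β s p (sq β s p j).1 ≤ δ := by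
    by_contra hcon
    push Not at hcon
    obtain ⟨x, hx, hx1, hx2⟩ := h.not_closed (h.mm_le_sq i) hβ
    obtain ⟨δ, hδ, hxδ⟩ := hull_cont_b hpos hl hx
    obtain ⟨j, hj, hδj⟩ := hcon δ hδ
    exact absurd ((h.xi_min hδj x hxδ hx2).trans (hji j hj)) (not_lt.2 hx1)
  obtain ⟨δ, hδ, hδ1⟩ := hclaim
  refine ⟨δ, hδ, fun b hb => ?_⟩
  obtain ⟨j, hj, hbj⟩ := hlim.1 b hb
  obtain ⟨x, hx, hx1, hx2⟩ := h.rr_spec (h.mm_le_sq j) (hjβ j hj)
  have hr : rr β s p (sq β s p j).1 ≤ (sq β s p i).2 := by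
    have h1 : j + 1 < i := hi.succ_lt hj
    have h2 := h.sq_snd_mono h1.le hβ
    rw [h.sq_succ (hjβ j hj)] at h2
    exact (le_max_right _ _).trans h2
  refine ⟨x, hull_mono hr (union_subset_union_left _ (Iio_subset_Iio (hδ1 j hj))) hx,
    hbj.le.trans hx1, ?_⟩
  refine h.lim_closed hi hβ x (hull_mono hr (union_subset_union_left _
    (Iio_subset_Iio ((hδ1 j hj).trans hδ.le))) hx) hx2

end ASys

end Pool.Agent.Helper4.WC
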