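import Pool.Agent.Helper4.WC.AS3

set_option autoImplicit false

/-!
# Comparison of the canonical club of a limit point
-/

open Set Ordinal

namespace Pool.Agent.Helper4.WC

open Pool.Agent.Helper4.KSq (IsAcc IsClubIn)

/-- the situation at a limit point: `γ = b_i`, and `j` is the inverse of the collapse of the hull
of `γ ∪ p` at the location `r_i`; `t` is the height of the collapse, `q` is the collapse of `p` -/
structure Comp (β s : O) (p : Finset O) (i γ t : O) (q : Finset O) (j : O → O) : Prop where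
  sys : ASys β s p
  sys' : ASys γ t q
  lim : Order.IsSuccLimit i
  eq : (sq β s p i).1 = γ
  lt : γ < β
  emb : CEmb t (sq β s p i).2 j
  range : ∀ c, (∃ b < t, j b = c) ↔ c ∈ Hull (sq β s p i).2 (Iio γ ∪ (p : Set O))
  id : ∀ x < γ, j x = x
  top : j γ = β
  img : q.image j = p

namespace Comp

variable {β s : O} {p : Finset O} {i γ t : O} {q : Finset O} {j : O → O}

theorem as4_lt (h : Comp β s p i γ t q j) : γ < t := h.sys'.sub γ h.sys'.mem

theorem as4_snd_lt (h : Comp β s p i γ t q j) : (sq β s p i).2 < s :=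
  h.sys.sq_snd_lt (by rw [h.eq]; exact h.lt)

theorem as4_image (h : Comp β s p i γ t q j) {δ : O} (hδ : δ ≤ γ) :
    j '' (Iio δ ∪ (q : Set O)) = Iio δ ∪ (p : Set O) := by
  rw [image_union]
  congr 1
  · ext x
    constructor
    · rintro ⟨y, hy, rfl⟩
      rw [h.id y (lt_of_lt_of_le hy hδ)]
      exact hy
    · intro hx
      exact ⟨x, hx, h.id x (lt_of_lt_of_le hx hδ)⟩
  · rw [← h.img, Finset.coe_image]

theorem as4_hull (h : Comp β s p i γ t q j) {r δ : O} (hr : r ≤ (sq β s p i).2) (hδ : δ ≤ γ)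
    {b : O} (hb : b < t) : b ∈ Hull (cut t j r) (Iio δ ∪ (q : Set O)) ↔
      j b ∈ Hull r (Iio δ ∪ (p : Set O)) := by
  have hZ : ∀ z ∈ Iio δ ∪ (q : Set O), z < t := by
    intro z hz
    rcases hz with hz | hz
    · exact (lt_of_lt_of_le hz hδ).trans h.as4_lt
    · exact h.sys'.sub z hz
  rw [← h.emb.hull_iff hr hZ hb, h.as4_image hδ]

/-- hulls below the limit point -/
theorem hull_iff (h : Comp β s p i γ t q j) {r δ : O} (hr : r ≤ (sq β s p i).2) (hδ : δ ≤ γ)
    {x : O} (hx : x < γ) : x ∈ Hull (cut t j r) (Iio δ ∪ (q : Set O)) ↔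
      x ∈ Hull r (Iio δ ∪ (p : Set O)) := by
  rw [h.as4_hull hr hδ (hx.trans h.as4_lt), h.id x hx]

/-- elements below `β` of hulls are below the limit point -/
theorem hull_lt (h : Comp β s p i γ t q j) {r δ x : O} (hr : r ≤ (sq β s p i).2) (hδ : δ ≤ γ)
    (hx : x ∈ Hull r (Iio δ ∪ (p : Set O))) (hβ : x < β) : x < γ := by
  have hb : (sq β s p i).1 < β := by rw [h.eq]; exact h.lt
  have h1 := h.sys.lim_closed h.lim hb x
  rw [h.eq] at h1
  exact h1 (hull_mono hr (union_subset_union_left _ (Iio_subset_Iio hδ)) hx) hβ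

theorem kk_eq (h : Comp β s p i γ t q j) {r δ : O} (hr : r ≤ (sq β s p i).2) (hδ : δ ≤ γ) :
    kk γ q (cut t j r) δ = kk β p r δ := by
  unfold kk
  congr 1
  ext b
  constructor
  · intro hb x hx hxβ
    have hxγ := h.hull_lt hr hδ hx hxβ
    exact hb x ((h.hull_iff hr hδ hxγ).2 hx) hxγ
  · intro hb x hx hxγ
    exact hb x ((h.hull_iff hr hδ hxγ).1 hx) (hxγ.trans h.lt)

theorem as4_lt_r0 {p : Finset O} {b : O} : b < r0 p ↔ ∃ y ∈ p, b ≤ y := by
  constructor
  · intro hb
    by_contra hcon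
    push Not at hcon
    exact absurd (r0_le hcon) (not_le.2 hb)
  · rintro ⟨y, hy, hby⟩
    exact hby.trans_lt (lt_r0 hy)

theorem r0_eq (h : Comp β s p i γ t q j) : r0 q = cut t j (r0 p) := by
  have h1 : r0 q ≤ t := r0_le h.sys'.sub
  have h2 : cut t j (r0 p) ≤ t := h.emb.cut_le _
  have key : ∀ b < t, (b < r0 q ↔ b < cut t j (r0 p)) := by
    intro b hb
    rw [h.emb.lt_cut hb, as4_lt_r0, as4_lt_r0]
    constructor
    · rintro ⟨y, hy, hby⟩
      refine ⟨j y, ?_, (h.emb.toMEmb.le_iff hb (h.sys'.sub y hy)).2 hby⟩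
      rw [← h.img]
      exact Finset.mem_image_of_mem j hy
    · rintro ⟨y', hy', hby⟩
      rw [← h.img] at hy'
      obtain ⟨y, hy, rfl⟩ := Finset.mem_image.1 hy'
      exact ⟨y, hy, (h.emb.toMEmb.le_iff hb (h.sys'.sub y hy)).1 hby⟩
  apply le_antisymm
  · refine le_of_forall_lt fun b hb => ?_
    exact (key b (hb.trans_le h1)).1 hb
  · refine le_of_forall_lt fun b hb => ?_
    exact (key b (hb.trans_le h2)).2 hb

/-- closed ordinals below the limit point -/
theorem as4_closed (h : Comp β s p i γ t q j) {c : O} (hc : c < γ) :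
    (∀ x ∈ Hull t (Iio c ∪ (q : Set O)), x < γ → x < c) ↔
      ∀ x ∈ Hull (sq β s p i).2 (Iio c ∪ (p : Set O)), x < β → x < c := by
  have hiff : ∀ x < γ, (x ∈ Hull t (Iio c ∪ (q : Set O)) ↔
      x ∈ Hull (sq β s p i).2 (Iio c ∪ (p : Set O))) := by
    intro x hx
    have h1 := h.hull_iff (r := (sq β s p i).2) le_rfl hc.le hx
    rwa [h.emb.cut_top] at h1
  constructor
  · intro hx x hxH hxβ
    have hxγ := h.hull_lt le_rfl hc.le hxH hxβ
    exact hx x ((hiff x hxγ).2 hxH) hxγ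
  · intro hx x hxH hxγ
    exact hx x ((hiff x hxγ).1 hxH) (hxγ.trans h.lt)

/-- the stage of an ordinal between `mm` and the limit point -/
theorem as4_stage (h : Comp β s p i γ t q j) {c : O} (hc : c < γ) (hm : mm β s p ≤ c) :
    ∃ l, l + 1 ≤ i ∧ (sq β s p l).1 ≤ c ∧ c < (sq β s p (l + 1)).1 := by
  have hbi : (sq β s p i).1 < β := by rw [h.eq]; exact h.lt
  have hb : ∀ l < i, (sq β s p l).1 < β := fun l hl => (h.sys.sq_mono hl.le).trans_lt hbi
  obtain ⟨l0, hl0, hcl0⟩ := (h.sys.sq_lim h.lim hb).1 c (by rw [h.eq]; exact hc)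
  obtain ⟨m, hmS, hmmin⟩ : ∃ m, c < (sq β s p m).1 ∧ ∀ l < m, (sq β s p l).1 ≤ c := by
    have hne : {l | c < (sq β s p l).1}.Nonempty := ⟨l0, hcl0⟩
    refine ⟨sInf {l | c < (sq β s p l).1}, csInf_mem hne, fun l hl => ?_⟩
    have := notMem_of_lt_csInf' hl
    simpa using this
  have hmi : m < i := by
    by_contra hcon
    push Not at hcon
    exact absurd (hmmin l0 (hl0.trans_le hcon)) (not_le.2 hcl0)
  rcases Ordinal.zero_or_succ_or_isSuccLimit m with h0 | ⟨l, hl⟩ | hlim
  · exfalso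
    rw [h0, h.sys.sq_zero] at hmS
    exact absurd hm (not_le.2 hmS)
  · have hl' : m = l + 1 := by rw [← hl]; rfl
    refine ⟨l, ?_, ?_, ?_⟩
    · rw [← hl']
      exact hmi.le
    · apply hmmin l
      rw [hl']
      exact Order.lt_succ l
    · rw [← hl']
      exact hmS
  · exfalso
    obtain ⟨l, hl, hcl⟩ := (h.sys.sq_lim hlim fun l hl => hb l (hl.trans hmi)).1 c hmS
    exact absurd (hmmin l hl) (not_le.2 hcl)

/-- an element of the hull above `c` -/
theorem as4_not_closed (h : Comp β s p i γ t q j) {c : O} (hc : c < γ) (hm : mm β s p ≤ c) :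
    ∃ x ∈ Hull (sq β s p i).2 (Iio c ∪ (p : Set O)), c ≤ x ∧ x < β := by
  have hbi : (sq β s p i).1 < β := by rw [h.eq]; exact h.lt
  obtain ⟨l, hl, hlc, hcl⟩ := h.as4_stage hc hm
  have hli : l < i := (Order.lt_succ l).trans_le hl
  have hbl : (sq β s p l).1 < β := (h.sys.sq_mono hli.le).trans_lt hbi
  have hs := h.sys.sq_succ hbl
  have h1 : (sq β s p (l + 1)).1 = kk β p (sq β s p (l + 1)).2 (sq β s p l).1 := by
    rw [hs]
    rfl
  rw [h1] at hcl
  obtain ⟨x, hx, hcx, hxβ⟩ := exists_of_lt_kk hcl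
  refine ⟨x, ?_, hcx, hxβ⟩
  exact hull_mono (h.sys.sq_snd_mono hl hbi)
    (union_subset_union_left _ (Iio_subset_Iio hlc)) hx

theorem mm_eq (h : Comp β s p i γ t q j) : mm γ t q = mm β s p := by
  have hbi : (sq β s p i).1 < β := by rw [h.eq]; exact h.lt
  have hmγ : mm β s p ≤ γ := by
    have := h.sys.mm_le_sq i
    rwa [h.eq] at this
  apply le_antisymm
  · apply csInf_le'
    intro c hc hcl
    by_contra hcon
    push Not at hcon
    obtain ⟨x, hx, hcx, hxβ⟩ := h.as4_not_closed hc hcon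
    exact absurd ((h.as4_closed hc).1 hcl x hx hxβ) (not_lt.2 hcx)
  · rcases h.sys.mm_cases with h0 | ⟨c0, hc0, hc0β, hcl⟩
    · rw [h0]
      exact zero_le
    · have hlt : c0 < mm β s p := by
        rw [hc0]
        exact Order.lt_succ c0
      have hc0γ : c0 < γ := hlt.trans_le hmγ
      have hne : {b | ∀ c < γ, (∀ x ∈ Hull t (Iio c ∪ (q : Set O)), x < γ → x < c) →
          c < b}.Nonempty := ⟨γ, fun c hc _ => hc⟩
      have hmem := csInf_mem hne
      have h1 : c0 < mm γ t q := by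
        refine hmem c0 hc0γ ((h.as4_closed hc0γ).2 ?_)
        intro x hx hxβ
        exact hcl x (hull_mono h.as4_snd_lt.le subset_rfl hx) hxβ
      rw [hc0]
      exact Order.succ_le_of_lt h1

end Comp

end Pool.Agent.Helper4.WC
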