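import Pool.Agent.Helper4.WC.AS4

set_option autoImplicit false

open Set Ordinal

namespace Pool.Agent.Helper4.WC

open Pool.Agent.Helper4.KSq (IsAcc IsClubIn)

theorem as5_cut_mono {s s' : O} {j : O → O} (h : CEmb s s' j) {r r' : O} (hr : r ≤ r') :
    cut s j r ≤ cut s j r' := by
  refine le_of_forall_lt fun b hb => ?_
  have hbs : b < s := hb.trans_le (h.cut_le r)
  exact (h.lt_cut hbs).2 (((h.lt_cut hbs).1 hb).trans_le hr)

theorem as5_cut_max {s s' : O} {j : O → O} (h : CEmb s s' j) (r r' : O) :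
    cut s j (max r r') = max (cut s j r) (cut s j r') := by
  rcases le_total r r' with h1 | h1
  · rw [max_eq_right h1, max_eq_right (as5_cut_mono h h1)]
  · rw [max_eq_left h1, max_eq_left (as5_cut_mono h h1)]

theorem as5_snd_mono (β s : O) (p : Finset O) {m l : O} (hm : m < l) :
    (sq β s p m).2 ≤ (sq β s p l).2 := by
  have h1 : (sq β s p m).2 ≤ (stp β s p (sq β s p m)).2 := le_max_left _ _
  have h2 : (stp β s p (sq β s p m)).2 ≤ ⨆ j : Iio l, (stp β s p (sq β s p j)).2 :=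
    Ordinal.le_iSup (fun j : Iio l => (stp β s p (sq β s p j)).2) ⟨m, hm⟩
  have h3 : (⨆ j : Iio l, (stp β s p (sq β s p j)).2) ≤ (sq β s p l).2 := by
    rw [sq_eq β s p l]
    exact le_max_right _ _
  exact (h1.trans h2).trans h3

namespace Comp

variable {β s : O} {p : Finset O} {i γ t : O} {q : Finset O} {j : O → O}

theorem as5_lt_beta (h : Comp β s p i γ t q j) {l : O} (hl : l < i) : (sq β s p l).1 < β := by
  refine (h.sys.sq_mono hl.le).trans_lt ?_
  rw [h.eq]
  exact h.lt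

theorem as5_lt_gam (h : Comp β s p i γ t q j) {l : O} (hl : l < i) : (sq β s p l).1 < γ := by
  have := h.sys.sq_lt hl (h.as5_lt_beta hl)
  rwa [h.eq] at this

theorem as5_eq_lt (h : Comp β s p i γ t q j) : (sq β s p i).1 < β := by
  rw [h.eq]
  exact h.lt

theorem as5_max_le (h : Comp β s p i γ t q j) {l : O} (hl : l < i) :
    max (sq β s p l).2 (rr β s p (sq β s p l).1) ≤ (sq β s p i).2 := by
  have h1 : l + 1 < i := by
    have := h.lim.succ_lt hl
    rwa [Order.succ_eq_add_one] at this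
  have h2 := h.sys.sq_snd_mono h1.le h.as5_eq_lt
  rw [h.sys.sq_succ (h.as5_lt_beta hl)] at h2
  exact h2

theorem as5_rr_le (h : Comp β s p i γ t q j) {l : O} (hl : l < i) :
    rr β s p (sq β s p l).1 ≤ (sq β s p i).2 :=
  (le_max_right _ _).trans (h.as5_max_le hl)

theorem as5_xi_le (h : Comp β s p i γ t q j) {l : O} (hl : l < i) :
    xi β s p (sq β s p l).1 ≤ γ :=
  (h.sys.xi_le (h.sys.mm_le_sq l) (h.as5_lt_beta hl)).trans (h.as5_lt_gam hl).le

theorem as5_R_lt (h : Comp β s p i γ t q j) : (sq β s p i).2 < s :=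
  h.sys.sq_snd_lt h.as5_eq_lt

theorem xi_eq (h : Comp β s p i γ t q j) {l : O} (hl : l < i) :
    xi γ t q (sq β s p l).1 = xi β s p (sq β s p l).1 := by
  have hb := h.as5_lt_beta hl
  have hm := h.sys.mm_le_sq l
  obtain ⟨x, hx, hbx, hxβ⟩ := h.sys.rr_spec hm hb
  have hx1 : x ∈ Hull (sq β s p i).2 (Iio (xi β s p (sq β s p l).1) ∪ (p : Set O)) :=
    hull_mono (h.as5_rr_le hl) subset_rfl hx
  have hxγ : x < γ := h.hull_lt le_rfl (h.as5_xi_le hl) hx1 hxβ
  have hx2 := (h.hull_iff le_rfl (h.as5_xi_le hl) hxγ).2 hx1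
  rw [h.emb.cut_top] at hx2
  have hmem : xi β s p (sq β s p l).1 ∈
      {ξ | ∃ x ∈ Hull t (Iio ξ ∪ (q : Set O)), (sq β s p l).1 ≤ x ∧ x < γ} :=
    ⟨x, hx2, hbx, hxγ⟩
  refine le_antisymm (csInf_le' hmem) (le_csInf ⟨_, hmem⟩ ?_)
  rintro ξ ⟨y, hy, hby, hyγ⟩
  by_contra hcon
  rw [not_le] at hcon
  have hξγ : ξ ≤ γ := hcon.le.trans (h.as5_xi_le hl)
  have hy2 : y ∈ Hull (cut t j (sq β s p i).2) (Iio ξ ∪ (q : Set O)) := by
    rw [h.emb.cut_top]
    exact hy
  have hy3 := (h.hull_iff le_rfl hξγ hyγ).1 hy2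
  have hy4 : y ∈ Hull s (Iio ξ ∪ (p : Set O)) := hull_mono h.as5_R_lt.le subset_rfl hy3
  exact absurd (h.sys.xi_min hcon y hy4 (hyγ.trans h.lt)) (not_lt.2 hby)

theorem rr_eq (h : Comp β s p i γ t q j) {l : O} (hl : l < i) :
    rr γ t q (sq β s p l).1 = cut t j (rr β s p (sq β s p l).1) := by
  have hb := h.as5_lt_beta hl
  have hm := h.sys.mm_le_sq l
  obtain ⟨x, hx, hbx, hxβ⟩ := h.sys.rr_spec hm hb
  have hxγ : x < γ := h.hull_lt (h.as5_rr_le hl) (h.as5_xi_le hl) hx hxβ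
  have hx2 := (h.hull_iff (h.as5_rr_le hl) (h.as5_xi_le hl) hxγ).2 hx
  unfold rr
  rw [h.xi_eq hl]
  have hmem : cut t j (rr β s p (sq β s p l).1) ∈ {r | r0 q ≤ r ∧
      ∃ x ∈ Hull r (Iio (xi β s p (sq β s p l).1) ∪ (q : Set O)),
        (sq β s p l).1 ≤ x ∧ x < γ} := by
    refine ⟨?_, x, hx2, hbx, hxγ⟩
    rw [h.r0_eq]
    exact as5_cut_mono h.emb (h.sys.r0_le_rr hm hb)
  refine le_antisymm (csInf_le' hmem) (le_csInf ⟨_, hmem⟩ ?_)
  rintro r' ⟨hr0, y, hy, hby, hyγ⟩
  rcases lt_or_ge r' t with hrt | hrt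
  · have hjr : j r' ≤ (sq β s p i).2 := (h.emb.lt r' hrt).le
    have hcut : cut t j (j r') = r' := h.emb.cut_map hrt
    have hy2 : y ∈ Hull (cut t j (j r')) (Iio (xi β s p (sq β s p l).1) ∪ (q : Set O)) := by
      rw [hcut]
      exact hy
    have hy3 := (h.hull_iff hjr (h.as5_xi_le hl) hyγ).1 hy2
    have hr0' : r0 p ≤ j r' := by
      refine r0_le fun x hx => ?_
      rw [← h.img, Finset.mem_image] at hx
      obtain ⟨z, hz, rfl⟩ := hx
      exact h.emb.mono r' hrt z ((lt_r0 hz).trans_le hr0)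
    have h5 := h.sys.rr_min hr0' ⟨y, hy3, hby, hyγ.trans h.lt⟩
    have h6 := as5_cut_mono h.emb h5
    rw [hcut] at h6
    exact h6
  · exact (h.emb.cut_le _).trans hrt

/-- the sequences agree -/
theorem sq_eq (h : Comp β s p i γ t q j) {l : O} (hl : l ≤ i) :
    (sq γ t q l).1 = (sq β s p l).1 ∧ (sq γ t q l).2 = cut t j (sq β s p l).2 := by
  induction l using WellFoundedLT.induction with
  | ind l ih =>
    rcases Ordinal.zero_or_succ_or_isSuccLimit l with h0 | ⟨m, hm⟩ | hlim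
    · subst h0
      rw [h.sys'.sq_zero, h.sys.sq_zero]
      exact ⟨h.mm_eq, h.r0_eq⟩
    · rw [Order.succ_eq_add_one] at hm
      subst hm
      have hml : m < m + 1 := by
        rw [← Order.succ_eq_add_one]
        exact Order.lt_succ m
      have hmi : m < i := hml.trans_le hl
      obtain ⟨h1, h2⟩ := ih m hml hmi.le
      have hβ := h.as5_lt_beta hmi
      have hγ : (sq γ t q m).1 < γ := by
        rw [h1]
        exact h.as5_lt_gam hmi
      have hmax : max (sq γ t q m).2 (rr γ t q (sq γ t q m).1) =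
          cut t j (max (sq β s p m).2 (rr β s p (sq β s p m).1)) := by
        rw [h1, h2, h.rr_eq hmi, as5_cut_max h.emb]
      rw [h.sys'.sq_succ hγ, h.sys.sq_succ hβ]
      unfold stp
      simp only
      rw [hmax]
      refine ⟨?_, rfl⟩
      rw [h1]
      exact h.kk_eq (h.as5_max_le hmi) (h.as5_lt_gam hmi).le
    · have hβ : ∀ m < l, (sq β s p m).1 < β := fun m hm => h.as5_lt_beta (hm.trans_le hl)
      have hI : ∀ m < l, (sq γ t q m).1 = (sq β s p m).1 ∧
          (sq γ t q m).2 = cut t j (sq β s p m).2 := fun m hm => ih m hm (hm.le.trans hl)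
      have hγ : ∀ m < l, (sq γ t q m).1 < γ := fun m hm => by
        rw [(hI m hm).1]
        exact h.as5_lt_gam (hm.trans_le hl)
      obtain ⟨a1, a2⟩ := h.sys.sq_lim hlim hβ
      obtain ⟨b1, b2⟩ := h.sys'.sq_lim hlim hγ
      constructor
      · refine le_antisymm (le_of_forall_lt fun x hx => ?_) (le_of_forall_lt fun x hx => ?_)
        · obtain ⟨m, hm, hx'⟩ := b1 x hx
          rw [(hI m hm).1] at hx'
          exact hx'.trans_le (h.sys.sq_mono hm.le)
        · obtain ⟨m, hm, hx'⟩ := a1 x hx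
          rw [← (hI m hm).1] at hx'
          exact hx'.trans_le (h.sys'.sq_mono hm.le)
      · refine le_antisymm (le_of_forall_lt fun x hx => ?_) (le_of_forall_lt fun x hx => ?_)
        · obtain ⟨m, hm, hx'⟩ := b2 x hx
          rw [(hI m hm).2] at hx'
          exact hx'.trans_le (as5_cut_mono h.emb (as5_snd_mono β s p hm))
        · have hxt : x < t := hx.trans_le (h.emb.cut_le _)
          obtain ⟨m, hm, hx'⟩ := a2 _ ((h.emb.lt_cut hxt).1 hx)
          have h3 := (h.emb.lt_cut hxt).2 hx'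
          rw [← (hI m hm).2] at h3
          exact h3.trans_le (as5_snd_mono γ t q hm)

/-- coherence -/
theorem CA_eq (h : Comp β s p i γ t q j) : CA γ t q = CA β s p ∩ Iio γ := by
  ext b
  constructor
  · rintro ⟨hb, l, hl⟩
    rcases le_or_gt l i with hli | hli
    · refine ⟨⟨hb.trans h.lt, l, ?_⟩, hb⟩
      rw [← (h.sq_eq hli).1]
      exact hl
    · have h1 := h.sys'.sq_mono hli.le
      rw [hl, (h.sq_eq le_rfl).1, h.eq] at h1
      exact absurd hb (not_lt.2 h1)
  · rintro ⟨⟨hb, l, hl⟩, hbγ⟩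
    have hbγ' : b < γ := hbγ
    rcases le_or_gt l i with hli | hli
    · refine ⟨hbγ', l, ?_⟩
      rw [(h.sq_eq hli).1]
      exact hl
    · have h1 := h.sys.sq_mono hli.le
      rw [hl, h.eq] at h1
      exact absurd hbγ' (not_lt.2 h1)

end Comp

end Pool.Agent.Helper4.WC
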