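import Pool.Agent.Helper4.WC.VAL

set_option autoImplicit false

/-!
# Equality of named sets is definable
-/

open Set Ordinal

namespace Pool.Agent.Helper4.WC

/-- `c` codes a relation which is correct below `θ` -/
def Corr (c θ : O) : Prop := ∀ x < θ, ∀ y < θ, (E (P x y) c ↔
  (∀ x', E x' x → ∃ y', E y' y ∧ E (P x' y') c) ∧ (∀ y', E y' y → ∃ x', E x' x ∧ E (P x' y') c))

theorem bis_memP (i j k : ℕ) : DefU (fun v => E (P (v i) (v j)) (v k)) :=
  ((DefU.dfu_mem 0 (k + 1)).subP i j).congr fun _ => Iff.rfl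

theorem defU_corr : DefU (fun v => Corr (v 0) (v 1)) := by
  have h1 := ((bis_memP 1 0 4).exE 1).allE 1
  have h2 := ((bis_memP 0 1 4).exE 2).allE 0
  have h3 := (((bis_memP 1 0 2).iff (h1.and h2)).ball 2).ball 1
  exact h3.congr fun _ => Iff.rfl

/-- equality of values in terms of the elements -/
theorem bis_val_eq (x y : O) : val x = val y ↔
    (∀ x', E x' x → ∃ y', E y' y ∧ val x' = val y') ∧
      (∀ y', E y' y → ∃ x', E x' x ∧ val x' = val y') := by
  constructor
  · intro h
    constructor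
    · intro x' hx'
      have h1 : val x' ∈ val y := by
        rw [← h]
        exact mem_val.2 ⟨x', hx', rfl⟩
      obtain ⟨y', hy', h2⟩ := mem_val.1 h1
      exact ⟨y', hy', h2.symm⟩
    · intro y' hy'
      have h1 : val y' ∈ val x := by
        rw [h]
        exact mem_val.2 ⟨y', hy', rfl⟩
      obtain ⟨x', hx', h2⟩ := mem_val.1 h1
      exact ⟨x', hx', h2⟩
  · rintro ⟨h1, h2⟩
    refine ZFSet.ext fun z => ⟨fun hz => ?_, fun hz => ?_⟩
    · obtain ⟨x', hx', rfl⟩ := mem_val.1 hz
      obtain ⟨y', hy', h3⟩ := h1 x' hx'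
      rw [h3]
      exact mem_val.2 ⟨y', hy', rfl⟩
    · obtain ⟨y', hy', rfl⟩ := mem_val.1 hz
      obtain ⟨x', hx', h3⟩ := h2 y' hy'
      rw [← h3]
      exact mem_val.2 ⟨x', hx', rfl⟩

theorem Corr.iff {c θ : O} (h : Corr c θ) : ∀ x < θ, ∀ y < θ, (E (P x y) c ↔ val x = val y) := by
  intro x
  induction x using WellFoundedLT.induction with
  | _ x ih =>
    intro hx y hy
    rw [h x hx y hy, bis_val_eq x y]
    refine and_congr ?_ ?_
    · refine forall_congr' fun x' => forall_congr' fun hx' => exists_congr fun y' =>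
        and_congr_right fun hy' => ?_
      exact ih x' (E_lt hx') ((E_lt hx').trans hx) y' ((E_lt hy').trans hy)
    · refine forall_congr' fun y' => forall_congr' fun hy' => exists_congr fun x' =>
        and_congr_right fun hx' => ?_
      exact ih x' (E_lt hx') ((E_lt hx').trans hx) y' ((E_lt hy').trans hy)

end Pool.Agent.Helper4.WC
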