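import Pool.Agent.Helper4.WC.BIS

set_option autoImplicit false

open Set Ordinal

namespace Pool.Agent.Helper4.WC

/-- `x` and `y` are related by a correct relation -/
def Bis2Phi (x y : O) : Prop :=
  ∃ c, ∃ θ, (x < θ ∧ y < θ) ∧ (Corr c θ ∧ E (P x y) c)

theorem bis2_defU_phi (i j : ℕ) : DefU (fun v => Bis2Phi (v i) (v j)) := by
  have h1 := (DefU.dfu_lt (i + 2) 0).and (DefU.dfu_lt (j + 2) 0)
  have h2 : DefU (fun v => Corr (v 1) (v 0)) :=
    (defU_corr.ren (fun n => 1 - n)).congr fun _ => Iff.rfl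
  have h3 := h1.and (h2.and (bis_memP (i + 2) (j + 2) 1))
  exact h3.ex.ex.congr fun _ => Iff.rfl

theorem bis2_phi_iff {θ : O} (hθ : ∃ c, Corr c θ) {x y : O} (hx : x < θ) (hy : y < θ) :
    Bis2Phi x y ↔ val x = val y := by
  constructor
  · rintro ⟨c, θ', ⟨h1, h2⟩, h3, h4⟩
    exact (h3.iff x h1 y h2).1 h4
  · intro h
    obtain ⟨c, hc⟩ := hθ
    exact ⟨c, θ, ⟨hx, hy⟩, hc, (hc.iff x hx y hy).2 h⟩

theorem exists_corr (θ : O) : ∃ c, Corr c θ := by
  induction θ using WellFoundedLT.induction with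
  | _ θ ih =>
    -- the values of elements are compared by `Bis2Phi`
    have key : ∀ x < θ, ∀ y < θ, ∀ x', E x' x → ∀ y', E y' y → (Bis2Phi x' y' ↔ val x' = val y') := by
      intro x hx y hy x' hx' y' hy'
      have h1 : max x y < θ := max_lt hx hy
      exact bis2_phi_iff (ih _ h1) ((E_lt hx').trans_le (le_max_left _ _))
        ((E_lt hy').trans_le (le_max_right _ _))
    have hQ : DefU (fun v => ∃ x < v 1, ∃ y < v 1, v 0 = P x y ∧
        ((∀ x', E x' x → ∃ y', E y' y ∧ Bis2Phi x' y') ∧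
          (∀ y', E y' y → ∃ x', E x' x ∧ Bis2Phi x' y'))) := by
      have h1 := ((bis2_defU_phi 1 0).exE 1).allE 1
      have h2 := ((bis2_defU_phi 0 1).exE 2).allE 0
      have h3 : DefU (fun v => v 2 = P (v 1) (v 0)) := ⟨.pr 2 1 0, fun _ => Iff.rfl⟩
      have h4 := ((h3.and (h1.and h2)).bex 2).bex 1
      exact h4.congr fun _ => Iff.rfl
    obtain ⟨c, hc⟩ := comprehension hQ (fun _ => θ) (nx θ)
    have hE : ∀ x < θ, ∀ y < θ, (E (P x y) c ↔ val x = val y) := by
      intro x hx y hy
      rw [← mem_Es, hc]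
      have h5 : P x y < nx θ :=
        (cls_nx θ).P_lt (hx.trans (lt_nx θ)) (hy.trans (lt_nx θ))
      rw [bis_val_eq x y]
      constructor
      · rintro ⟨-, x1, hx1, y1, hy1, h6, h7, h8⟩
        have h6' : P x y = P x1 y1 := h6
        obtain ⟨rfl, rfl⟩ := P_inj h6'
        constructor
        · intro x' hx'
          obtain ⟨y', hy', h9⟩ := h7 x' hx'
          exact ⟨y', hy', (key x hx y hy x' hx' y' hy').1 h9⟩
        · intro y' hy'
          obtain ⟨x', hx', h9⟩ := h8 y' hy'
          exact ⟨x', hx', (key x hx y hy x' hx' y' hy').1 h9⟩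
      · rintro ⟨h7, h8⟩
        refine ⟨h5, x, hx, y, hy, rfl, ?_, ?_⟩
        · intro x' hx'
          obtain ⟨y', hy', h9⟩ := h7 x' hx'
          exact ⟨y', hy', (key x hx y hy x' hx' y' hy').2 h9⟩
        · intro y' hy'
          obtain ⟨x', hx', h9⟩ := h8 y' hy'
          exact ⟨x', hx', (key x hx y hy x' hx' y' hy').2 h9⟩
    refine ⟨c, fun x hx y hy => ?_⟩
    rw [hE x hx y hy, bis_val_eq x y]
    refine and_congr ?_ ?_
    · refine forall_congr' fun x' => forall_congr' fun hx' => exists_congr fun y' =>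
        and_congr_right fun hy' => ?_
      exact (hE x' ((E_lt hx').trans hx) y' ((E_lt hy').trans hy)).symm
    · refine forall_congr' fun y' => forall_congr' fun hy' => exists_congr fun x' =>
        and_congr_right fun hx' => ?_
      exact (hE x' ((E_lt hx').trans hx) y' ((E_lt hy').trans hy)).symm

theorem defU_eq (i j : ℕ) : DefU (fun v => val (v i) = val (v j)) := by
  refine (bis2_defU_phi i j).congr fun v => ?_
  exact bis2_phi_iff (exists_corr (max (v i) (v j) + 1))
    (Order.lt_add_one_iff.2 (le_max_left _ _)) (Order.lt_add_one_iff.2 (le_max_right _ _))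

theorem defU_mem (i j : ℕ) : DefU (fun v => val (v i) ∈ val (v j)) := by
  refine ((defU_eq 0 (i + 1)).exE j).congr fun v => ?_
  exact (mem_val (c := v j) (y := val (v i))).symm

end Pool.Agent.Helper4.WC
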