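import Pool.Agent.Helper4.WC.Hull
import Pool.Agent.Helper4.KSq.KDefs

set_option autoImplicit false

/-!
# Small sets of ordinals and closed unbounded sets
-/

open Set Ordinal Cardinal

namespace Pool.Agent.Helper4.WC

open Pool.Agent.Helper4.KSq (IsAcc IsClubIn)

/-- `X` has fewer than `κ` elements -/
def SmK (κ : Cardinal.{0}) (X : Set O) : Prop :=
  ∃ (ι : Type) (f : ι → O), #ι < κ ∧ X ⊆ Set.range f

variable {κ : Cardinal.{0}}

theorem SmK.mono {X Y : Set O} (h : SmK κ Y) (hX : X ⊆ Y) : SmK κ X := by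
  obtain ⟨ι, f, h1, h2⟩ := h
  exact ⟨ι, f, h1, hX.trans h2⟩

theorem SmK.image {X : Set O} (h : SmK κ X) (g : O → O) : SmK κ (g '' X) := by
  obtain ⟨ι, f, h1, h2⟩ := h
  refine ⟨ι, fun i => g (f i), h1, ?_⟩
  rintro _ ⟨x, hx, rfl⟩
  obtain ⟨i, rfl⟩ := h2 hx
  exact ⟨i, rfl⟩

theorem smK_Iio {β : O} (h : β < κ.ord) : SmK κ (Iio β) := by
  refine ⟨β.ToType, fun i => (Ordinal.ToType.mk.symm i).1, ?_, fun x hx => ?_⟩
  · rw [Cardinal.mk_toType]
    exact Cardinal.lt_ord.1 h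
  · exact ⟨Ordinal.ToType.mk ⟨x, hx⟩, by simp⟩

theorem smK_finset (hκ : κ.IsRegular) (q : Finset O) : SmK κ (q : Set O) := by
  refine ⟨Fin q.card, fun i => (q.equivFin.symm i).1, ?_, fun x hx => ?_⟩
  · rw [Cardinal.mk_fin]
    exact (Cardinal.natCast_lt_aleph0 (n := q.card)).trans_le hκ.aleph0_le
  · exact ⟨q.equivFin ⟨x, hx⟩, by simp⟩

theorem SmK.union (hκ : κ.IsRegular) {X Y : Set O} (hX : SmK κ X) (hY : SmK κ Y) :
    SmK κ (X ∪ Y) := by
  obtain ⟨ι, f, h1, h2⟩ := hX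
  obtain ⟨ι', f', h1', h2'⟩ := hY
  refine ⟨ι ⊕ ι', Sum.elim f f', ?_, ?_⟩
  · rw [Cardinal.mk_sum, Cardinal.lift_id, Cardinal.lift_id]
    exact Cardinal.add_lt_of_lt hκ.aleph0_le h1 h1'
  · rintro x (hx | hx)
    · obtain ⟨i, rfl⟩ := h2 hx
      exact ⟨Sum.inl i, rfl⟩
    · obtain ⟨i, rfl⟩ := h2' hx
      exact ⟨Sum.inr i, rfl⟩

/-- unions of small sets over a small index type -/
theorem cl_sigma (hκ : κ.IsRegular) {ι : Type} (hι : #ι < κ) {Y : ι → Set O}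
    (hY : ∀ i, SmK κ (Y i)) : SmK κ (⋃ i, Y i) := by
  choose J f h1 h2 using hY
  refine ⟨Σ i, J i, fun p => f p.1 p.2, ?_, ?_⟩
  · rw [Cardinal.mk_sigma]
    exact Cardinal.sum_lt_of_isRegular hκ hι h1
  · intro x hx
    obtain ⟨i, hi⟩ := mem_iUnion.1 hx
    obtain ⟨j, rfl⟩ := h2 i hi
    exact ⟨⟨i, j⟩, rfl⟩

theorem cl_empty (hκ : κ.IsRegular) : SmK κ (∅ : Set O) :=
  (smK_finset hκ ∅).mono (empty_subset _)

/-- unions of fewer than `κ` small sets are small -/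
theorem SmK.biUnion (hκ : κ.IsRegular) {X : Set O} (hX : SmK κ X) {Y : O → Set O}
    (hY : ∀ x ∈ X, SmK κ (Y x)) : SmK κ (⋃ x ∈ X, Y x) := by
  classical
  obtain ⟨ι, f, h1, h2⟩ := hX
  have h3 : SmK κ (⋃ i : ι, if f i ∈ X then Y (f i) else ∅) := by
    refine cl_sigma hκ h1 fun i => ?_
    by_cases h : f i ∈ X
    · rw [if_pos h]
      exact hY _ h
    · rw [if_neg h]
      exact cl_empty hκ
  refine h3.mono ?_
  intro y hy
  simp only [mem_iUnion] at hy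
  obtain ⟨x, hx, hyx⟩ := hy
  obtain ⟨i, rfl⟩ := h2 hx
  refine mem_iUnion.2 ⟨i, ?_⟩
  rw [if_pos hx]
  exact hyx

/-- countable unions of small sets are small -/
theorem SmK.iUnion_nat (hκ : κ.IsRegular) (hu : ℵ₀ < κ) {Y : ℕ → Set O}
    (hY : ∀ n, SmK κ (Y n)) : SmK κ (⋃ n, Y n) :=
  cl_sigma hκ (by rw [Cardinal.mk_nat]; exact hu) hY

/-- finite subsets of a small set -/
theorem SmK.finsets (hκ : κ.IsRegular) (hu : ℵ₀ < κ) {X : Set O} (hX : SmK κ X)
    (g : Finset O → O) : SmK κ {y | ∃ q : Finset O, (q : Set O) ⊆ X ∧ g q = y} := by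
  classical
  obtain ⟨ι, f, h1, h2⟩ := hX
  refine ⟨Finset ι, fun s => g (s.image f), ?_, ?_⟩
  · rcases finite_or_infinite ι with h | h
    · have : Finite (Finset ι) := inferInstance
      exact (Cardinal.mk_lt_aleph0 (α := Finset ι)).trans hu
    · rw [Cardinal.mk_finset_of_infinite]
      exact h1
  · rintro y ⟨q, hq, rfl⟩
    have hex : ∀ x ∈ q, ∃ i, f i = x := fun x hx => h2 (hq hx)
    choose u hu' using hex
    refine ⟨q.attach.image fun x => u x.1 x.2, ?_⟩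
    have h3 : (q.attach.image fun x => u x.1 x.2).image f = q := by
      ext x
      rw [Finset.mem_image]
      constructor
      · rintro ⟨z, hz, rfl⟩
        obtain ⟨y, _, rfl⟩ := Finset.mem_image.1 hz
        rw [hu' y.1 y.2]
        exact y.2
      · intro hx
        exact ⟨u x hx, Finset.mem_image.2 ⟨⟨x, hx⟩, Finset.mem_attach _ _, rfl⟩, hu' x hx⟩
    exact congrArg g h3

/-- small subsets of `κ` are bounded -/
theorem SmK.bdd (hκ : κ.IsRegular) {X : Set O} (hX : SmK κ X) (hK : ∀ x ∈ X, x < κ.ord) :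
    ∃ b < κ.ord, ∀ x ∈ X, x < b := by
  classical
  obtain ⟨ι, f, h1, h2⟩ := hX
  have hlim := Cardinal.isSuccLimit_ord hκ.aleph0_le
  have h0 : (0 : O) < κ.ord := hlim.bot_lt
  let g : ι → O := fun i => if f i ∈ X then f i + 1 else 0
  have hg : ∀ i, g i < κ.ord := by
    intro i
    by_cases h : f i ∈ X
    · have : g i = f i + 1 := if_pos h
      rw [this]
      exact hlim.add_one_lt (hK _ h)
    · have : g i = 0 := if_neg h
      rw [this]
      exact h0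
  refine ⟨⨆ i, g i, Ordinal.iSup_lt_of_lt_cof (by rwa [hκ.cof_ord]) hg, fun x hx => ?_⟩
  obtain ⟨i, rfl⟩ := h2 hx
  have h3 : g i = f i + 1 := if_pos hx
  have h4 : g i ≤ ⨆ i, g i := Ordinal.le_iSup g i
  rw [h3] at h4
  exact lt_of_lt_of_le (lt_add_one _) h4

/-- an ordinal whose initial segment is small is below `κ` -/
theorem lt_ord_of_smK {β : O} (h : SmK κ (Iio β)) : β < κ.ord := by
  obtain ⟨ι, f, h1, h2⟩ := h
  rw [Cardinal.lt_ord]
  have h3 : Cardinal.lift.{1} β.card ≤ Cardinal.lift.{1} #ι := by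
    rw [← Cardinal.mk_Iio_ordinal]
    have h4 : #(Iio β) ≤ #(Set.range f) := Cardinal.mk_le_mk_of_subset h2
    have h5 := Cardinal.mk_range_le_lift (f := f)
    rw [Cardinal.lift_uzero] at h5
    exact h4.trans h5
  exact (Cardinal.lift_le.1 h3).trans_lt h1

/-- one step of the construction of the hull -/
def clStep (X : Set O) : Set O :=
  X ∪ ((cA '' X) ∪ ((cX '' X) ∪ ((F '' X) ∪ ⋃ a ∈ X, ⋃ x ∈ X, ⋃ m : ℕ, {cd a m x})))

theorem cl_step (hκ : κ.IsRegular) (hu : ℵ₀ < κ) {X : Set O} (hX : SmK κ X) :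
    SmK κ (clStep X) := by
  refine hX.union hκ ((hX.image _).union hκ ((hX.image _).union hκ ((hX.image _).union hκ ?_)))
  refine hX.biUnion hκ fun a _ => hX.biUnion hκ fun x _ => SmK.iUnion_nat hκ hu fun m => ?_
  exact (smK_finset hκ {cd a m x}).mono (by simp)

theorem SmK.hull (hκ : κ.IsRegular) (hu : ℵ₀ < κ) {s : O} {Z : Set O} (hZ : SmK κ Z) :
    SmK κ (Hull s Z) := by
  let W : ℕ → Set O := fun n => Nat.rec (Z ∪ {0}) (fun _ X => clStep X) n
  have hW0 : W 0 = Z ∪ {0} := rfl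
  have hW1 : ∀ n, W (n + 1) = clStep (W n) := fun n => rfl
  have hsm : ∀ n, SmK κ (W n) := by
    intro n
    induction n with
    | zero => exact hZ.union hκ ((smK_finset hκ {0}).mono (by simp))
    | succ n ih => exact cl_step hκ hu ih
  have hmono : Monotone W := monotone_nat_of_le_succ fun n => by
    rw [hW1]
    exact subset_union_left
  refine (SmK.iUnion_nat hκ hu hsm).mono ?_
  intro c hc
  induction hc with
  | base hz _ => exact mem_iUnion.2 ⟨0, Or.inl hz⟩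
  | zero _ => exact mem_iUnion.2 ⟨0, Or.inr rfl⟩
  | fst _ ih =>
    obtain ⟨n, hn⟩ := mem_iUnion.1 ih
    exact mem_iUnion.2 ⟨n + 1, Or.inr (Or.inl ⟨_, hn, rfl⟩)⟩
  | snd _ ih =>
    obtain ⟨n, hn⟩ := mem_iUnion.1 ih
    exact mem_iUnion.2 ⟨n + 1, Or.inr (Or.inr (Or.inl ⟨_, hn, rfl⟩))⟩
  | fn _ ih =>
    obtain ⟨n, hn⟩ := mem_iUnion.1 ih
    exact mem_iUnion.2 ⟨n + 1, Or.inr (Or.inr (Or.inr (Or.inl ⟨_, hn, rfl⟩)))⟩
  | cod m _ _ _ _ ih1 ih2 =>
    rename_i a x _ _ _ _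
    obtain ⟨n1, hn1⟩ := mem_iUnion.1 ih1
    obtain ⟨n2, hn2⟩ := mem_iUnion.1 ih2
    have h1 := hmono (le_max_left n1 n2) hn1
    have h2 := hmono (le_max_right n1 n2) hn2
    refine mem_iUnion.2 ⟨max n1 n2 + 1, Or.inr (Or.inr (Or.inr (Or.inr ?_)))⟩
    simp only [mem_iUnion, mem_singleton_iff]
    exact ⟨_, h1, _, h2, m, rfl⟩

end Pool.Agent.Helper4.WC
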