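import Pool.Agent.Helper4.WC.CL
import Pool.Agent.Helper4.KSq.Fodor

set_option autoImplicit false

open Set Ordinal Cardinal

namespace Pool.Agent.Helper4.WC

open Pool.Agent.Helper4.KSq (IsAcc IsClubIn)

variable {κ : Cardinal.{0}}

theorem ord_lim (hκ : κ.IsRegular) : ∀ x < κ.ord, x + 1 < κ.ord := by
  have hlim : Order.IsSuccLimit κ.ord := Cardinal.isSuccLimit_ord hκ.aleph0_le
  intro x hx
  have := hlim.succ_lt hx
  rwa [← Ordinal.add_one_eq_succ] at this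

/-- a tail is a club -/
theorem clb_tail (hκ : κ.IsRegular) {b : O} (hb : b < κ.ord) :
    IsClubIn {β | β < κ.ord ∧ b < β} κ.ord := by
  refine ⟨fun β hβ => hβ.1, fun c hc => ?_, fun c hc hacc => ?_⟩
  · refine ⟨max b c + 1, ⟨ord_lim hκ _ (max_lt hb hc), ?_⟩, ?_⟩
    · exact lt_of_le_of_lt (le_max_left _ _) (lt_add_one _)
    · exact (le_max_right _ _).trans (lt_add_one _).le
  · obtain ⟨d, hd, h1, h2⟩ := hacc.2 0 hacc.1
    exact ⟨hc, hd.2.trans h2⟩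

/-- the points closed under a function form a club -/
theorem club_of_fun (hκ : κ.IsRegular) (hu : ℵ₀ < κ) (ρ : O → O)
    (hρ : ∀ δ < κ.ord, ρ δ < κ.ord) :
    IsClubIn {β | β < κ.ord ∧ 0 < β ∧ ∀ δ < β, ρ δ < β} κ.ord := by
  have h0 : (0 : O) < κ.ord := by
    have h1 : (Ordinal.omega0 : O) < κ.ord := by
      rw [Cardinal.lt_ord, Ordinal.card_omega0]
      exact hu
    exact Ordinal.omega0_pos.trans h1
  have h1 := KSq.club_diag hκ hu (fun b => {β | β < κ.ord ∧ ρ b < β}) (fun b hb =>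
    clb_tail hκ (hρ b hb))
  have h2 := KSq.club_inter hκ hu h1 (clb_tail hκ h0)
  have h3 : {β | β < κ.ord ∧ 0 < β ∧ ∀ δ < β, ρ δ < β} =
      {a | a < κ.ord ∧ ∀ b < a, a ∈ (fun b => {β | β < κ.ord ∧ ρ b < β}) b} ∩
        {β | β < κ.ord ∧ 0 < β} := by
    ext β
    constructor
    · rintro ⟨a1, a2, a3⟩
      exact ⟨⟨a1, fun b hb => ⟨a1, a3 b hb⟩⟩, a1, a2⟩
    · rintro ⟨⟨a1, a2⟩, -, a3⟩
      exact ⟨a1, a3, fun δ hδ => (a2 δ hδ).2⟩
  rw [h3]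
  exact h2

theorem club_inter (hκ : κ.IsRegular) (hu : ℵ₀ < κ) {C D : Set O} (hC : IsClubIn C κ.ord)
    (hD : IsClubIn D κ.ord) : IsClubIn (C ∩ D) κ.ord :=
  KSq.club_inter hκ hu hC hD

theorem club_acc (hκ : κ.IsRegular) (hu : ℵ₀ < κ) {C : Set O} (hC : IsClubIn C κ.ord) :
    IsClubIn {β | β < κ.ord ∧ IsAcc C β} κ.ord := by
  classical
  have hnext : ∀ x : O, ∃ c, x < κ.ord → c ∈ C ∧ x < c ∧ c < κ.ord := by
    intro x
    by_cases h : x < κ.ord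
    · obtain ⟨c, hc, hxc⟩ := hC.2.1 (x + 1) (ord_lim hκ x h)
      exact ⟨c, fun _ => ⟨hc, (lt_add_one x).trans_le hxc, hC.1 hc⟩⟩
    · exact ⟨0, fun h1 => (h h1).elim⟩
  choose f hf using hnext
  have h1 := club_of_fun hκ hu f (fun δ hδ => (hf δ hδ).2.2)
  refine ⟨fun β hβ => hβ.1, fun b hb => ?_, fun b hb hacc => ?_⟩
  · obtain ⟨β, hβ, hbβ⟩ := h1.2.1 b hb
    refine ⟨β, ⟨hβ.1, hβ.2.1, fun y hy => ?_⟩, hbβ⟩
    have h2 := hf y (hy.trans hβ.1)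
    exact ⟨f y, h2.1, h2.2.1, hβ.2.2 y hy⟩
  · refine ⟨hb, hacc.1, fun y hy => ?_⟩
    obtain ⟨d, hd, h2, h3⟩ := hacc.2 y hy
    obtain ⟨c, hc, h4, h5⟩ := hd.2.2 y h2
    exact ⟨c, hc, h4, h5.trans h3⟩

theorem clb_cd_lt (hκ : κ.IsRegular) (hu : ℵ₀ < κ) {u x : O} {n : ℕ} (h : u < κ.ord)
    (hx : x ≤ u) : cd u n x < κ.ord := by
  obtain ⟨ι, f, hι, hf⟩ := smK_Iio (ord_lim hκ u h)
  refine lt_ord_of_smK ⟨ι × ℕ × ι, fun p => cd (f p.1) p.2.1 (f p.2.2), ?_, ?_⟩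
  · simp only [Cardinal.mk_prod, Cardinal.lift_id, Cardinal.mk_nat]
    exact Cardinal.mul_lt_of_lt hκ.aleph0_le hι (Cardinal.mul_lt_of_lt hκ.aleph0_le hu hι)
  · intro c hc
    have hc' : c < cd u n x := hc
    have h1 : cA c ≤ u := by
      by_contra hcon
      have h2 : cd u n x < cd (cA c) (cN c) (cX c) :=
        cd_lt hx (cX_le_cA c) (Or.inl (not_le.1 hcon))
      rw [cd_dec] at h2
      exact lt_asymm hc' h2
    have h2 : cA c ∈ Iio (u + 1) := h1.trans_lt (lt_add_one u)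
    have h3 : cX c ∈ Iio (u + 1) := ((cX_le_cA c).trans h1).trans_lt (lt_add_one u)
    obtain ⟨i, hi⟩ := hf h2
    obtain ⟨j, hj⟩ := hf h3
    refine ⟨(i, cN c, j), ?_⟩
    simp only [hi, hj, cd_dec]

theorem nx_lt_ord (hκ : κ.IsRegular) (hu : ℵ₀ < κ) {c : O} (h : c < κ.ord) : nx c < κ.ord := by
  have h1 : nx c = Ordinal.nfp tt c := Ordinal.iSup_iterate_eq_nfp tt c
  rw [h1]
  refine Ordinal.nfp_lt_ord (by rw [hκ.cof_ord]; exact hu) (fun x hx => ?_) h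
  exact clb_cd_lt hκ hu hx zero_le

theorem P_lt_ord (hκ : κ.IsRegular) (hu : ℵ₀ < κ) {x y : O} (hx : x < κ.ord) (hy : y < κ.ord) :
    P y x < κ.ord := by
  unfold P
  split_ifs with h
  · exact clb_cd_lt hκ hu hy h
  · exact clb_cd_lt hκ hu hx (not_le.1 h).le

end Pool.Agent.Helper4.WC
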