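import Pool.Agent.Helper4.WC.TB

set_option autoImplicit false

open Set Ordinal

namespace Pool.Agent.Helper4.WC

open Pool.Agent.Helper4.KSq (IsAcc IsClubIn)

namespace Ctx

variable {X : Ctx}

theorem tb2_s2 (X : Ctx) (β : O) : X.eB β < X.s2 β := lt_nx _

theorem tb2_eB (X : Ctx) (β : O) : max (max (X.aa β) (X.cc β)) β < X.eB β := lt_nx _

theorem tb2_lt (X : Ctx) (β : O) : β < X.s2 β :=
  ((le_max_right _ _).trans_lt (tb2_eB X β)).trans (tb2_s2 X β)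

theorem tb2_mem {β z : O} : z ∈ X.pB β ↔ z = β ∨ z = X.aa β ∨ z = X.cc β ∨ z = X.eB β := by
  unfold pB
  simp

theorem tb2_pB {β z : O} (hz : z ∈ X.pB β) : z < X.s2 β := by
  rcases tb2_mem.1 hz with h | h | h | h
  · rw [h]
    exact tb2_lt X β
  · rw [h]
    exact (((le_max_left _ _).trans (le_max_left _ _)).trans_lt (tb2_eB X β)).trans (tb2_s2 X β)
  · rw [h]
    exact (((le_max_right _ _).trans (le_max_left _ _)).trans_lt (tb2_eB X β)).trans (tb2_s2 X β)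
  · rw [h]
    exact tb2_s2 X β

theorem tb2_small {β γ : O} (hγ : X.Nice γ) (hm : γ ∈ X.CB β) :
    ∀ x ∈ Hull (X.s2 β) (Iio γ ∪ (X.pB β : Set O)), x < β → x < γ := by
  intro x hx hxβ
  obtain ⟨δ, hδ, hxδ⟩ := hull_cont_b hγ.pos hγ.blim hx
  obtain ⟨y, hy, hxy⟩ := hm.2 δ hδ
  exact (hxy x hxδ hxβ).trans hy

/-- the collapse at a point of the canonical closed set -/
theorem coh_B1 {β γ : O} (h : X.Nice β) (hγ : X.Nice γ) (hm : γ ∈ X.CB β) :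
    ∃ j, CEmb (X.s2 γ) (X.s2 β) j ∧
      (∀ c, (∃ b < X.s2 γ, j b = c) ↔ c ∈ Hull (X.s2 β) (Iio γ ∪ (X.pB β : Set O))) ∧
      (∀ x < γ, j x = x) ∧ j γ = β ∧ j (X.cc γ) = X.cc β ∧ (X.pB γ).image j = X.pB β := by
  have hγβ : γ < β := hm.1
  have hβs : β < X.s2 β := tb2_lt X β
  have hsub : ∀ x < γ, x ∈ Hull (X.s2 β) (Iio γ ∪ (X.pB β : Set O)) := fun x hx =>
    mem_hull (Or.inl hx) ((hx.trans hγβ).trans hβs)
  have hpar : ∀ z ∈ X.pB β, z ∈ Hull (X.s2 β) (Iio γ ∪ (X.pB β : Set O)) := fun z hz =>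
    mem_hull (Or.inr hz) (tb2_pB hz)
  obtain ⟨t, j, hj, hr⟩ := condensation (isCl_hull (X.s2 β) (Iio γ ∪ (X.pB β : Set O)))
  obtain ⟨hγt, htop⟩ := range_pt hj hr hsub (hpar β (tb2_mem.2 (Or.inl rfl))) hγβ.le
    (tb2_small hγ hm)
  have hid : ∀ x < γ, j x = x := fun x hx => (range_id hj hr hsub x hx).2
  obtain ⟨a, ha, ja⟩ := (hr _).2 (hpar (X.aa β) (tb2_mem.2 (Or.inr (Or.inl rfl))))
  obtain ⟨c, hc, jc⟩ := (hr _).2 (hpar (X.cc β) (tb2_mem.2 (Or.inr (Or.inr (Or.inl rfl)))))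
  obtain ⟨e, he, je⟩ := (hr _).2 (hpar (X.eB β) (tb2_mem.2 (Or.inr (Or.inr (Or.inr rfl)))))
  obtain ⟨h1, h2, h3, h4⟩ := par_mid h hj hid hγt htop ha hc he ja jc je
  subst h4
  refine ⟨j, hj, hr, hid, htop, by rw [h2, jc], ?_⟩
  ext z
  rw [Finset.mem_image, tb2_mem]
  constructor
  · rintro ⟨y, hy, rfl⟩
    rcases tb2_mem.1 hy with h5 | h5 | h5 | h5
    · left
      rw [h5, htop]
    · right; left
      rw [h5, h1, ja]
    · right; right; left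
      rw [h5, h2, jc]
    · right; right; right
      rw [h5, h3, je]
  · rintro (h5 | h5 | h5 | h5)
    · exact ⟨γ, tb2_mem.2 (Or.inl rfl), by rw [h5, htop]⟩
    · exact ⟨X.aa γ, tb2_mem.2 (Or.inr (Or.inl rfl)), by rw [h5, h1, ja]⟩
    · exact ⟨X.cc γ, tb2_mem.2 (Or.inr (Or.inr (Or.inl rfl))), by rw [h5, h2, jc]⟩
    · exact ⟨X.eB γ, tb2_mem.2 (Or.inr (Or.inr (Or.inr rfl))), by rw [h5, h3, je]⟩

/-- coherence -/
theorem coh_B2 {β γ : O} (h : X.Nice β) (hB : ¬ X.TypeA β) (hγ : X.Nice γ) (hm : γ ∈ X.CB β) :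
    ¬ X.TypeA γ ∧ X.CB γ = X.CB β ∩ Iio γ := by
  classical
  obtain ⟨j, hj, hr, hid, htop, -, himg⟩ := coh_B1 h hγ hm
  have hγβ : γ < β := hm.1
  have hγs : γ < X.s2 γ := tb2_lt X γ
  have hZ : ∀ δ ≤ γ, ∀ z ∈ Iio δ ∪ (X.pB γ : Set O), z < X.s2 γ := by
    intro δ hδ z hz
    rcases hz with hz | hz
    · exact (lt_of_lt_of_le hz hδ).trans hγs
    · exact tb2_pB hz
  have hZi : ∀ δ ≤ γ, j '' (Iio δ ∪ (X.pB γ : Set O)) = Iio δ ∪ (X.pB β : Set O) := by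
    intro δ hδ
    rw [image_union]
    congr 1
    · ext z
      constructor
      · rintro ⟨y, hy, rfl⟩
        rw [hid y (lt_of_lt_of_le hy hδ)]
        exact hy
      · intro hz
        exact ⟨z, hz, hid z (lt_of_lt_of_le hz hδ)⟩
    · rw [← himg, Finset.coe_image]
  have K : ∀ δ ≤ γ, ∀ x, (x ∈ Hull (X.s2 γ) (Iio δ ∪ (X.pB γ : Set O)) ∧ x < γ) ↔
      (x ∈ Hull (X.s2 β) (Iio δ ∪ (X.pB β : Set O)) ∧ x < β) := by
    intro δ hδ x
    constructor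
    · rintro ⟨hx, hxγ⟩
      have h1 := hj.toMEmb.hull hx
      rw [hZi δ hδ, hid x hxγ] at h1
      exact ⟨h1, hxγ.trans hγβ⟩
    · rintro ⟨hx, hxβ⟩
      have hxγ : x < γ := by
        refine tb2_small hγ hm x ?_ hxβ
        exact hull_mono le_rfl (union_subset_union_left _ (Iio_subset_Iio hδ)) hx
      refine ⟨?_, hxγ⟩
      have h1 := hj.hull_iff le_rfl (hZ δ hδ) (hxγ.trans hγs)
      rw [hj.cut_top, hZi δ hδ, hid x hxγ] at h1
      exact h1.1 hx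
  constructor
  · rintro ⟨s, hs, hnb⟩
    apply hnb
    intro δ hδ q
    have hq : ∀ z ∈ q.filter (fun z => z < s), z ∈ Hull (X.s2 γ) (Iio γ ∪ (X.pB γ : Set O)) := by
      intro z hz
      rw [Finset.mem_filter] at hz
      have hzs : z < X.s2 γ := hz.2.trans_le hs
      have h1 := (hr (j z)).1 ⟨z, hzs, rfl⟩
      have h2 := hj.hull_iff le_rfl (hZ γ le_rfl) hzs
      rw [hj.cut_top, hZi γ le_rfl] at h2
      exact h2.1 h1
    obtain ⟨δ', hδ', hq'⟩ := hull_cont_fin hγ.pos hγ.blim _ hq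
    obtain ⟨y, hy, hxy⟩ := hm.2 (max δ δ') (max_lt hδ hδ')
    refine ⟨y, hy, fun x hx hxγ => ?_⟩
    have h3 : x ∈ Hull (X.s2 γ) (Iio (max δ δ') ∪ (X.pB γ : Set O)) := by
      refine hull_le hs ?_ hx
      intro z hz hzs
      rcases hz with hz | hz
      · have hz1 : z < δ := hz
        have hz2 : z < max δ δ' := hz1.trans_le (le_max_left _ _)
        exact mem_hull (Or.inl hz2) (hzs.trans_le hs)
      · refine hull_mono le_rfl ?_ (hq' z (Finset.mem_filter.2 ⟨hz, hzs⟩))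
        exact union_subset_union_left _ (Iio_subset_Iio (le_max_right _ _))
    obtain ⟨h4, h5⟩ := (K _ (max_lt hδ hδ').le x).1 ⟨h3, hxγ⟩
    exact hxy x h4 h5
  · ext b
    constructor
    · rintro ⟨hb, hb'⟩
      refine ⟨⟨hb.trans hγβ, fun δ hδ => ?_⟩, hb⟩
      obtain ⟨y, hy, hxy⟩ := hb' δ hδ
      refine ⟨y, hy, fun x hx hxβ => ?_⟩
      obtain ⟨h1, h2⟩ := (K δ (hδ.trans hb).le x).2 ⟨hx, hxβ⟩
      exact hxy x h1 h2
    · rintro ⟨⟨hb1, hb'⟩, hb⟩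
      refine ⟨hb, fun δ hδ => ?_⟩
      obtain ⟨y, hy, hxy⟩ := hb' δ hδ
      refine ⟨y, hy, fun x hx hxγ => ?_⟩
      have hb2 : b < γ := hb
      obtain ⟨h1, h2⟩ := (K δ (hδ.trans hb2).le x).1 ⟨hx, hxγ⟩
      exact hxy x h1 h2

end Ctx

end Pool.Agent.Helper4.WC
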