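import Pool.Agent.Helper4.WC.TA3
import Pool.Agent.Helper4.WC.TB2

set_option autoImplicit false

/-!
# The canonical sets
-/

open Set Ordinal

namespace Pool.Agent.Helper4.WC

open Pool.Agent.Helper4.KSq (IsAcc IsClubIn)

namespace Ctx

variable (X : Ctx)

open Classical in
/-- the canonical closed set -/
noncomputable def C (β : O) : Set O := if X.TypeA β then CA β (s1 β) (X.pA β) else X.CB β

open Classical in
/-- the location -/
noncomputable def S (β : O) : O := if X.TypeA β then s1 β else X.s2 β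

open Classical in
/-- the parameters -/
noncomputable def p (β : O) : Finset O := if X.TypeA β then X.pA β else X.pB β

variable {X}

theorem coh_CA {β : O} (hA : X.TypeA β) : X.C β = CA β (s1 β) (X.pA β) := if_pos hA

theorem coh_CB {β : O} (hB : ¬ X.TypeA β) : X.C β = X.CB β := if_neg hB

theorem coh_SA {β : O} (hA : X.TypeA β) : X.S β = s1 β := if_pos hA

theorem coh_SB {β : O} (hB : ¬ X.TypeA β) : X.S β = X.s2 β := if_neg hB

theorem coh_PA {β : O} (hA : X.TypeA β) : X.p β = X.pA β := if_pos hA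

theorem coh_PB {β : O} (hB : ¬ X.TypeA β) : X.p β = X.pB β := if_neg hB

theorem C_sub (β : O) : X.C β ⊆ Iio β := by
  by_cases hA : X.TypeA β
  · rw [coh_CA hA]
    exact fun b hb => hb.1
  · rw [coh_CB hA]
    exact fun b hb => hb.1

theorem C_closed {β b : O} (h : X.Nice β) (hb : b < β) (hacc : IsAcc (X.C β) b) : b ∈ X.C β := by
  by_cases hA : X.TypeA β
  · rw [coh_CA hA] at hacc ⊢
    exact (asys h hA).CA_closed hb hacc
  · rw [coh_CB hA] at hacc ⊢
    exact CB_closed hb hacc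

theorem C_unb_or {β : O} (h : X.Nice β) :
    (∀ x < β, ∃ b ∈ X.C β, x < b) ∨ ∃ f : ℕ → O, (∀ n, f n < β) ∧ ∀ x < β, ∃ n, x ≤ f n := by
  by_cases hA : X.TypeA β
  · rw [coh_CA hA]
    exact Or.inl (asys h hA).CA_unb
  · rw [coh_CB hA]
    exact CB_unb_or h hA

theorem lt_S {β : O} (h : X.Nice β) : β < X.S β := by
  by_cases hA : X.TypeA β
  · rw [coh_SA hA]
    obtain ⟨_, h2, h3⟩ := ta1_lt_e0 h
    exact (h2.trans h3).trans (e1_lt_s1 h hA)
  · rw [coh_SB hA]
    exact tb2_lt X β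

theorem p_lt_S {β : O} (h : X.Nice β) : ∀ x ∈ X.p β, x < X.S β := by
  by_cases hA : X.TypeA β
  · rw [coh_SA hA, coh_PA hA]
    exact (adm_pA h hA).2.1
  · rw [coh_SB hA, coh_PB hA]
    exact fun x hx => tb2_pB hx

theorem cc_lt_S {β : O} (h : ¬ X.TypeA β) : X.cc β < X.S β := by
  rw [coh_SB h]
  exact tb2_pB (tb2_mem.2 (Or.inr (Or.inr (Or.inl rfl))))

theorem gen {β : O} (h : X.Nice β) : ∀ x < X.S β, x ∈ Hull (X.S β) (Iio β ∪ (X.p β : Set O)) := by
  by_cases hA : X.TypeA β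
  · rw [coh_SA hA, coh_PA hA]
    exact gen_A h hA
  · rw [coh_SB hA, coh_PB hA]
    exact gen_B h

/-- coherence and embeddings -/
theorem coh {β γ : O} (h : X.Nice β) (hγ : X.Nice γ) (hlt : γ < β) (hacc : IsAcc (X.C β) γ) :
    X.C γ = X.C β ∩ Iio γ ∧ (X.TypeA γ ↔ X.TypeA β) ∧
      ∃ j, MEmb (X.S γ) (X.S β) j ∧ (∀ x < γ, j x = x) ∧ j γ = β ∧ (X.p γ).image j = X.p β ∧
        (¬ X.TypeA β → j (X.cc γ) = X.cc β) := by
  by_cases hA : X.TypeA β
  · rw [coh_CA hA] at hacc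
    obtain ⟨i, hi, he⟩ := (asys h hA).CA_acc hlt hacc
    obtain ⟨t, j, hP⟩ := exists_pre h hA hγ hi he hlt
    have hA' := hP.typeA'
    refine ⟨?_, ⟨fun _ => hA, fun _ => hA'⟩, j, ?_, hP.id, hP.top, ?_, fun hn => absurd hA hn⟩
    · rw [coh_CA hA, coh_CA hA', hP.s1_eq]
      exact hP.comp.CA_eq
    · rw [coh_SA hA, coh_SA hA', hP.s1_eq]
      exact hP.emb.toMEmb.mono_right hP.ta3_R_lt.le
    · rw [coh_PA hA, coh_PA hA']
      exact hP.img
  · rw [coh_CB hA] at hacc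
    have hm : γ ∈ X.CB β := CB_closed hlt hacc
    obtain ⟨j, hj, _, hid, htop, hcc, himg⟩ := coh_B1 h hγ hm
    obtain ⟨hB', hC⟩ := coh_B2 h hA hγ hm
    refine ⟨?_, ⟨fun h1 => absurd h1 hB', fun h1 => absurd h1 hA⟩, j, ?_, hid, htop, ?_,
      fun _ => hcc⟩
    · rw [coh_CB hA, coh_CB hB', hC]
    · rw [coh_SB hA, coh_SB hB']
      exact hj.toMEmb
    · rw [coh_PB hA, coh_PB hB']
      exact himg

end Ctx

end Pool.Agent.Helper4.WC
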