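import Pool.Agent.Helper4.WC.CLb

set_option autoImplicit false

/-!
# From a system on a club to `□(κ)`
-/

open Set Ordinal Cardinal

namespace Pool.Agent.Helper4.WC

open Pool.Agent.Helper4.KSq (IsAcc IsClubIn Square)

theorem comb_acc_mono {C C' : Set O} {a : O} (h : ∀ x < a, x ∈ C → x ∈ C') (hC : IsAcc C a) :
    IsAcc C' a := by
  refine ⟨hC.1, fun b hb => ?_⟩
  obtain ⟨c, hc, hbc, hca⟩ := hC.2 b hb
  exact ⟨c, h c hca hc, hbc, hca⟩

/-- a cofinal sequence can be made strictly increasing -/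
theorem comb_strict {β : O} (hβ : ∀ x < β, x + 1 < β) (f : ℕ → O) (hf : ∀ n, f n < β)
    (hf' : ∀ x < β, ∃ n, x ≤ f n) :
    ∃ g : ℕ → O, StrictMono g ∧ (∀ n, g n < β) ∧ ∀ x < β, ∃ n, x ≤ g n := by
  let g : ℕ → O := fun n => Nat.rec (f 0) (fun n y => max (y + 1) (f (n + 1))) n
  have hg1 : ∀ n, g (n + 1) = max (g n + 1) (f (n + 1)) := fun n => rfl
  have hle : ∀ n, f n ≤ g n := by
    intro n
    cases n with
    | zero => exact le_rfl
    | succ n => rw [hg1]; exact le_max_right _ _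
  refine ⟨g, strictMono_nat_of_lt_succ fun n => ?_, fun n => ?_, fun x hx => ?_⟩
  · rw [hg1]
    exact lt_of_lt_of_le (lt_add_one (g n)) (le_max_left _ _)
  · induction n with
    | zero => exact hf 0
    | succ n ih =>
      rw [hg1]
      exact max_lt (hβ _ ih) (hf _)
  · obtain ⟨n, hn⟩ := hf' x hx
    exact ⟨n, hn.trans (hle n)⟩

/-- the range of a strictly increasing cofinal sequence has no accumulation point below -/
theorem comb_range {β : O} {g : ℕ → O} (hg : StrictMono g) (hg' : ∀ x < β, ∃ n, x ≤ g n) {c : O}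
    (hc : c < β) : ¬ IsAcc (Set.range g) c := by
  classical
  intro hacc
  have hex := hg' c hc
  have h1 : c ≤ g (Nat.find hex) := Nat.find_spec hex
  have h2 : ∀ m < Nat.find hex, g m < c := fun m hm => not_le.1 (Nat.find_min hex hm)
  rcases Nat.eq_zero_or_pos (Nat.find hex) with h0 | h0
  · obtain ⟨y, ⟨m, rfl⟩, _, hy⟩ := hacc.2 0 hacc.1
    rw [h0] at h1
    exact absurd (h1.trans (hg.monotone (Nat.zero_le m))) (not_le.2 hy)
  · obtain ⟨y, ⟨m, rfl⟩, hy1, hy2⟩ := hacc.2 (g (Nat.find hex - 1)) (h2 _ (by omega))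
    have h3 : Nat.find hex - 1 < m := hg.lt_iff_lt.1 hy1
    have h4 : Nat.find hex ≤ m := by omega
    exact absurd (h1.trans (hg.monotone h4)) (not_le.2 hy2)

/-- two closed unbounded sets with bounded intersection: the cofinality is countable -/
theorem comb_inter {β : O} {A B : Set O} (hA : ∀ x < β, ∃ b ∈ A, x < b ∧ b < β)
    (hB : ∀ x < β, ∃ b ∈ B, x < b ∧ b < β) (hAc : ∀ b < β, IsAcc A b → b ∈ A)
    (hBc : ∀ b < β, IsAcc B b → b ∈ B) {b0 : O} (hb0 : b0 < β)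
    (hno : ∀ c ∈ A, c ∈ B → b0 < c → c < β → False) :
    ∃ f : ℕ → O, (∀ n, f n < β) ∧ ∀ x < β, ∃ n, x ≤ f n := by
  choose! u hu1 hu2 hu3 using hA
  choose! v hv1 hv2 hv3 using hB
  let f : ℕ → O := fun n => Nat.rec b0 (fun _ y => v (u y)) n
  have hf1 : ∀ n, f (n + 1) = v (u (f n)) := fun n => rfl
  have hfβ : ∀ n, f n < β := by
    intro n
    induction n with
    | zero => exact hb0
    | succ n ih =>
      rw [hf1]
      exact hv3 _ (hu3 _ ih)
  have hlt1 : ∀ n, f n < u (f n) := fun n => hu2 _ (hfβ n)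
  have hlt2 : ∀ n, u (f n) < f (n + 1) := fun n => by
    rw [hf1]
    exact hv2 _ (hu3 _ (hfβ n))
  have hmono : StrictMono f := strictMono_nat_of_lt_succ fun n => (hlt1 n).trans (hlt2 n)
  refine ⟨f, hfβ, ?_⟩
  by_contra hcon
  push Not at hcon
  obtain ⟨x, hx, hxf⟩ := hcon
  have hbdd : BddAbove (Set.range f) := ⟨x, by
    rintro _ ⟨n, rfl⟩
    exact (hxf n).le⟩
  set s : O := sSup (Set.range f) with hs
  have hfs : ∀ n, f n ≤ s := fun n => le_csSup hbdd ⟨n, rfl⟩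
  have hfs' : ∀ n, f n < s := fun n => lt_of_lt_of_le (hmono (Nat.lt_succ_self n)) (hfs (n + 1))
  have hsx : s ≤ x := csSup_le (Set.range_nonempty f) (by
    rintro _ ⟨n, rfl⟩
    exact (hxf n).le)
  have hsβ : s < β := lt_of_le_of_lt hsx hx
  have hex : ∀ y < s, ∃ n, y < f n := by
    intro y hy
    obtain ⟨_, ⟨n, rfl⟩, hn⟩ := exists_lt_of_lt_csSup (Set.range_nonempty f) hy
    exact ⟨n, hn⟩
  have hs0 : 0 < s := lt_of_le_of_lt (zero_le) (hfs' 0)
  have hsA : s ∈ A := hAc s hsβ ⟨hs0, fun y hy => by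
    obtain ⟨n, hn⟩ := hex y hy
    exact ⟨u (f n), hu1 _ (hfβ n), hn.trans (hlt1 n), (hlt2 n).trans (hfs' (n + 1))⟩⟩
  have hsB : s ∈ B := hBc s hsβ ⟨hs0, fun y hy => by
    obtain ⟨n, hn⟩ := hex y hy
    refine ⟨f (n + 1), ?_, hn.trans (hmono (Nat.lt_succ_self n)), hfs' (n + 1)⟩
    rw [hf1]
    exact hv1 _ (hu3 _ (hfβ n))⟩
  exact hno s hsA hsB (hfs' 0) hsβ

open Classical in
/-- the new sequence -/
noncomputable def combC (D : Set O) (C : O → Set O) (β : O) : Set O :=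
  if IsAcc D β then
    if IsAcc (C β ∩ D) β then C β ∩ D
    else if h : ∃ g : ℕ → O, StrictMono g ∧ (∀ n, g n < β) ∧ ∀ x < β, ∃ n, x ≤ g n then
      Set.range h.choose else ∅
  else {x | x < β ∧ ∀ d ∈ D, d < β → d < x}

theorem square_of_system {κ : Cardinal.{0}} (hκ : κ.IsRegular) (hu : ℵ₀ < κ) {D : Set O}
    (hD : IsClubIn D κ.ord) (C : O → Set O) (hsub : ∀ β ∈ D, C β ⊆ Iio β)
    (hcl : ∀ β ∈ D, ∀ b < β, IsAcc (C β) b → b ∈ C β)
    (hunb : ∀ β ∈ D, (∀ x < β, ∃ b ∈ C β, x < b) ∨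
      ∃ f : ℕ → O, (∀ n, f n < β) ∧ ∀ x < β, ∃ n, x ≤ f n)
    (hcoh : ∀ β ∈ D, ∀ γ ∈ D, γ < β → IsAcc (C β) γ → C γ = C β ∩ Iio γ)
    (hno : ∀ D' ⊆ D, IsClubIn D' κ.ord →
      (∀ β ∈ D', ∀ γ ∈ D', γ < β → IsAcc (C β) γ) → False) : Square κ := by
  have hDmem : ∀ β < κ.ord, IsAcc D β → β ∈ D := hD.2.2
  -- the three cases
  have h1a : ∀ β, IsAcc D β → IsAcc (C β ∩ D) β → combC D C β = C β ∩ D := by
    intro β h1 h2
    unfold combC
    rw [if_pos h1, if_pos h2]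
  have h1b : ∀ β < κ.ord, IsAcc D β → ¬ IsAcc (C β ∩ D) β → ∃ g : ℕ → O, StrictMono g ∧
      (∀ n, g n < β) ∧ (∀ x < β, ∃ n, x ≤ g n) ∧ combC D C β = Set.range g := by
    intro β hβ h1 h2
    have hβD := hDmem β hβ h1
    have hlim : ∀ x < β, x + 1 < β := by
      intro x hx
      obtain ⟨c, _, hxc, hcβ⟩ := h1.2 x hx
      exact lt_of_le_of_lt (Order.add_one_le_of_lt hxc) hcβ
    have h3 : ∃ f : ℕ → O, (∀ n, f n < β) ∧ ∀ x < β, ∃ n, x ≤ f n := by
      rcases hunb β hβD with h4 | h4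
      · have h5 : ¬ ∀ b < β, ∃ c ∈ C β ∩ D, b < c ∧ c < β := fun h => h2 ⟨h1.1, h⟩
        push Not at h5
        obtain ⟨b0, hb0, hb0'⟩ := h5
        refine comb_inter (A := C β) (B := D) ?_ h1.2 (hcl β hβD)
          (fun b hb hacc => hDmem b (hb.trans hβ) hacc) hb0 ?_
        · intro x hx
          obtain ⟨b, hb, hxb⟩ := h4 x hx
          exact ⟨b, hb, hxb, hsub β hβD hb⟩
        · intro c hcA hcB hc hcβ
          exact absurd hcβ (not_lt.2 (hb0' c ⟨hcA, hcB⟩ hc))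
      · exact h4
    obtain ⟨f, hf, hf'⟩ := h3
    have h4 := comb_strict hlim f hf hf'
    refine ⟨h4.choose, h4.choose_spec.1, h4.choose_spec.2.1, h4.choose_spec.2.2, ?_⟩
    unfold combC
    rw [if_pos h1, if_neg h2, dif_pos h4]
  have h2 : ∀ β, ¬ IsAcc D β → combC D C β = {x | x < β ∧ ∀ d ∈ D, d < β → d < x} := by
    intro β h
    unfold combC
    rw [if_neg h]
  refine ⟨combC D C, ?_, ?_⟩
  · intro β hβ hlim
    have hlim' : ∀ x < β, x + 1 < β := fun x hx => by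
      have := hlim.succ_lt hx
      rwa [← Order.succ_eq_add_one]
    have hβ0 : 0 < β := hlim.bot_lt
    by_cases hacc : IsAcc D β
    · by_cases hacc' : IsAcc (C β ∩ D) β
      · rw [h1a β hacc hacc']
        have hβD := hDmem β hβ hacc
        have hmem : ∀ b < β, IsAcc (C β ∩ D) b → b ∈ C β ∩ D := fun b hb hb' =>
          ⟨hcl β hβD b hb (comb_acc_mono (fun x _ hx => hx.1) hb'),
            hDmem b (hb.trans hβ) (comb_acc_mono (fun x _ hx => hx.2) hb')⟩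
        refine ⟨⟨fun x hx => hsub β hβD hx.1, fun b hb => ?_, hmem⟩, fun b hb hb' => ?_⟩
        · obtain ⟨c, hc, hbc, _⟩ := hacc'.2 b hb
          exact ⟨c, hc, hbc.le⟩
        · have hbm := hmem b hb hb'
          have hCb : C b = C β ∩ Iio b := hcoh β hβD b hbm.2 hb
            (comb_acc_mono (fun x _ hx => hx.1) hb')
          have hbD : IsAcc D b := comb_acc_mono (fun x _ hx => hx.2) hb'
          have hbC : IsAcc (C b ∩ D) b := by
            refine comb_acc_mono (fun x hx hx' => ?_) hb'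
            rw [hCb]
            exact ⟨⟨hx'.1, hx⟩, hx'.2⟩
          rw [h1a b hbD hbC, hCb]
          ext x
          constructor
          · rintro ⟨⟨a1, a2⟩, a3⟩
            exact ⟨⟨a1, a3⟩, a2⟩
          · rintro ⟨⟨a1, a3⟩, a2⟩
            exact ⟨⟨a1, a2⟩, a3⟩
      · obtain ⟨g, hg1, hg2, hg3, hg4⟩ := h1b β hβ hacc hacc'
        rw [hg4]
        refine ⟨⟨?_, fun b hb => ?_, fun b hb hb' => absurd hb' (comb_range hg1 hg3 hb)⟩,
          fun b hb hb' => absurd hb' (comb_range hg1 hg3 hb)⟩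
        · rintro _ ⟨n, rfl⟩
          exact hg2 n
        · obtain ⟨n, hn⟩ := hg3 b hb
          exact ⟨g n, ⟨n, rfl⟩, hn⟩
    · rw [h2 β hacc]
      have hbd : ∃ b0 < β, ∀ d ∈ D, d < β → d ≤ b0 := by
        by_contra h
        push Not at h
        refine hacc ⟨hβ0, fun b hb => ?_⟩
        obtain ⟨d, hd, hdβ, hbd⟩ := h b hb
        exact ⟨d, hd, hbd, hdβ⟩
      obtain ⟨b0, hb0, hb0'⟩ := hbd
      refine ⟨⟨fun x hx => hx.1, fun b hb => ?_, fun b hb hb' => ?_⟩, fun b hb hb' => ?_⟩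
      · refine ⟨max b b0 + 1, ⟨hlim' _ (max_lt hb hb0), fun d hd hdβ => ?_⟩, ?_⟩
        · exact lt_of_le_of_lt ((hb0' d hd hdβ).trans (le_max_right b b0)) (lt_add_one _)
        · exact (le_max_left b b0).trans (lt_add_one _).le
      · obtain ⟨c, hc, _, hcb⟩ := hb'.2 0 hb'.1
        exact ⟨hb, fun d hd hdβ => (hc.2 d hd hdβ).trans hcb⟩
      · obtain ⟨c, hc, _, hcb⟩ := hb'.2 0 hb'.1
        have hnot : ¬ IsAcc D b := by
          intro h
          obtain ⟨d, hd, hcd, hdb⟩ := h.2 c hcb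
          exact absurd (hc.2 d hd (hdb.trans hb)) (not_lt.2 hcd.le)
        rw [h2 b hnot]
        ext x
        constructor
        · rintro ⟨hx, hx'⟩
          exact ⟨⟨hx.trans hb, fun d hd hdβ => hx' d hd ((hc.2 d hd hdβ).trans hcb)⟩, hx⟩
        · rintro ⟨⟨_, hx'⟩, hx⟩
          exact ⟨hx, fun d hd hdb => hx' d hd (hdb.trans hb)⟩
  · rintro ⟨D1, hD1, hth⟩
    have hA1 := club_acc hκ hu hD1
    have hA2 := club_acc hκ hu hA1
    have hA3 := club_acc hκ hu hD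
    have hD' := club_inter hκ hu hA2 hA3
    have key : ∀ β ∈ {β | β < κ.ord ∧ IsAcc {β | β < κ.ord ∧ IsAcc D1 β} β} ∩
        {β | β < κ.ord ∧ IsAcc D β}, D1 ∩ Iio β ⊆ C β := by
      rintro β ⟨⟨hβ, hβ1⟩, _, hβ2⟩
      have hD1β : IsAcc D1 β :=
        comb_acc_mono (fun x hx hx' => hD1.2.2 x hx'.1 hx'.2) hβ1
      have heq := hth β hβ hD1β
      by_cases hacc' : IsAcc (C β ∩ D) β
      · rw [h1a β hβ2 hacc'] at heq
        rw [← heq]
        exact fun x hx => hx.1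
      · exfalso
        obtain ⟨g, hg1, hg2, hg3, hg4⟩ := h1b β hβ hβ2 hacc'
        obtain ⟨c, hc, _, hcβ⟩ := hβ1.2 0 hβ1.1
        refine comb_range hg1 hg3 hcβ ?_
        rw [← hg4, heq]
        exact comb_acc_mono (fun x hx hx' => ⟨hx', hx.trans hcβ⟩) hc.2
    refine hno _ (fun β hβ => hDmem β hβ.2.1 hβ.2.2) hD' ?_
    intro β hβ γ hγ hlt
    have hD1γ : IsAcc D1 γ :=
      comb_acc_mono (fun x hx hx' => hD1.2.2 x hx'.1 hx'.2) hγ.1.2
    exact comb_acc_mono (fun x hx hx' => key β hβ ⟨hx', hx.trans hlt⟩) hD1γ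

end Pool.Agent.Helper4.WC
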