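import Pool.Agent.Helper4.WC.ABS

set_option autoImplicit false

open Set Ordinal

namespace Pool.Agent.Helper4.WC

/-- lifting of a renaming -/
def dfuLift (f : ℕ → ℕ) : ℕ → ℕ
  | 0 => 0
  | i + 1 => f i + 1

/-- renaming of the variables of a formula -/
def dfuRen : Fml → (ℕ → ℕ) → Fml
  | .lt i j, f => .lt (f i) (f j)
  | .mem i j, f => .mem (f i) (f j)
  | .pr i j k, f => .pr (f i) (f j) (f k)
  | .on i j, f => .on (f i) (f j)
  | .bot, _ => .bot
  | .imp φ ψ, f => .imp (dfuRen φ f) (dfuRen ψ f)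
  | .ex φ, f => .ex (dfuRen φ (dfuLift f))

theorem dfuSat_ren {A : Set O} {R : O → O → Prop} (φ : Fml) (f : ℕ → ℕ) (v : ℕ → O) :
    Sat A R (dfuRen φ f) v ↔ Sat A R φ (fun i => v (f i)) := by
  induction φ generalizing f v with
  | lt i j => exact Iff.rfl
  | mem i j => exact Iff.rfl
  | pr i j k => exact Iff.rfl
  | on i j => exact Iff.rfl
  | bot => exact Iff.rfl
  | imp φ ψ ih1 ih2 =>
    simp only [dfuRen, Sat]
    rw [ih1, ih2]
  | ex φ ih =>
    simp only [dfuRen, Sat]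
    refine exists_congr fun y => and_congr_right fun _ => ?_
    rw [ih]
    have h : (fun i => cns y v (dfuLift f i)) = cns y (fun i => v (f i)) := by
      funext i
      cases i with
      | zero => rfl
      | succ i => rfl
    rw [h]

namespace DefU

variable {Q Q' : (ℕ → O) → Prop}

theorem congr (h : DefU Q) (e : ∀ v, Q v ↔ Q' v) : DefU Q' := by
  obtain ⟨φ, hφ⟩ := h
  exact ⟨φ, fun v => (hφ v).trans (e v)⟩

theorem not (h : DefU Q) : DefU (fun v => ¬ Q v) := by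
  obtain ⟨φ, hφ⟩ := h
  refine ⟨.imp φ .bot, fun v => ?_⟩
  simp only [Sat]
  rw [hφ]

theorem imp (h : DefU Q) (h' : DefU Q') : DefU (fun v => Q v → Q' v) := by
  obtain ⟨φ, hφ⟩ := h
  obtain ⟨ψ, hψ⟩ := h'
  refine ⟨.imp φ ψ, fun v => ?_⟩
  simp only [Sat]
  rw [hφ, hψ]

theorem and (h : DefU Q) (h' : DefU Q') : DefU (fun v => Q v ∧ Q' v) := by
  refine (h.imp h'.not).not.congr fun v => ?_
  simp only [Classical.not_imp, not_not]

theorem or (h : DefU Q) (h' : DefU Q') : DefU (fun v => Q v ∨ Q' v) := by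
  refine (h.not.imp h').congr fun v => ?_
  exact or_iff_not_imp_left.symm

theorem iff (h : DefU Q) (h' : DefU Q') : DefU (fun v => Q v ↔ Q' v) := by
  refine ((h.imp h').and (h'.imp h)).congr fun v => ?_
  exact iff_iff_implies_and_implies.symm

theorem ren (h : DefU Q) (f : ℕ → ℕ) : DefU (fun v => Q (fun i => v (f i))) := by
  obtain ⟨φ, hφ⟩ := h
  exact ⟨dfuRen φ f, fun v => (dfuSat_ren φ f v).trans (hφ _)⟩

theorem ex (h : DefU Q) : DefU (fun v => ∃ y, Q (cns y v)) := by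
  obtain ⟨φ, hφ⟩ := h
  refine ⟨.ex φ, fun v => ?_⟩
  simp only [Sat]
  refine exists_congr fun y => ?_
  rw [hφ]
  exact ⟨fun h => h.2, fun h => ⟨mem_univ _, h⟩⟩

theorem all (h : DefU Q) : DefU (fun v => ∀ y, Q (cns y v)) := by
  refine h.not.ex.not.congr fun v => ?_
  push Not
  exact Iff.rfl

theorem dfu_lt (i j : ℕ) : DefU (fun v => v i < v j) := ⟨.lt i j, fun _ => Iff.rfl⟩

theorem dfu_mem (i j : ℕ) : DefU (fun v => E (v i) (v j)) := ⟨.mem i j, fun _ => Iff.rfl⟩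

theorem bex (h : DefU Q) (i : ℕ) : DefU (fun v => ∃ y < v i, Q (cns y v)) :=
  ((dfu_lt 0 (i + 1)).and h).ex

theorem ball (h : DefU Q) (i : ℕ) : DefU (fun v => ∀ y < v i, Q (cns y v)) :=
  ((dfu_lt 0 (i + 1)).imp h).all

theorem exE (h : DefU Q) (i : ℕ) : DefU (fun v => ∃ y, E y (v i) ∧ Q (cns y v)) :=
  ((dfu_mem 0 (i + 1)).and h).ex

theorem allE (h : DefU Q) (i : ℕ) : DefU (fun v => ∀ y, E y (v i) → Q (cns y v)) :=
  ((dfu_mem 0 (i + 1)).imp h).all

theorem subP (h : DefU Q) (i j : ℕ) : DefU (fun v => Q (cns (P (v i) (v j)) v)) := by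
  have h1 : DefU (fun v => v 0 = P (v (i + 1)) (v (j + 1))) :=
    ⟨.pr 0 (i + 1) (j + 1), fun _ => Iff.rfl⟩
  refine (h1.and h).ex.congr fun v => ?_
  constructor
  · rintro ⟨y, hy, hQ⟩
    have hy' : y = P (v i) (v j) := hy
    rw [← hy']
    exact hQ
  · intro hQ
    exact ⟨_, rfl, hQ⟩

theorem subO (h : DefU Q) (i : ℕ) : DefU (fun v => Q (cns (oo (v i)) v)) := by
  have h1 : DefU (fun v => v 0 = oo (v (i + 1))) := ⟨.on 0 (i + 1), fun _ => Iff.rfl⟩
  refine (h1.and h).ex.congr fun v => ?_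
  constructor
  · rintro ⟨y, hy, hQ⟩
    have hy' : y = oo (v i) := hy
    rw [← hy']
    exact hQ
  · intro hQ
    exact ⟨_, rfl, hQ⟩

end DefU

end Pool.Agent.Helper4.WC
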