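import Pool.Agent.Helper4.WC.RFL
import Pool.Agent.Helper4.WC.DFU

set_option autoImplicit false

open Set Ordinal

namespace Pool.Agent.Helper4.WC

/-- the renaming used for comprehension -/
def compRen : ℕ → ℕ
  | 0 => 0
  | i + 1 => i + 2

/-- comprehension: bounded definable sets have names -/
theorem comprehension {Q : (ℕ → O) → Prop} (hQ : DefU Q) (v : ℕ → O) (b : O) :
    IsW {ξ | ξ < b ∧ Q (cns ξ v)} := by
  have h1 : DefU (fun w => w 0 < w 1 ∧ Q (cns (w 0) (fun i => w (i + 2)))) := by
    refine ((DefU.dfu_lt 0 1).and (hQ.ren compRen)).congr fun w => ?_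
    have h2 : (fun i => w (compRen i)) = cns (w 0) (fun i => w (i + 2)) := by
      funext i
      cases i with
      | zero => rfl
      | succ i => rfl
    rw [h2]
  obtain ⟨φ, hφ⟩ := h1
  obtain ⟨e, hbe, he, hr⟩ := reflect φ (max b (⨆ i, v i))
  have hb : b < e := (le_max_left _ _).trans_lt hbe
  have hv : ∀ i, v i < e := fun i =>
    ((Ordinal.le_iSup v i).trans (le_max_right _ _)).trans_lt hbe
  have hu : ∀ i, cns b v i < e := by
    intro i
    cases i with
    | zero => exact hb
    | succ i => exact hv i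
  obtain ⟨x, hx, hdec⟩ := exists_dec he (zero_le.trans_lt hb) (cns b v) hu φ.bnd
  refine ⟨cd e (φ.code + 3) x, ?_⟩
  ext ξ
  rw [mem_Es, E_name he φ hx]
  have h3 : Sat (Iio e) E φ (cns ξ (dec x)) ↔ Sat (Iio e) E φ (cns ξ (cns b v)) := by
    refine sat_congr φ fun i hi => ?_
    cases i with
    | zero => rfl
    | succ i => exact hdec i (by omega)
  rw [h3]
  constructor
  · rintro ⟨hξ, hs⟩
    have h4 : ∀ i, cns ξ (cns b v) i < e := by
      intro i
      cases i with
      | zero => exact hξ
      | succ i => exact hu i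
    exact (hφ _).1 ((hr _ h4).1 hs)
  · rintro ⟨hξ, hq⟩
    have hξe : ξ < e := hξ.trans hb
    have h4 : ∀ i, cns ξ (cns b v) i < e := by
      intro i
      cases i with
      | zero => exact hξe
      | succ i => exact hu i
    exact ⟨hξe, (hr _ h4).2 ((hφ _).2 ⟨hξ, hq⟩)⟩

end Pool.Agent.Helper4.WC
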