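import Pool.Agent.Helper4.WC.Cnd
import Pool.Agent.Helper4.WC.CLb

set_option autoImplicit false

/-!
# Bounded subsets of `κ` have names below `κ`
-/

open Set Ordinal Cardinal

namespace Pool.Agent.Helper4.WC

/-- a bound for the part below `κ` of a small hull -/
theorem nb_bound {κ : Cardinal.{0}} (hκ : κ.IsRegular) (hu : ℵ₀ < κ) (z c : O) {δ : O}
    (hδ : δ < κ.ord) :
    ∃ b < κ.ord, ∀ x ∈ Hull z (Iio δ ∪ (({c} : Finset O) : Set O)), x < κ.ord → x < b := by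
  have h1 : SmK κ (Hull z (Iio δ ∪ (({c} : Finset O) : Set O))) :=
    SmK.hull hκ hu (SmK.union hκ (smK_Iio hδ) (smK_finset hκ {c}))
  have h2 : SmK κ (Hull z (Iio δ ∪ (({c} : Finset O) : Set O)) ∩ Iio κ.ord) :=
    h1.mono inter_subset_left
  obtain ⟨b, hb, h3⟩ := SmK.bdd hκ h2 fun x hx => hx.2
  exact ⟨b, hb, fun x hx hxk => h3 x ⟨hx, hxk⟩⟩

theorem name_lt {κ : Cardinal.{0}} (hκ : κ.IsRegular) (hu : ℵ₀ < κ) {S : Set O} {μ : O}
    (hμ : μ < κ.ord) (hS : IsW S) (hSμ : S ⊆ Iio μ) : ∃ c < κ.ord, Es c = S := by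
  classical
  obtain ⟨c0, hc0⟩ := hS
  obtain ⟨z, hzc, hzk⟩ : ∃ z : O, c0 < z ∧ κ.ord ≤ z :=
    ⟨max c0 κ.ord + 1, lt_of_le_of_lt (le_max_left _ _) (lt_add_one _),
      (le_max_right _ _).trans le_self_add⟩
  have hb : ∀ δ : O, ∃ b : O, δ < κ.ord → b < κ.ord ∧
      ∀ x ∈ Hull z (Iio δ ∪ (({c0} : Finset O) : Set O)), x < κ.ord → x < b := by
    intro δ
    by_cases hδ : δ < κ.ord
    · obtain ⟨b, hb, h⟩ := nb_bound hκ hu z c0 hδ
      exact ⟨b, fun _ => ⟨hb, h⟩⟩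
    · exact ⟨0, fun h => absurd h hδ⟩
  choose b hb using hb
  have hclub := club_of_fun hκ hu (fun δ => max (b δ) (δ + 1)) fun δ hδ =>
    max_lt (hb δ hδ).1 (ord_lim hκ δ hδ)
  obtain ⟨β, ⟨hβk, hβ0, hβ⟩, hμβ⟩ : ∃ β ∈ {β | β < κ.ord ∧ 0 < β ∧ ∀ δ < β,
      max (b δ) (δ + 1) < β}, μ < β := by
    obtain ⟨β, h1, h2⟩ := hclub.2.1 (μ + 1) (ord_lim hκ μ hμ)
    exact ⟨β, h1, lt_of_lt_of_le (lt_add_one μ) h2⟩
  have hlim : ∀ x < β, ∃ y < β, x < y := fun x hx =>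
    ⟨x + 1, lt_of_le_of_lt (le_max_right _ _) (hβ x hx), lt_add_one x⟩
  set X := Hull z (Iio β ∪ (({c0} : Finset O) : Set O)) with hX
  have hXβ : ∀ x ∈ X, x < κ.ord → x < β := by
    intro x hx hxk
    obtain ⟨δ, hδ, h1⟩ := hull_cont_b hβ0 hlim hx
    exact ((hb δ (hδ.trans hβk)).2 x h1 hxk).trans (lt_of_le_of_lt (le_max_left _ _) (hβ δ hδ))
  obtain ⟨t, j, hj, hr⟩ := condensation (isCl_hull z (Iio β ∪ (({c0} : Finset O) : Set O)))
  have hid := range_id hj hr (β := β) fun x hx =>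
    mem_hull (Or.inl hx) ((hx.trans hβk).trans_le hzk)
  have hc0X : c0 ∈ X := mem_hull (Or.inr (by simp)) hzc
  obtain ⟨c, hct, hjc⟩ := (hr c0).2 hc0X
  have ht : t < κ.ord := by
    refine lt_ord_of_smK ?_
    have h1 : SmK κ X := SmK.hull hκ hu (SmK.union hκ (smK_Iio hβk) (smK_finset hκ {c0}))
    refine (h1.image (Function.invFunOn j (Iio t))).mono ?_
    intro x hx
    refine ⟨j x, (hr (j x)).1 ⟨x, hx, rfl⟩, ?_⟩
    have hinj : InjOn j (Iio t) := fun a ha b hb e => hj.toMEmb.inj ha hb e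
    exact hinj.leftInvOn_invFunOn hx
  refine ⟨c, hct.trans ht, ?_⟩
  ext ξ
  rw [mem_Es]
  constructor
  · intro h
    have hξt : ξ < t := (E_lt h).trans hct
    have h1 : E (j ξ) (j c) := (hj.toMEmb.map_E hct hξt).2 h
    rw [hjc] at h1
    have h2 : j ξ ∈ S := by rw [← hc0]; exact h1
    have h3 : ξ < β := (hj.toMEmb.le_self hξt).trans_lt ((hSμ h2).trans hμβ)
    rwa [(hid ξ h3).2] at h2
  · intro h
    have h3 : ξ < β := (hSμ h).trans hμβ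
    obtain ⟨h4, h5⟩ := hid ξ h3
    rw [← hj.toMEmb.map_E hct h4, h5, hjc]
    rw [← hc0] at h
    exact h

end Pool.Agent.Helper4.WC
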