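import Pool.Agent.Helper4.WC.SQ
import Pool.Agent.Helper4.WC.NB
import Pool.Agent.Helper4.WC.COMP

set_option autoImplicit false

/-!
# Case 1: many subsets of some `μ < κ`
-/

open Set Ordinal Cardinal

namespace Pool.Agent.Helper4.WC

open Pool.Agent.Helper4.KSq (IsAcc IsClubIn Square)

/-- `T` is a subset of the element of `S` without a name below `β` -/
def B1 (β : O) (S T : Set O) : Prop :=
  ∃ μ < β, S = {μ} ∧ T ⊆ Iio μ ∧ ∀ c < β, Es c ≠ T

theorem cs1_aux (β : O) (a t : O) :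
    (∃ μ < β, ((∀ y, E y a → y = μ) ∧ E μ a) ∧ (∀ y, E y t → y < μ) ∧
      ∀ c < β, ¬ ((∀ y, E y c → E y t) ∧ (∀ y, E y t → E y c))) ↔ B1 β (Es a) (Es t) := by
  unfold B1
  constructor
  · rintro ⟨μ, hμ, ⟨h1, h2⟩, h3, h4⟩
    refine ⟨μ, hμ, ?_, ?_, ?_⟩
    · ext y
      rw [mem_Es, mem_singleton_iff]
      exact ⟨h1 y, fun h => h ▸ h2⟩
    · intro y hy
      exact h3 y hy
    · intro c hc heq
      refine h4 c hc ⟨fun y hy => ?_, fun y hy => ?_⟩
      · have : y ∈ Es c := hy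
        rw [heq] at this
        exact this
      · have : y ∈ Es t := hy
        rw [← heq] at this
        exact this
  · rintro ⟨μ, hμ, h1, h2, h3⟩
    refine ⟨μ, hμ, ⟨?_, ?_⟩, ?_, ?_⟩
    · intro y hy
      have : y ∈ Es a := hy
      rw [h1, mem_singleton_iff] at this
      exact this
    · have : μ ∈ Es a := by rw [h1]; exact mem_singleton μ
      exact this
    · intro y hy
      exact h2 hy
    · rintro c hc ⟨h4, h5⟩
      apply h3 c hc
      ext y
      exact ⟨h4 y, h5 y⟩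

theorem abs_B1 : Abs (fun v => B1 (v 0) (Es (v 1)) (Es (v 2))) := by
  have h := (((Abs.eq 0 1).allE 2).and (Abs.mem 0 2)).and
    (((Abs.lt 0 1).allE 3).and
      ((((Abs.mem 0 5).allE 0).and ((Abs.mem 0 1).allE 4)).not.ball 1))
  exact (h.bex 0).congr fun v => cs1_aux (v 0) (v 1) (v 2)

theorem case1 {κ : Cardinal.{0}} (hκ : κ.IsRegular) (hu : ℵ₀ < κ)
    (h : ∃ μ < κ.ord, ∀ ν < κ.ord, ∃ S, IsW S ∧ S ⊆ Iio μ ∧ ∀ c < ν, Es c ≠ S) : Square κ := by
  obtain ⟨μ, hμ, h⟩ := h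
  obtain ⟨φ, hφ⟩ := abs_B1
  let X : Ctx :=
    { K := κ.ord
      A := {μ}
      B := B1
      φB := φ
      hB := by
        intro e he β hβ a ha c hc
        refine hφ (Iio e) (Or.inr ⟨e, he, rfl⟩) (cns β (cns a (cns c fun _ => 0))) ?_
        intro i
        have h0 : (0 : O) < e := lt_of_le_of_lt zero_le hβ
        rcases i with _ | _ | _ | i
        · exact hβ
        · exact ha
        · exact hc
        · exact h0 }
  have hXA : X.A = {μ} := rfl
  have hsing : ∀ β : O, μ < β → X.A ∩ Iio β = {μ} := by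
    intro β hβ
    rw [hXA]
    ext y
    simp only [mem_inter_iff, mem_singleton_iff, mem_Iio]
    constructor
    · exact fun h => h.1
    · intro h
      exact ⟨h, h ▸ hβ⟩
  refine square_of_ctx hκ hu (X := X) rfl ?_ ?_ (C := {β | μ < β ∧ β < κ.ord}) ?_ ?_ ?_
  · intro y hy
    rw [hXA, mem_singleton_iff] at hy
    rw [hy]
    exact hμ
  · obtain ⟨c, hc⟩ := comprehension (Q := fun v => v 0 = v 1) (Abs.eq 0 1).defU (fun _ => μ)
      (μ + 1)
    refine ⟨c, ?_⟩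
    rw [hc, hXA]
    ext y
    simp only [mem_ofPred_eq, mem_singleton_iff]
    constructor
    · intro h
      exact h.2
    · intro h
      refine ⟨?_, h⟩
      rw [h]
      exact lt_add_one μ
  · refine ⟨fun β hβ => hβ.2, ?_, ?_⟩
    · intro b hb
      refine ⟨max b μ + 1, ⟨?_, ?_⟩, ?_⟩
      · exact lt_of_le_of_lt (le_max_right b μ) (lt_add_one _)
      · exact ord_lim hκ _ (max_lt hb hμ)
      · exact (le_max_left b μ).trans (le_of_lt (lt_add_one _))
    · rintro b hb ⟨hb0, hacc⟩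
      obtain ⟨c, hc, _, hcb⟩ := hacc 0 hb0
      exact ⟨lt_trans hc.1 hcb, hb⟩
  · rintro β ⟨hβ1, hβ2⟩
    obtain ⟨S, ⟨c, hc⟩, hSμ, hS⟩ := h β hβ2
    refine ⟨c, ?_⟩
    rw [hsing β hβ1, hc]
    exact ⟨μ, hβ1, rfl, hSμ, hS⟩
  · intro D hD c c' hB hlim
    have key : ∀ β ∈ D, μ < β ∧ Es (c β) ⊆ Iio μ ∧ ∀ d < β, Es d ≠ Es (c β) := by
      intro β hβ
      obtain ⟨μ', hμ', h1, h2, h3⟩ := hB β hβ
      have h4 : μ' ∈ X.A ∩ Iio β := by rw [h1]; exact mem_singleton μ'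
      have h5 : μ' = μ := by
        have := h4.1
        rw [hXA, mem_singleton_iff] at this
        exact this
      rw [h5] at hμ' h2
      exact ⟨hμ', h2, h3⟩
    have hG : ∀ β ∈ D, Es (c β) = {ξ | ξ < μ ∧ E ξ c'} := by
      intro β hβ
      obtain ⟨h1, h2, _⟩ := key β hβ
      ext ξ
      simp only [mem_ofPred_eq, mem_Es]
      constructor
      · intro hξ
        have h3 : ξ < μ := h2 hξ
        exact ⟨h3, (hlim β hβ ξ (h3.trans h1)).1 hξ⟩
      · rintro ⟨h3, h4⟩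
        exact (hlim β hβ ξ (h3.trans h1)).2 h4
    obtain ⟨β0, hβ0, _⟩ := hD.2.1 μ hμ
    obtain ⟨c0, hc0, hc0'⟩ := name_lt hκ hu hμ (S := Es (c β0)) ⟨_, rfl⟩ (key β0 hβ0).2.1
    obtain ⟨β, hβ, hle⟩ := hD.2.1 (c0 + 1) (ord_lim hκ _ hc0)
    have h6 : c0 < β := lt_of_lt_of_le (lt_add_one c0) hle
    apply (key β hβ).2.2 c0 h6
    rw [hc0', hG β0 hβ0, hG β hβ]

end Pool.Agent.Helper4.WC
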