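import Pool.Agent.Helper4.WC.CS2d

set_option autoImplicit false

open Set Ordinal Cardinal

namespace Pool.Agent.Helper4.WC

open Pool.Agent.Helper4.KSq (IsAcc IsClubIn Square)

theorem abs_B2 : Abs (fun v => B2 (v 0) (Es (v 1)) (Es (v 2))) := by
  have h1 : Abs (fun v : ℕ → O => ∀ y, E y (v 2) → (cns y v) 0 < (cns y v) 1) :=
    Abs.allE (Abs.lt 0 1) 2
  have h3 : Abs (fun z : ℕ → O => E ((cns (P (z 0) (z 1)) z) 0) ((cns (P (z 0) (z 1)) z) 5)) :=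
    Abs.subP (Abs.mem 0 5) 0 1
  have h4 : Abs (fun z : ℕ → O =>
      (E ((cns (P (z 0) (z 1)) z) 0) ((cns (P (z 0) (z 1)) z) 5) ↔ E (z 0) (z 5))) :=
    Abs.iff h3 (Abs.mem 0 5)
  have h5 := Abs.ball h4 1
  have h6 := Abs.bex (Abs.and (Abs.le 1 0) h5) 1
  have h7 := Abs.ball h6 0
  refine Abs.congr (Abs.and h1 h7) fun v => ?_
  constructor
  · rintro ⟨ha, hb⟩
    exact ⟨fun y hy => ha y hy, fun μ hμ => hb μ hμ⟩
  · rintro ⟨ha, hb⟩
    exact ⟨fun y hy => ha hy, fun μ hμ => hb μ hμ⟩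

end Pool.Agent.Helper4.WC
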