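import Pool.Agent.Helper4.WC.CS2d

set_option autoImplicit false

open Set Ordinal Cardinal

namespace Pool.Agent.Helper4.WC

open Pool.Agent.Helper4.KSq (IsAcc IsClubIn Square)

/-- initial parts of the sets `{η | P η β ∈ Es a}` are named -/
theorem cs2b_named (a β μ : O) : IsW {η | η < μ ∧ E (P η β) a} := by
  have hD : DefU (fun v => E (P (v 0) (v 1)) (v 2)) :=
    ((DefU.dfu_mem 0 3).subP 0 1)
  exact comprehension hD (cns β (cns a (fun _ => 0))) μ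

/-- witnesses on a club -/
theorem exists_B2 {κ : Cardinal.{0}} (hκ : κ.IsRegular) (hu : ℵ₀ < κ)
    (h : ∀ μ < κ.ord, ∃ ν < κ.ord, ∀ S, IsW S → S ⊆ Iio μ → ∃ c < ν, Es c = S) {A : Set O}
    (hA : IsW A) : ∃ D, IsClubIn D κ.ord ∧ ∀ β ∈ D, ∃ c, B2 β (A ∩ Iio β) (Es c) := by
  classical
  obtain ⟨a, rfl⟩ := hA
  have h0 : (0 : O) < κ.ord := lt_of_le_of_lt zero_le (ord_lim hκ 0 (by
    rw [Cardinal.lt_ord, Ordinal.card_zero]
    exact hκ.pos))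
  let r : O → O → O := fun μ c =>
    sInf {ξ | μ ≤ ξ ∧ ξ < κ.ord ∧ ∀ η < μ, (P η ξ ∈ Es a ↔ E η c)}
  have hr : ∀ μ c, r μ c < κ.ord := by
    intro μ c
    by_cases hne : {ξ | μ ≤ ξ ∧ ξ < κ.ord ∧ ∀ η < μ, (P η ξ ∈ Es a ↔ E η c)}.Nonempty
    · exact (csInf_mem hne).2.1
    · have : r μ c = 0 := by
        show sInf _ = 0
        rw [not_nonempty_iff_eq_empty.1 hne]
        exact Ordinal.sInf_empty
      rw [this]
      exact h0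
  have hb : ∀ μ, ∃ b < κ.ord, μ < κ.ord → (∀ S, IsW S → S ⊆ Iio μ → ∃ c, r μ c < b ∧ Es c = S) ∧
      nx μ < b := by
    intro μ
    by_cases hμ : μ < κ.ord
    · obtain ⟨ν, hν, hS⟩ := h μ hμ
      obtain ⟨b, hb1, hb2⟩ := ((smK_Iio hν).image (r μ)).bdd hκ (by
        rintro _ ⟨c, _, rfl⟩
        exact hr μ c)
      refine ⟨max b (nx μ + 1), max_lt hb1 (ord_lim hκ _ (nx_lt_ord hκ hu hμ)), fun _ =>
        ⟨fun S h1 h2 => ?_, lt_max_of_lt_right (lt_add_one _)⟩⟩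
      obtain ⟨c, hc1, hc2⟩ := hS S h1 h2
      exact ⟨c, lt_max_of_lt_left (hb2 _ ⟨c, hc1, rfl⟩), hc2⟩
    · exact ⟨0, h0, fun h => absurd h hμ⟩
  choose ρ hρ1 hρ2 using hb
  refine ⟨_, club_of_fun hκ hu ρ fun δ _ => hρ1 δ, ?_⟩
  rintro β ⟨hβ, hβ0, hcl⟩
  have hCls : Cls β := cls_of_lim fun x hx =>
    ⟨nx x, (((hρ2 x (hx.trans hβ)).2).trans (hcl x hx)).le, lt_nx x, cls_nx x⟩
  obtain ⟨t, ht⟩ := cs2b_named a β β
  refine ⟨t, ?_, ?_⟩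
  · rw [ht]
    exact fun η hη => hη.1
  · intro μ hμ
    obtain ⟨c, hc1, hc2⟩ := (hρ2 μ (hμ.trans hβ)).1 _ (cs2b_named a β μ) (fun η hη => hη.1)
    have hne : {ξ | μ ≤ ξ ∧ ξ < κ.ord ∧ ∀ η < μ, (P η ξ ∈ Es a ↔ E η c)}.Nonempty := by
      refine ⟨β, hμ.le, hβ, fun η hη => ?_⟩
      rw [← mem_Es (c := c), hc2]
      exact ⟨fun h => ⟨hη, h⟩, fun h => h.2⟩
    have hmem := csInf_mem hne
    have hξβ : r μ c < β := hc1.trans (hcl μ hμ)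
    refine ⟨r μ c, hξβ, hmem.1, fun η hη => ?_⟩
    rw [mem_inter_iff, hmem.2.2 η hη, ← mem_Es (c := c), hc2, ht]
    have hP : P η (r μ c) < β := hCls.P_lt (hη.trans hμ) hξβ
    constructor
    · rintro ⟨⟨_, h1⟩, _⟩
      exact ⟨hη.trans hμ, h1⟩
    · rintro ⟨_, h1⟩
      exact ⟨⟨hη, h1⟩, hP⟩

end Pool.Agent.Helper4.WC
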