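import Pool.Agent.Helper4.WC.CS2d

set_option autoImplicit false

open Set Ordinal Cardinal

namespace Pool.Agent.Helper4.WC

open Pool.Agent.Helper4.KSq (IsAcc IsClubIn Square)

/-- `ξ` is a branch point of height `μ` -/
def cs2cR (a g μ ξ : O) : Prop := μ ≤ ξ ∧ ∀ η < μ, (E (P η ξ) a ↔ E η g)

/-- the points of the homogeneous set -/
def cs2cH (a g ξ : O) : Prop :=
  ∃ μ, (∀ ν < μ, ∃ ζ < μ, cs2cR a g ν ζ) ∧ cs2cR a g μ ξ ∧ ∀ ξ' < ξ, ¬ cs2cR a g μ ξ'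

theorem cs2c_defR : DefU (fun w => cs2cR (w 2) (w 3) (w 0) (w 1)) := by
  have h1 : DefU (fun u : ℕ → O => E (P (u 0) (u 2)) (u 3)) :=
    DefU.congr (DefU.subP (Q := fun x => E (x 0) (x 4)) (Abs.mem 0 4).defU 0 2)
      fun v => Iff.rfl
  have h2 : DefU (fun u : ℕ → O => E (P (u 0) (u 2)) (u 3) ↔ E (u 0) (u 4)) :=
    h1.iff (Abs.mem 0 4).defU
  exact DefU.congr ((Abs.le 0 1).defU.and (h2.ball 0)) fun v => Iff.rfl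

theorem cs2c_defH : DefU (fun w => cs2cH (w 1) (w 2) (w 0)) := by
  have hA1 : DefU (fun u : ℕ → O => cs2cR (u 4) (u 5) (u 1) (u 0)) :=
    DefU.congr (cs2c_defR.ren fun i =>
      match i with
      | 0 => 1
      | 1 => 0
      | 2 => 4
      | _ => 5) fun v => Iff.rfl
  have hA2 : DefU (fun u : ℕ → O => ∃ ζ < u 1, cs2cR (u 3) (u 4) (u 0) ζ) :=
    DefU.congr (hA1.bex 1) fun v => Iff.rfl
  have hA : DefU (fun u : ℕ → O => ∀ ν < u 0, ∃ ζ < u 0, cs2cR (u 2) (u 3) ν ζ) :=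
    DefU.congr (hA2.ball 0) fun v => Iff.rfl
  have hC1 : DefU (fun u : ℕ → O => ¬ cs2cR (u 3) (u 4) (u 1) (u 0)) :=
    DefU.congr (cs2c_defR.ren fun i =>
      match i with
      | 0 => 1
      | 1 => 0
      | 2 => 3
      | _ => 4).not fun v => Iff.rfl
  have hC : DefU (fun u : ℕ → O => ∀ ξ' < u 1, ¬ cs2cR (u 2) (u 3) (u 0) ξ') :=
    DefU.congr (hC1.ball 1) fun v => Iff.rfl
  exact DefU.congr (hA.and (cs2c_defR.and hC)).ex fun v => Iff.rfl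

/-- homogeneous sets from branches -/
theorem exists_hom {κ : Cardinal.{0}} (hκ : κ.IsRegular) (hu : ℵ₀ < κ) {A G : Set O}
    (hA : IsW A) (hG : IsW G)
    (h : ∀ μ < κ.ord, ∃ ξ < κ.ord, μ ≤ ξ ∧ ∀ η < μ, (P η ξ ∈ A ↔ η ∈ G)) :
    ∃ H, IsW H ∧ Hom κ.ord A H := by
  obtain ⟨a, rfl⟩ := hA
  obtain ⟨g, rfl⟩ := hG
  have h' : ∀ μ < κ.ord, ∃ ξ < κ.ord, cs2cR a g μ ξ := by
    intro μ hμ
    obtain ⟨ξ, h1, h2, h3⟩ := h μ hμ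
    exact ⟨ξ, h1, h2, h3⟩
  let ρ : O → O := fun μ => sInf {ξ | cs2cR a g μ ξ}
  have hρ : ∀ μ < κ.ord, cs2cR a g μ (ρ μ) := fun μ hμ => by
    obtain ⟨ξ, _, h2⟩ := h' μ hμ
    exact csInf_mem (s := {ξ | cs2cR a g μ ξ}) ⟨ξ, h2⟩
  have hρκ : ∀ μ < κ.ord, ρ μ < κ.ord := fun μ hμ => by
    obtain ⟨ξ, h1, h2⟩ := h' μ hμ
    exact lt_of_le_of_lt (csInf_le' (s := {ξ | cs2cR a g μ ξ}) h2) h1
  have hρmin : ∀ μ, ∀ ξ < ρ μ, ¬ cs2cR a g μ ξ := fun μ ξ hξ h2 =>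
    absurd (csInf_le' (s := {ξ | cs2cR a g μ ξ}) h2) (not_le.2 hξ)
  -- the set is unbounded
  have hunb : ∀ α < κ.ord, ∃ β < κ.ord, cs2cH a g β ∧ α ≤ β := by
    intro α hα
    obtain ⟨β, ⟨hβ, _, hβρ⟩, hαβ⟩ := (club_of_fun hκ hu ρ hρκ).2.1 α hα
    refine ⟨ρ β, hρκ β hβ, ⟨β, fun ν hν => ⟨ρ ν, hβρ ν hν, hρ ν (hν.trans hβ)⟩, hρ β hβ,
      fun ξ hξ => hρmin β ξ hξ⟩, hαβ.trans (hρ β hβ).1⟩
  -- homogeneity
  have hhom : ∀ η ξ, cs2cH a g η → cs2cH a g ξ → η < ξ → (E (P η ξ) a ↔ E η g) := by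
    rintro η ξ ⟨μ, hμ1, hμ2, hμ3⟩ ⟨μ', hμ1', hμ2', hμ3'⟩ hlt
    have hμμ' : μ < μ' := by
      by_contra hcon
      rw [not_lt] at hcon
      exact hμ3' η hlt ⟨hcon.trans hμ2.1, fun x hx => hμ2.2 x (hx.trans_le hcon)⟩
    obtain ⟨ζ, hζ, hζR⟩ := hμ1' μ hμμ'
    have hηζ : η ≤ ζ := by
      by_contra hcon
      rw [not_le] at hcon
      exact hμ3 ζ hcon hζR
    exact hμ2'.2 η (hηζ.trans_lt hζ)
  -- the two sets
  let v : ℕ → O := fun i => match i with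
    | 0 => a
    | _ => g
  have hd1 : DefU (fun w : ℕ → O => cs2cH (w 1) (w 2) (w 0) ∧ E (w 0) (w 2)) :=
    cs2c_defH.and (Abs.mem 0 2).defU
  have hd2 : DefU (fun w : ℕ → O => cs2cH (w 1) (w 2) (w 0) ∧ ¬ E (w 0) (w 2)) :=
    cs2c_defH.and (Abs.mem 0 2).defU.not
  have hw1 : IsW {ξ | ξ < κ.ord ∧ (cs2cH a g ξ ∧ E ξ g)} := comprehension hd1 v κ.ord
  have hw2 : IsW {ξ | ξ < κ.ord ∧ (cs2cH a g ξ ∧ ¬ E ξ g)} := comprehension hd2 v κ.ord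
  by_cases hc : ∀ α < κ.ord, ∃ β ∈ {ξ | ξ < κ.ord ∧ (cs2cH a g ξ ∧ E ξ g)}, α ≤ β
  · refine ⟨_, hw1, fun x hx => hx.1, hc, Or.inl ?_⟩
    intro α hα β hβ hlt
    exact (hhom α β hα.2.1 hβ.2.1 hlt).2 hα.2.2
  · push Not at hc
    obtain ⟨α1, hα1, hc⟩ := hc
    refine ⟨_, hw2, fun x hx => hx.1, ?_, Or.inr ?_⟩
    · intro α hα
      obtain ⟨β, hβ, hβH, hαβ⟩ := hunb (max α α1) (max_lt hα hα1)
      refine ⟨β, ⟨hβ, hβH, fun hβg => ?_⟩, (le_max_left _ _).trans hαβ⟩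
      exact absurd (hc β ⟨hβ, hβH, hβg⟩) (not_lt.2 ((le_max_right _ _).trans hαβ))
    · intro α hα β hβ hlt hmem
      exact hα.2.2 ((hhom α β hα.2.1 hβ.2.1 hlt).1 hmem)

end Pool.Agent.Helper4.WC
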