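import Pool.Agent.Helper4.WC.SQ
import Pool.Agent.Helper4.WC.CS2a
import Pool.Agent.Helper4.WC.CS2b
import Pool.Agent.Helper4.WC.CS2c

set_option autoImplicit false

open Set Ordinal Cardinal

namespace Pool.Agent.Helper4.WC

open Pool.Agent.Helper4.KSq (IsAcc IsClubIn Square)

theorem case2 {κ : Cardinal.{0}} (hκ : κ.IsRegular) (hu : ℵ₀ < κ)
    (h : ∀ μ < κ.ord, ∃ ν < κ.ord, ∀ S, IsW S → S ⊆ Iio μ → ∃ c < ν, Es c = S) {A : Set O}
    (hA : IsW A) (hAK : A ⊆ Iio κ.ord) (hno : ¬ ∃ H, IsW H ∧ Hom κ.ord A H) : Square κ := by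
  obtain ⟨φ, hφ⟩ := abs_B2
  obtain ⟨C, hCl, hC⟩ := exists_B2 hκ hu h hA
  let X : Ctx :=
    { K := κ.ord
      A := A
      B := B2
      φB := φ
      hB := by
        intro e he β hβ a ha c hc
        have h0 : 0 < e := lt_of_le_of_lt (zero_le (a := β)) hβ
        refine hφ (Iio e) (Or.inr ⟨e, he, rfl⟩) (cns β (cns a (cns c fun _ => 0))) ?_
        intro i
        rcases i with _ | _ | _ | i
        · exact hβ
        · exact ha
        · exact hc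
        · exact h0 }
  refine square_of_ctx hκ hu (X := X) rfl hAK hA hCl hC ?_
  intro D hD c c' hB hE
  refine hno (exists_hom hκ hu hA ⟨c', rfl⟩ fun μ hμ => ?_)
  have hcl := club_inter hκ hu hD (club_of_fun hκ hu nx fun δ hδ => nx_lt_ord hκ hu hδ)
  obtain ⟨β, ⟨hβD, hβκ, _, hβn⟩, hμβ⟩ := hcl.2.1 (μ + 1) (ord_lim hκ μ hμ)
  have hμβ' : μ < β := lt_of_lt_of_le (lt_add_one μ) hμβ
  have hcls : Cls β := cls_of_lim fun x hx => ⟨nx x, (hβn x hx).le, lt_nx x, cls_nx x⟩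
  obtain ⟨_, h2⟩ := hB β hβD
  obtain ⟨ξ, hξβ, hμξ, hξ⟩ := h2 μ hμβ'
  refine ⟨ξ, hξβ.trans hβκ, hμξ, fun η hη => ?_⟩
  have hηβ : η < β := hη.trans hμβ'
  have h3 := hξ η hη
  have h4 : P η ξ ∈ A ∩ Iio β ↔ P η ξ ∈ A :=
    ⟨fun h => h.1, fun h => ⟨h, hcls.P_lt hηβ hξβ⟩⟩
  have h5 : η ∈ Es (c β) ↔ η ∈ Es c' := hE β hβD η hηβ
  exact h4.symm.trans (h3.trans h5)

end Pool.Agent.Helper4.WC
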