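import Pool.Agent.Helper4.WC.CLb
import Pool.Agent.Helper4.WC.COMP

set_option autoImplicit false

/-!
# Case 2: few subsets of all `μ < κ`
-/

open Set Ordinal Cardinal

namespace Pool.Agent.Helper4.WC

open Pool.Agent.Helper4.KSq (IsAcc IsClubIn Square)

/-- `H` is an unbounded subset of `κ`, homogeneous for the colouring given by `A` -/
def Hom (κ : O) (A H : Set O) : Prop :=
  H ⊆ Iio κ ∧ (∀ α < κ, ∃ β ∈ H, α ≤ β) ∧
    ((∀ α ∈ H, ∀ β ∈ H, α < β → P α β ∈ A) ∨ (∀ α ∈ H, ∀ β ∈ H, α < β → P α β ∉ A))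

/-- `T` is a cofinal branch of the tree of the colouring given by `S` -/
def B2 (β : O) (S T : Set O) : Prop :=
  T ⊆ Iio β ∧ ∀ μ < β, ∃ ξ < β, μ ≤ ξ ∧ ∀ η < μ, (P η ξ ∈ S ↔ η ∈ T)

end Pool.Agent.Helper4.WC
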