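import Pool.Agent.Helper4.WC.Cd0

set_option autoImplicit false

/-!
# Codes of triples by ordinals
-/

open Set Ordinal

namespace Pool.Agent.Helper4.WC

/-- the code of the triple `(a, n, x)`, where `x ≤ a` -/
noncomputable def cd : O → ℕ → O → O := Classical.choose exists_cd

theorem cd_lt {a x a' x' : O} {n n' : ℕ} (hx : x ≤ a) (hx' : x' ≤ a')
    (h : a < a' ∨ (a = a' ∧ (n < n' ∨ (n = n' ∧ x < x')))) : cd a n x < cd a' n' x' :=
  (Classical.choose_spec exists_cd).1 a n x a' n' x' hx hx' h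

theorem cd_surj (c : O) : ∃ a n x, x ≤ a ∧ cd a n x = c :=
  (Classical.choose_spec exists_cd).2 c

/-- first component of the triple with code `c` -/
noncomputable def cA (c : O) : O := Classical.choose (cd_surj c)

/-- second component of the triple with code `c` -/
noncomputable def cN (c : O) : ℕ := Classical.choose (Classical.choose_spec (cd_surj c))

/-- third component of the triple with code `c` -/
noncomputable def cX (c : O) : O :=
  Classical.choose (Classical.choose_spec (Classical.choose_spec (cd_surj c)))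

theorem cX_le_cA (c : O) : cX c ≤ cA c :=
  (Classical.choose_spec (Classical.choose_spec (Classical.choose_spec (cd_surj c)))).1

@[simp] theorem cd_dec (c : O) : cd (cA c) (cN c) (cX c) = c :=
  (Classical.choose_spec (Classical.choose_spec (Classical.choose_spec (cd_surj c)))).2

theorem cd_lt_iff {a x a' x' : O} {n n' : ℕ} (hx : x ≤ a) (hx' : x' ≤ a') :
    cd a n x < cd a' n' x' ↔ a < a' ∨ (a = a' ∧ (n < n' ∨ (n = n' ∧ x < x'))) := by
  refine ⟨fun h => ?_, cd_lt hx hx'⟩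
  rcases lt_trichotomy a a' with h1 | h1 | h1
  · exact Or.inl h1
  · subst h1
    rcases lt_trichotomy n n' with h2 | h2 | h2
    · exact Or.inr ⟨rfl, Or.inl h2⟩
    · subst h2
      rcases lt_trichotomy x x' with h3 | h3 | h3
      · exact Or.inr ⟨rfl, Or.inr ⟨rfl, h3⟩⟩
      · subst h3
        exact absurd h (lt_irrefl _)
      · exact absurd h (not_lt.2 (cd_lt hx' hx (Or.inr ⟨rfl, Or.inr ⟨rfl, h3⟩⟩)).le)
    · exact absurd h (not_lt.2 (cd_lt hx' hx (Or.inr ⟨rfl, Or.inl h2⟩)).le)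
  · exact absurd h (not_lt.2 (cd_lt hx' hx (Or.inl h1)).le)

theorem cd_inj {a x a' x' : O} {n n' : ℕ} (hx : x ≤ a) (hx' : x' ≤ a')
    (h : cd a n x = cd a' n' x') : a = a' ∧ n = n' ∧ x = x' := by
  have h1 := mt (cd_lt_iff hx hx').2 (not_lt.2 h.ge)
  have h2 := mt (cd_lt_iff hx' hx).2 (not_lt.2 h.le)
  push Not at h1 h2
  have ha : a = a' := le_antisymm h2.1 h1.1
  subst ha
  have h3 := h1.2 rfl
  have h4 := h2.2 rfl
  have hn : n = n' := le_antisymm h4.1 h3.1
  subst hn
  exact ⟨rfl, rfl, le_antisymm (h4.2 rfl) (h3.2 rfl)⟩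

theorem cA_cd {a x : O} {n : ℕ} (hx : x ≤ a) : cA (cd a n x) = a :=
  (cd_inj (cX_le_cA _) hx (cd_dec (cd a n x))).1

theorem cN_cd {a x : O} {n : ℕ} (hx : x ≤ a) : cN (cd a n x) = n :=
  (cd_inj (cX_le_cA _) hx (cd_dec (cd a n x))).2.1

theorem cX_cd {a x : O} {n : ℕ} (hx : x ≤ a) : cX (cd a n x) = x :=
  (cd_inj (cX_le_cA _) hx (cd_dec (cd a n x))).2.2

theorem le_cd {a x : O} {n : ℕ} (hx : x ≤ a) : a ≤ cd a n x := by
  have hs : StrictMono (fun a : O => cd a 0 0) := fun a b h =>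
    cd_lt zero_le zero_le (Or.inl h)
  have h1 : a ≤ cd a 0 0 := hs.le_apply
  refine h1.trans ?_
  by_contra hcon
  push Not at hcon
  rw [cd_lt_iff hx zero_le] at hcon
  rcases hcon with h | ⟨_, h | ⟨_, h⟩⟩
  · exact lt_irrefl _ h
  · exact absurd h (Nat.not_lt_zero _)
  · exact absurd h (not_lt.2 zero_le)

theorem cA_le (c : O) : cA c ≤ c := by
  conv_rhs => rw [← cd_dec c]
  exact le_cd (cX_le_cA c)

theorem cX_le (c : O) : cX c ≤ c := (cX_le_cA c).trans (cA_le c)

@[simp] theorem cd_zero : cd 0 0 0 = 0 := by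
  by_contra hcon
  obtain ⟨a, n, x, hx, hc⟩ := cd_surj 0
  have h1 : cd a n x < cd 0 0 0 := by
    rw [hc]
    exact pos_iff_ne_zero.2 hcon
  rw [cd_lt_iff hx le_rfl] at h1
  rcases h1 with h | ⟨_, h | ⟨_, h⟩⟩
  · exact absurd h (not_lt.2 zero_le)
  · exact absurd h (Nat.not_lt_zero _)
  · exact absurd h (not_lt.2 zero_le)

@[simp] theorem cA_zero : cA 0 = 0 := by
  have := cA_cd (a := 0) (x := 0) (n := 0) le_rfl
  rwa [cd_zero] at this

@[simp] theorem cN_zero : cN 0 = 0 := by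
  have := cN_cd (a := 0) (x := 0) (n := 0) le_rfl
  rwa [cd_zero] at this

@[simp] theorem cX_zero : cX 0 = 0 := by
  have := cX_cd (a := 0) (x := 0) (n := 0) le_rfl
  rwa [cd_zero] at this

/-! ## Closed ordinals -/

/-- `e` is closed under codes -/
def Cls (e : O) : Prop := cA e = e

theorem cls_zero : Cls 0 := cA_zero

theorem cls_iff {e : O} : Cls e ↔ ∀ a < e, ∀ n, ∀ x ≤ a, cd a n x < e := by
  constructor
  · intro he a ha n x hx
    have h1 : cd a n x < cd (cA e) (cN e) (cX e) := by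
      refine cd_lt hx (cX_le_cA e) (Or.inl ?_)
      rwa [show cA e = e from he]
    rwa [cd_dec] at h1
  · intro h
    by_contra hcon
    have h1 : cA e < e := lt_of_le_of_ne (cA_le e) hcon
    have h2 := h (cA e) h1 (cN e) (cX e) (cX_le_cA e)
    rw [cd_dec] at h2
    exact lt_irrefl _ h2

theorem Cls.cd_lt {e : O} (he : Cls e) {a x : O} {n : ℕ} (ha : a < e) (hx : x ≤ a) :
    cd a n x < e := cls_iff.1 he a ha n x hx

theorem Cls.cd_self {e : O} (he : Cls e) : cd e 0 0 = e := by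
  refine le_antisymm ?_ (le_cd zero_le)
  by_contra hcon
  push Not at hcon
  have h1 : cd (cA e) (cN e) (cX e) < cd e 0 0 := by rwa [cd_dec]
  rw [cd_lt_iff (cX_le_cA e) zero_le] at h1
  rcases h1 with h | ⟨_, h | ⟨_, h⟩⟩
  · exact absurd h (by rw [show cA e = e from he]; exact lt_irrefl _)
  · exact absurd h (Nat.not_lt_zero _)
  · exact absurd h (not_lt.2 zero_le)

theorem Cls.cN_eq {e : O} (he : Cls e) : cN e = 0 := by
  have := cN_cd (a := e) (x := 0) (n := 0) zero_le
  rwa [he.cd_self] at this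

theorem Cls.cX_eq {e : O} (he : Cls e) : cX e = 0 := by
  have := cX_cd (a := e) (x := 0) (n := 0) zero_le
  rwa [he.cd_self] at this

/-- a step function -/
noncomputable def tt (u : O) : O := cd u 1 0

theorem lt_tt (u : O) : u < tt u :=
  (le_cd (n := 0) (zero_le (a := u))).trans_lt
    (cd_lt zero_le zero_le (Or.inr ⟨rfl, Or.inl Nat.zero_lt_one⟩))

theorem tt_lt_tt {u v : O} (h : u < v) : tt u < tt v := cd_lt (zero_le) (zero_le) (Or.inl h)

/-- the least closed ordinal above `c` -/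
noncomputable def nx (c : O) : O := ⨆ k : ℕ, tt^[k] c

theorem cdaux_le_nx (c : O) (k : ℕ) : tt^[k] c ≤ nx c :=
  Ordinal.le_iSup (fun k : ℕ => tt^[k] c) k

theorem lt_nx (c : O) : c < nx c :=
  (lt_tt c).trans_le (cdaux_le_nx c 1)

theorem cls_nx (c : O) : Cls (nx c) := by
  rw [cls_iff]
  intro a ha n x hx
  have h1 : ∃ k : ℕ, a < tt^[k] c := Ordinal.lt_iSup_iff.1 ha
  obtain ⟨k, hk⟩ := h1
  refine lt_of_lt_of_le ?_ (cdaux_le_nx c (k + 1))
  rw [Function.iterate_succ_apply']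
  exact cd_lt hx zero_le (Or.inl hk)

theorem lt_nx_iff {c ξ : O} : ξ < nx c ↔ ∃ k : ℕ, ξ < tt^[k] c :=
  Ordinal.lt_iSup_iff

theorem nx_le {c e : O} (he : Cls e) (h : c < e) : nx c ≤ e := by
  refine Ordinal.iSup_le fun k => ?_
  have : tt^[k] c < e := by
    induction k with
    | zero => simpa using h
    | succ k ih =>
      rw [Function.iterate_succ_apply']
      exact cls_iff.1 he _ ih 1 0 zero_le
  exact this.le

theorem nx_mono {c d : O} (h : c ≤ d) : nx c ≤ nx d :=
  nx_le (cls_nx d) (h.trans_lt (lt_nx d))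

theorem Cls.tt_lt {e : O} (he : Cls e) {u : O} (hu : u < e) : tt u < e := he.cd_lt hu (zero_le)

/-- a closed ordinal which is not `0` is a limit ordinal -/
theorem Cls.isSuccLimit {e : O} (he : Cls e) (h : 0 < e) : Order.IsSuccLimit e := by
  rw [Ordinal.isSuccLimit_iff]
  refine ⟨h.ne', ?_⟩
  rw [Order.isSuccPrelimit_iff_succ_lt]
  intro u hu
  exact lt_of_le_of_lt (Order.succ_le_of_lt (lt_tt u)) (he.tt_lt hu)

theorem Cls.add_one_lt {e : O} (he : Cls e) {u : O} (hu : u < e) : u + 1 < e :=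
  lt_of_le_of_lt (Order.add_one_le_of_lt (lt_tt u)) (he.tt_lt hu)

/-- limits of closed ordinals are closed -/
theorem cls_of_lim {e : O} (h : ∀ x < e, ∃ z ≤ e, x < z ∧ Cls z) : Cls e := by
  rw [cls_iff]
  intro a ha n x hx
  obtain ⟨z, hz, haz, hc⟩ := h a ha
  exact (hc.cd_lt haz hx).trans_le hz

end Pool.Agent.Helper4.WC
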