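import Mathlib

set_option autoImplicit false

/-!
# Enumeration of triples
-/

open Set Ordinal

namespace Pool.Agent.Helper4.WC

/-- ordinals -/
abbrev O : Type 1 := Ordinal.{0}

/-- the start of the block of codes with first component `a` -/
noncomputable def cd0Th : O → O :=
  WellFounded.fix (C := fun _ => O) (lt_wf : WellFounded ((· < ·) : O → O → Prop))
    fun a rec => ⨆ b : Iio a, (rec b.1 b.2 + (b.1 + 1) * ω)

theorem cd0Th_eq (a : O) : cd0Th a = ⨆ b : Iio a, (cd0Th b + (b.1 + 1) * ω) := by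
  conv_lhs => unfold cd0Th
  rw [WellFounded.fix_eq]
  rfl

theorem cd0Th_le {a b : O} (h : b < a) : cd0Th b + (b + 1) * ω ≤ cd0Th a := by
  rw [cd0Th_eq a]
  exact Ordinal.le_iSup (fun b : Iio a => cd0Th b + (b.1 + 1) * ω) ⟨b, h⟩

theorem cd0_aux {a x : O} {n : ℕ} (hx : x ≤ a) : (a + 1) * n + x < (a + 1) * (n + 1 : ℕ) := by
  have h1 : x < a + 1 := lt_of_le_of_lt hx (lt_add_one a)
  have h2 : (a + 1) * ((n + 1 : ℕ) : O) = (a + 1) * n + (a + 1) := by
    push_cast
    rw [mul_add, mul_one]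
  rw [h2]
  gcongr

theorem cd0_aux2 {a x : O} {n : ℕ} (hx : x ≤ a) : (a + 1) * n + x < (a + 1) * ω :=
  lt_of_lt_of_le (cd0_aux hx) (by gcongr; exact (natCast_lt_omega0 _).le)

/-- the triples `(a, n, x)` with `x ≤ a`, ordered lexicographically, are enumerated by the ordinals -/
theorem exists_cd : ∃ cd : O → ℕ → O → O,
    (∀ a n x a' n' x', x ≤ a → x' ≤ a' → (a < a' ∨ (a = a' ∧ (n < n' ∨ (n = n' ∧ x < x')))) →
      cd a n x < cd a' n' x') ∧
    (∀ c, ∃ a n x, x ≤ a ∧ cd a n x = c) := by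
  refine ⟨fun a n x => cd0Th a + ((a + 1) * n + x), ?_, ?_⟩
  · intro a n x a' n' x' hx hx' h
    dsimp only
    rcases h with h | ⟨rfl, h | ⟨rfl, h⟩⟩
    · calc cd0Th a + ((a + 1) * n + x) < cd0Th a + (a + 1) * ω := by
            gcongr
            exact cd0_aux2 hx
        _ ≤ cd0Th a' := cd0Th_le h
        _ ≤ _ := le_self_add
    · have h1 : (a + 1) * n + x < (a + 1) * n' + x' :=
        calc (a + 1) * n + x < (a + 1) * (n + 1 : ℕ) := cd0_aux hx
          _ ≤ (a + 1) * n' := by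
            gcongr
            exact_mod_cast h
          _ ≤ _ := le_self_add
      gcongr
    · gcongr
  · intro c
    have hne : {a : O | c < cd0Th a + (a + 1) * ω}.Nonempty := by
      refine ⟨c, ?_⟩
      have h1 : c + 1 ≤ (c + 1) * ω := Ordinal.le_mul_left _ omega0_pos
      exact lt_of_lt_of_le (lt_add_one c) (h1.trans (le_add_self))
    set a := sInf {a : O | c < cd0Th a + (a + 1) * ω} with ha
    have hmem : c < cd0Th a + (a + 1) * ω := csInf_mem hne
    have hlow : cd0Th a ≤ c := by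
      by_contra hcon
      push Not at hcon
      rw [cd0Th_eq a] at hcon
      rw [Ordinal.lt_iSup_iff] at hcon
      obtain ⟨b, hb⟩ := hcon
      exact absurd (csInf_le' (s := {a : O | c < cd0Th a + (a + 1) * ω}) hb) (not_le.2 b.2)
    obtain ⟨ρ, hρ⟩ := exists_add_of_le hlow
    have hρ2 : ρ < (a + 1) * ω := by
      rw [hρ] at hmem
      exact lt_of_add_lt_add_left hmem
    have hpos : a + 1 ≠ 0 := by
      simp
    have hq : ρ / (a + 1) < ω := (Ordinal.lt_mul_iff_div_lt hpos).1 hρ2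
    obtain ⟨n, hn⟩ := lt_omega0.1 hq
    refine ⟨a, n, ρ % (a + 1), ?_, ?_⟩
    · have := Ordinal.mod_lt ρ hpos
      exact Order.lt_add_one_iff.1 this
    · dsimp only
      rw [← hn, Ordinal.div_add_mod]
      exact hρ.symm

end Pool.Agent.Helper4.WC
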