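import Pool.Agent.Helper4.WC.EmbE

set_option autoImplicit false

open Set Ordinal

namespace Pool.Agent.Helper4.WC

/-- small sets have increasing enumerations -/
theorem cnd_enum {s : O} {X : Set O} (hX : ∀ c ∈ X, c < s) :
    ∃ (t : O) (j : O → O), StrictMono j ∧ (∀ b, b < t ↔ j b < s) ∧
      ∀ c, (∃ b < t, j b = c) ↔ c ∈ X := by
  have hub : ¬ BddAbove (X ∪ Ici s) := by
    rintro ⟨u, hu⟩
    have h1 := hu (show max u s + 1 ∈ X ∪ Ici s from
      Or.inr ((le_max_right u s).trans (le_self_add)))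
    exact absurd h1 (not_le.2 (lt_of_le_of_lt (le_max_left u s) (lt_add_one _)))
  have hm : StrictMono (enumOrd (X ∪ Ici s)) := enumOrd_strictMono hub
  have hr : range (enumOrd (X ∪ Ici s)) = X ∪ Ici s := range_enumOrd hub
  have hne : {b | s ≤ enumOrd (X ∪ Ici s) b}.Nonempty := ⟨s, hm.le_apply⟩
  have ht : ∀ b, b < sInf {b | s ≤ enumOrd (X ∪ Ici s) b} ↔ enumOrd (X ∪ Ici s) b < s := by
    intro b
    constructor
    · intro h1
      by_contra hcon
      exact absurd (csInf_le' (s := {b | s ≤ enumOrd (X ∪ Ici s) b}) (not_lt.1 hcon)) (not_le.2 h1)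
    · intro h1
      by_contra hcon
      have h2 : s ≤ enumOrd (X ∪ Ici s) (sInf {b | s ≤ enumOrd (X ∪ Ici s) b}) := csInf_mem hne
      exact absurd (h2.trans (hm.monotone (not_lt.1 hcon))) (not_le.2 h1)
  refine ⟨sInf {b | s ≤ enumOrd (X ∪ Ici s) b}, enumOrd (X ∪ Ici s), hm, ht, fun c => ?_⟩
  constructor
  · rintro ⟨b, hb, rfl⟩
    have h1 : enumOrd (X ∪ Ici s) b ∈ X ∪ Ici s :=
      hr.subset (mem_range_self b)
    rcases h1 with h1 | h1
    · exact h1
    · exact absurd ((ht b).1 hb) (not_lt.2 h1)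
  · intro hc
    have h1 : c ∈ range (enumOrd (X ∪ Ici s)) := by
      rw [hr]
      exact Or.inl hc
    obtain ⟨b, hb⟩ := h1
    exact ⟨b, (ht b).2 (by rw [hb]; exact hX c hc), hb⟩

theorem cnd_ext {c d : O} (h1 : cA c = cA d) (h2 : cN c = cN d) (h3 : cX c = cX d) : c = d := by
  rw [← cd_dec c, h1, h2, h3, cd_dec]

/-- the collapse preserves codes -/
theorem cnd_codes {s t : O} {X : Set O} (hX : IsCl s X) {j : O → O} (hm : StrictMono j)
    (hr : ∀ c, (∃ b < t, j b = c) ↔ c ∈ X) :
    ∀ b < t, cA (j b) = j (cA b) ∧ cN (j b) = cN b ∧ cX (j b) = j (cX b) := by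
  intro b
  induction b using WellFoundedLT.induction with
  | ind b ih =>
    intro hb
    have hjb : j b ∈ X := (hr _).1 ⟨b, hb, rfl⟩
    obtain ⟨a, hat, ha⟩ := (hr _).2 (hX.fst _ hjb)
    obtain ⟨x, hxt, hx⟩ := (hr _).2 (hX.snd _ hjb)
    have hxa : x ≤ a := by
      rw [← hm.le_iff_le, ha, hx]
      exact cX_le_cA _
    have hab : a ≤ b := by
      rw [← hm.le_iff_le, ha]
      exact cA_le _
    have key : cd a (cN (j b)) x = b := by
      rcases lt_trichotomy (cd a (cN (j b)) x) b with h1 | h1 | h1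
      · exfalso
        obtain ⟨h2, h3, h4⟩ := ih _ h1 (h1.trans hb)
        rw [cA_cd hxa, ha] at h2
        rw [cN_cd hxa] at h3
        rw [cX_cd hxa, hx] at h4
        have h5 : j (cd a (cN (j b)) x) = j b := cnd_ext h2 h3 h4
        exact h1.ne (hm.injective h5)
      · exact h1
      · exfalso
        have hlex : cA b < a ∨ (cA b = a ∧ (cN b < cN (j b) ∨ (cN b = cN (j b) ∧ cX b < x))) := by
          rw [← cd_lt_iff (cX_le_cA b) hxa, cd_dec]
          exact h1
        have hAt : cA b < t := (cA_le b).trans_lt hb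
        have hXt : cX b < t := (cX_le b).trans_lt hb
        have h2 : cd (j (cA b)) (cN b) (j (cX b)) < j b := by
          conv_rhs => rw [← cd_dec (j b), ← ha, ← hx]
          refine cd_lt (hm.monotone (cX_le_cA b)) (hm.monotone hxa) ?_
          rcases hlex with h3 | ⟨h3, h4 | ⟨h4, h5⟩⟩
          · exact Or.inl (hm h3)
          · exact Or.inr ⟨by rw [h3], Or.inl h4⟩
          · exact Or.inr ⟨by rw [h3], Or.inr ⟨h4, hm h5⟩⟩
        have h3 : cd (j (cA b)) (cN b) (j (cX b)) ∈ X :=
          hX.cod _ ((hr _).1 ⟨_, hAt, rfl⟩) _ ((hr _).1 ⟨_, hXt, rfl⟩)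
            (hm.monotone (cX_le_cA b)) _ (h2.trans (hX.lt _ hjb))
        obtain ⟨b', hb't, hb'⟩ := (hr _).2 h3
        have hb'b : b' < b := by
          rw [← hm.lt_iff_lt, hb']
          exact h2
        obtain ⟨h4, h5, h6⟩ := ih b' hb'b hb't
        rw [hb', cA_cd (hm.monotone (cX_le_cA b))] at h4
        rw [hb', cN_cd (hm.monotone (cX_le_cA b))] at h5
        rw [hb', cX_cd (hm.monotone (cX_le_cA b))] at h6
        have h7 : b' = b := by
          rw [← cd_dec b', ← cd_dec b, ← hm.injective h4, ← h5, ← hm.injective h6]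
        exact hb'b.ne h7
    have hA : cA b = a := by
      rw [← key, cA_cd hxa]
    have hN : cN b = cN (j b) := by
      conv_lhs => rw [← key]
      rw [cN_cd hxa]
    have hXX : cX b = x := by
      rw [← key, cX_cd hxa]
    rw [hA, hXX, ha, hx]
    exact ⟨rfl, hN.symm, rfl⟩

/-- condensation -/
theorem condensation {s : O} {X : Set O} (hX : IsCl s X) :
    ∃ (t : O) (j : O → O), CEmb t s j ∧ ∀ c, (∃ b < t, j b = c) ↔ c ∈ X := by
  obtain ⟨t, j, hm, ht, hr⟩ := cnd_enum hX.lt
  have hcod := cnd_codes hX hm hr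
  have hF : ∀ b < t, F (j b) = j (F b) := by
    intro b
    induction b using WellFoundedLT.induction with
    | ind b ih =>
      intro hb
      obtain ⟨hA, hN, hXX⟩ := hcod b hb
      have hjb : j b ∈ X := (hr _).1 ⟨b, hb, rfl⟩
      have h0 : j 0 = 0 := by
        obtain ⟨b0, _, hb0⟩ := (hr 0).2 (hX.zero (lt_of_le_of_lt zero_le (hX.lt _ hjb)))
        exact le_antisymm ((hm.monotone (zero_le (a := b0))).trans hb0.le) zero_le
      have hM : MEmb b s j :=
        { lt := fun c hc => (ht c).1 (hc.trans hb)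
          mono := fun c _ d hd => hm hd
          fst := fun c hc => (hcod c (hc.trans hb)).1
          num := fun c hc => (hcod c (hc.trans hb)).2.1
          snd := fun c hc => (hcod c (hc.trans hb)).2.2
          fn := fun c hc => ih c hc (hc.trans hb) }
      have hEb : ∀ ξ, E (j ξ) (j b) ↔ E ξ b := by
        intro ξ
        by_cases hN2 : cN b < 2
        · have : ∀ ξ c, cN c < 2 → ¬ E ξ c := by
            intro ξ c hc hE
            rw [E_iff] at hE
            rcases hE with ⟨h1, _⟩ | ⟨k, h1, _⟩ <;> omega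
          exact ⟨fun h => absurd h (this _ _ (by rw [hN]; exact hN2)),
            fun h => absurd h (this _ _ hN2)⟩
        · by_cases hξ : ξ < b
          · have hAb : cA b < b := by
              refine (le_cd (n := 0) (zero_le (a := cA b))).trans_lt ?_
              conv_rhs => rw [← cd_dec b]
              exact cd_lt zero_le (cX_le_cA b) (Or.inr ⟨rfl, Or.inl (by omega)⟩)
            refine hM.embe_step hA hN hXX hAb ?_ ?_ hξ
            · intro n hn x hx
              conv_rhs => rw [← cd_dec b]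
              exact cd_lt hx.le (cX_le_cA b) (Or.inr ⟨rfl, Or.inl hn⟩)
            · intro d hd ξ' hξ'
              exact hM.map_E (hd.trans hAb) (hξ'.trans hAb)
          · refine ⟨fun h => absurd (E_lt h) ?_, fun h => absurd (E_lt h) hξ⟩
            rw [hm.lt_iff_lt]
            exact hξ
      by_cases hex : ∃ ξ, E ξ (j b)
      · have h1 := F_mem hex
        obtain ⟨b', _, hb'⟩ := (hr _).2 (hX.fn _ hjb)
        rw [← hb'] at h1
        have h2 := (hEb b').1 h1
        have h3 := F_mem ⟨b', h2⟩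
        have h4 := F_le ((hEb _).2 h3)
        refine le_antisymm h4 ?_
        rw [← hb']
        exact hm.monotone (F_le h2)
      · push Not at hex
        rw [F_eq_zero hex, F_eq_zero (fun ξ h => hex _ ((hEb ξ).2 h)), h0]
  refine ⟨t, j, ?_, hr⟩
  refine { lt := fun c hc => (ht c).1 hc
           mono := fun c _ d hd => hm hd
           fst := fun c hc => (hcod c hc).1
           num := fun c hc => (hcod c hc).2.1
           snd := fun c hc => (hcod c hc).2.2
           fn := hF
           back := ?_ }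
  intro a ha x hx n h
  have h1 := hX.cod _ ((hr _).1 ⟨a, ha, rfl⟩) _ ((hr _).1 ⟨x, hx.trans_lt ha, rfl⟩)
    (hm.monotone hx) n h
  obtain ⟨b, hb, hb'⟩ := (hr _).2 h1
  obtain ⟨h4, h5, h6⟩ := hcod b hb
  rw [hb', cA_cd (hm.monotone hx)] at h4
  rw [hb', cN_cd (hm.monotone hx)] at h5
  rw [hb', cX_cd (hm.monotone hx)] at h6
  have h7 : b = cd a n x := by
    rw [← cd_dec b, ← hm.injective h4, ← h5, ← hm.injective h6]
  rw [← h7]
  exact hb

/-- the part below a point -/
theorem range_id {s t : O} {X : Set O} {j : O → O} (hj : CEmb t s j)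
    (hr : ∀ c, (∃ b < t, j b = c) ↔ c ∈ X) {β : O} (hβ : ∀ x < β, x ∈ X) :
    ∀ x < β, x < t ∧ j x = x := by
  intro x
  induction x using WellFoundedLT.induction with
  | ind x ih =>
    intro hx
    obtain ⟨b, hb, hbx⟩ := (hr x).2 (hβ x hx)
    have h1 : b ≤ x := by
      rw [← hbx]
      exact hj.toMEmb.le_self hb
    rcases h1.lt_or_eq with h2 | h2
    · have h3 := (ih b h2 (h2.trans hx)).2
      rw [hbx] at h3
      exact absurd h3 h2.ne'
    · rw [h2] at hb hbx
      exact ⟨hb, hbx⟩

/-- the first point above an initial segment -/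
theorem range_pt {s t : O} {X : Set O} {j : O → O} (hj : CEmb t s j)
    (hr : ∀ c, (∃ b < t, j b = c) ↔ c ∈ X) {γ β : O} (hγ : ∀ x < γ, x ∈ X) (hβ : β ∈ X)
    (hγβ : γ ≤ β) (h : ∀ x ∈ X, x < β → x < γ) : γ < t ∧ j γ = β := by
  have hid := range_id hj hr hγ
  obtain ⟨b, hb, hbβ⟩ := (hr β).2 hβ
  rcases lt_trichotomy b γ with h1 | h1 | h1
  · have h2 := (hid b h1).2
    rw [hbβ] at h2
    exact absurd (h1.trans_le hγβ) (by rw [h2]; exact lt_irrefl _)
  · subst h1
    exact ⟨hb, hbβ⟩
  · have h2 : γ < t := h1.trans hb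
    have h3 : j γ < β := by
      rw [← hbβ]
      exact hj.mono b hb γ h1
    have h4 := h (j γ) ((hr _).1 ⟨γ, h2, rfl⟩) h3
    exact absurd h4 (not_lt.2 (hj.toMEmb.le_self h2))

end Pool.Agent.Helper4.WC
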