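import Pool.Agent.Helper4.WC.ADefs

set_option autoImplicit false

/-!
# The parameters of a point
-/

open Set Ordinal

namespace Pool.Agent.Helper4.WC

open Pool.Agent.Helper4.KSq (IsAcc IsClubIn)

/-- a set `A` of ordinals, and a property `B β S T` of an ordinal and two sets of ordinals which is
definable at all closed levels -/
structure Ctx : Type 1 where
  K : O
  A : Set O
  B : O → Set O → Set O → Prop
  φB : Fml
  hB : ∀ e, Cls e → ∀ β < e, ∀ a < e, ∀ c < e,
    (Sat (Iio e) E φB (cns β (cns a (cns c fun _ => 0))) ↔ B β (Es a) (Es c))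

namespace Ctx

variable (X : Ctx)

/-- the least name of `A ∩ β` -/
noncomputable def aa (β : O) : O := sInf {a | Es a = X.A ∩ Iio β}

/-- the least name of a witness for `β` -/
noncomputable def cc (β : O) : O := sInf {c | X.B β (X.A ∩ Iio β) (Es c)}

noncomputable def e0 (β : O) : O := nx (max (X.aa β) β)

noncomputable def e1 (β : O) : O := nx (X.e0 β)

noncomputable def eB (β : O) : O := nx (max (max (X.aa β) (X.cc β)) β)

noncomputable def s2 (β : O) : O := nx (X.eB β)

/-- the good points -/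
structure Nice (β : O) : Prop where
  pos : 0 < β
  lim : ∀ x < β, ∃ z < β, x < z ∧ Cls z
  hasA : ∃ a, Es a = X.A ∩ Iio β
  hasC : ∃ c, X.B β (X.A ∩ Iio β) (Es c)
  low : ∀ s ≤ X.e1 β, Bd β s

variable {X}

theorem Nice.cls {β : O} (h : X.Nice β) : Cls β := by
  refine cls_of_lim fun x hx => ?_
  obtain ⟨z, hz, hxz, hcl⟩ := h.lim x hx
  exact ⟨z, hz.le, hxz, hcl⟩

theorem Nice.blim {β : O} (h : X.Nice β) : ∀ x < β, ∃ y < β, x < y := fun x hx => by
  obtain ⟨z, hz, hxz, _⟩ := h.lim x hx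
  exact ⟨z, hz, hxz⟩

theorem Nice.Es_aa {β : O} (h : X.Nice β) : Es (X.aa β) = X.A ∩ Iio β :=
  csInf_mem (s := {a | Es a = X.A ∩ Iio β}) h.hasA

theorem aa_le {β a : O} (h : Es a = X.A ∩ Iio β) : X.aa β ≤ a :=
  csInf_le' (s := {a | Es a = X.A ∩ Iio β}) h

theorem Nice.B_cc {β : O} (h : X.Nice β) : X.B β (X.A ∩ Iio β) (Es (X.cc β)) :=
  csInf_mem (s := {c | X.B β (X.A ∩ Iio β) (Es c)}) h.hasC

theorem cc_le {β c : O} (h : X.B β (X.A ∩ Iio β) (Es c)) : X.cc β ≤ c :=
  csInf_le' (s := {c | X.B β (X.A ∩ Iio β) (Es c)}) h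

/-- the formula `v 0` and `v 1` name the same set -/
def ctxSame : Fml :=
  .imp (.ex (.imp (.imp (.mem 0 1) (.mem 0 2)) (.imp (.imp (.mem 0 2) (.mem 0 1)) .bot))) .bot

theorem ctx_same {e a a' : O} (ha : a < e) (ha' : a' < e) (v : ℕ → O) :
    Sat (Iio e) E ctxSame (cns a' (cns a v)) ↔ Es a' = Es a := by
  have h1 : Sat (Iio e) E ctxSame (cns a' (cns a v)) ↔
      ¬ ∃ y ∈ Iio e, ((E y a' → E y a) → (E y a → E y a') → False) := Iff.rfl
  rw [h1]
  constructor
  · intro h
    ext y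
    constructor
    · intro hy
      by_contra hcon
      exact h ⟨y, (E_lt hy).trans ha', fun h2 => absurd (h2 hy) hcon⟩
    · intro hy
      by_contra hcon
      exact h ⟨y, (E_lt hy).trans ha, fun _ h2 => absurd (h2 hy) hcon⟩
  · rintro h ⟨y, -, hy⟩
    have h2 : E y a' ↔ E y a := by
      have h3 : y ∈ Es a' ↔ y ∈ Es a := by rw [h]
      exact h3
    exact hy h2.1 h2.2

/-- embeddings with a common part preserve names of initial segments of `A` -/
theorem ctx_Es {β γ t r a : O} {j : O → O} (hj : MEmb t r j)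
    (hid : ∀ x < γ, j x = x) (hγ : γ < t) (htop : j γ = β) (ha : a < t)
    (ja : Es (j a) = X.A ∩ Iio β) : Es a = X.A ∩ Iio γ := by
  ext ξ
  constructor
  · intro h1
    have hξ : ξ < t := (E_lt h1).trans ha
    have h2 : j ξ ∈ Es (j a) := (hj.map_Es ha hξ).2 h1
    rw [ja] at h2
    have h3 : ξ < γ := by
      rw [← hj.lt_iff hξ hγ, htop]
      exact h2.2
    rw [hid ξ h3] at h2
    exact ⟨h2.1, h3⟩
  · rintro ⟨h1, h2⟩
    have hξ : ξ < t := lt_trans h2 hγ
    have h3 : ξ < β := by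
      rw [← htop, ← hid ξ h2]
      exact hj.mono γ hγ ξ h2
    have h4 : j ξ ∈ Es (j a) := by
      rw [ja, hid ξ h2]
      exact ⟨h1, h3⟩
    exact (hj.map_Es ha hξ).1 h4

theorem ctx_map_max {t r a γ : O} {j : O → O} (hj : MEmb t r j) (ha : a < t) (hγ : γ < t) :
    j (max a γ) = max (j a) (j γ) := by
  rcases le_total a γ with h | h
  · rw [max_eq_right h, max_eq_right ((hj.le_iff ha hγ).2 h)]
  · rw [max_eq_left h, max_eq_left ((hj.le_iff hγ ha).2 h)]

/-- minimality of names is preserved downwards -/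
theorem ctx_aa {β γ t r a e : O} {j : O → O} (hj : MEmb t r j)
    (hid : ∀ x < γ, j x = x) (hγ : γ < t) (htop : j γ = β) (ha : a < t)
    (ja : j a = X.aa β) (hEs : Es (j a) = X.A ∩ Iio β) (he : Cls e) (hae : a < e)
    (hes : nx e ≤ t) : X.aa γ = a := by
  have h1 : Es a = X.A ∩ Iio γ := ctx_Es hj hid hγ htop ha hEs
  refine le_antisymm (aa_le h1) ?_
  by_contra hcon
  push Not at hcon
  have h2 : Es (X.aa γ) = X.A ∩ Iio γ :=
    csInf_mem (s := {a | Es a = X.A ∩ Iio γ}) ⟨a, h1⟩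
  have h0 : 0 < e := lt_of_le_of_lt zero_le hae
  have hx : P (X.aa γ) (P a 0) < e := he.P_lt (hcon.trans hae) (he.P_lt hae h0)
  have het : e < t := (lt_nx e).trans_le hes
  have h3 := hj.map_sat he hes ctxSame hx
  rw [hj.map_P (hx.trans het), hj.map_P ((he.P_lt hae h0).trans het), dec_P, dec_P, dec_P, dec_P,
    ctx_same hae (hcon.trans hae), ctx_same (hj.mono e het a hae)
      (hj.mono e het _ (hcon.trans hae))] at h3
  have h4 := h3.2 (by rw [h1, h2])
  rw [hEs] at h4
  have h5 := aa_le h4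
  rw [← ja] at h5
  exact absurd (hj.mono a ha _ hcon) (not_lt.2 h5)

/-- parameters below the singularising location -/
theorem par_low {β γ t r a e e' : O} {j : O → O} (hβ : X.Nice β) (hj : MEmb t r j)
    (hid : ∀ x < γ, j x = x) (hγ : γ < t) (htop : j γ = β) (ha : a < t) (he : e < t)
    (he' : e' < t) (ja : j a = X.aa β) (je : j e = X.e0 β) (je' : j e' = X.e1 β) :
    X.aa γ = a ∧ X.e0 γ = e ∧ X.e1 γ = e' := by
  have hEs : Es (j a) = X.A ∩ Iio β := by rw [ja, hβ.Es_aa]
  have h1 : e = nx (max a γ) := by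
    refine hj.nx_eq he (max_lt ha hγ) ?_
    rw [je, ctx_map_max hj ha hγ, ja, htop]
    rfl
  have h2 : e' = nx e := by
    refine hj.nx_eq he' he ?_
    rw [je', je]
    rfl
  have h3 : X.aa γ = a := by
    refine ctx_aa hj hid hγ htop ha ja hEs (e := e) ?_ ?_ ?_
    · rw [h1]
      exact cls_nx _
    · rw [h1]
      exact (le_max_left a γ).trans_lt (lt_nx _)
    · rw [← h2]
      exact he'.le
  have h4 : X.e0 γ = e := by
    show nx (max (X.aa γ) γ) = e
    rw [h3, h1]
  refine ⟨h3, h4, ?_⟩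
  show nx (X.e0 γ) = e'
  rw [h4, h2]

end Ctx

end Pool.Agent.Helper4.WC
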