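import Pool.Agent.Helper4.WC.Ctx

set_option autoImplicit false

open Set Ordinal

namespace Pool.Agent.Helper4.WC

open Pool.Agent.Helper4.KSq (IsAcc IsClubIn)

/-- the formula saying that `v 0` and `v 1` name the same set -/
def cty_θ : Fml :=
  .imp (.ex (.imp (.imp (.imp (.imp (.mem 0 1) (.mem 0 2))
    (.imp (.imp (.mem 0 2) (.mem 0 1)) .bot)) .bot) .bot)) .bot

theorem cty_sat_θ {e : O} {a b : O} (ha : a < e) (hb : b < e) (v : ℕ → O) :
    Sat (Iio e) E cty_θ (cns a (cns b v)) ↔ Es a = Es b := by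
  have h1 : Sat (Iio e) E cty_θ (cns a (cns b v)) ↔ ¬ ∃ y < e, ¬ (E y a ↔ E y b) := by
    unfold cty_θ
    simp only [Sat, cns_zero, mem_Iio]
    have hc1 : ∀ y, cns y (cns a (cns b v)) 1 = a := fun y => rfl
    have hc2 : ∀ y, cns y (cns a (cns b v)) 2 = b := fun y => rfl
    simp only [hc1, hc2]
    refine not_congr (exists_congr fun y => and_congr_right fun _ => ?_)
    tauto
  rw [h1]
  push Not
  constructor
  · intro h
    ext ξ
    simp only [mem_Es]
    constructor
    · intro h2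
      exact (h ξ ((E_lt h2).trans ha)).1 h2
    · intro h2
      exact (h ξ ((E_lt h2).trans hb)).2 h2
  · intro h y _
    have h2 : y ∈ Es a ↔ y ∈ Es b := by rw [h]
    exact h2

theorem cty_dec0 : dec 0 = fun _ => 0 := by
  funext i
  exact dec_zero i

/-- equality of named sets is preserved -/
theorem cty_Es_eq {t r e a b : O} {j : O → O} (M : MEmb t r j) (he : Cls e) (het : nx e ≤ t)
    (ha : a < e) (hb : b < e) (h : Es a = Es b) : Es (j a) = Es (j b) := by
  have hes : e < t := (lt_nx e).trans_le het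
  have h0 : 0 < e := lt_of_le_of_lt zero_le ha
  have hx1 : P b 0 < e := he.P_lt hb h0
  have hx : P a (P b 0) < e := he.P_lt ha hx1
  have h1 := M.map_sat he het cty_θ hx
  rw [M.map_P (hx.trans hes), M.map_P (hx1.trans hes), dec_P, dec_P, dec_P, dec_P,
    cty_sat_θ (M.mono e hes a ha) (M.mono e hes b hb), cty_sat_θ ha hb] at h1
  exact h1.2 h

/-- the set named by the preimage -/
theorem cty_Es {A : Set O} {t r a β γ : O} {j : O → O} (M : MEmb t r j)
    (hid : ∀ x < γ, j x = x) (hγ : γ < t) (htop : j γ = β) (ha : a < t)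
    (hA : Es (j a) = A ∩ Iio β) : Es a = A ∩ Iio γ := by
  ext ξ
  rw [mem_Es]
  constructor
  · intro h
    have hξ : ξ < t := (E_lt h).trans ha
    have h1 : j ξ ∈ Es (j a) := (M.map_E ha hξ).2 h
    rw [hA] at h1
    have h2 : j ξ < j γ := by
      rw [htop]
      exact h1.2
    have h3 : ξ < γ := (M.lt_iff hξ hγ).1 h2
    rw [hid ξ h3] at h1
    exact ⟨h1.1, h3⟩
  · rintro ⟨h1, h2⟩
    have h2' : ξ < γ := h2
    have hξ : ξ < t := h2'.trans hγ
    have h3 : j ξ < β := by
      rw [← htop]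
      exact M.mono γ hγ ξ h2'
    have h4 : j ξ ∈ Es (j a) := by
      rw [hA]
      refine ⟨?_, h3⟩
      rw [hid ξ h2']
      exact h1
    exact (M.map_E ha hξ).1 h4

theorem cty_max {t r a b : O} {j : O → O} (M : MEmb t r j) (ha : a < t) (hb : b < t) :
    j (max a b) = max (j a) (j b) := by
  rcases le_total a b with h | h
  · rw [max_eq_right h, max_eq_right ((M.le_iff ha hb).2 h)]
  · rw [max_eq_left h, max_eq_left ((M.le_iff hb ha).2 h)]

namespace Ctx

variable {X : Ctx}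

/-- the property `B` is preserved -/
theorem cty_B {t r e γ a c : O} {j : O → O} (M : MEmb t r j) (he : Cls e) (het : nx e ≤ t)
    (hγ : γ < e) (ha : a < e) (hc : c < e) :
    X.B (j γ) (Es (j a)) (Es (j c)) ↔ X.B γ (Es a) (Es c) := by
  have hes : e < t := (lt_nx e).trans_le het
  have h0 : 0 < e := lt_of_le_of_lt zero_le ha
  have hx1 : P c 0 < e := he.P_lt hc h0
  have hx2 : P a (P c 0) < e := he.P_lt ha hx1
  have hx : P γ (P a (P c 0)) < e := he.P_lt hγ hx2
  have h1 := M.map_sat he het X.φB hx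
  rw [M.map_P (hx.trans hes), M.map_P (hx2.trans hes), M.map_P (hx1.trans hes),
    M.zero (h0.trans hes), dec_P, dec_P, dec_P, dec_P, dec_P, dec_P, cty_dec0,
    X.hB _ ((M.cls hes).2 he) _ (M.mono e hes γ hγ) _ (M.mono e hes a ha) _ (M.mono e hes c hc),
    X.hB _ he _ hγ _ ha _ hc] at h1
  exact h1

/-- parameters at the location `s2` -/
theorem par_mid {β γ t a c e : O} {j : O → O} (hβ : X.Nice β) (hj : CEmb t (X.s2 β) j)
    (hid : ∀ x < γ, j x = x) (hγ : γ < t) (htop : j γ = β) (ha : a < t) (hc : c < t) (he : e < t)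
    (ja : j a = X.aa β) (jc : j c = X.cc β) (je : j e = X.eB β) :
    X.aa γ = a ∧ X.cc γ = c ∧ X.eB γ = e ∧ X.s2 γ = t := by
  have M : MEmb t (X.s2 β) j := hj.toMEmb
  have hte : t = nx e := hj.nx_top he (by rw [je]; rfl)
  have hcl : Cls e := by
    rw [← M.cls he, je]
    exact cls_nx _
  have hmt : max (max a c) γ < t := max_lt (max_lt ha hc) hγ
  have hen : e = nx (max (max a c) γ) := by
    refine M.nx_eq he hmt ?_
    rw [cty_max M (max_lt ha hc) hγ, cty_max M ha hc, ja, jc, htop, je]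
    rfl
  have hlt : max (max a c) γ < e := by
    conv_rhs => rw [hen]
    exact lt_nx _
  have hae : a < e := ((le_max_left a c).trans (le_max_left _ γ)).trans_lt hlt
  have hce : c < e := ((le_max_right a c).trans (le_max_left _ γ)).trans_lt hlt
  have hγe : γ < e := (le_max_right _ γ).trans_lt hlt
  have het : nx e ≤ t := hte.ge
  have hEsa : Es (j a) = X.A ∩ Iio β := by
    rw [ja]
    exact hβ.Es_aa
  have hEs : Es a = X.A ∩ Iio γ := cty_Es M hid hγ htop ha hEsa
  have h1 : X.aa γ = a := by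
    refine le_antisymm (aa_le hEs) ?_
    by_contra hcon
    rw [not_le] at hcon
    have hm : Es (X.aa γ) = X.A ∩ Iio γ := by
      have : sInf {a | Es a = X.A ∩ Iio γ} ∈ {a | Es a = X.A ∩ Iio γ} := csInf_mem ⟨a, hEs⟩
      exact this
    have h2 := cty_Es_eq M hcl het (hcon.trans hae) hae (hm.trans hEs.symm)
    have h3 : X.aa β ≤ j (X.aa γ) := aa_le (h2.trans hEsa)
    have h4 : j (X.aa γ) < j a := M.mono a ha _ hcon
    rw [ja] at h4
    exact absurd h4 (not_lt.2 h3)
  have hB : X.B γ (X.A ∩ Iio γ) (Es c) := by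
    rw [← hEs, ← cty_B M hcl het hγe hae hce, htop, hEsa, jc]
    exact hβ.B_cc
  have h5 : X.cc γ = c := by
    refine le_antisymm (cc_le hB) ?_
    by_contra hcon
    rw [not_le] at hcon
    have hm : X.B γ (X.A ∩ Iio γ) (Es (X.cc γ)) := by
      have : sInf {c | X.B γ (X.A ∩ Iio γ) (Es c)} ∈ {c | X.B γ (X.A ∩ Iio γ) (Es c)} :=
        csInf_mem ⟨c, hB⟩
      exact this
    rw [← hEs, ← cty_B M hcl het hγe hae (hcon.trans hce), htop, hEsa] at hm
    have h3 : X.cc β ≤ j (X.cc γ) := cc_le hm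
    have h4 : j (X.cc γ) < j c := M.mono c hc _ hcon
    rw [jc] at h4
    exact absurd h4 (not_lt.2 h3)
  have h6 : X.eB γ = e := by
    unfold eB
    rw [h1, h5]
    exact hen.symm
  refine ⟨h1, h5, h6, ?_⟩
  unfold s2
  rw [h6]
  exact hte.symm

/-- witnesses are reflected upwards -/
theorem par_up {β γ t r : O} {j : O → O} (hβ : X.Nice β) (hγ : X.Nice γ) (hj : MEmb t r j)
    (hid : ∀ x < γ, j x = x) (hγt : γ < t) (htop : j γ = β) (ja : j (X.aa γ) = X.aa β)
    (hs : X.s2 γ < t) : X.s2 β < r := by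
  have hcl : Cls (X.eB γ) := cls_nx _
  have hlt : max (max (X.aa γ) (X.cc γ)) γ < X.eB γ := lt_nx _
  have hae : X.aa γ < X.eB γ := ((le_max_left _ _).trans (le_max_left _ γ)).trans_lt hlt
  have hce : X.cc γ < X.eB γ := ((le_max_right _ _).trans (le_max_left _ γ)).trans_lt hlt
  have hγe : γ < X.eB γ := (le_max_right _ γ).trans_lt hlt
  have hes : X.eB γ < X.s2 γ := lt_nx _
  have het : nx (X.eB γ) ≤ t := hs.le
  have hest : X.eB γ < t := hes.trans hs
  have hB : X.B β (X.A ∩ Iio β) (Es (j (X.cc γ))) := by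
    have h1 : X.B γ (Es (X.aa γ)) (Es (X.cc γ)) := by
      rw [hγ.Es_aa]
      exact hγ.B_cc
    rw [← cty_B hj hcl het hγe hae hce, htop, ja, hβ.Es_aa] at h1
    exact h1
  have h1 : X.cc β ≤ j (X.cc γ) := cc_le hB
  have h2 : X.cc β < j (X.eB γ) := h1.trans_lt (hj.mono _ hest _ hce)
  have h3 : X.aa β < j (X.eB γ) := by
    rw [← ja]
    exact hj.mono _ hest _ hae
  have h4 : β < j (X.eB γ) := by
    rw [← htop]
    exact hj.mono _ hest _ hγe
  have h5 : X.eB β ≤ j (X.eB γ) :=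
    nx_le ((hj.cls hest).2 hcl) (max_lt (max_lt h3 h2) h4)
  have h6 : X.s2 β ≤ j (X.s2 γ) :=
    nx_le ((hj.cls hs).2 (cls_nx _)) (h5.trans_lt (hj.mono _ hs _ hes))
  exact h6.trans_lt (hj.lt _ hs)

end Ctx

end Pool.Agent.Helper4.WC
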