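import Pool.Agent.Helper4.WC.Cd

set_option autoImplicit false

/-!
# Direct limits
-/

open Set Ordinal

namespace Pool.Agent.Helper4.WC

open Classical in
/-- the maps of the system, with the identities -/
noncomputable def dl0J (J : O → O → O → O) (b c x : O) : O := if b = c then x else J b c x

section

variable {D : Set O} {S : O → O} {J : O → O → O → O}

theorem dl0_self (b x : O) : dl0J J b b x = x := if_pos rfl

theorem dl0_ne {b c : O} (h : b < c) (x : O) : dl0J J b c x = J b c x := if_neg h.ne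

theorem dl0_lt (hlt : ∀ b ∈ D, ∀ c ∈ D, b < c → ∀ x < S b, J b c x < S c) {b c x : O}
    (hb : b ∈ D) (hc : c ∈ D) (hbc : b ≤ c) (hx : x < S b) : dl0J J b c x < S c := by
  rcases hbc.eq_or_lt with rfl | h
  · rwa [dl0_self]
  · rw [dl0_ne h]
    exact hlt b hb c hc h x hx

theorem dl0_mono (hmono : ∀ b ∈ D, ∀ c ∈ D, b < c → ∀ x < S b, ∀ y < x, J b c y < J b c x)
    {b c x y : O} (hb : b ∈ D) (hc : c ∈ D) (hbc : b ≤ c) (hx : x < S b) (hy : y < x) :
    dl0J J b c y < dl0J J b c x := by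
  rcases hbc.eq_or_lt with rfl | h
  · rwa [dl0_self, dl0_self]
  · rw [dl0_ne h, dl0_ne h]
    exact hmono b hb c hc h x hx y hy

theorem dl0_mono_iff (hmono : ∀ b ∈ D, ∀ c ∈ D, b < c → ∀ x < S b, ∀ y < x, J b c y < J b c x)
    {b c x y : O} (hb : b ∈ D) (hc : c ∈ D) (hbc : b ≤ c) (hx : x < S b) (hy : y < S b) :
    dl0J J b c y < dl0J J b c x ↔ y < x := by
  refine ⟨fun h => ?_, dl0_mono hmono hb hc hbc hx⟩
  by_contra hcon
  rcases (not_lt.1 hcon).eq_or_lt with h1 | h1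
  · rw [h1] at h
    exact lt_irrefl _ h
  · exact lt_asymm h (dl0_mono hmono hb hc hbc hy h1)

theorem dl0_comm (hcomm : ∀ b ∈ D, ∀ c ∈ D, ∀ d ∈ D, b < c → c < d → ∀ x < S b,
    J c d (J b c x) = J b d x) {b c d x : O}
    (hb : b ∈ D) (hc : c ∈ D) (hd : d ∈ D) (hbc : b ≤ c) (hcd : c ≤ d) (hx : x < S b) :
    dl0J J c d (dl0J J b c x) = dl0J J b d x := by
  rcases hbc.eq_or_lt with rfl | h
  · rw [dl0_self]
  · rcases hcd.eq_or_lt with rfl | h'
    · rw [dl0_self]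
    · rw [dl0_ne h, dl0_ne h', dl0_ne (h.trans h')]
      exact hcomm b hb c hc d hd h h' x hx

/-- the order of the elements of the system -/
def dl0R (D : Set O) (S : O → O) (J : O → O → O → O) (p q : Σ b : D, Iio (S b.1)) : Prop :=
  dl0J J p.1 (max p.1.1 q.1.1) p.2 < dl0J J q.1 (max p.1.1 q.1.1) q.2

theorem dl0R_iff (hlt : ∀ b ∈ D, ∀ c ∈ D, b < c → ∀ x < S b, J b c x < S c)
    (hmono : ∀ b ∈ D, ∀ c ∈ D, b < c → ∀ x < S b, ∀ y < x, J b c y < J b c x)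
    (hcomm : ∀ b ∈ D, ∀ c ∈ D, ∀ d ∈ D, b < c → c < d → ∀ x < S b, J c d (J b c x) = J b d x)
    (p q : Σ b : D, Iio (S b.1)) {d : O} (hd : d ∈ D) (hp : p.1.1 ≤ d) (hq : q.1.1 ≤ d) :
    dl0R D S J p q ↔ dl0J J p.1 d p.2 < dl0J J q.1 d q.2 := by
  have hm : max p.1.1 q.1.1 ∈ D := by
    rcases max_choice p.1.1 q.1.1 with h | h
    · rw [h]
      exact p.1.2
    · rw [h]
      exact q.1.2
  have hmd : max p.1.1 q.1.1 ≤ d := max_le hp hq
  unfold dl0R
  rw [← dl0_comm hcomm p.1.2 hm hd (le_max_left _ _) hmd p.2.2,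
    ← dl0_comm hcomm q.1.2 hm hd (le_max_right _ _) hmd q.2.2]
  exact (dl0_mono_iff hmono hm hd hmd (dl0_lt hlt q.1.2 hm (le_max_right _ _) q.2.2)
    (dl0_lt hlt p.1.2 hm (le_max_left _ _) p.2.2)).symm

end

/-- the limit of a system of increasing maps, as an ordinal -/
theorem exists_limit {D : Set O} (hsm : Small.{0} D) (hne : D.Nonempty)
    (hcount : ∀ f : ℕ → O, (∀ n, f n ∈ D) → ∃ b ∈ D, ∀ n, f n ≤ b)
    (S : O → O) (J : O → O → O → O)
    (hlt : ∀ b ∈ D, ∀ c ∈ D, b < c → ∀ x < S b, J b c x < S c)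
    (hmono : ∀ b ∈ D, ∀ c ∈ D, b < c → ∀ x < S b, ∀ y < x, J b c y < J b c x)
    (hcomm : ∀ b ∈ D, ∀ c ∈ D, ∀ d ∈ D, b < c → c < d → ∀ x < S b, J c d (J b c x) = J b d x) :
    ∃ (T : O) (K : O → O → O), (∀ b ∈ D, ∀ x < S b, K b x < T) ∧
      (∀ b ∈ D, ∀ x < S b, ∀ y < x, K b y < K b x) ∧
      (∀ b ∈ D, ∀ c ∈ D, b < c → ∀ x < S b, K c (J b c x) = K b x) ∧
      ∀ t < T, ∃ b ∈ D, ∃ x < S b, K b x = t := by
  classical
  have hwf : WellFounded (dl0R D S J) := by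
    rw [wellFounded_iff_isEmpty_descending_chain]
    refine ⟨fun ⟨f, hf⟩ => ?_⟩
    obtain ⟨d, hd, hfd⟩ := hcount (fun n => (f n).1.1) (fun n => (f n).1.2)
    have h1 : ∀ n, dl0J J (f (n + 1)).1 d (f (n + 1)).2 < dl0J J (f n).1 d (f n).2 := fun n =>
      (dl0R_iff hlt hmono hcomm (f (n + 1)) (f n) hd (hfd (n + 1)) (hfd n)).1 (hf n)
    have h2 : IsEmpty {g : ℕ → O // ∀ n, g (n + 1) < g n} :=
      wellFounded_iff_isEmpty_descending_chain.1 (lt_wf : WellFounded ((· < ·) : O → O → Prop))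
    exact h2.false ⟨fun n => dl0J J (f n).1 d (f n).2, h1⟩
  let Q := Σ b : D, Iio (S b.1)
  let e : Q ≃ Shrink.{0} Q := equivShrink Q
  let r : Shrink.{0} Q → Shrink.{0} Q → Prop := fun a b => dl0R D S J (e.symm a) (e.symm b)
  have : IsWellFounded (Shrink.{0} Q) r := ⟨InvImage.wf e.symm hwf⟩
  let rk : Q → O := fun q => IsWellFounded.rank r (e q)
  have hrk : ∀ p q : Q, dl0R D S J p q → rk p < rk q := by
    intro p q hpq
    refine IsWellFounded.rank_lt_of_rel ?_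
    show dl0R D S J (e.symm (e p)) (e.symm (e q))
    rwa [e.symm_apply_apply, e.symm_apply_apply]
  have hrk2 : ∀ p q : Q, (∀ a, dl0R D S J a p → dl0R D S J a q) → rk p ≤ rk q := by
    intro p q hpq
    show IsWellFounded.rank r (e p) ≤ IsWellFounded.rank r (e q)
    rw [IsWellFounded.rank_eq]
    refine Ordinal.iSup_le fun a => ?_
    refine Order.succ_le_of_lt (IsWellFounded.rank_lt_of_rel ?_)
    have h1 : dl0R D S J (e.symm a.1) (e.symm (e p)) := a.2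
    show dl0R D S J (e.symm a.1) (e.symm (e q))
    rw [e.symm_apply_apply] at h1 ⊢
    exact hpq _ h1
  let T : O := ⨆ q : Shrink.{0} Q, Order.succ (IsWellFounded.rank r q)
  let K : O → O → O := fun b x =>
    if h : b ∈ D ∧ x < S b then rk ⟨⟨b, h.1⟩, ⟨x, h.2⟩⟩ else 0
  have hK : ∀ {b x : O} (hb : b ∈ D) (hx : x < S b), K b x = rk ⟨⟨b, hb⟩, ⟨x, hx⟩⟩ :=
    fun hb hx => dif_pos ⟨hb, hx⟩
  refine ⟨T, K, ?_, ?_, ?_, ?_⟩
  · intro b hb x hx
    rw [hK hb hx]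
    exact lt_of_lt_of_le (Order.lt_succ _)
      (Ordinal.le_iSup (fun q : Shrink.{0} Q => Order.succ (IsWellFounded.rank r q)) _)
  · intro b hb x hx y hy
    rw [hK hb hx, hK hb (hy.trans hx)]
    refine hrk _ _ ?_
    rw [dl0R_iff hlt hmono hcomm _ _ hb le_rfl le_rfl]
    show dl0J J b b y < dl0J J b b x
    rwa [dl0_self, dl0_self]
  · intro b hb c hc hbc x hx
    have hJ : J b c x < S c := hlt b hb c hc hbc x hx
    rw [hK hc hJ, hK hb hx]
    have key : ∀ a : Q, dl0R D S J a ⟨⟨c, hc⟩, ⟨J b c x, hJ⟩⟩ ↔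
        dl0R D S J a ⟨⟨b, hb⟩, ⟨x, hx⟩⟩ := by
      intro a
      have hm : max a.1.1 c ∈ D := by
        rcases max_choice a.1.1 c with h | h
        · rw [h]
          exact a.1.2
        · rw [h]
          exact hc
      rw [dl0R_iff hlt hmono hcomm _ _ hm (le_max_left _ _) (le_max_right a.1.1 c),
        dl0R_iff hlt hmono hcomm a ⟨⟨b, hb⟩, ⟨x, hx⟩⟩ hm (le_max_left _ _)
          (hbc.le.trans (le_max_right a.1.1 c))]
      have h1 := dl0_comm hcomm hb hc hm hbc.le (le_max_right a.1.1 c) hx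
      rw [dl0_ne hbc] at h1
      show dl0J J a.1 (max a.1.1 c) a.2 < dl0J J c (max a.1.1 c) (J b c x) ↔ _
      rw [h1]
    exact le_antisymm (hrk2 _ _ fun a => (key a).1) (hrk2 _ _ fun a => (key a).2)
  · intro t ht
    obtain ⟨q, hq⟩ := Ordinal.lt_iSup_iff.1 ht
    obtain ⟨q', hq'⟩ := IsWellFounded.mem_range_rank_of_le (Order.lt_succ_iff.1 hq)
    refine ⟨(e.symm q').1.1, (e.symm q').1.2, (e.symm q').2.1, (e.symm q').2.2, ?_⟩
    rw [hK (e.symm q').1.2 (e.symm q').2.2]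
    show IsWellFounded.rank r (e (e.symm q')) = t
    rw [e.apply_symm_apply, hq']

end Pool.Agent.Helper4.WC
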