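import Pool.Agent.Helper4.WC.Cnd
import Pool.Agent.Helper4.WC.DL0

set_option autoImplicit false

open Set Ordinal

namespace Pool.Agent.Helper4.WC

section

variable {D : Set O} {S : O → O} {J : O → O → O → O}

theorem dl_memb (hJ : ∀ b ∈ D, ∀ c ∈ D, b < c → MEmb (S b) (S c) (J b c)) {b c : O}
    (hb : b ∈ D) (hc : c ∈ D) (hbc : b ≤ c) : MEmb (S b) (S c) (dl0J J b c) := by
  rcases hbc.eq_or_lt with rfl | h
  · have h1 : dl0J J b b = fun x => x := funext fun x => dl0_self b x
    rw [h1]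
    exact ⟨fun c hc => hc, fun c _ d hd => hd, fun _ _ => rfl, fun _ _ => rfl, fun _ _ => rfl,
      fun _ _ => rfl⟩
  · have h1 : dl0J J b c = J b c := funext fun x => dl0_ne h x
    rw [h1]
    exact hJ b hb c hc h

theorem dl_max {b c : O} (hb : b ∈ D) (hc : c ∈ D) : max b c ∈ D := by
  rcases max_choice b c with h | h
  · rwa [h]
  · rwa [h]

variable {T : O} {K : O → O → O}

theorem dl_K (hK3 : ∀ b ∈ D, ∀ c ∈ D, b < c → ∀ x < S b, K c (J b c x) = K b x) {b c : O}
    (hb : b ∈ D) (hc : c ∈ D) (hbc : b ≤ c) {x : O} (hx : x < S b) :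
    K c (dl0J J b c x) = K b x := by
  rcases hbc.eq_or_lt with rfl | h
  · rw [dl0_self]
  · rw [dl0_ne h]
    exact hK3 b hb c hc h x hx

theorem dl_K_iff (hK2 : ∀ b ∈ D, ∀ x < S b, ∀ y < x, K b y < K b x) {b x y : O} (hb : b ∈ D)
    (hx : x < S b) (hy : y < S b) : K b x < K b y ↔ x < y := by
  refine ⟨fun h => ?_, hK2 b hb y hy x⟩
  by_contra hcon
  rcases (not_lt.1 hcon).eq_or_lt with h1 | h1
  · rw [h1] at h
    exact lt_irrefl _ h
  · exact lt_asymm h (hK2 b hb x hx y h1)

theorem dl_K_le (hK2 : ∀ b ∈ D, ∀ x < S b, ∀ y < x, K b y < K b x) {b x y : O} (hb : b ∈ D)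
    (hx : x < S b) (hy : y < S b) : K b x ≤ K b y ↔ x ≤ y := by
  rw [← not_lt, ← not_lt, dl_K_iff hK2 hb hy hx]

theorem dl_K_inj (hK2 : ∀ b ∈ D, ∀ x < S b, ∀ y < x, K b y < K b x) {b x y : O} (hb : b ∈ D)
    (hx : x < S b) (hy : y < S b) (h : K b x = K b y) : x = y :=
  le_antisymm ((dl_K_le hK2 hb hx hy).1 h.le) ((dl_K_le hK2 hb hy hx).1 h.ge)

theorem dl_ext {c d : O} (h1 : cA c = cA d) (h2 : cN c = cN d) (h3 : cX c = cX d) : c = d := by
  rw [← cd_dec c, h1, h2, h3, cd_dec]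

/-- two elements of the limit come from the same level above a given one -/
theorem dl_surj (hJ : ∀ b ∈ D, ∀ c ∈ D, b < c → MEmb (S b) (S c) (J b c))
    (hK3 : ∀ b ∈ D, ∀ c ∈ D, b < c → ∀ x < S b, K c (J b c x) = K b x)
    (hK4 : ∀ t < T, ∃ b ∈ D, ∃ x < S b, K b x = t) {b : O} (hb : b ∈ D) {u v : O} (hu : u < T)
    (hv : v < T) : ∃ d ∈ D, b ≤ d ∧ ∃ x < S d, ∃ y < S d, K d x = u ∧ K d y = v := by
  obtain ⟨c1, hc1, x, hx, rfl⟩ := hK4 u hu
  obtain ⟨c2, hc2, y, hy, rfl⟩ := hK4 v hv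
  have hd := dl_max hb (dl_max hc1 hc2)
  have h1 : c1 ≤ max b (max c1 c2) := (le_max_left c1 c2).trans (le_max_right _ _)
  have h2 : c2 ≤ max b (max c1 c2) := (le_max_right c1 c2).trans (le_max_right _ _)
  exact ⟨_, hd, le_max_left _ _, _, (dl_memb hJ hc1 hd h1).lt x hx, _,
    (dl_memb hJ hc2 hd h2).lt y hy, dl_K hK3 hc1 hd h1 hx, dl_K hK3 hc2 hd h2 hy⟩

theorem dl_codes (hJ : ∀ b ∈ D, ∀ c ∈ D, b < c → MEmb (S b) (S c) (J b c))
    (hK1 : ∀ b ∈ D, ∀ x < S b, K b x < T)
    (hK2 : ∀ b ∈ D, ∀ x < S b, ∀ y < x, K b y < K b x)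
    (hK3 : ∀ b ∈ D, ∀ c ∈ D, b < c → ∀ x < S b, K c (J b c x) = K b x)
    (hK4 : ∀ t < T, ∃ b ∈ D, ∃ x < S b, K b x = t) :
    ∀ t, ∀ b ∈ D, ∀ x < S b, K b x = t →
      cA (K b x) = K b (cA x) ∧ cN (K b x) = cN x ∧ cX (K b x) = K b (cX x) := by
  intro t
  induction t using WellFoundedLT.induction with
  | ind t ih =>
    intro b hb x hx hxt
    have hAx : cA x < S b := (cA_le x).trans_lt hx
    have hXx : cX x < S b := (cX_le x).trans_lt hx
    have hya : K b (cX x) ≤ K b (cA x) := (dl_K_le hK2 hb hXx hAx).2 (cX_le_cA x)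
    have key : cd (K b (cA x)) (cN x) (K b (cX x)) = K b x := by
      rcases lt_trichotomy (cd (K b (cA x)) (cN x) (K b (cX x))) (K b x) with h1 | h1 | h1
      · exfalso
        have h1T := h1.trans (hK1 b hb x hx)
        obtain ⟨d, hd, hbd, z, hz, _, _, hz1, _⟩ := dl_surj hJ hK3 hK4 hb h1T h1T
        have hM := dl_memb hJ hb hd hbd
        have hKx : K d (dl0J J b d x) = K b x := dl_K hK3 hb hd hbd hx
        have hzt : K d z < t := by rw [hz1, ← hxt]; exact h1
        obtain ⟨h2, h3, h4⟩ := ih (K d z) hzt d hd z hz rfl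
        rw [hz1, cA_cd hya] at h2
        rw [hz1, cN_cd hya] at h3
        rw [hz1, cX_cd hya] at h4
        have hAz : cA z < S d := (cA_le z).trans_lt hz
        have hXz : cX z < S d := (cX_le z).trans_lt hz
        have h5 : z = dl0J J b d x := by
          refine dl_ext ?_ ?_ ?_
          · rw [hM.fst x hx]
            refine dl_K_inj hK2 hd hAz (hM.lt _ hAx) ?_
            rw [← h2, dl_K hK3 hb hd hbd hAx]
          · rw [hM.num x hx, h3]
          · rw [hM.snd x hx]
            refine dl_K_inj hK2 hd hXz (hM.lt _ hXx) ?_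
            rw [← h4, dl_K hK3 hb hd hbd hXx]
        rw [h5, hKx] at hz1
        exact h1.ne hz1.symm
      · exact h1
      · exfalso
        have htT : K b x < T := hK1 b hb x hx
        have hlex := h1
        rw [← cd_dec (K b x), cd_lt_iff (cX_le_cA _) hya] at hlex
        obtain ⟨d, hd, hbd, u, hu, v, hv, hu1, hv1⟩ := dl_surj hJ hK3 hK4 hb
          ((cA_le (K b x)).trans_lt htT) ((cX_le (K b x)).trans_lt htT)
        have hM := dl_memb hJ hb hd hbd
        have hKx : K d (dl0J J b d x) = K b x := dl_K hK3 hb hd hbd hx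
        have hxd : dl0J J b d x < S d := hM.lt x hx
        have hvu : v ≤ u := by
          rw [← dl_K_le hK2 hd hv hu, hu1, hv1]
          exact cX_le_cA _
        have hAd : cA (dl0J J b d x) = dl0J J b d (cA x) := hM.fst x hx
        have hXd : cX (dl0J J b d x) = dl0J J b d (cX x) := hM.snd x hx
        have hKA : K d (dl0J J b d (cA x)) = K b (cA x) := dl_K hK3 hb hd hbd hAx
        have hKX : K d (dl0J J b d (cX x)) = K b (cX x) := dl_K hK3 hb hd hbd hXx
        have h2 : cd u (cN (K b x)) v < dl0J J b d x := by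
          rw [← cd_dec (dl0J J b d x)]
          refine cd_lt hvu (cX_le_cA _) ?_
          rw [hAd, hXd, hM.num x hx]
          rcases hlex with h3 | ⟨h3, h4 | ⟨h4, h5⟩⟩
          · left
            rw [← dl_K_iff hK2 hd hu (hM.lt _ hAx), hu1, hKA]
            exact h3
          · right
            refine ⟨dl_K_inj hK2 hd hu (hM.lt _ hAx) ?_, Or.inl h4⟩
            rw [hu1, hKA, h3]
          · right
            refine ⟨dl_K_inj hK2 hd hu (hM.lt _ hAx) ?_, Or.inr ⟨h4, ?_⟩⟩
            · rw [hu1, hKA, h3]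
            · rw [← dl_K_iff hK2 hd hv (hM.lt _ hXx), hv1, hKX]
              exact h5
        have h3 : K d (cd u (cN (K b x)) v) < K b x := (hK2 d hd _ hxd _ h2).trans_eq hKx
        obtain ⟨h4, h5, h6⟩ := ih _ (by rw [← hxt]; exact h3) d hd _ (h2.trans hxd) rfl
        rw [cA_cd hvu, hu1] at h4
        rw [cN_cd hvu] at h5
        rw [cX_cd hvu, hv1] at h6
        exact h3.ne (dl_ext h4 h5 h6)
    rw [← key, cA_cd hya, cN_cd hya, cX_cd hya]
    exact ⟨rfl, rfl, rfl⟩

end

/-- direct limits of systems of embeddings -/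
theorem direct_limit {D : Set O} (hsm : Small.{0} D) (hne : D.Nonempty)
    (hcount : ∀ f : ℕ → O, (∀ n, f n ∈ D) → ∃ b ∈ D, ∀ n, f n ≤ b)
    (S : O → O) (J : O → O → O → O)
    (hJ : ∀ b ∈ D, ∀ c ∈ D, b < c → MEmb (S b) (S c) (J b c))
    (hcomm : ∀ b ∈ D, ∀ c ∈ D, ∀ d ∈ D, b < c → c < d → ∀ x < S b, J c d (J b c x) = J b d x) :
    ∃ (T : O) (K : O → O → O), (∀ b ∈ D, MEmb (S b) T (K b)) ∧
      (∀ b ∈ D, ∀ c ∈ D, b < c → ∀ x < S b, K c (J b c x) = K b x) ∧
      ∀ t < T, ∃ b ∈ D, ∃ x < S b, K b x = t := by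
  obtain ⟨T, K, hK1, hK2, hK3, hK4⟩ := exists_limit hsm hne hcount S J
    (fun b hb c hc hbc x hx => (hJ b hb c hc hbc).lt x hx)
    (fun b hb c hc hbc x hx y hy => (hJ b hb c hc hbc).mono x hx y hy) hcomm
  have hcod := fun b hb x hx => dl_codes hJ hK1 hK2 hK3 hK4 (K b x) b hb x hx rfl
  have hK0 : ∀ b ∈ D, 0 < S b → K b 0 = 0 := by
    intro b hb h0
    obtain ⟨h1, _, h3⟩ := hcod b hb 0 h0
    rw [cA_zero] at h1
    rw [cX_zero] at h3
    have h4 : Cls (K b 0) := h1
    rw [← h3, h4.cX_eq]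
  have main : ∀ t, ∀ b ∈ D, ∀ c < S b, K b c = t → F (K b c) = K b (F c) := by
    intro t
    induction t using WellFoundedLT.induction with
    | ind t ih =>
      have hE : ∀ b ∈ D, ∀ c < S b, K b c = t → ∀ ξ < S b, (E (K b ξ) (K b c) ↔ E ξ c) := by
        intro b hb c hc hct ξ hξ
        obtain ⟨hA, hN, hX⟩ := hcod b hb c hc
        have hM : MEmb c T (K b) :=
          { lt := fun c' hc' => hK1 b hb c' (hc'.trans hc)
            mono := fun c' hc' d hd => hK2 b hb c' (hc'.trans hc) d hd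
            fst := fun c' hc' => (hcod b hb c' (hc'.trans hc)).1
            num := fun c' hc' => (hcod b hb c' (hc'.trans hc)).2.1
            snd := fun c' hc' => (hcod b hb c' (hc'.trans hc)).2.2
            fn := fun c' hc' => ih (K b c') (by rw [← hct]; exact hK2 b hb c hc c' hc') b hb c'
              (hc'.trans hc) rfl }
        by_cases hN2 : cN c < 2
        · have : ∀ ξ c, cN c < 2 → ¬ E ξ c := by
            intro ξ c hc hE
            rw [E_iff] at hE
            rcases hE with ⟨h1, _⟩ | ⟨k, h1, _⟩ <;> omega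
          exact ⟨fun h => absurd h (this _ _ (by rw [hN]; exact hN2)),
            fun h => absurd h (this _ _ hN2)⟩
        · by_cases hξc : ξ < c
          · have hAb : cA c < c := by
              refine (le_cd (n := 0) (zero_le (a := cA c))).trans_lt ?_
              conv_rhs => rw [← cd_dec c]
              exact cd_lt zero_le (cX_le_cA c) (Or.inr ⟨rfl, Or.inl (by omega)⟩)
            refine hM.embe_step hA hN hX hAb ?_ ?_ hξc
            · intro n hn x hx
              conv_rhs => rw [← cd_dec c]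
              exact cd_lt hx.le (cX_le_cA c) (Or.inr ⟨rfl, Or.inl hn⟩)
            · intro d hd ξ' hξ'
              exact hM.map_E (hd.trans hAb) (hξ'.trans hAb)
          · refine ⟨fun h => absurd (E_lt h) ?_, fun h => absurd (E_lt h) hξc⟩
            rw [dl_K_iff hK2 hb hξ hc]
            exact hξc
      intro b hb c hc hct
      have hcT : K b c < T := hK1 b hb c hc
      have push : ∀ ζ, E ζ (K b c) → ∃ d ∈ D, ∃ _ : b ≤ d, ∃ z < S d, K d z = ζ ∧
          E z (dl0J J b d c) := by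
        intro ζ hζ
        obtain ⟨d, hd, hbd, z, hz, _, _, hz1, _⟩ := dl_surj hJ hK3 hK4 hb
          ((E_lt hζ).trans hcT) ((E_lt hζ).trans hcT)
        have hM := dl_memb hJ hb hd hbd
        have hKc : K d (dl0J J b d c) = K b c := dl_K hK3 hb hd hbd hc
        refine ⟨d, hd, hbd, z, hz, hz1, ?_⟩
        rw [← hE d hd _ (hM.lt c hc) (hKc.trans hct) z hz, hKc, hz1]
        exact hζ
      have hFc : F c < S b := (F_le_self c).trans_lt hc
      by_cases hex : ∃ ξ, E ξ c
      · have h1 := F_mem hex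
        have h2 : E (K b (F c)) (K b c) := (hE b hb c hc hct _ hFc).2 h1
        refine le_antisymm (F_le h2) ?_
        obtain ⟨d, hd, hbd, z, hz, hz1, hz2⟩ := push _ (F_mem ⟨_, h2⟩)
        have hM := dl_memb hJ hb hd hbd
        have h3 := F_le hz2
        rw [hM.fn c hc] at h3
        rw [← hz1, ← dl_K hK3 hb hd hbd hFc, dl_K_le hK2 hd (hM.lt _ hFc) hz]
        exact h3
      · have hex2 : ∀ ζ, ¬ E ζ (K b c) := by
          intro ζ hζ
          obtain ⟨d, hd, hbd, z, hz, hz1, hz2⟩ := push ζ hζ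
          have hM := dl_memb hJ hb hd hbd
          have h3 := F_mem ⟨z, hz2⟩
          rw [hM.fn c hc, hM.map_E hc hFc] at h3
          exact hex ⟨_, h3⟩
        push Not at hex
        rw [F_eq_zero hex, F_eq_zero hex2, hK0 b hb (lt_of_le_of_lt zero_le hc)]
  refine ⟨T, K, fun b hb => ?_, hK3, hK4⟩
  exact { lt := fun c hc => hK1 b hb c hc
          mono := fun c hc d hd => hK2 b hb c hc d hd
          fst := fun c hc => (hcod b hb c hc).1
          num := fun c hc => (hcod b hb c hc).2.1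
          snd := fun c hc => (hcod b hb c hc).2.2
          fn := fun c hc => main _ b hb c hc rfl }

end Pool.Agent.Helper4.WC
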