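import Pool.Agent.Helper4.WC.Hull

set_option autoImplicit false

/-!
# Embeddings
-/

open Set Ordinal

namespace Pool.Agent.Helper4.WC

/-- `j` embeds the structure below `s` in the structure below `s'` -/
structure MEmb (s s' : O) (j : O → O) : Prop where
  lt : ∀ c < s, j c < s'
  mono : ∀ c < s, ∀ d < c, j d < j c
  fst : ∀ c < s, cA (j c) = j (cA c)
  num : ∀ c < s, cN (j c) = cN c
  snd : ∀ c < s, cX (j c) = j (cX c)
  fn : ∀ c < s, F (j c) = j (F c)

/-- an embedding whose range is closed under the codes below `s'` -/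
structure CEmb (s s' : O) (j : O → O) : Prop extends MEmb s s' j where
  back : ∀ a < s, ∀ x ≤ a, ∀ n, cd (j a) n (j x) < s' → cd a n x < s

namespace MEmb

variable {s s' : O} {j : O → O}

theorem lt_iff (h : MEmb s s' j) {c d : O} (hc : c < s) (hd : d < s) : j c < j d ↔ c < d := by
  refine ⟨fun h1 => ?_, fun h1 => h.mono d hd c h1⟩
  by_contra hcon
  rcases (not_lt.1 hcon).lt_or_eq with h2 | h2
  · exact lt_asymm h1 (h.mono c hc d h2)
  · subst h2
    exact lt_irrefl _ h1

theorem le_iff (h : MEmb s s' j) {c d : O} (hc : c < s) (hd : d < s) : j c ≤ j d ↔ c ≤ d := by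
  rw [← not_lt, ← not_lt, h.lt_iff hd hc]

theorem inj (h : MEmb s s' j) {c d : O} (hc : c < s) (hd : d < s) (e : j c = j d) : c = d :=
  le_antisymm ((h.le_iff hc hd).1 e.le) ((h.le_iff hd hc).1 e.ge)

theorem zero (h : MEmb s s' j) (h0 : 0 < s) : j 0 = 0 := by
  have h1 : Cls (j 0) := by
    have := h.fst 0 h0
    rwa [cA_zero] at this
  have h2 := h.snd 0 h0
  rw [cX_zero, h1.cX_eq] at h2
  exact h2.symm

theorem le_self (h : MEmb s s' j) {c : O} (hc : c < s) : c ≤ j c := by
  induction c using WellFoundedLT.induction with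
  | ind c ih =>
    by_contra hcon
    push Not at hcon
    have h1 := ih (j c) hcon (hcon.trans hc)
    exact absurd (h.mono c hc (j c) hcon) (not_lt.2 h1)

theorem map_cd (h : MEmb s s' j) {a x : O} {n : ℕ} (hx : x ≤ a) (hc : cd a n x < s) :
    j (cd a n x) = cd (j a) n (j x) := by
  have h1 := h.fst _ hc
  have h2 := h.num _ hc
  have h3 := h.snd _ hc
  rw [cA_cd hx] at h1
  rw [cN_cd hx] at h2
  rw [cX_cd hx] at h3
  have h4 := cd_dec (j (cd a n x))
  rw [h1, h2, h3] at h4
  exact h4.symm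

theorem map_P (h : MEmb s s' j) {y x : O} (hc : P y x < s) : j (P y x) = P (j y) (j x) := by
  have hy : y < s := (le_P_left y x).trans_lt hc
  have hx : x < s := (le_P_right y x).trans_lt hc
  unfold P at hc ⊢
  split_ifs at hc with h1
  · rw [if_pos h1, if_pos ((h.le_iff hx hy).2 h1)]
    exact h.map_cd h1 hc
  · rw [if_neg h1, if_neg (fun h2 => h1 ((h.le_iff hx hy).1 h2))]
    exact h.map_cd (not_le.1 h1).le hc

theorem map_oo (h : MEmb s s' j) {ρ : O} (hc : oo ρ < s) : j (oo ρ) = oo (j ρ) := by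
  unfold oo at hc ⊢
  rw [h.map_cd zero_le hc, h.zero (lt_of_le_of_lt zero_le hc)]

theorem map_tt (h : MEmb s s' j) {u : O} (hc : tt u < s) : j (tt u) = tt (j u) := by
  unfold tt at hc ⊢
  rw [h.map_cd zero_le hc, h.zero (lt_of_le_of_lt zero_le hc)]

theorem map_lf (h : MEmb s s' j) {c : O} (hc : c < s) : lf (j c) = j (lf c) := by
  unfold lf
  rw [h.num c hc, h.fst c hc, h.snd c hc]
  split_ifs
  · rfl
  · rfl
  · exact (h.zero (lt_of_le_of_lt zero_le hc)).symm

theorem map_rt (h : MEmb s s' j) {c : O} (hc : c < s) : rt (j c) = j (rt c) := by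
  unfold rt
  rw [h.num c hc, h.fst c hc, h.snd c hc]
  split_ifs
  · rfl
  · rfl
  · exact (h.zero (lt_of_le_of_lt zero_le hc)).symm

theorem map_dec (h : MEmb s s' j) {x : O} (hx : x < s) (i : ℕ) : dec (j x) i = j (dec x i) := by
  induction i generalizing x with
  | zero => exact h.map_lf hx
  | succ i ih =>
    show dec (rt (j x)) i = j (dec (rt x) i)
    rw [h.map_rt hx]
    exact ih ((rt_le x).trans_lt hx)

theorem cls (h : MEmb s s' j) {e : O} (he : e < s) : Cls (j e) ↔ Cls e := by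
  unfold Cls
  rw [h.fst e he]
  exact ⟨fun h1 => h.inj ((cA_le e).trans_lt he) he h1, fun h1 => by rw [h1]⟩

/-- the least closed ordinal above `c` -/
theorem nx_eq (h : MEmb s s' j) {c e : O} (he : e < s) (hc : c < s) (hj : j e = nx (j c)) :
    e = nx c := by
  have hce : c < e := by
    rw [← h.lt_iff hc he, hj]
    exact lt_nx _
  have hcl : Cls e := by
    rw [← h.cls he, hj]
    exact cls_nx _
  have hk : ∀ k : ℕ, tt^[k] c < e ∧ j (tt^[k] c) = tt^[k] (j c) := by
    intro k
    induction k with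
    | zero => exact ⟨hce, rfl⟩
    | succ k ih =>
      have h1 : tt (tt^[k] c) < e := hcl.tt_lt ih.1
      rw [Function.iterate_succ_apply', Function.iterate_succ_apply']
      exact ⟨h1, by rw [h.map_tt (h1.trans he), ih.2]⟩
  refine le_antisymm ?_ (nx_le hcl hce)
  by_contra hcon
  push Not at hcon
  have h1 : j (nx c) < nx (j c) := by
    rw [← hj]
    exact h.mono e he _ hcon
  obtain ⟨k, hk1⟩ := lt_nx_iff.1 h1
  rw [← (hk k).2] at hk1
  rw [h.lt_iff (hcon.trans he) ((hk k).1.trans he)] at hk1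
  have h2 : tt^[k] c < nx c := lt_nx_iff.2 ⟨k + 1, by
    rw [Function.iterate_succ_apply']
    exact lt_tt _⟩
  exact lt_asymm hk1 h2

theorem comp {s'' : O} {i : O → O} (h : MEmb s s' j) (h' : MEmb s' s'' i) :
    MEmb s s'' (i ∘ j) where
  lt c hc := h'.lt _ (h.lt c hc)
  mono c hc d hd := h'.mono _ (h.lt c hc) _ (h.mono c hc d hd)
  fst c hc := by
    show cA (i (j c)) = i (j (cA c))
    rw [h'.fst _ (h.lt c hc), h.fst c hc]
  num c hc := by
    show cN (i (j c)) = cN c
    rw [h'.num _ (h.lt c hc), h.num c hc]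
  snd c hc := by
    show cX (i (j c)) = i (j (cX c))
    rw [h'.snd _ (h.lt c hc), h.snd c hc]
  fn c hc := by
    show F (i (j c)) = i (j (F c))
    rw [h'.fn _ (h.lt c hc), h.fn c hc]

theorem mono_right (h : MEmb s s' j) {t : O} (ht : s' ≤ t) : MEmb s t j :=
  { h with lt := fun c hc => (h.lt c hc).trans_le ht }

theorem restrict (h : MEmb s s' j) {t t' : O} (ht : t ≤ s) (ht' : ∀ c < t, j c < t') :
    MEmb t t' j where
  lt := ht'
  mono c hc d hd := h.mono c (hc.trans_le ht) d hd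
  fst c hc := h.fst c (hc.trans_le ht)
  num c hc := h.num c (hc.trans_le ht)
  snd c hc := h.snd c (hc.trans_le ht)
  fn c hc := h.fn c (hc.trans_le ht)

/-- the image of a hull -/
theorem hull (h : MEmb s s' j) {Z : Set O} {c : O} (hc : c ∈ Hull s Z) :
    j c ∈ Hull s' (j '' Z) := by
  have hlt : ∀ {c : O}, HullP s Z c → c < s := fun h1 => hull_lt h1
  induction hc with
  | base hz hr => exact mem_hull ⟨_, hz, rfl⟩ (h.lt _ hr)
  | zero h0 =>
    rw [h.zero h0]
    exact HullP.zero ((zero_le (a := j 0)).trans_lt (h.lt 0 h0))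
  | fst h1 ih =>
    rw [← h.fst _ (hlt h1)]
    exact HullP.fst ih
  | snd h1 ih =>
    rw [← h.snd _ (hlt h1)]
    exact HullP.snd ih
  | fn h1 ih =>
    rw [← h.fn _ (hlt h1)]
    exact HullP.fn ih
  | cod n h1 h2 hx h3 ih1 ih2 =>
    rw [h.map_cd hx h3]
    refine HullP.cod n ih1 ih2 ((h.le_iff (hlt h2) (hlt h1)).2 hx) ?_
    rw [← h.map_cd hx h3]
    exact h.lt _ h3

/-- embeddings that agree on generators agree -/
theorem congr (h : MEmb s s' j) {s'' : O} {i : O → O} (h' : MEmb s s'' i) {Z : Set O}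
    (hZ : ∀ z ∈ Z, z < s → j z = i z) {c : O} (hc : c ∈ Hull s Z) : j c = i c := by
  have hlt : ∀ {c : O}, HullP s Z c → c < s := fun h1 => hull_lt h1
  induction hc with
  | base hz hr => exact hZ _ hz hr
  | zero h0 => rw [h.zero h0, h'.zero h0]
  | fst h1 ih => rw [← h.fst _ (hlt h1), ← h'.fst _ (hlt h1), ih]
  | snd h1 ih => rw [← h.snd _ (hlt h1), ← h'.snd _ (hlt h1), ih]
  | fn h1 ih => rw [← h.fn _ (hlt h1), ← h'.fn _ (hlt h1), ih]
  | cod n h1 h2 hx h3 ih1 ih2 => rw [h.map_cd hx h3, h'.map_cd hx h3, ih1, ih2]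

end MEmb

end Pool.Agent.Helper4.WC
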