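import Pool.Agent.Helper4.WC.Emc

set_option autoImplicit false

/-!
# Embeddings preserve `E` and truth
-/

open Set Ordinal

namespace Pool.Agent.Helper4.WC

namespace MEmb

variable {s s' : O} {j : O → O}

/-- embeddings preserve truth at the level `e`, as far as the codes of Skolem functions are
available, given that they preserve `E` below `e` -/
theorem sat_of_E (h : MEmb s s' j) {e : O} (he : Cls e) (hes : e < s)
    (hE : ∀ c < e, ∀ ξ < e, (E (j ξ) (j c) ↔ E ξ c)) (φ : Fml)
    (hφ : ∀ ψ : Fml, ψ.code < φ.code → ∀ x < e, cd e (ψ.code + 3) x < s) :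
    ∀ x < e, (Sat (Iio (j e)) E φ (dec (j x)) ↔ Sat (Iio e) E φ (dec x)) := by
  have hje : Cls (j e) := (h.cls hes).2 he
  have hd : ∀ {x : O} (_ : x < e) (i : ℕ), dec x i < e := fun hx i => (dec_le _ i).trans_lt hx
  induction φ with
  | lt i k =>
    intro x hx
    simp only [Sat]
    rw [h.map_dec (hx.trans hes), h.map_dec (hx.trans hes)]
    exact h.lt_iff ((hd hx i).trans hes) ((hd hx k).trans hes)
  | mem i k =>
    intro x hx
    simp only [Sat]
    rw [h.map_dec (hx.trans hes), h.map_dec (hx.trans hes)]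
    exact hE _ (hd hx k) _ (hd hx i)
  | pr i k l =>
    intro x hx
    simp only [Sat]
    have h1 : P (dec x k) (dec x l) < s := (he.P_lt (hd hx k) (hd hx l)).trans hes
    rw [h.map_dec (hx.trans hes), h.map_dec (hx.trans hes), h.map_dec (hx.trans hes),
      ← h.map_P h1]
    exact ⟨fun h2 => h.inj ((hd hx i).trans hes) h1 h2, fun h2 => by rw [h2]⟩
  | on i k =>
    intro x hx
    simp only [Sat]
    have h1 : oo (dec x k) < s := (he.oo_lt (hd hx k)).trans hes
    rw [h.map_dec (hx.trans hes), h.map_dec (hx.trans hes), ← h.map_oo h1]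
    exact ⟨fun h2 => h.inj ((hd hx i).trans hes) h1 h2, fun h2 => by rw [h2]⟩
  | bot =>
    intro x _
    exact Iff.rfl
  | imp φ ψ ih1 ih2 =>
    intro x hx
    simp only [Sat]
    rw [ih1 (fun χ hχ => hφ χ (hχ.trans (Fml.code_lt_imp_left φ ψ))) x hx,
      ih2 (fun χ hχ => hφ χ (hχ.trans (Fml.code_lt_imp_right φ ψ))) x hx]
  | ex ψ ih =>
    intro x hx
    have ih' := ih (fun χ hχ => hφ χ (hχ.trans (Fml.code_lt_ex ψ)))
    have key : ∀ y < e, (Sat (Iio (j e)) E ψ (cns (j y) (dec (j x))) ↔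
        Sat (Iio e) E ψ (cns y (dec x))) := by
      intro y hy
      have h1 : P y x < e := he.P_lt hy hx
      have h2 := ih' (P y x) h1
      rwa [h.map_P (h1.trans hes), dec_P, dec_P] at h2
    simp only [Sat]
    constructor
    · rintro ⟨y', hy', h1⟩
      have hc : cd e (ψ.code + 3) x < s := hφ ψ (Fml.code_lt_ex ψ) x hx
      have hjc := h.map_cd hx.le hc
      have hjx : j x < j e := h.mono e hes x hx
      have hE1 : E y' (j (cd e (ψ.code + 3) x)) := by
        rw [hjc, E_name hje ψ hjx]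
        exact ⟨hy', h1⟩
      have hE2 := F_mem ⟨y', hE1⟩
      rw [h.fn _ hc, hjc, E_name hje ψ hjx] at hE2
      have hF : F (cd e (ψ.code + 3) x) < s := (F_le_self _).trans_lt hc
      have hFe : F (cd e (ψ.code + 3) x) < e := (h.lt_iff hF hes).1 hE2.1
      exact ⟨_, hFe, (key _ hFe).1 hE2.2⟩
    · rintro ⟨y, hy, h1⟩
      exact ⟨j y, h.mono e hes y hy, (key y hy).2 h1⟩

/-- one step of the preservation of `E` -/
theorem embe_step (h : MEmb s s' j) {c c' : O} (hA' : cA c' = j (cA c)) (hN' : cN c' = cN c)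
    (hX' : cX c' = j (cX c)) (hA : cA c < s)
    (hcod : ∀ n < cN c, ∀ x < cA c, cd (cA c) n x < s)
    (hE : ∀ d < cA c, ∀ ξ < cA c, (E (j ξ) (j d) ↔ E ξ d)) {ξ : O} (hξ : ξ < s) :
    E (j ξ) c' ↔ E ξ c := by
  have hX : cX c < s := (cX_le_cA c).trans_lt hA
  rw [E_iff, E_iff]
  unfold Estep
  rw [hN', hA', hX', h.cls hA]
  refine or_congr (and_congr_right fun h2 => ?_) (exists_congr fun k => ?_)
  · constructor
    · rintro ⟨ρ, hρ, h3⟩
      have hn := h.num ξ hξ
      have hx := h.snd ξ hξ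
      have ha := h.fst ξ hξ
      rw [h3] at hn hx ha
      unfold oo at hn hx ha
      rw [cN_cd zero_le] at hn
      rw [cX_cd zero_le] at hx
      rw [cA_cd zero_le] at ha
      have h0 : 0 < s := lt_of_le_of_lt zero_le hξ
      have hx0 : cX ξ = 0 := by
        refine h.inj ((cX_le ξ).trans_lt hξ) h0 ?_
        rw [← hx, h.zero h0]
      have hξe : ξ = oo (cA ξ) := by
        conv_lhs => rw [← cd_dec ξ]
        rw [hx0, ← hn]
        rfl
      refine ⟨cA ξ, ?_, hξe⟩
      rw [← h.lt_iff ((cA_le ξ).trans_lt hξ) hA, ← ha]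
      exact hρ
    · rintro ⟨ρ, hρ, h3⟩
      subst h3
      exact ⟨j ρ, h.mono _ hA ρ hρ, h.map_oo hξ⟩
  · refine and_congr_right fun hk => and_congr_right fun hcl => ?_
    rw [h.lt_iff hX hA]
    refine and_congr_right fun hXA => ?_
    rw [h.lt_iff hξ hA]
    refine and_congr_right fun hξA => ?_
    have hP : P ξ (cX c) < cA c := hcl.P_lt hξA hXA
    have h1 : cns (j ξ) (dec (j (cX c))) = dec (j (P ξ (cX c))) := by
      rw [h.map_P (hP.trans hA), dec_P]
    have h2 : cns ξ (dec (cX c)) = dec (P ξ (cX c)) := by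
      rw [dec_P]
    rw [h1, h2]
    refine h.sat_of_E hcl hA hE (form k) ?_ _ hP
    intro ψ hψ x hx
    refine hcod _ ?_ x hx
    rcases form_eq_or k with h3 | h3
    · omega
    · rw [h3] at hψ
      exact absurd hψ (Nat.not_lt_zero _)

/-- embeddings preserve `E` -/
theorem map_E (h : MEmb s s' j) {c : O} (hc : c < s) {ξ : O} (hξ : ξ < s) :
    E (j ξ) (j c) ↔ E ξ c := by
  induction c using WellFoundedLT.induction generalizing ξ with
  | ind c ih =>
    have hA : cA c < s := (cA_le c).trans_lt hc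
    refine h.embe_step (h.fst c hc) (h.num c hc) (h.snd c hc) hA ?_ ?_ hξ
    · intro n hn x hx
      refine lt_trans (b := c) ?_ hc
      conv_rhs => rw [← cd_dec c]
      exact cd_lt hx.le (cX_le_cA c) (Or.inr ⟨rfl, Or.inl hn⟩)
    · intro c' hc' ξ' hξ'
      exact ih c' (hc'.trans_le (cA_le c)) (hc'.trans hA) (hξ'.trans hA)

/-- embeddings preserve truth at levels below the top level -/
theorem map_sat (h : MEmb s s' j) {e : O} (he : Cls e) (hes : nx e ≤ s) (φ : Fml) {x : O}
    (hx : x < e) : Sat (Iio (j e)) E φ (dec (j x)) ↔ Sat (Iio e) E φ (dec x) := by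
  have hes' : e < s := (lt_nx e).trans_le hes
  refine h.sat_of_E he hes' ?_ φ ?_ x hx
  · intro c hc ξ hξ
    exact h.map_E (hc.trans hes') (hξ.trans hes')
  · intro ψ _ x hx
    refine lt_of_lt_of_le ?_ hes
    exact (cls_nx e).cd_lt (lt_nx e) hx.le

/-- elements of sets with names in the range -/
theorem map_Es (h : MEmb s s' j) {c : O} (hc : c < s) {η : O} (hη : η < s) :
    j η ∈ Es (j c) ↔ η ∈ Es c := h.map_E hc hη

end MEmb

end Pool.Agent.Helper4.WC
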