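import Pool.Agent.Helper4.WC.Emb

set_option autoImplicit false

open Set Ordinal

namespace Pool.Agent.Helper4.WC

/-- the least `b` such that `r ≤ j b` (or `s`) -/
noncomputable def cut (s : O) (j : O → O) (r : O) : O := sInf {b | s ≤ b ∨ r ≤ j b}

namespace CEmb

variable {s s' : O} {j : O → O}

theorem cut_le (_h : CEmb s s' j) (r : O) : cut s j r ≤ s :=
  csInf_le' (s := {b | s ≤ b ∨ r ≤ j b}) (Or.inl le_rfl)

theorem lt_cut (h : CEmb s s' j) {r b : O} (hb : b < s) : b < cut s j r ↔ j b < r := by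
  constructor
  · intro h1
    by_contra hcon
    exact absurd (csInf_le' (s := {b | s ≤ b ∨ r ≤ j b}) (Or.inr (not_lt.1 hcon))) (not_le.2 h1)
  · intro h1
    by_contra hcon
    push Not at hcon
    have hne : {b | s ≤ b ∨ r ≤ j b}.Nonempty := ⟨s, Or.inl le_rfl⟩
    have hm : s ≤ cut s j r ∨ r ≤ j (cut s j r) := csInf_mem hne
    rcases hm with h2 | h2
    · exact absurd (h2.trans hcon) (not_le.2 hb)
    · have h3 := (h.toMEmb.le_iff (hcon.trans_lt hb) hb).2 hcon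
      exact absurd (h2.trans h3) (not_le.2 h1)

theorem cut_top (h : CEmb s s' j) : cut s j s' = s :=
  le_antisymm (h.cut_le s') (le_of_forall_lt fun b hb => (h.lt_cut hb).2 (h.lt b hb))

theorem cut_map (h : CEmb s s' j) {b : O} (hb : b < s) : cut s j (j b) = b :=
  le_antisymm (csInf_le' (s := {b' | s ≤ b' ∨ j b ≤ j b'}) (Or.inr le_rfl))
    (le_of_forall_lt fun _ hb' => (h.lt_cut (hb'.trans hb)).2 (h.mono b hb _ hb'))

theorem emc_aux (h : CEmb s s' j) (h0 : 0 < s) {r : O} (hr : r ≤ s') {Z : Set O}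
    (hZ : ∀ z ∈ Z, z < s) {c : O} (hc : c ∈ Hull r (j '' Z)) :
    ∃ b < s, j b = c ∧ b ∈ Hull (cut s j r) Z := by
  induction hc with
  | base hz hr =>
    obtain ⟨z, hz, rfl⟩ := hz
    exact ⟨z, hZ z hz, rfl, mem_hull hz ((h.lt_cut (hZ z hz)).2 hr)⟩
  | zero h1 =>
    refine ⟨0, h0, h.toMEmb.zero h0, HullP.zero ?_⟩
    rw [h.lt_cut h0, h.toMEmb.zero h0]
    exact h1
  | fst _ ih =>
    obtain ⟨b, hb, rfl, hH⟩ := ih
    exact ⟨cA b, (cA_le b).trans_lt hb, (h.fst b hb).symm, HullP.fst hH⟩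
  | snd _ ih =>
    obtain ⟨b, hb, rfl, hH⟩ := ih
    exact ⟨cX b, (cX_le b).trans_lt hb, (h.snd b hb).symm, HullP.snd hH⟩
  | fn _ ih =>
    obtain ⟨b, hb, rfl, hH⟩ := ih
    exact ⟨F b, (F_le_self b).trans_lt hb, (h.fn b hb).symm, HullP.fn hH⟩
  | cod n _ _ hx h3 ih1 ih2 =>
    obtain ⟨b, hb, rfl, hH⟩ := ih1
    obtain ⟨b', hb', rfl, hH'⟩ := ih2
    have h4 : b' ≤ b := (h.toMEmb.le_iff hb' hb).1 hx
    have h5 : cd b n b' < s := h.back b hb b' h4 n (h3.trans_le hr)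
    have h6 := h.toMEmb.map_cd h4 h5
    refine ⟨cd b n b', h5, h6, HullP.cod n hH hH' h4 ?_⟩
    rw [h.lt_cut h5, h6]
    exact h3

/-- hulls and closed embeddings -/
theorem hull_iff (h : CEmb s s' j) {r : O} (hr : r ≤ s') {Z : Set O} (hZ : ∀ z ∈ Z, z < s)
    {b : O} (hb : b < s) : j b ∈ Hull r (j '' Z) ↔ b ∈ Hull (cut s j r) Z := by
  have h0 : 0 < s := lt_of_le_of_lt zero_le hb
  constructor
  · intro h1
    obtain ⟨b', hb', he, hH⟩ := emc_aux h h0 hr hZ h1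
    rwa [h.toMEmb.inj hb' hb he] at hH
  · intro h1
    have h2 : MEmb (cut s j r) r j :=
      h.toMEmb.restrict (h.cut_le r) fun c hc => (h.lt_cut (hc.trans_le (h.cut_le r))).1 hc
    exact h2.hull h1

/-- elements of hulls are in the range -/
theorem hull_range (h : CEmb s s' j) (h0 : 0 < s) {r : O} (hr : r ≤ s') {Z : Set O}
    (hZ : ∀ z ∈ Z, z < s) {c : O} (hc : c ∈ Hull r (j '' Z)) : ∃ b < s, j b = c := by
  obtain ⟨b', hb', he, _⟩ := emc_aux h h0 hr hZ hc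
  exact ⟨b', hb', he⟩

/-- the top location -/
theorem nx_top (h : CEmb s s' j) {e : O} (he : e < s) (hs : s' = nx (j e)) : s = nx e := by
  have hcl : Cls s := by
    rw [cls_iff]
    intro a ha n x hx
    refine h.back a ha x hx n ?_
    have hcl' : Cls s' := by
      rw [hs]
      exact cls_nx _
    exact hcl'.cd_lt (h.lt a ha) ((h.toMEmb.le_iff (hx.trans_lt ha) ha).2 hx)
  refine le_antisymm ?_ (nx_le hcl he)
  by_contra hcon
  push Not at hcon
  have hk : ∀ k : ℕ, tt^[k] e < s ∧ j (tt^[k] e) = tt^[k] (j e) := by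
    intro k
    induction k with
    | zero => exact ⟨he, rfl⟩
    | succ k ih =>
      have h1 : tt (tt^[k] e) < s := hcl.tt_lt ih.1
      rw [Function.iterate_succ_apply', Function.iterate_succ_apply']
      exact ⟨h1, by rw [h.toMEmb.map_tt h1, ih.2]⟩
  have h1 : j (nx e) < nx (j e) := by
    rw [← hs]
    exact h.lt _ hcon
  obtain ⟨k, hk1⟩ := lt_nx_iff.1 h1
  rw [← (hk k).2, h.toMEmb.lt_iff hcon (hk k).1] at hk1
  have h2 : tt^[k] e < nx e := lt_nx_iff.2 ⟨k + 1, by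
    rw [Function.iterate_succ_apply']
    exact lt_tt _⟩
  exact lt_asymm hk1 h2

end CEmb

end Pool.Agent.Helper4.WC
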