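import Pool.Agent.Helper4.WC.TRN

set_option autoImplicit false

open Set Ordinal

namespace Pool.Agent.Helper4.WC

theorem fin1_pair_iff (w x y : O) : val w = {val x, val y} ↔
    (∀ t, E t w → (val t = val x ∨ val t = val y)) ∧ (∃ t, E t w ∧ val t = val x) ∧
      (∃ t, E t w ∧ val t = val y) := by
  constructor
  · intro h
    refine ⟨fun t ht => ?_, ?_, ?_⟩
    · have h1 : val t ∈ val w := mem_val.2 ⟨t, ht, rfl⟩
      rw [h, ZFSet.mem_pair] at h1
      exact h1
    · have h1 : val x ∈ val w := by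
        rw [h, ZFSet.mem_pair]
        exact Or.inl rfl
      exact mem_val.1 h1
    · have h1 : val y ∈ val w := by
        rw [h, ZFSet.mem_pair]
        exact Or.inr rfl
      exact mem_val.1 h1
  · rintro ⟨h1, h2, h3⟩
    ext u
    rw [ZFSet.mem_pair]
    constructor
    · intro hu
      obtain ⟨t, ht, rfl⟩ := mem_val.1 hu
      exact h1 t ht
    · rintro (rfl | rfl)
      · exact mem_val.2 h2
      · exact mem_val.2 h3

theorem fin1_defU_pair (i j k : ℕ) : DefU (fun v => val (v i) = {val (v j), val (v k)}) := by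
  have h1 : DefU (fun v => ∀ t, E t (v i) → (val t = val (v j) ∨ val t = val (v k))) :=
    ((defU_eq 0 (j + 1)).or (defU_eq 0 (k + 1))).allE i
  have h2 : DefU (fun v => ∃ t, E t (v i) ∧ val t = val (v j)) := (defU_eq 0 (j + 1)).exE i
  have h3 : DefU (fun v => ∃ t, E t (v i) ∧ val t = val (v k)) := (defU_eq 0 (k + 1)).exE i
  exact (h1.and (h2.and h3)).congr fun v => (fin1_pair_iff (v i) (v j) (v k)).symm

theorem fin1_opair_iff (w x y : O) : val w = ZFSet.pair (val x) (val y) ↔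
    (∀ t, E t w → (val t = {val x, val x} ∨ val t = {val x, val y})) ∧
      (∃ t, E t w ∧ val t = {val x, val x}) ∧ (∃ t, E t w ∧ val t = {val x, val y}) := by
  have hs : ({val x, val x} : ZFSet.{0}) = {val x} := by
    ext u
    rw [ZFSet.mem_pair, ZFSet.mem_singleton]
    exact or_self_iff
  rw [hs]
  constructor
  · intro h
    refine ⟨fun t ht => ?_, ?_, ?_⟩
    · have h1 : val t ∈ val w := mem_val.2 ⟨t, ht, rfl⟩
      rw [h, ZFSet.pair, ZFSet.mem_pair] at h1
      exact h1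
    · have h1 : ({val x} : ZFSet.{0}) ∈ val w := by
        rw [h, ZFSet.pair, ZFSet.mem_pair]
        exact Or.inl rfl
      exact mem_val.1 h1
    · have h1 : ({val x, val y} : ZFSet.{0}) ∈ val w := by
        rw [h, ZFSet.pair, ZFSet.mem_pair]
        exact Or.inr rfl
      exact mem_val.1 h1
  · rintro ⟨h1, h2, h3⟩
    ext u
    rw [ZFSet.pair, ZFSet.mem_pair]
    constructor
    · intro hu
      obtain ⟨t, ht, rfl⟩ := mem_val.1 hu
      exact h1 t ht
    · rintro (rfl | rfl)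
      · exact mem_val.2 h2
      · exact mem_val.2 h3

theorem fin1_defU_opair (i j k : ℕ) :
    DefU (fun v => val (v i) = ZFSet.pair (val (v j)) (val (v k))) := by
  have h1 : DefU (fun v => ∀ t, E t (v i) → (val t = {val (v j), val (v j)} ∨
      val t = {val (v j), val (v k)})) :=
    ((fin1_defU_pair 0 (j + 1) (j + 1)).or (fin1_defU_pair 0 (j + 1) (k + 1))).allE i
  have h2 : DefU (fun v => ∃ t, E t (v i) ∧ val t = {val (v j), val (v j)}) :=
    (fin1_defU_pair 0 (j + 1) (j + 1)).exE i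
  have h3 : DefU (fun v => ∃ t, E t (v i) ∧ val t = {val (v j), val (v k)}) :=
    (fin1_defU_pair 0 (j + 1) (k + 1)).exE i
  exact (h1.and (h2.and h3)).congr fun v => (fin1_opair_iff (v i) (v j) (v k)).symm

/-- relations in the class give sets of ordinals with names -/
theorem isW_of_NN {R : ZFSet.{0}} (hR : NN R) (κ : O) :
    IsW {z | ∃ α β, α < β ∧ β < κ ∧ z = P α β ∧ z < κ ∧
      ZFSet.pair (α.toZFSet) (β.toZFSet) ∈ R} := by
  obtain ⟨r, rfl⟩ := hR
  have h1 : DefU (fun v => ∃ t, E t (v 6) ∧ val t = ZFSet.pair (val (v 0)) (val (v 1))) :=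
    (fin1_defU_opair 0 1 2).exE 6
  have h2 : DefU (fun v => ∃ t, E t (v 4) ∧
      val t = ZFSet.pair (val (oo (v 1))) (val (oo (v 0)))) := (h1.subO 2).subO 0
  have h3 : DefU (fun v => v 2 = P (v 1) (v 0)) := ⟨.pr 2 1 0, fun _ => Iff.rfl⟩
  have h4 : DefU (fun v => ∃ α, ∃ β, α < β ∧ β < v 1 ∧ v 0 = P α β ∧ ∃ t, E t (v 2) ∧
      val t = ZFSet.pair (val (oo α)) (val (oo β))) :=
    ((DefU.dfu_lt 1 0).and ((DefU.dfu_lt 0 3).and (h3.and h2))).ex.ex
  have h5 := comprehension h4 (cns κ (fun _ => r)) κ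
  refine cast (congrArg IsW ?_) h5
  ext z
  constructor
  · rintro ⟨hz, α, β, h6, h7, h8, t, h9, h10⟩
    refine ⟨α, β, h6, h7, h8, hz, ?_⟩
    rw [val_oo, val_oo] at h10
    rw [← h10]
    exact mem_val.2 ⟨t, h9, rfl⟩
  · rintro ⟨α, β, h6, h7, h8, hz, h9⟩
    obtain ⟨t, ht, h10⟩ := mem_val.1 h9
    refine ⟨hz, α, β, h6, h7, h8, t, ht, ?_⟩
    rw [val_oo, val_oo]
    exact h10

/-- sets of ordinals with names give sets in the class -/
theorem NN_of_isW {H : Set O} (hH : IsW H) :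
    ∃ x, NN x ∧ ∀ y, y ∈ x ↔ ∃ α ∈ H, y = α.toZFSet := by
  obtain ⟨h, rfl⟩ := hH
  have h1 : DefU (fun v => v 1 = oo (v 0)) := ⟨.on 1 0, fun _ => Iff.rfl⟩
  have h2 : DefU (fun v => ∃ α, E α (v 1) ∧ v 0 = oo α) := h1.exE 1
  obtain ⟨x, hx, hx'⟩ := NN_comp h2 (fun _ => h) (oo h)
  refine ⟨x, hx, fun y => ?_⟩
  rw [hx']
  constructor
  · rintro ⟨ξ, _, ⟨α, hα, h3⟩, rfl⟩
    refine ⟨α, hα, ?_⟩
    have h4 : ξ = oo α := h3
    rw [h4, val_oo]
  · rintro ⟨α, hα, rfl⟩
    have hα' : E α h := hα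
    exact ⟨oo α, oo_lt_oo (E_lt hα'), ⟨α, hα', rfl⟩, val_oo α⟩

end Pool.Agent.Helper4.WC
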