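import Pool.Agent.Helper4.WC.CS1
import Pool.Agent.Helper4.WC.CS2

set_option autoImplicit false

/-!
# Failure of `□(κ)` gives homogeneous sets with names
-/

open Set Ordinal Cardinal

namespace Pool.Agent.Helper4.WC

open Pool.Agent.Helper4.KSq (IsAcc IsClubIn Square)

theorem hom_of_not_square {κ : Cardinal.{0}} (hκ : κ.IsRegular) (hu : ℵ₀ < κ)
    (hsq : ¬ Square κ) {A : Set O} (hA : IsW A) (hAK : A ⊆ Iio κ.ord) :
    ∃ H, IsW H ∧ Hom κ.ord A H := by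
  by_contra hno
  by_cases h : ∀ μ < κ.ord, ∃ ν < κ.ord, ∀ S, IsW S → S ⊆ Iio μ → ∃ c < ν, Es c = S
  · exact hsq (case2 hκ hu h hA hAK hno)
  · push Not at h
    obtain ⟨μ, hμ, h⟩ := h
    exact hsq (case1 hκ hu ⟨μ, hμ, fun ν hν => h ν hν⟩)

end Pool.Agent.Helper4.WC
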