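import Pool.Agent.Helper4.WC.TRN

set_option autoImplicit false

open Set Ordinal

namespace Pool.Agent.Helper4.WC

theorem zf_power : ∀ x : {x : ZFSet.{0} // NN x}, ∃ z, ∀ w, Mem NN w z ↔
    ∀ u, Mem NN u w → Mem NN u x := by
  rintro ⟨x, c, rfl⟩
  have hQ : DefU (fun v => ∀ η, E η (v 0) → val η ∈ val (v 1)) := (defU_mem 0 2).allE 0
  obtain ⟨b, hb⟩ := NN_bound (val c).powerset
  obtain ⟨z, hz, h⟩ := NN_comp hQ (cns c fun _ => 0) b
  refine ⟨⟨z, hz⟩, fun w => ?_⟩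
  refine Iff.trans (h w.1) ?_
  constructor
  · rintro ⟨ξ, -, h2, h3⟩ u hu
    have h2' : ∀ η, E η ξ → val η ∈ val c := h2
    have hu' : u.1 ∈ w.1 := hu
    rw [← h3] at hu'
    obtain ⟨η, h4, h5⟩ := mem_val.mp hu'
    have h6 := h2' η h4
    rw [h5] at h6
    exact h6
  · intro h2
    have hsub : w.1 ⊆ val c := by
      intro y hy
      exact h2 ⟨y, NN_trans _ _ w.2 hy⟩ hy
    obtain ⟨ξ, h3, h4⟩ := hb w.1 (ZFSet.mem_powerset.mpr hsub) w.2
    refine ⟨ξ, h3, ?_, h4⟩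
    show ∀ η, E η ξ → val η ∈ val c
    intro η hη
    apply hsub
    rw [← h4]
    exact mem_val.mpr ⟨η, hη, rfl⟩

/-- the renaming used in separation -/
def zf1bRen : ℕ → ℕ
  | 0 => 0
  | i + 1 => i + 2

theorem zf_separation (φ : SFm) (v : ℕ → {x : ZFSet.{0} // NN x}) (a : {x : ZFSet.{0} // NN x}) :
    ∃ z, ∀ w, Mem NN w z ↔ Mem NN w a ∧ φ.Sat (Mem NN) (scons w v) := by
  obtain ⟨c, hc⟩ := exists_vn a
  obtain ⟨w0, hw0⟩ := exists_vn_seq v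
  have hQ : DefU (fun u => val (u 0) ∈ val (u 1) ∧
      φ.Sat (Mem NN) (fun i => vn (u (zf1bRen i)))) :=
    (defU_mem 0 1).and ((defU_sat φ).ren zf1bRen)
  obtain ⟨z, hz, h⟩ := NN_comp hQ (cns c w0) c
  have hsc : ∀ ξ : O, (fun i => vn (cns ξ (cns c w0) (zf1bRen i))) = scons (vn ξ) v := by
    intro ξ
    funext i
    cases i with
    | zero => rfl
    | succ i => exact hw0 i
  have ha : a.1 = val c := by rw [← hc]; rfl
  refine ⟨⟨z, hz⟩, fun w => ?_⟩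
  refine Iff.trans (h w.1) ?_
  constructor
  · rintro ⟨ξ, -, ⟨h2, h3⟩, h4⟩
    have hw : vn ξ = w := Subtype.ext h4
    have h2' : val ξ ∈ val c := h2
    rw [hsc ξ, hw] at h3
    refine ⟨?_, h3⟩
    show w.1 ∈ a.1
    rw [ha, ← h4]
    exact h2'
  · rintro ⟨h2, h3⟩
    have h2' : w.1 ∈ val c := by rw [← ha]; exact h2
    obtain ⟨ξ, h4, h5⟩ := mem_val.mp h2'
    have hw : vn ξ = w := Subtype.ext h5
    refine ⟨ξ, E_lt h4, ⟨?_, ?_⟩, h5⟩
    · show val ξ ∈ val c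
      rw [h5]
      exact h2'
    · show φ.Sat (Mem NN) (fun i => vn (cns ξ (cns c w0) (zf1bRen i)))
      rw [hsc ξ, hw]
      exact h3

end Pool.Agent.Helper4.WC
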