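import Pool.Agent.Helper4.WC.TRN

set_option autoImplicit false

/-!
# Replacement and choice in the class of the named sets
-/

open Set Ordinal

namespace Pool.Agent.Helper4.WC

/-- the renaming which moves the bound variable behind the variable of the value -/
def zf2ren : ℕ → ℕ
  | 0 => 1
  | 1 => 0
  | i + 2 => i + 3

theorem zf2_seq (ξ ζ c : O) (w : ℕ → O) :
    (fun i => vn (cns ζ (cns ξ (cns c w)) (zf2ren i))) =
      scons (vn ξ) (scons (vn ζ) (fun i => vn (w i))) := by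
  funext i
  match i with
  | 0 => rfl
  | 1 => rfl
  | i + 2 => rfl

theorem zf2_def (φ : SFm) :
    DefU (fun u => ∃ ζ, E ζ (u 1) ∧
      φ.Sat (Mem NN) (fun i => vn (cns ζ u (zf2ren i)))) :=
  ((defU_sat φ).ren zf2ren).exE 1

theorem zf_replacement (φ : SFm) (v : ℕ → {x : ZFSet.{0} // NN x})
    (a : {x : ZFSet.{0} // NN x})
    (h : ∀ x, Mem NN x a → ∃! y, φ.Sat (Mem NN) (scons y (scons x v))) :
    ∃ z, ∀ y, Mem NN y z ↔ ∃ x, Mem NN x a ∧ φ.Sat (Mem NN) (scons y (scons x v)) := by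
  obtain ⟨c, rfl⟩ := exists_vn a
  obtain ⟨w, hw⟩ := exists_vn_seq v
  obtain rfl : (fun i => vn (w i)) = v := funext hw
  have key : ∀ ξ : O, ∃ η : O, E ξ c →
      φ.Sat (Mem NN) (scons (vn η) (scons (vn ξ) fun i => vn (w i))) := by
    intro ξ
    by_cases hξ : E ξ c
    · obtain ⟨y, hy, -⟩ := h (vn ξ) (mem_val.mpr ⟨ξ, hξ, rfl⟩)
      obtain ⟨η, rfl⟩ := exists_vn y
      exact ⟨η, fun _ => hy⟩
    · exact ⟨0, fun h' => absurd h' hξ⟩
  choose g hg using key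
  haveI hs : Small.{0} (Es c) := small_Es c
  obtain ⟨b, hb⟩ : BddAbove (g '' Es c) := Ordinal.bddAbove_of_small
  obtain ⟨z, hz, h1⟩ := NN_comp (zf2_def φ) (cns c w) (b + 1)
  refine ⟨⟨z, hz⟩, fun y => Iff.trans (h1 y.1) ?_⟩
  constructor
  · rintro ⟨ξ, -, ⟨ζ, h2, h3⟩, h4⟩
    have h2' : E ζ c := h2
    rw [zf2_seq] at h3
    have h5 : vn ξ = y := Subtype.ext h4
    rw [h5] at h3
    exact ⟨vn ζ, mem_val.mpr ⟨ζ, h2', rfl⟩, h3⟩
  · rintro ⟨x, hx, hy⟩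
    obtain ⟨ζ, h2, h3⟩ := mem_val.mp (hx : x.1 ∈ val c)
    have h4 : vn ζ = x := Subtype.ext h3
    subst h4
    obtain ⟨y', -, hu⟩ := h (vn ζ) hx
    have h5 : y = vn (g ζ) := (hu y hy).trans (hu _ (hg ζ h2)).symm
    refine ⟨g ζ, lt_of_le_of_lt (hb ⟨ζ, h2, rfl⟩) (lt_add_one b), ⟨ζ, h2, ?_⟩, ?_⟩
    · rw [zf2_seq, ← h5]
      exact hy
    · rw [h5]
      rfl

end Pool.Agent.Helper4.WC
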