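import Pool.Agent.Helper4.WC.TRN

set_option autoImplicit false

open Set Ordinal

namespace Pool.Agent.Helper4.WC

/-- `v 1` is the least name of an element of the set with name `v 0` -/
theorem zf2b_defU : DefU (fun u => ∃ η, E η (u 1) ∧ (val (u 0) ∈ val η ∧
    ∀ ζ < u 0, ¬ val ζ ∈ val η)) := by
  have h1 : DefU (fun w => val (w 1) ∈ val (w 0) ∧ ∀ ζ < w 1, ¬ val ζ ∈ val (w 0)) :=
    (defU_mem 1 0).and ((defU_mem 0 1).not.ball 1)
  exact h1.exE 1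

theorem zf_choice (x : {x : ZFSet.{0} // NN x}) (h1 : ∀ y, Mem NN y x → ∃ z, Mem NN z y)
    (h2 : ∀ y y' z, Mem NN y x → Mem NN y' x → Mem NN z y → Mem NN z y' → y = y') :
    ∃ c, ∀ y, Mem NN y x → ∃! z, Mem NN z y ∧ Mem NN z c := by
  obtain ⟨x', hx'⟩ := x.2
  obtain ⟨c, hc, hcm⟩ := NN_comp zf2b_defU (fun _ => x') x'
  refine ⟨⟨c, hc⟩, fun y hy => ?_⟩
  have hy1 : y.1 ∈ val x' := by rw [hx']; exact hy
  obtain ⟨η, hη, hηy⟩ := mem_val.1 hy1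
  obtain ⟨z0, hz0⟩ := h1 y hy
  obtain ⟨ζ0, hζ0⟩ := z0.2
  have hne : ({ζ : O | val ζ ∈ val η}).Nonempty := by
    refine ⟨ζ0, ?_⟩
    show val ζ0 ∈ val η
    rw [hζ0, hηy]
    exact hz0
  have hmem : val (sInf {ζ : O | val ζ ∈ val η}) ∈ val η := csInf_mem hne
  have hmin : ∀ ζ < sInf {ζ : O | val ζ ∈ val η}, ¬ val ζ ∈ val η :=
    fun ζ hζ hm => absurd (csInf_le' (s := {ζ : O | val ζ ∈ val η}) hm) (not_le.2 hζ)
  have hlt : sInf {ζ : O | val ζ ∈ val η} < x' := by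
    obtain ⟨ξ', h3, h4⟩ := mem_val.1 hmem
    have h5 : sInf {ζ : O | val ζ ∈ val η} ≤ ξ' := by
      refine csInf_le' ?_
      show val ξ' ∈ val η
      rw [h4]
      exact hmem
    exact lt_of_le_of_lt h5 ((E_lt h3).trans (E_lt hη))
  refine ⟨⟨val (sInf {ζ : O | val ζ ∈ val η}), _, rfl⟩, ⟨?_, ?_⟩, ?_⟩
  · show val (sInf {ζ : O | val ζ ∈ val η}) ∈ y.1
    rw [← hηy]
    exact hmem
  · show val (sInf {ζ : O | val ζ ∈ val η}) ∈ c
    exact (hcm _).2 ⟨_, hlt, ⟨η, hη, hmem, hmin⟩, rfl⟩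
  · rintro z ⟨hzy, hzc⟩
    obtain ⟨ξ2, _, ⟨η2, hE2, hm2, hmin2⟩, hv2⟩ := (hcm z.1).1 hzc
    have hz2 : z.1 ∈ val η2 := by rw [← hv2]; exact hm2
    have hN2 : NN (val η2) := ⟨η2, rfl⟩
    have he : y = ⟨val η2, hN2⟩ := by
      refine h2 y ⟨val η2, hN2⟩ z hy ?_ hzy hz2
      show val η2 ∈ x.1
      rw [← hx']
      exact mem_val.2 ⟨η2, hE2, rfl⟩
    have he2 : val η2 = val η := by rw [hηy, he]
    have hξ : ξ2 = sInf {ζ : O | val ζ ∈ val η} := by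
      rw [he2] at hm2
      refine le_antisymm ?_ (csInf_le' hm2)
      by_contra hlt2
      exact hmin2 _ (not_le.1 hlt2) (he2.symm ▸ hmem)
    exact Subtype.ext (by rw [← hv2, hξ])

end Pool.Agent.Helper4.WC
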