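import Pool.Agent.Helper4.WC.ZF1
import Pool.Agent.Helper4.WC.ZF1b
import Pool.Agent.Helper4.WC.ZF2
import Pool.Agent.Helper4.WC.ZF2b
import Pool.Agent.Helper4.WC.FIN1
import Pool.Agent.Helper4.WC.TW

set_option autoImplicit false

/-!
# Final theorem
-/

open Set Ordinal Cardinal

namespace Pool.Agent.Helper4.WC

open Pool.Agent.Helper4.KSq (IsAcc IsClubIn Square)

theorem inner_NN : IsInnerModel NN where
  trans := NN_trans
  ord := NN_ord
  zfc := ⟨zf_ext, zf_foundation, zf_pairing, zf_union, zf_power, zf_infinity, zf_separation,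
    zf_replacement, zf_choice⟩

theorem partition_of_not_square {κ : Cardinal.{0}} (hκ : κ.IsRegular) (hu : ℵ₀ < κ)
    (hsq : ¬ Square κ) : PartitionIn NN κ.ord := by
  intro R hR
  obtain ⟨H, hHW, hHK, hunb, hhom⟩ := hom_of_not_square hκ hu hsq (isW_of_NN hR κ.ord)
    (fun z hz => by
      obtain ⟨α, β, _, _, _, h, _⟩ := hz
      exact h)
  obtain ⟨x, hx, hxm⟩ := NN_of_isW hHW
  have hmem : ∀ α : O, α.toZFSet ∈ x ↔ α ∈ H := by
    intro α
    rw [hxm]
    constructor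
    · rintro ⟨β, hβ, he⟩
      rwa [Ordinal.toZFSet_injective he]
    · intro h
      exact ⟨α, h, rfl⟩
  refine ⟨x, hx, ?_, ?_, ?_⟩
  · intro y hy
    obtain ⟨α, hα, rfl⟩ := (hxm y).1 hy
    exact Ordinal.toZFSet_mem_toZFSet_iff.2 (hHK hα)
  · intro α hα
    obtain ⟨β, hβ, hαβ⟩ := hunb α hα
    exact ⟨β, hHK hβ, hαβ, (hmem β).2 hβ⟩
  · rcases hhom with h | h
    · left
      intro α _ β _ hαβ hα hβ
      obtain ⟨α', β', _, _, h3, _, h5⟩ := h α ((hmem α).1 hα) β ((hmem β).1 hβ) hαβ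
      obtain ⟨h6, h7⟩ := P_inj h3
      rw [h6, h7]
      exact h5
    · right
      intro α hακ β hβκ hαβ hα hβ hcon
      exact h α ((hmem α).1 hα) β ((hmem β).1 hβ) hαβ
        ⟨α, β, hαβ, hβκ, rfl, P_lt_ord hκ hu hβκ hακ, hcon⟩

theorem inner_of_not_square {κ : Cardinal.{0}} (hκ : κ.IsRegular) (hu : ℵ₀ < κ)
    (hsq : ¬ Square κ) : ∃ N, IsInnerModel N ∧ PartitionIn N κ.ord :=
  ⟨NN, inner_NN, partition_of_not_square hκ hu hsq⟩

end Pool.Agent.Helper4.WC
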