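import Pool.Agent.Helper4.WC.Cd

set_option autoImplicit false

/-!
# The well-order of the finite sets of ordinals
-/

open Set Ordinal

namespace Pool.Agent.Helper4.WC

/-- `q` is smaller than `p`: the largest element of the symmetric difference is in `p` -/
def CLt (q p : Finset O) : Prop := ∃ x ∈ p, x ∉ q ∧ ∀ y, x < y → (y ∈ q ↔ y ∈ p)

theorem cLt_irrefl (p : Finset O) : ¬ CLt p p := by
  rintro ⟨x, hx, hx', _⟩
  exact hx' hx

theorem cLt_tri (q p : Finset O) : q = p ∨ CLt q p ∨ CLt p q := by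
  by_cases hqp : q = p
  · exact Or.inl hqp
  · right
    have hne : ((q \ p) ∪ (p \ q)).Nonempty := by
      rw [Finset.nonempty_iff_ne_empty]
      intro h
      apply hqp
      ext y
      have h1 : y ∉ (q \ p) ∪ (p \ q) := by
        rw [h]
        exact Finset.notMem_empty y
      rw [Finset.mem_union, Finset.mem_sdiff, Finset.mem_sdiff] at h1
      tauto
    obtain ⟨x, hx, hmax⟩ := Finset.exists_max_image _ id hne
    have hy : ∀ y, x < y → (y ∈ q ↔ y ∈ p) := by
      intro y hxy
      by_contra h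
      have h1 : y ∈ (q \ p) ∪ (p \ q) := by
        rw [Finset.mem_union, Finset.mem_sdiff, Finset.mem_sdiff]
        tauto
      exact absurd (hmax y h1) (not_le.2 hxy)
    rw [Finset.mem_union, Finset.mem_sdiff, Finset.mem_sdiff] at hx
    rcases hx with hx | hx
    · exact Or.inr ⟨x, hx.1, hx.2, fun y h => (hy y h).symm⟩
    · exact Or.inl ⟨x, hx.1, hx.2, hy⟩

theorem cLt_asymm {q p : Finset O} (h : CLt q p) : ¬ CLt p q := by
  obtain ⟨x, hx, hx', hxy⟩ := h
  rintro ⟨z, hz, hz', hzy⟩
  rcases lt_trichotomy x z with h | h | h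
  · exact hz' ((hxy z h).1 hz)
  · exact hz' (h ▸ hx)
  · exact hx' ((hzy x h).1 hx)

theorem fs_dm {q p : Finset O} (h : CLt q p) :
    Multiset.IsDershowitzMannaLT q.val p.val := by
  obtain ⟨x, hx, hx', hxy⟩ := h
  refine ⟨(q ∩ p).val, (q \ p).val, (p \ q).val, ?_, ?_, ?_, ?_⟩
  · intro h
    have h1 : x ∈ (p \ q).val := Finset.mem_sdiff.2 ⟨hx, hx'⟩
    rw [h] at h1
    exact Multiset.notMem_zero x h1
  · have h1 : Disjoint (q ∩ p) (q \ p) := by
      rw [Finset.disjoint_left]
      intro y hy hy'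
      exact (Finset.mem_sdiff.1 hy').2 (Finset.mem_inter.1 hy).2
    have h2 : (q ∩ p).disjUnion (q \ p) h1 = q := by
      ext y
      rw [Finset.mem_disjUnion, Finset.mem_inter, Finset.mem_sdiff]
      tauto
    conv_lhs => rw [← h2]
    rfl
  · have h1 : Disjoint (q ∩ p) (p \ q) := by
      rw [Finset.disjoint_left]
      intro y hy hy'
      exact (Finset.mem_sdiff.1 hy').2 (Finset.mem_inter.1 hy).1
    have h2 : (q ∩ p).disjUnion (p \ q) h1 = p := by
      ext y
      rw [Finset.mem_disjUnion, Finset.mem_inter, Finset.mem_sdiff]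
      tauto
    conv_lhs => rw [← h2]
    rfl
  · intro y hy
    have hy1 : y ∈ q \ p := hy
    rw [Finset.mem_sdiff] at hy1
    refine ⟨x, Finset.mem_sdiff.2 ⟨hx, hx'⟩, ?_⟩
    rcases lt_trichotomy y x with h | h | h
    · exact h
    · exact absurd hx (h ▸ hy1.2)
    · exact absurd ((hxy y h).1 hy1.1) hy1.2

/-- minimal finite sets exist -/
theorem cLt_min {Q : Finset O → Prop} (h : ∃ q, Q q) : ∃ q, Q q ∧ ∀ q', Q q' → ¬ CLt q' q := by
  have hwf : WellFounded (fun q p : Finset O => CLt q p) := by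
    have h1 : WellFounded (Multiset.IsDershowitzMannaLT : Multiset O → Multiset O → Prop) :=
      Multiset.wellFounded_isDershowitzMannaLT
    have h2 := InvImage.wf (fun q : Finset O => q.val) h1
    exact Subrelation.wf (fun {q p} hqp => fs_dm hqp) h2
  obtain ⟨q, hq, hmin⟩ := hwf.has_min {q | Q q} h
  exact ⟨q, hq, fun q' hq' hlt => hmin q' hq' hlt⟩

theorem cLt_image {q p : Finset O} {j : O → O}
    (hj : ∀ x ∈ (q : Set O) ∪ p, ∀ y ∈ (q : Set O) ∪ p, x < y → j x < j y) (h : CLt q p) :
    CLt (q.image j) (p.image j) := by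
  obtain ⟨x, hx, hx', hxy⟩ := h
  have hxm : x ∈ (q : Set O) ∪ p := Or.inr hx
  have hcmp : ∀ y ∈ (q : Set O) ∪ p, j x < j y → x < y := by
    intro y hy hlt
    rcases lt_trichotomy x y with h | h | h
    · exact h
    · exact absurd hlt (by rw [h]; exact lt_irrefl _)
    · exact absurd (hj y hy x hxm h) (not_lt.2 hlt.le)
  refine ⟨j x, Finset.mem_image_of_mem j hx, ?_, ?_⟩
  · intro hmem
    obtain ⟨y, hy, hyx⟩ := Finset.mem_image.1 hmem
    have hym : y ∈ (q : Set O) ∪ p := Or.inl hy
    rcases lt_trichotomy x y with h | h | h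
    · exact absurd (hj x hxm y hym h) (by rw [hyx]; exact lt_irrefl _)
    · exact hx' (h ▸ hy)
    · exact absurd (hj y hym x hxm h) (by rw [hyx]; exact lt_irrefl _)
  · intro z hz
    constructor
    · intro hmem
      obtain ⟨y, hy, rfl⟩ := Finset.mem_image.1 hmem
      exact Finset.mem_image_of_mem j ((hxy y (hcmp y (Or.inl hy) hz)).1 hy)
    · intro hmem
      obtain ⟨y, hy, rfl⟩ := Finset.mem_image.1 hmem
      exact Finset.mem_image_of_mem j ((hxy y (hcmp y (Or.inr hy) hz)).2 hy)

/-- a largest element that is moved -/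
theorem fs_max {q : Finset O} {j : O → O} (hle : ∀ x ∈ q, x ≤ j x) (h : ¬ ∀ x ∈ q, j x = x) :
    ∃ x ∈ q, x < j x ∧ ∀ y ∈ q, x < y → j y = y := by
  classical
  have hne : (q.filter fun x => j x ≠ x).Nonempty := by
    push Not at h
    obtain ⟨x, hx, hx'⟩ := h
    exact ⟨x, Finset.mem_filter.2 ⟨hx, hx'⟩⟩
  obtain ⟨x, hx, hmax⟩ := Finset.exists_max_image _ id hne
  rw [Finset.mem_filter] at hx
  refine ⟨x, hx.1, lt_of_le_of_ne (hle x hx.1) (Ne.symm hx.2), fun y hy hxy => ?_⟩
  by_contra hne'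
  exact absurd (hmax y (Finset.mem_filter.2 ⟨hy, hne'⟩)) (not_le.2 hxy)

/-- a finite set that is moved down -/
theorem cLt_of_image {q p : Finset O} {j : O → O} (hj : ∀ x ∈ q, ∀ y ∈ q, x < y → j x < j y)
    (hle : ∀ x ∈ q, x ≤ j x) (h : q.image j = p) : q = p ∨ CLt q p := by
  by_cases hid : ∀ x ∈ q, j x = x
  · left
    rw [← h]
    ext y
    rw [Finset.mem_image]
    constructor
    · intro hy
      exact ⟨y, hy, hid y hy⟩
    · rintro ⟨z, hz, rfl⟩
      rw [hid z hz]
      exact hz
  · right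
    obtain ⟨x, hx, hlt, hmax⟩ := fs_max hle hid
    subst h
    refine ⟨j x, Finset.mem_image_of_mem j hx, ?_, ?_⟩
    · intro hmem
      have h1 := hj x hx (j x) hmem hlt
      rw [hmax (j x) hmem hlt] at h1
      exact lt_irrefl _ h1
    · intro y hy
      constructor
      · intro hyq
        exact Finset.mem_image.2 ⟨y, hyq, hmax y hyq (hlt.trans hy)⟩
      · intro hyp
        obtain ⟨z, hz, rfl⟩ := Finset.mem_image.1 hyp
        have hxz : x < z := by
          rcases lt_trichotomy x z with h | h | h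
          · exact h
          · exact absurd hy (by rw [h]; exact lt_irrefl _)
          · exact absurd (hj z hz x hx h) (not_lt.2 hy.le)
        rw [hmax z hz hxz]
        exact hz

/-- an increasing map from a finite set to itself is the identity -/
theorem image_eq_self {p : Finset O} {j : O → O} (hj : ∀ x ∈ p, ∀ y ∈ p, x < y → j x < j y)
    (hle : ∀ x ∈ p, x ≤ j x) (h : p.image j = p) : ∀ x ∈ p, j x = x := by
  by_contra hid
  obtain ⟨x, hx, hlt, hmax⟩ := fs_max hle hid
  have hmem : j x ∈ p := by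
    have h1 := Finset.mem_image_of_mem j hx
    rwa [h] at h1
  have h1 := hj x hx (j x) hmem hlt
  rw [hmax (j x) hmem hlt] at h1
  exact lt_irrefl _ h1

theorem fs_not_lt {p : Finset O} {j i : O → O} (hi : ∀ x ∈ p, ∀ y ∈ p, x < y → i x < i y)
    (hj : ∀ x ∈ p, ∀ y ∈ p, x < y → j x < j y)
    (h : p.image j = p.image i) {x : O} (hx : x ∈ p) (ih : ∀ y ∈ p, y < x → j y = i y) :
    ¬ j x < i x := by
  intro hlt
  have h1 := Finset.mem_image_of_mem j hx
  rw [h] at h1
  obtain ⟨y, hy, hyx⟩ := Finset.mem_image.1 h1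
  rcases lt_trichotomy y x with h2 | h2 | h2
  · have h3 := hj y hy x hx h2
    rw [ih y hy h2, hyx] at h3
    exact lt_irrefl _ h3
  · rw [h2] at hyx
    rw [hyx] at hlt
    exact lt_irrefl _ hlt
  · have h3 := hi x hx y hy h2
    rw [hyx] at h3
    exact lt_irrefl _ (h3.trans hlt)

/-- two increasing maps with the same image on a finite set agree on it -/
theorem image_unique {p : Finset O} {j i : O → O} (hj : ∀ x ∈ p, ∀ y ∈ p, x < y → j x < j y)
    (hi : ∀ x ∈ p, ∀ y ∈ p, x < y → i x < i y) (h : p.image j = p.image i) :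
    ∀ x ∈ p, j x = i x := by
  intro x
  induction x using WellFoundedLT.induction with
  | ind x ih =>
    intro hx
    have ih' : ∀ y ∈ p, y < x → j y = i y := fun y hy hlt => ih y hlt hy
    rcases lt_trichotomy (j x) (i x) with h1 | h1 | h1
    · exact absurd h1 (fs_not_lt hi hj h hx ih')
    · exact h1
    · exact absurd h1 (fs_not_lt hj hi h.symm hx fun y hy hlt => (ih' y hy hlt).symm)

end Pool.Agent.Helper4.WC
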