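import Pool.Agent.Helper4.WC.Pr

set_option autoImplicit false

/-!
# Formulas
-/

open Set Ordinal

namespace Pool.Agent.Helper4.WC

/-- formulas with variables `v 0, v 1, ...`; `ex` binds the variable `0` and shifts the others -/
inductive Fml : Type
  | lt : ℕ → ℕ → Fml
  | mem : ℕ → ℕ → Fml
  | pr : ℕ → ℕ → ℕ → Fml
  | on : ℕ → ℕ → Fml
  | bot : Fml
  | imp : Fml → Fml → Fml
  | ex : Fml → Fml

/-- truth, where the quantifiers range over `A` and `mem` is interpreted by `R` -/
def Sat (A : Set O) (R : O → O → Prop) : Fml → (ℕ → O) → Prop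
  | .lt i j, v => v i < v j
  | .mem i j, v => R (v i) (v j)
  | .pr i j k, v => v i = P (v j) (v k)
  | .on i j, v => v i = oo (v j)
  | .bot, _ => False
  | .imp φ ψ, v => Sat A R φ v → Sat A R ψ v
  | .ex φ, v => ∃ y ∈ A, Sat A R φ (cns y v)

/-- Goedel number -/
def Fml.code : Fml → ℕ
  | .bot => 0
  | .lt i j => 6 * Nat.pair i j + 1
  | .mem i j => 6 * Nat.pair i j + 2
  | .pr i j k => 6 * Nat.pair i (Nat.pair j k) + 3
  | .on i j => 6 * Nat.pair i j + 4
  | .imp φ ψ => 6 * Nat.pair φ.code ψ.code + 5
  | .ex φ => 6 * φ.code + 6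

theorem Fml.code_inj {φ ψ : Fml} (h : φ.code = ψ.code) : φ = ψ := by
  induction φ generalizing ψ with
  | lt i j =>
    cases ψ <;> simp only [Fml.code] at h <;> first | omega | skip
    rename_i i' j'
    have h1 : Nat.pair i j = Nat.pair i' j' := by omega
    rw [Nat.pair_eq_pair] at h1
    rw [h1.1, h1.2]
  | mem i j =>
    cases ψ <;> simp only [Fml.code] at h <;> first | omega | skip
    rename_i i' j'
    have h1 : Nat.pair i j = Nat.pair i' j' := by omega
    rw [Nat.pair_eq_pair] at h1
    rw [h1.1, h1.2]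
  | pr i j k =>
    cases ψ <;> simp only [Fml.code] at h <;> first | omega | skip
    rename_i i' j' k'
    have h1 : Nat.pair i (Nat.pair j k) = Nat.pair i' (Nat.pair j' k') := by omega
    rw [Nat.pair_eq_pair, Nat.pair_eq_pair] at h1
    rw [h1.1, h1.2.1, h1.2.2]
  | on i j =>
    cases ψ <;> simp only [Fml.code] at h <;> first | omega | skip
    rename_i i' j'
    have h1 : Nat.pair i j = Nat.pair i' j' := by omega
    rw [Nat.pair_eq_pair] at h1
    rw [h1.1, h1.2]
  | bot => cases ψ <;> simp only [Fml.code] at h <;> first | omega | rfl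
  | imp φ1 φ2 ih1 ih2 =>
    cases ψ <;> simp only [Fml.code] at h <;> first | omega | skip
    rename_i ψ1 ψ2
    have h1 : Nat.pair φ1.code φ2.code = Nat.pair ψ1.code ψ2.code := by omega
    rw [Nat.pair_eq_pair] at h1
    rw [ih1 h1.1, ih2 h1.2]
  | ex φ1 ih =>
    cases ψ <;> simp only [Fml.code] at h <;> first | omega | skip
    rename_i ψ1
    have h1 : φ1.code = ψ1.code := by omega
    rw [ih h1]

theorem Fml.code_lt_imp_left (φ ψ : Fml) : φ.code < (Fml.imp φ ψ).code := by
  have := Nat.left_le_pair φ.code ψ.code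
  simp only [Fml.code]
  omega

theorem Fml.code_lt_imp_right (φ ψ : Fml) : ψ.code < (Fml.imp φ ψ).code := by
  have := Nat.right_le_pair φ.code ψ.code
  simp only [Fml.code]
  omega

theorem Fml.code_lt_ex (φ : Fml) : φ.code < (Fml.ex φ).code := by
  simp only [Fml.code]
  omega

open Classical in
/-- the formula with number `n` -/
noncomputable def form (n : ℕ) : Fml := if h : ∃ φ : Fml, φ.code = n then Classical.choose h else .bot

@[simp] theorem form_code (φ : Fml) : form φ.code = φ := by
  have h : ∃ ψ : Fml, ψ.code = φ.code := ⟨φ, rfl⟩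
  unfold form
  rw [dif_pos h]
  exact Fml.code_inj (Classical.choose_spec h)

theorem form_eq_or (n : ℕ) : (form n).code = n ∨ form n = .bot := by
  unfold form
  split_ifs with h
  · exact Or.inl (Classical.choose_spec h)
  · exact Or.inr rfl

/-- a bound for the free variables -/
def Fml.bnd : Fml → ℕ
  | .lt i j => max i j + 1
  | .mem i j => max i j + 1
  | .pr i j k => max i (max j k) + 1
  | .on i j => max i j + 1
  | .bot => 0
  | .imp φ ψ => max φ.bnd ψ.bnd
  | .ex φ => φ.bnd

/-- truth only depends on the values of the free variables -/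
theorem sat_congr {A : Set O} {R : O → O → Prop} (φ : Fml) {v w : ℕ → O}
    (h : ∀ i < φ.bnd, v i = w i) : Sat A R φ v ↔ Sat A R φ w := by
  induction φ generalizing v w with
  | lt i j =>
    simp only [Sat]
    rw [h i (by simp only [Fml.bnd]; omega), h j (by simp only [Fml.bnd]; omega)]
  | mem i j =>
    simp only [Sat]
    rw [h i (by simp only [Fml.bnd]; omega), h j (by simp only [Fml.bnd]; omega)]
  | pr i j k =>
    simp only [Sat]
    rw [h i (by simp only [Fml.bnd]; omega), h j (by simp only [Fml.bnd]; omega),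
      h k (by simp only [Fml.bnd]; omega)]
  | on i j =>
    simp only [Sat]
    rw [h i (by simp only [Fml.bnd]; omega), h j (by simp only [Fml.bnd]; omega)]
  | bot => exact Iff.rfl
  | imp φ ψ ih1 ih2 =>
    simp only [Sat]
    rw [ih1 fun i hi => h i (by simp only [Fml.bnd]; omega),
      ih2 fun i hi => h i (by simp only [Fml.bnd]; omega)]
  | ex φ ih =>
    simp only [Sat]
    refine exists_congr fun y => and_congr_right fun _ => ih fun i hi => ?_
    cases i with
    | zero => rfl
    | succ i => exact h i (by simp only [Fml.bnd]; omega)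

/-- truth only depends on the values of `R` on `A` -/
theorem sat_congr_rel {A : Set O} {R R' : O → O → Prop} (φ : Fml) {v : ℕ → O}
    (hv : ∀ i, v i ∈ A) (h : ∀ x ∈ A, ∀ y ∈ A, (R x y ↔ R' x y)) :
    Sat A R φ v ↔ Sat A R' φ v := by
  induction φ generalizing v with
  | lt i j => exact Iff.rfl
  | mem i j => exact h _ (hv i) _ (hv j)
  | pr i j k => exact Iff.rfl
  | on i j => exact Iff.rfl
  | bot => exact Iff.rfl
  | imp φ ψ ih1 ih2 =>
    simp only [Sat]
    rw [ih1 hv, ih2 hv]
  | ex φ ih =>
    simp only [Sat]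
    refine exists_congr fun y => and_congr_right fun hy => ih fun i => ?_
    cases i with
    | zero => exact hy
    | succ i => exact hv i

end Pool.Agent.Helper4.WC
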