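import Pool.Agent.Helper4.WC.Rel

set_option autoImplicit false

/-!
# Hulls
-/

open Set Ordinal

namespace Pool.Agent.Helper4.WC

/-- membership in the hull of `Z` at the location `s` -/
inductive HullP (s : O) (Z : Set O) : O → Prop
  | base {z : O} : z ∈ Z → z < s → HullP s Z z
  | zero : 0 < s → HullP s Z 0
  | fst {c : O} : HullP s Z c → HullP s Z (cA c)
  | snd {c : O} : HullP s Z c → HullP s Z (cX c)
  | fn {c : O} : HullP s Z c → HullP s Z (F c)
  | cod {a x : O} (n : ℕ) : HullP s Z a → HullP s Z x → x ≤ a → cd a n x < s →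
      HullP s Z (cd a n x)

/-- the hull of `Z` at the location `s`: the closure of `Z ∩ s` under components, `F` and the codes
below `s` -/
def Hull (s : O) (Z : Set O) : Set O := {c | HullP s Z c}

theorem hull_lt {s : O} {Z : Set O} {c : O} (h : c ∈ Hull s Z) : c < s := by
  induction h with
  | base _ h => exact h
  | zero h => exact h
  | fst _ ih => exact (cA_le _).trans_lt ih
  | snd _ ih => exact (cX_le _).trans_lt ih
  | fn _ ih => exact (F_le_self _).trans_lt ih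
  | cod n _ _ _ h _ _ => exact h

theorem mem_hull {s : O} {Z : Set O} {c : O} (h : c ∈ Z) (hs : c < s) : c ∈ Hull s Z :=
  HullP.base h hs

/-- monotonicity and idempotence in one lemma -/
theorem hull_le {r s : O} {Z W : Set O} (hrs : r ≤ s) (h : ∀ z ∈ W, z < r → z ∈ Hull s Z) :
    Hull r W ⊆ Hull s Z := by
  intro c hc
  induction hc with
  | base hz hr => exact h _ hz hr
  | zero h0 => exact HullP.zero (h0.trans_le hrs)
  | fst _ ih => exact HullP.fst ih
  | snd _ ih => exact HullP.snd ih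
  | fn _ ih => exact HullP.fn ih
  | cod n _ _ hx h _ _ => 
    rename_i ih1 ih2
    exact HullP.cod n ih1 ih2 hx (h.trans_le hrs)

theorem hull_mono {r s : O} {Z W : Set O} (hrs : r ≤ s) (h : W ⊆ Z) : Hull r W ⊆ Hull s Z :=
  hull_le hrs fun _ hz hr => mem_hull (h hz) (hr.trans_le hrs)

/-- continuity -/
theorem hull_cont {ι : Type*} [Preorder ι] [IsDirected ι (· ≤ ·)] [Nonempty ι] (t : ι → O)
    (W : ι → Set O) (ht : Monotone t) (hW : Monotone W) {s : O} {Z : Set O}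
    (hs : ∀ r < s, ∃ i, r < t i) (hZ : ∀ z ∈ Z, z < s → ∃ i, z ∈ W i) :
    ∀ c ∈ Hull s Z, ∃ i, c ∈ Hull (t i) (W i) := by
  intro c hc
  have hm : ∀ {i j : ι}, i ≤ j → Hull (t i) (W i) ⊆ Hull (t j) (W j) := fun h =>
    hull_mono (ht h) (hW h)
  induction hc with
  | base hz hr =>
    obtain ⟨i, hi⟩ := hZ _ hz hr
    obtain ⟨j, hj⟩ := hs _ hr
    obtain ⟨k, hik, hjk⟩ := exists_ge_ge i j
    exact ⟨k, mem_hull (hW hik hi) (hj.trans_le (ht hjk))⟩
  | zero h0 =>
    obtain ⟨j, hj⟩ := hs _ h0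
    exact ⟨j, HullP.zero hj⟩
  | fst _ ih =>
    obtain ⟨i, hi⟩ := ih
    exact ⟨i, HullP.fst hi⟩
  | snd _ ih =>
    obtain ⟨i, hi⟩ := ih
    exact ⟨i, HullP.snd hi⟩
  | fn _ ih =>
    obtain ⟨i, hi⟩ := ih
    exact ⟨i, HullP.fn hi⟩
  | cod n _ _ hx h ih1 ih2 =>
    obtain ⟨i, hi⟩ := ih1
    obtain ⟨j, hj⟩ := ih2
    obtain ⟨l, hl⟩ := hs _ h
    obtain ⟨k, hik, hjk⟩ := exists_ge_ge i j
    obtain ⟨m, hkm, hlm⟩ := exists_ge_ge k l
    exact ⟨m, HullP.cod n (hm (hik.trans hkm) hi) (hm (hjk.trans hkm) hj) hx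
      (hl.trans_le (ht hlm))⟩

/-- continuity in the location -/
theorem hull_cont_s {s : O} {Z : Set O} (hs : ∀ x < s, ∃ y < s, x < y) {c : O}
    (hc : c ∈ Hull s Z) : ∃ r < s, c ∈ Hull r Z := by
  have hcs := hull_lt hc
  have : Nonempty (Iio s) := ⟨⟨c, hcs⟩⟩
  obtain ⟨i, hi⟩ := hull_cont (ι := Iio s) (fun r => r.1) (fun _ => Z) (fun _ _ h => h)
    monotone_const (s := s) (Z := Z) (fun r hr => by
      obtain ⟨y, hy, hry⟩ := hs r hr
      exact ⟨⟨y, hy⟩, hry⟩) (fun z hz _ => ⟨⟨c, hcs⟩, hz⟩) c hc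
  exact ⟨i.1, i.2, hi⟩

/-- continuity in the parameters -/
theorem hull_cont_b {s β : O} {Z : Set O} (h0 : 0 < β) (hβ : ∀ x < β, ∃ y < β, x < y) {c : O}
    (hc : c ∈ Hull s (Iio β ∪ Z)) : ∃ δ < β, c ∈ Hull s (Iio δ ∪ Z) := by
  have : Nonempty (Iio β) := ⟨⟨0, h0⟩⟩
  have hZ : ∀ z ∈ Iio β ∪ Z, z < s → ∃ i : Iio β, z ∈ Iio i.1 ∪ Z := by
    intro z hz _
    rcases hz with hz | hz
    · obtain ⟨y, hy, hzy⟩ := hβ z hz
      exact ⟨⟨y, hy⟩, Or.inl hzy⟩
    · exact ⟨⟨0, h0⟩, Or.inr hz⟩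
  obtain ⟨i, hi⟩ := hull_cont (ι := Iio β) (fun _ => s) (fun δ => Iio δ.1 ∪ Z) monotone_const
    (fun a b h => union_subset_union_left _ (Iio_subset_Iio h)) (s := s) (Z := Iio β ∪ Z)
    (fun r hr => ⟨⟨0, h0⟩, hr⟩) hZ c hc
  exact ⟨i.1, i.2, hi⟩

/-- continuity in the parameters, for finitely many elements -/
theorem hull_cont_fin {s β : O} {Z : Set O} (h0 : 0 < β) (hβ : ∀ x < β, ∃ y < β, x < y)
    (q : Finset O) (hq : ∀ c ∈ q, c ∈ Hull s (Iio β ∪ Z)) :
    ∃ δ < β, ∀ c ∈ q, c ∈ Hull s (Iio δ ∪ Z) := by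
  classical
  induction q using Finset.induction_on with
  | empty => exact ⟨0, h0, fun c hc => absurd hc (Finset.notMem_empty c)⟩
  | insert a q _ ih =>
    obtain ⟨δ, hδ, h1⟩ := ih fun c hc => hq c (Finset.mem_insert_of_mem hc)
    obtain ⟨δ', hδ', h2⟩ := hull_cont_b h0 hβ (hq a (Finset.mem_insert_self a q))
    refine ⟨max δ δ', max_lt hδ hδ', fun c hc => ?_⟩
    rcases Finset.mem_insert.1 hc with rfl | hc
    · exact hull_mono le_rfl
        (union_subset_union_left _ (Iio_subset_Iio (le_max_right δ δ'))) h2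
    · exact hull_mono le_rfl
        (union_subset_union_left _ (Iio_subset_Iio (le_max_left δ δ'))) (h1 c hc)

/-- finiteness: the location `r + 1` adds finitely many values -/
theorem hull_succ (r : O) (Z : Set O) :
    Hull (r + 1) Z ⊆ Hull r (Z ∪ {cA r, cX r, F r}) ∪ {r} := by
  intro c hc
  have key : ∀ y, y ≤ r → y ∈ (Z ∪ {cA r, cX r, F r}) →
      y ∈ Hull r (Z ∪ {cA r, cX r, F r}) ∪ {r} := by
    intro y hy hm
    rcases hy.lt_or_eq with h | h
    · exact Or.inl (mem_hull hm h)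
    · exact Or.inr h
  induction hc with
  | base hz hr => exact key _ (Order.lt_add_one_iff.1 hr) (Or.inl hz)
  | zero h0 =>
    rcases (zero_le (a := r)).lt_or_eq with h | h
    · exact Or.inl (HullP.zero h)
    · exact Or.inr h
  | fst _ ih =>
    rcases ih with h | h
    · exact Or.inl (HullP.fst h)
    · rw [mem_singleton_iff] at h
      subst h
      exact key _ (cA_le _) (Or.inr (by simp))
  | snd _ ih =>
    rcases ih with h | h
    · exact Or.inl (HullP.snd h)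
    · rw [mem_singleton_iff] at h
      subst h
      exact key _ (cX_le _) (Or.inr (by simp))
  | fn _ ih =>
    rcases ih with h | h
    · exact Or.inl (HullP.fn h)
    · rw [mem_singleton_iff] at h
      subst h
      exact key _ (F_le_self _) (Or.inr (by simp))
  | cod n _ _ hx h ih1 ih2 =>
    rename_i a x _ _
    rcases (Order.lt_add_one_iff.1 h).lt_or_eq with h3 | h3
    · have ha : a < r := (le_cd hx).trans_lt h3
      refine Or.inl (HullP.cod n ?_ ?_ hx h3)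
      · rcases ih1 with h | h
        · exact h
        · exact absurd h ha.ne
      · rcases ih2 with h | h
        · exact h
        · exact absurd h (hx.trans_lt ha).ne
    · exact Or.inr h3

/-- closed ordinals bound hulls -/
theorem hull_cls {s z : O} {Z : Set O} (hz : Cls z) (h0 : 0 < z) (h : ∀ x ∈ Z, x < s → x < z) :
    ∀ c ∈ Hull s Z, c < z := by
  intro c hc
  induction hc with
  | base hz hr => exact h _ hz hr
  | zero _ => exact h0
  | fst _ ih => exact (cA_le _).trans_lt ih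
  | snd _ ih => exact (cX_le _).trans_lt ih
  | fn _ ih => exact (F_le_self _).trans_lt ih
  | cod n _ _ hx _ ih1 _ => exact hz.cd_lt ih1 hx

/-- closed subsets of `s` -/
structure IsCl (s : O) (X : Set O) : Prop where
  lt : ∀ c ∈ X, c < s
  zero : 0 < s → 0 ∈ X
  fst : ∀ c ∈ X, cA c ∈ X
  snd : ∀ c ∈ X, cX c ∈ X
  fn : ∀ c ∈ X, F c ∈ X
  cod : ∀ a ∈ X, ∀ x ∈ X, x ≤ a → ∀ n, cd a n x < s → cd a n x ∈ X

theorem isCl_hull (s : O) (Z : Set O) : IsCl s (Hull s Z) where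
  lt _ hc := hull_lt hc
  zero h := HullP.zero h
  fst _ hc := HullP.fst hc
  snd _ hc := HullP.snd hc
  fn _ hc := HullP.fn hc
  cod _ ha _ hx hxa n h := HullP.cod n ha hx hxa h

/-! ## Bounded and cofinal sets -/

/-- `X` is bounded in `β` -/
def BddIn (X : Set O) (β : O) : Prop := ∃ b < β, ∀ x ∈ X, x < β → x < b

/-- `X` is cofinal in `β` -/
def Cof (X : Set O) (β : O) : Prop := ∀ b < β, ∃ x ∈ X, b ≤ x ∧ x < β

theorem not_bddIn {X : Set O} {β : O} : ¬ BddIn X β ↔ Cof X β := by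
  unfold BddIn Cof
  push Not
  refine forall_congr' fun b => imp_congr Iff.rfl ?_
  exact ⟨fun ⟨x, h1, h2, h3⟩ => ⟨x, h1, h3, h2⟩, fun ⟨x, h1, h2, h3⟩ => ⟨x, h1, h3, h2⟩⟩

theorem BddIn.mono {X Y : Set O} {β : O} (h : BddIn Y β) (hXY : X ⊆ Y) : BddIn X β := by
  obtain ⟨b, hb, h1⟩ := h
  exact ⟨b, hb, fun x hx => h1 x (hXY hx)⟩

theorem Cof.mono {X Y : Set O} {β : O} (h : Cof X β) (hXY : X ⊆ Y) : Cof Y β := by
  intro b hb
  obtain ⟨x, hx, h1⟩ := h b hb
  exact ⟨x, hXY hx, h1⟩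

/-- `β` is not singularised at `s`: hulls of bounded subsets of `β` with finitely many parameters
are bounded in `β` -/
def Bd (β s : O) : Prop := ∀ δ < β, ∀ q : Finset O, BddIn (Hull s (Iio δ ∪ (q : Set O))) β

end Pool.Agent.Helper4.WC
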