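import Pool.Agent.Helper4.WC.NCd

set_option autoImplicit false

open Set Ordinal Cardinal

namespace Pool.Agent.Helper4.WC

open Pool.Agent.Helper4.KSq (IsAcc IsClubIn)

/-- closure points are nice -/
theorem Ctx.nice_of_EPt {κ : Cardinal.{0}} (hκ : κ.IsRegular) (hu : ℵ₀ < κ) {X : Ctx}
    (hK : X.K = κ.ord) (hAK : X.A ⊆ Iio X.K) {φ z1 z2 : O} (hφ : Es φ = X.A)
    (hz1 : z1 = nx (max φ κ.ord)) (hz2 : z2 = nx z1) {β : O}
    (hβ : EPt κ (nx z2) {φ, κ.ord, z1, z2} β) (hC : ∃ c, X.B β (X.A ∩ Iio β) (Es c)) :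
    X.Nice β := by
  classical
  have l1 : φ < z1 := by
    rw [hz1]
    exact (le_max_left _ _).trans_lt (lt_nx _)
  have l2 : κ.ord < z1 := by
    rw [hz1]
    exact (le_max_right _ _).trans_lt (lt_nx _)
  have l3 : z1 < z2 := by
    rw [hz2]
    exact lt_nx _
  have l4 : z2 < nx z2 := lt_nx _
  have hq : ∀ x ∈ ({φ, κ.ord, z1, z2} : Finset O), x < nx z2 := by
    intro x hx
    simp only [Finset.mem_insert, Finset.mem_singleton] at hx
    rcases hx with rfl | rfl | rfl | rfl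
    · exact l1.trans (l3.trans l4)
    · exact l2.trans (l3.trans l4)
    · exact l3.trans l4
    · exact l4
  have hX1 : ∀ x < β, x ∈ Hull (nx z2) (Iio β ∪ (({φ, κ.ord, z1, z2} : Finset O) : Set O)) :=
    fun x hx => mem_hull (Or.inl hx) (hx.trans (hβ.lt.trans (l2.trans (l3.trans l4))))
  have hX2 : ∀ x ∈ ({φ, κ.ord, z1, z2} : Finset O),
      x ∈ Hull (nx z2) (Iio β ∪ (({φ, κ.ord, z1, z2} : Finset O) : Set O)) :=
    fun x hx => mem_hull (Or.inr hx) (hq x hx)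
  obtain ⟨t, j, hj, hr⟩ := condensation
    (isCl_hull (nx z2) (Iio β ∪ (({φ, κ.ord, z1, z2} : Finset O) : Set O)))
  have hid := range_id hj hr hX1
  obtain ⟨hβt, hjβ⟩ := range_pt hj hr hX1 (hX2 κ.ord (by simp)) hβ.lt.le hβ.sub
  obtain ⟨a, ha, ja⟩ := (hr _).2 (hX2 φ (by simp))
  obtain ⟨z1', hz1', jz1⟩ := (hr _).2 (hX2 z1 (by simp))
  obtain ⟨z2', hz2', jz2⟩ := (hr _).2 (hX2 z2 (by simp))
  have hEs : Es a = X.A ∩ Iio β := by
    ext ξ
    constructor
    · intro h1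
      have h2 : ξ < t := (E_lt h1).trans ha
      have h3 : E (j ξ) (j a) := (hj.toMEmb.map_E ha h2).2 h1
      rw [ja] at h3
      have h4 : j ξ ∈ X.A := by
        rw [← hφ]
        exact h3
      have h5 : j ξ < j β := by
        rw [hjβ, ← hK]
        exact hAK h4
      have h6 : ξ < β := (hj.toMEmb.lt_iff h2 hβt).1 h5
      rw [(hid ξ h6).2] at h4
      exact ⟨h4, h6⟩
    · rintro ⟨h1, h2⟩
      have h3 : E (j ξ) (j a) := by
        rw [ja, (hid ξ h2).2]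
        rw [← hφ] at h1
        exact h1
      exact (hj.toMEmb.map_E ha (hid ξ h2).1).1 h3
  have hmax : j (max a β) = max φ κ.ord := by
    rcases le_total a β with h1 | h1
    · have h2 := (hj.toMEmb.le_iff ha hβt).2 h1
      rw [ja, hjβ] at h2
      rw [max_eq_right h1, max_eq_right h2, hjβ]
    · have h2 := (hj.toMEmb.le_iff hβt ha).2 h1
      rw [ja, hjβ] at h2
      rw [max_eq_left h1, max_eq_left h2, ja]
  have e1 : z1' = nx (max a β) := hj.toMEmb.nx_eq hz1' (max_lt ha hβt) (by rw [jz1, hmax, hz1])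
  have e2 : z2' = nx z1' := hj.toMEmb.nx_eq hz2' hz1' (by rw [jz2, jz1, hz2])
  have hle : X.e1 β ≤ z2' := by
    rw [e2, e1]
    exact nx_mono (nx_mono (max_le_max (aa_le hEs) le_rfl))
  have hblim : ∀ x < β, ∃ y < β, x < y := fun x hx => by
    obtain ⟨z, hz, hxz, _⟩ := hβ.lim x hx
    exact ⟨z, hz, hxz⟩
  refine ⟨hβ.pos, hβ.lim, ⟨a, hEs⟩, hC, ?_⟩
  intro r hr1 δ hδ w
  have hrt : r < t := (hr1.trans hle).trans_lt hz2'
  have hfin : ∀ c ∈ insert (j r) ((w.filter (· < r)).image j),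
      c ∈ Hull (nx z2) (Iio β ∪ (({φ, κ.ord, z1, z2} : Finset O) : Set O)) := by
    intro c hc
    rcases Finset.mem_insert.1 hc with rfl | hc
    · exact (hr _).1 ⟨r, hrt, rfl⟩
    · obtain ⟨y, hy, rfl⟩ := Finset.mem_image.1 hc
      exact (hr _).1 ⟨y, (Finset.mem_filter.1 hy).2.trans hrt, rfl⟩
  obtain ⟨δ', hδ', hfin'⟩ := hull_cont_fin hβ.pos hblim _ hfin
  have hmono : Hull (nx z2) (Iio δ' ∪ (({φ, κ.ord, z1, z2} : Finset O) : Set O)) ⊆
      Hull (nx z2) (Iio (max δ δ') ∪ (({φ, κ.ord, z1, z2} : Finset O) : Set O)) :=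
    hull_mono le_rfl (union_subset_union_left _ (Iio_subset_Iio (le_max_right _ _)))
  obtain ⟨b, hb, hbb⟩ := hβ.bdd (max δ δ') (max_lt hδ hδ') (j r)
    (hmono (hfin' _ (Finset.mem_insert_self _ _))) ((w.filter (· < r)).image j)
    (fun x hx => hmono (hfin' _ (Finset.mem_insert_of_mem hx)))
  refine ⟨b, hb, fun x hx hxβ => ?_⟩
  have h1 : x ∈ Hull r (Iio δ ∪ ((w.filter (· < r) : Finset O) : Set O)) := by
    refine hull_le le_rfl (fun z hz hzr => mem_hull ?_ hzr) hx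
    rcases hz with hz | hz
    · exact Or.inl hz
    · exact Or.inr (Finset.mem_coe.2 (Finset.mem_filter.2 ⟨hz, hzr⟩))
  have h2 : MEmb r (j r) j := hj.toMEmb.restrict hrt.le fun c hc => hj.mono r hrt c hc
  have h3 := h2.hull h1
  rw [(hid x hxβ).2] at h3
  refine hbb x (hull_mono le_rfl ?_ h3) (hxβ.trans hβ.lt)
  rintro _ ⟨y, hy | hy, rfl⟩
  · left
    have hyδ : y < δ := hy
    rw [(hid y (hyδ.trans hδ)).2]
    exact lt_of_lt_of_le hyδ (le_max_left _ _)
  · right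
    exact Finset.mem_coe.2 (Finset.mem_image_of_mem j hy)

end Pool.Agent.Helper4.WC
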