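import Pool.Agent.Helper4.WC.NC1
import Pool.Agent.Helper4.WC.NC2

set_option autoImplicit false

open Set Ordinal Cardinal

namespace Pool.Agent.Helper4.WC

open Pool.Agent.Helper4.KSq (IsAcc IsClubIn)

theorem Ctx.exists_nice {κ : Cardinal.{0}} (hκ : κ.IsRegular) (hu : ℵ₀ < κ) {X : Ctx}
    (hK : X.K = κ.ord) (hAK : X.A ⊆ Iio X.K) (hA : ∃ a, Es a = X.A) {C : Set O}
    (hCl : IsClubIn C κ.ord) (hC : ∀ β ∈ C, ∃ c, X.B β (X.A ∩ Iio β) (Es c)) :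
    ∃ D, IsClubIn D κ.ord ∧ ∀ β ∈ D, X.Nice β := by
  obtain ⟨φ, hφ⟩ := hA
  obtain ⟨D, hD, hD'⟩ := exists_EPt hκ hu (nx (nx (nx (max φ κ.ord))))
    {φ, κ.ord, nx (max φ κ.ord), nx (nx (max φ κ.ord))}
  exact ⟨D ∩ C, club_inter hκ hu hD hCl, fun β hβ =>
    nice_of_EPt hκ hu hK hAK hφ rfl rfl (hD' β hβ.1) (hC β hβ.2)⟩

end Pool.Agent.Helper4.WC
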