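import Pool.Agent.Helper4.WC.NCd

set_option autoImplicit false

open Set Ordinal Cardinal

namespace Pool.Agent.Helper4.WC

open Pool.Agent.Helper4.KSq (IsAcc IsClubIn)

theorem nc1_hull {κ : Cardinal.{0}} (hκ : κ.IsRegular) (hu : ℵ₀ < κ) (s : O) (q : Finset O)
    {δ : O} (hδ : δ < κ.ord) : SmK κ (Hull s (Iio δ ∪ (q : Set O))) :=
  SmK.hull hκ hu (SmK.union hκ (smK_Iio hδ) (smK_finset hκ q))

theorem nc1_bdd {κ : Cardinal.{0}} (hκ : κ.IsRegular) {Y : Set O} (hY : SmK κ Y) :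
    ∃ b < κ.ord, ∀ x ∈ Y, x < κ.ord → x < b := by
  obtain ⟨b, hb, h⟩ := SmK.bdd hκ (X := {x | x ∈ Y ∧ x < κ.ord})
    (hY.mono fun x hx => hx.1) fun x hx => hx.2
  exact ⟨b, hb, fun x hx hxκ => h x ⟨hx, hxκ⟩⟩

theorem nc1_fun {κ : Cardinal.{0}} (hκ : κ.IsRegular) (hu : ℵ₀ < κ) (s : O) (q : Finset O)
    (δ : O) (hδ : δ < κ.ord) : ∃ r, r < κ.ord ∧ nx δ ≤ r ∧
      (∀ x ∈ Hull s (Iio δ ∪ (q : Set O)), x < κ.ord → x < r) ∧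
      ∀ t ∈ Hull s (Iio δ ∪ (q : Set O)), ∀ w : Finset O,
        (∀ x ∈ w, x ∈ Hull s (Iio δ ∪ (q : Set O))) →
          ∀ x ∈ Hull t (Iio δ ∪ (w : Set O)), x < κ.ord → x < r := by
  have hX := nc1_hull hκ hu s q hδ
  obtain ⟨b1, hb1, h1⟩ := nc1_bdd hκ hX
  have h2 : ∀ t : O, ∀ w : Finset O, ∃ b < κ.ord, ∀ x ∈ Hull t (Iio δ ∪ (w : Set O)),
      x < κ.ord → x < b := fun t w => nc1_bdd hκ (nc1_hull hκ hu t w hδ)
  choose g hg hg' using h2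
  have h3 : SmK κ (⋃ t ∈ Hull s (Iio δ ∪ (q : Set O)),
      {y | ∃ w : Finset O, (w : Set O) ⊆ Hull s (Iio δ ∪ (q : Set O)) ∧ g t w = y}) :=
    SmK.biUnion hκ hX fun t _ => SmK.finsets hκ hu hX (g t)
  obtain ⟨b2, hb2, h4⟩ := SmK.bdd hκ h3 (by
    intro x hx
    simp only [mem_iUnion] at hx
    obtain ⟨t, _, w, _, rfl⟩ := hx
    exact hg t w)
  refine ⟨max (max b1 b2) (nx δ), max_lt (max_lt hb1 hb2) (nx_lt_ord hκ hu hδ),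
    le_max_right _ _, ?_, ?_⟩
  · intro x hx hxκ
    exact (h1 x hx hxκ).trans_le ((le_max_left _ _).trans (le_max_left _ _))
  · intro t ht w hw x hx hxκ
    have h5 : g t w < b2 := by
      apply h4
      simp only [mem_iUnion]
      exact ⟨t, ht, w, hw, rfl⟩
    exact ((hg' t w x hx hxκ).trans h5).trans_le ((le_max_right _ _).trans (le_max_left _ _))

theorem exists_EPt {κ : Cardinal.{0}} (hκ : κ.IsRegular) (hu : ℵ₀ < κ) (s : O) (q : Finset O) :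
    ∃ D, IsClubIn D κ.ord ∧ ∀ β ∈ D, EPt κ s q β := by
  choose! ρ h1 h2 h3 h4 using nc1_fun hκ hu s q
  refine ⟨_, club_of_fun hκ hu ρ h1, ?_⟩
  rintro β ⟨hβ, hβ0, hβρ⟩
  have hlim : ∀ x < β, ∃ z < β, x < z ∧ Cls z := by
    intro x hx
    exact ⟨nx x, (h2 x (hx.trans hβ)).trans_lt (hβρ x hx), lt_nx x, cls_nx x⟩
  refine ⟨hβ0, hβ, hlim, ?_, ?_⟩
  · intro x hx hxκ
    obtain ⟨δ, hδ, hxδ⟩ := hull_cont_b hβ0 (fun x hx => by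
      obtain ⟨z, hz, hxz, _⟩ := hlim x hx
      exact ⟨z, hz, hxz⟩) hx
    exact (h3 δ (hδ.trans hβ) x hxδ hxκ).trans (hβρ δ hδ)
  · intro δ hδ t ht w hw
    exact ⟨ρ δ, hβρ δ hδ, h4 δ (hδ.trans hβ) t ht w hw⟩

end Pool.Agent.Helper4.WC
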