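import Pool.Agent.Helper4.WC.Cty
import Pool.Agent.Helper4.WC.CLb

set_option autoImplicit false

/-!
# Club many points are nice
-/

open Set Ordinal Cardinal

namespace Pool.Agent.Helper4.WC

open Pool.Agent.Helper4.KSq (IsAcc IsClubIn)

/-- the closure points of the hulls at the location `s` with parameters `q` -/
structure EPt (κ : Cardinal.{0}) (s : O) (q : Finset O) (β : O) : Prop where
  pos : 0 < β
  lt : β < κ.ord
  lim : ∀ x < β, ∃ z < β, x < z ∧ Cls z
  sub : ∀ x ∈ Hull s (Iio β ∪ (q : Set O)), x < κ.ord → x < β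
  bdd : ∀ δ < β, ∀ t ∈ Hull s (Iio δ ∪ (q : Set O)), ∀ w : Finset O,
    (∀ x ∈ w, x ∈ Hull s (Iio δ ∪ (q : Set O))) →
      ∃ b < β, ∀ x ∈ Hull t (Iio δ ∪ (w : Set O)), x < κ.ord → x < b

end Pool.Agent.Helper4.WC
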