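import Pool.Agent.Helper4.WC.NTd

set_option autoImplicit false

open Set Ordinal Cardinal

namespace Pool.Agent.Helper4.WC

open Pool.Agent.Helper4.KSq (IsAcc IsClubIn)

namespace Ctx

variable {κ : Cardinal.{0}} {X : Ctx} {D : Set O}

theorem Thr.exists_sys (h : Thr κ X D) : ∃ J, Sys X D J := by
  have key : ∀ γ β, ∃ j : O → O, γ ∈ D → β ∈ D → γ < β →
      MEmb (X.S γ) (X.S β) j ∧ (∀ x < γ, j x = x) ∧ j γ = β ∧ (X.p γ).image j = X.p β ∧
        (¬ X.TypeA β → j (X.cc γ) = X.cc β) := by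
    intro γ β
    by_cases hc : γ ∈ D ∧ β ∈ D ∧ γ < β
    · obtain ⟨-, -, j, hj⟩ := coh (h.nice β hc.2.1) (h.nice γ hc.1) hc.2.2
        (h.acc β hc.2.1 γ hc.1 hc.2.2)
      exact ⟨j, fun _ _ _ => hj⟩
    · exact ⟨fun x => x, fun h1 h2 h3 => absurd ⟨h1, h2, h3⟩ hc⟩
  choose J hJ using key
  have hemb : ∀ γ ∈ D, ∀ β ∈ D, γ < β → MEmb (X.S γ) (X.S β) (J γ β) :=
    fun γ hγ β hβ hlt => (hJ γ β hγ hβ hlt).1
  have hid : ∀ γ ∈ D, ∀ β ∈ D, γ < β → ∀ x < γ, J γ β x = x :=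
    fun γ hγ β hβ hlt => (hJ γ β hγ hβ hlt).2.1
  have himg : ∀ γ ∈ D, ∀ β ∈ D, γ < β → (X.p γ).image (J γ β) = X.p β :=
    fun γ hγ β hβ hlt => (hJ γ β hγ hβ hlt).2.2.2.1
  refine ⟨J, hemb, hid, fun γ hγ β hβ hlt => (hJ γ β hγ hβ hlt).2.2.1, himg,
    fun γ hγ β hβ hlt => (hJ γ β hγ hβ hlt).2.2.2.2, ?_⟩
  intro b hb c hc d hd hbc hcd x hx
  have hbd : b < d := hbc.trans hcd
  have h1 : MEmb (X.S b) (X.S d) (J c d ∘ J b c) := (hemb b hb c hc hbc).comp (hemb c hc d hd hcd)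
  have h2 : MEmb (X.S b) (X.S d) (J b d) := hemb b hb d hd hbd
  refine h1.congr h2 (Z := Iio b ∪ (X.p b : Set O)) ?_ (gen (h.nice b hb) x hx)
  intro z hz hzS
  rcases hz with hz | hz
  · have h3 : z < b := hz
    show J c d (J b c z) = J b d z
    rw [hid b hb c hc hbc z h3, hid c hc d hd hcd z (h3.trans hbc), hid b hb d hd hbd z h3]
  · have hlt := p_lt_S (h.nice b hb)
    refine image_unique (p := X.p b) (fun y hy w hw hyw => h1.mono w (hlt w hw) y hyw)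
      (fun y hy w hw hyw => h2.mono w (hlt w hw) y hyw) ?_ z hz
    rw [← Finset.image_image, himg b hb c hc hbc, himg c hc d hd hcd, himg b hb d hd hbd]

/-- all points of a thread have the same type -/
theorem Thr.types (h : Thr κ X D) : (∀ β ∈ D, X.TypeA β) ∨ (∀ β ∈ D, ¬ X.TypeA β) := by
  have key : ∀ b ∈ D, ∀ c ∈ D, b < c → (X.TypeA b ↔ X.TypeA c) := fun b hb c hc hbc =>
    (coh (h.nice c hc) (h.nice b hb) hbc (h.acc c hc b hb hbc)).2.1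
  by_contra hcon
  push Not at hcon
  obtain ⟨⟨b, hb, hb1⟩, c, hc, hc1⟩ := hcon
  rcases lt_trichotomy b c with h1 | h1 | h1
  · exact hb1 ((key b hb c hc h1).2 hc1)
  · rw [h1] at hb1
    exact hb1 hc1
  · exact hb1 ((key c hc b hb h1).1 hc1)

end Ctx

end Pool.Agent.Helper4.WC
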