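import Pool.Agent.Helper4.WC.NTd

set_option autoImplicit false

open Set Ordinal Cardinal

namespace Pool.Agent.Helper4.WC

open Pool.Agent.Helper4.KSq (IsAcc IsClubIn)

namespace Ctx

variable {κ : Cardinal.{0}} {X : Ctx} {D : Set O}

theorem Thr.nt1b_small (h : Thr κ X D) : Small.{0} D :=
  small_subset h.club.1

theorem Thr.nt1b_pos (h : Thr κ X D) : 0 < κ.ord := by
  have h1 : (0 : O) + 1 < κ.ord ∨ 0 < κ.ord := by
    right
    rw [Cardinal.lt_ord, Ordinal.card_zero]
    exact Cardinal.aleph0_pos.trans h.unc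
  exact h1.elim (fun h2 => lt_of_le_of_lt zero_le h2) id

theorem Thr.nt1b_lt (h : Thr κ X D) {b : O} (hb : b ∈ D) : b < κ.ord := h.club.1 hb

/-- a point of the thread above two given ones -/
theorem Thr.nt1b_above (h : Thr κ X D) {x b : O} (hx : x < κ.ord) (hb : b ∈ D) :
    ∃ d ∈ D, x < d ∧ b ≤ d := by
  obtain ⟨c, hc, hxc⟩ := h.club.2.1 (x + 1) (ord_lim h.reg x hx)
  have h1 : x < c := (lt_add_one x).trans_le hxc
  exact ⟨max b c, dl_max hb hc, h1.trans_le (le_max_right _ _), le_max_left _ _⟩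

theorem Thr.nt1b_count (h : Thr κ X D) (f : ℕ → O) (hf : ∀ n, f n ∈ D) :
    ∃ b ∈ D, ∀ n, f n ≤ b := by
  have h1 : (⨆ n, f n) < κ.ord :=
    Ordinal.iSup_lt_of_lt_cof (by rw [h.reg.cof_ord]; simpa using h.unc)
      (fun n => h.nt1b_lt (hf n))
  obtain ⟨c, hc, hle⟩ := h.club.2.1 _ h1
  exact ⟨c, hc, fun n => (Ordinal.le_iSup f n).trans hle⟩

theorem Thr.exists_lim (h : Thr κ X D) {J : O → O → O → O} (hJ : Sys X D J) :
    ∃ T K, Lim κ X D J T K := by
  have hne : D.Nonempty := by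
    obtain ⟨c, hc, _⟩ := h.club.2.1 0 h.nt1b_pos
    exact ⟨c, hc⟩
  obtain ⟨T, K, hK1, hK2, hK3⟩ := direct_limit h.nt1b_small hne h.nt1b_count X.S J hJ.emb hJ.comm
  have hlt : ∀ b ∈ D, ∀ x ≤ b, x < X.S b := fun b hb x hx =>
    hx.trans_lt (lt_S (h.nice b hb))
  -- all elements below a given one come from a level above a given one
  have hsurj : ∀ b ∈ D, ∀ t < T, ∃ d ∈ D, b ≤ d ∧ ∃ y < X.S d, K d y = t := by
    intro b hb t ht
    obtain ⟨c, hc, y, hy, hyt⟩ := hK3 t ht
    have hd := dl_max hb hc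
    refine ⟨_, hd, le_max_left _ _, dl0J J c (max b c) y,
      (dl_memb hJ.emb hc hd (le_max_right _ _)).lt y hy, ?_⟩
    rw [dl_K hK2 hc hd (le_max_right _ _) hy, hyt]
  have hid : ∀ x, ∀ b ∈ D, x < b → K b x = x := by
    intro x
    induction x using WellFoundedLT.induction with
    | ind x ih =>
      intro b hb hxb
      refine le_antisymm ?_ ((hK1 b hb).le_self (hlt b hb x hxb.le))
      by_contra hcon
      have h1 : x < K b x := not_le.1 hcon
      have h2 : x < T := h1.trans ((hK1 b hb).lt x (hlt b hb x hxb.le))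
      obtain ⟨d, hd, hbd, y, hy, hyx⟩ := hsurj b hb x h2
      have h3 : K d x = K b x := by
        have h4 := dl_K hK2 hb hd hbd (hlt b hb x hxb.le)
        rcases hbd.eq_or_lt with h5 | h5
        · rw [h5]
        · rw [dl0_ne h5, hJ.id b hb d hd h5 x hxb] at h4
          exact h4
      have hxd : x < d := hxb.trans_le hbd
      have h5 : y < x := by
        rw [← (hK1 d hd).lt_iff hy (hlt d hd x hxd.le), hyx, h3]
        exact h1
      have h6 := ih y h5 d hd (h5.trans hxd)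
      rw [hyx] at h6
      exact h5.ne h6.symm
  have htop : ∀ b ∈ D, ∀ d ∈ D, b ≤ d → K d d = K b b := by
    intro b hb d hd hbd
    rcases hbd.eq_or_lt with h5 | h5
    · rw [h5]
    · have h4 := hK2 b hb d hd h5 b (hlt b hb b le_rfl)
      rwa [hJ.top b hb d hd h5] at h4
  refine ⟨T, K, hK1, hK2, fun b hb x hx => hid x b hb hx, fun b hb => ?_, hK3⟩
  refine le_antisymm ?_ ?_
  · by_contra hcon
    have h1 : κ.ord < K b b := not_le.1 hcon
    have h2 : κ.ord < T := h1.trans ((hK1 b hb).lt b (hlt b hb b le_rfl))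
    obtain ⟨d, hd, hbd, y, hy, hyx⟩ := hsurj b hb _ h2
    have h3 := htop b hb d hd hbd
    have h5 : y < d := by
      rw [← (hK1 d hd).lt_iff hy (hlt d hd d le_rfl), hyx, h3]
      exact h1
    rw [hid y d hd h5] at hyx
    rw [hyx] at h5
    exact lt_asymm h5 (h.nt1b_lt hd)
  · by_contra hcon
    have h1 : K b b < κ.ord := not_le.1 hcon
    obtain ⟨d, hd, hlt', hbd⟩ := h.nt1b_above h1 hb
    have h2 := htop b hb d hd hbd
    have h3 := (hK1 d hd).mono d (hlt d hd d le_rfl) _ hlt'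
    rw [hid _ d hd hlt', h2] at h3
    exact lt_irrefl _ h3

end Ctx

end Pool.Agent.Helper4.WC
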