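import Pool.Agent.Helper4.WC.NT1
import Pool.Agent.Helper4.WC.NT1b
import Pool.Agent.Helper4.KSq.Fodor

set_option autoImplicit false

/-!
# There are no threads
-/

open Set Ordinal Cardinal

namespace Pool.Agent.Helper4.WC

open Pool.Agent.Helper4.KSq (IsAcc IsClubIn)

namespace Ctx

variable {κ : Cardinal.{0}} {X : Ctx} {D : Set O}

theorem Thr.nt2_pos (h : Thr κ X D) : 0 < κ.ord := by
  have h1 : (0 : O) < ω := omega0_pos
  have h2 : (ω : O) ≤ κ.ord := by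
    rw [← Cardinal.ord_aleph0]
    exact Cardinal.ord_le_ord.2 h.unc.le
  exact h1.trans_le h2

theorem Thr.nt2_lt (h : Thr κ X D) {β : O} (hβ : β ∈ D) : β < κ.ord := h.club.1 hβ

theorem Thr.nt2_stat (h : Thr κ X D) : Pool.Agent.Helper4.KSq.IsStat κ D := by
  intro D' hD'
  have h1 := Pool.Agent.Helper4.KSq.club_inter h.reg h.unc h.club hD'
  obtain ⟨c, hc, _⟩ := h1.2.1 0 h.nt2_pos
  exact ⟨c, hc.2, hc.1⟩

theorem Thr.nt2_ne (h : Thr κ X D) : ∃ β, β ∈ D := by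
  obtain ⟨c, hc, _⟩ := h.club.2.1 0 h.nt2_pos
  exact ⟨c, hc⟩

/-- there is one `δ` that works for an unbounded set of points of type A -/
theorem Thr.exists_delta (h : Thr κ X D) (hA : ∀ β ∈ D, X.TypeA β) :
    ∃ δ < κ.ord, ∀ b < κ.ord, ∃ β ∈ D, b < β ∧ Cof (Hull (X.S β) (Iio δ ∪ (X.p β : Set O))) β := by
  classical
  have hex : ∀ β, ∃ δ, β ∈ D → δ < β ∧ Cof (Hull (X.S β) (Iio δ ∪ (X.p β : Set O))) β := by
    intro β
    by_cases hβ : β ∈ D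
    · obtain ⟨δ, hδ, h1⟩ := (adm_pA (h.nice β hβ) (hA β hβ)).2.2
      refine ⟨δ, fun _ => ⟨hδ, ?_⟩⟩
      have e1 : X.S β = s1 β := by
        unfold Ctx.S
        rw [if_pos (hA β hβ)]
      have e2 : X.p β = X.pA β := by
        unfold Ctx.p
        rw [if_pos (hA β hβ)]
      rw [e1, e2]
      exact h1
    · exact ⟨0, fun hc => absurd hc hβ⟩
  choose d hd using hex
  obtain ⟨δ, hδ⟩ := Pool.Agent.Helper4.KSq.fodor h.reg h.unc h.nt2_stat d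
    (fun a ha => (hd a ha).1)
  have hδκ : δ < κ.ord := by
    obtain ⟨a, _, ha2⟩ := hδ D h.club
    have h1 := (hd a ha2.1).1
    rw [ha2.2] at h1
    exact h1.trans (h.nt2_lt ha2.1)
  refine ⟨δ, hδκ, fun b hb => ?_⟩
  obtain ⟨a, ha1, ha2⟩ := hδ _ (Pool.Agent.Helper4.KSq.club_lim h.reg h.unc hb)
  refine ⟨a, ha2.1, ha1.2.1, ?_⟩
  have h1 := (hd a ha2.1).2
  rw [ha2.2] at h1
  exact h1

/-- the images of the parameters agree -/
theorem Thr.nt2_img (h : Thr κ X D) {J : O → O → O → O} (hJ : Sys X D J) {T : O}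
    {K : O → O → O} (hL : Lim κ X D J T K) {γ β : O} (hγ : γ ∈ D) (hβ : β ∈ D) :
    (X.p γ).image (K γ) = (X.p β).image (K β) := by
  have key : ∀ γ ∈ D, ∀ β ∈ D, γ < β → (X.p γ).image (K γ) = (X.p β).image (K β) := by
    intro γ hγ β hβ hlt
    rw [← hJ.img γ hγ β hβ hlt, Finset.image_image]
    refine Finset.image_congr fun x hx => ?_
    exact (hL.comm γ hγ β hβ hlt x (p_lt_S (h.nice γ hγ) x hx)).symm
  rcases lt_trichotomy γ β with h1 | h1 | h1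
  · exact key γ hγ β hβ h1
  · rw [h1]
  · exact (key β hβ γ hγ h1).symm

/-- type A is impossible -/
theorem Thr.false_A (h : Thr κ X D) (hA : ∀ β ∈ D, X.TypeA β) : False := by
  obtain ⟨δ, hδ, hcof⟩ := h.exists_delta hA
  obtain ⟨J, hJ⟩ := h.exists_sys
  obtain ⟨T, K, hL⟩ := h.exists_lim hJ
  obtain ⟨β₀, hβ₀⟩ := h.nt2_ne
  set p' : Finset O := (X.p β₀).image (K β₀) with hp'
  have hsm : SmK κ (Hull T (Iio δ ∪ (p' : Set O))) :=
    SmK.hull h.reg h.unc (SmK.union h.reg (smK_Iio hδ) (smK_finset h.reg p'))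
  obtain ⟨b, hb, hbd⟩ := SmK.bdd h.reg
    (hsm.mono (inter_subset_left : Hull T (Iio δ ∪ (p' : Set O)) ∩ Iio κ.ord ⊆ _))
    (fun x hx => hx.2)
  obtain ⟨β, hβ, hlt, hc⟩ := hcof (max b δ) (max_lt hb hδ)
  have hbβ : b < β := (le_max_left _ _).trans_lt hlt
  have hδβ : δ < β := (le_max_right _ _).trans_lt hlt
  obtain ⟨x, hx, hbx, hxβ⟩ := hc b hbβ
  have h1 := (hL.emb β hβ).hull hx
  rw [hL.id β hβ x hxβ] at h1
  have hsub : K β '' (Iio δ ∪ (X.p β : Set O)) ⊆ Iio δ ∪ (p' : Set O) := by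
    rintro _ ⟨z, hz | hz, rfl⟩
    · left
      have hz' : z < δ := hz
      rw [hL.id β hβ z (hz'.trans hδβ)]
      exact hz
    · right
      rw [hp', h.nt2_img hJ hL hβ₀ hβ]
      exact Finset.mem_coe.2 (Finset.mem_image_of_mem _ (Finset.mem_coe.1 hz))
  have h2 : x ∈ Hull T (Iio δ ∪ (p' : Set O)) := hull_mono le_rfl hsub h1
  exact absurd (hbd x ⟨h2, hxβ.trans (h.nt2_lt hβ)⟩) (not_lt.2 hbx)

/-- in type B, the witnesses have a common limit -/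
theorem Thr.lim_B (h : Thr κ X D) (hB : ∀ β ∈ D, ¬ X.TypeA β) :
    ∃ c', ∀ β ∈ D, ∀ ξ < β, (E ξ (X.cc β) ↔ E ξ c') := by
  obtain ⟨J, hJ⟩ := h.exists_sys
  obtain ⟨T, K, hL⟩ := h.exists_lim hJ
  obtain ⟨β₀, hβ₀⟩ := h.nt2_ne
  have key : ∀ γ ∈ D, ∀ β ∈ D, γ < β → K γ (X.cc γ) = K β (X.cc β) := by
    intro γ hγ β hβ hlt
    rw [← hJ.cc γ hγ β hβ hlt (hB β hβ)]
    exact (hL.comm γ hγ β hβ hlt (X.cc γ) (cc_lt_S (hB γ hγ))).symm
  have hall : ∀ β ∈ D, K β (X.cc β) = K β₀ (X.cc β₀) := by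
    intro β hβ
    rcases lt_trichotomy β β₀ with h1 | h1 | h1
    · exact key β hβ β₀ hβ₀ h1
    · rw [h1]
    · exact (key β₀ hβ₀ β hβ h1).symm
  refine ⟨K β₀ (X.cc β₀), fun β hβ ξ hξ => ?_⟩
  rw [← hall β hβ]
  have h1 := (hL.emb β hβ).map_E (cc_lt_S (hB β hβ)) (hξ.trans (lt_S (h.nice β hβ)))
  rw [hL.id β hβ ξ hξ] at h1
  exact h1.symm

/-- there is no thread -/
theorem Thr.false (h : Thr κ X D)
    (hNT : ∀ (c : O → O) (c' : O), (∀ β ∈ D, X.B β (X.A ∩ Iio β) (Es (c β))) →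
      (∀ β ∈ D, ∀ ξ < β, (E ξ (c β) ↔ E ξ c')) → False) : False := by
  rcases h.types with hA | hB
  · exact h.false_A hA
  · obtain ⟨c', hc'⟩ := h.lim_B hB
    exact hNT X.cc c' (fun β hβ => (h.nice β hβ).B_cc) hc'

end Ctx

end Pool.Agent.Helper4.WC
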