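import Pool.Agent.Helper4.WC.COH
import Pool.Agent.Helper4.WC.DL
import Pool.Agent.Helper4.WC.CLb

set_option autoImplicit false

/-!
# Threads give direct limits
-/

open Set Ordinal Cardinal

namespace Pool.Agent.Helper4.WC

open Pool.Agent.Helper4.KSq (IsAcc IsClubIn)

namespace Ctx

/-- a thread through the canonical sets -/
structure Thr (κ : Cardinal.{0}) (X : Ctx) (D : Set O) : Prop where
  reg : κ.IsRegular
  unc : ℵ₀ < κ
  K_eq : X.K = κ.ord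
  club : IsClubIn D κ.ord
  nice : ∀ β ∈ D, X.Nice β
  acc : ∀ β ∈ D, ∀ γ ∈ D, γ < β → IsAcc (X.C β) γ

/-- a system of embeddings along `D` -/
structure Sys (X : Ctx) (D : Set O) (J : O → O → O → O) : Prop where
  emb : ∀ γ ∈ D, ∀ β ∈ D, γ < β → MEmb (X.S γ) (X.S β) (J γ β)
  id : ∀ γ ∈ D, ∀ β ∈ D, γ < β → ∀ x < γ, J γ β x = x
  top : ∀ γ ∈ D, ∀ β ∈ D, γ < β → J γ β γ = β
  img : ∀ γ ∈ D, ∀ β ∈ D, γ < β → (X.p γ).image (J γ β) = X.p β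
  cc : ∀ γ ∈ D, ∀ β ∈ D, γ < β → ¬ X.TypeA β → J γ β (X.cc γ) = X.cc β
  comm : ∀ b ∈ D, ∀ c ∈ D, ∀ d ∈ D, b < c → c < d → ∀ x < X.S b, J c d (J b c x) = J b d x

/-- the direct limit of a system -/
structure Lim (κ : Cardinal.{0}) (X : Ctx) (D : Set O) (J : O → O → O → O) (T : O)
    (K : O → O → O) : Prop where
  emb : ∀ b ∈ D, MEmb (X.S b) T (K b)
  comm : ∀ b ∈ D, ∀ c ∈ D, b < c → ∀ x < X.S b, K c (J b c x) = K b x
  id : ∀ b ∈ D, ∀ x < b, K b x = x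
  top : ∀ b ∈ D, K b b = κ.ord
  range : ∀ t < T, ∃ b ∈ D, ∃ x < X.S b, K b x = t

variable {κ : Cardinal.{0}} {X : Ctx} {D : Set O}

end Ctx

end Pool.Agent.Helper4.WC
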