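import Pool.Agent.Helper4.WC.Cd

set_option autoImplicit false

/-!
# Pairs and finite sequences of ordinals
-/

open Set Ordinal

namespace Pool.Agent.Helper4.WC

/-- the pair `(y, x)` -/
noncomputable def P (y x : O) : O := if x ≤ y then cd y 0 x else cd x 1 y

/-- left component -/
noncomputable def lf (c : O) : O := if cN c = 0 then cA c else if cN c = 1 then cX c else 0

/-- right component -/
noncomputable def rt (c : O) : O := if cN c = 0 then cX c else if cN c = 1 then cA c else 0

@[simp] theorem lf_P (y x : O) : lf (P y x) = y := by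
  unfold lf P
  split_ifs with h h1 h2 h1 h2
  · exact cA_cd h
  · exact absurd (cN_cd h) h1
  · exact absurd (cN_cd h) h1
  · have := cN_cd (n := 1) (not_le.1 h).le
    rw [this] at h1
    exact absurd h1 one_ne_zero
  · exact cX_cd (not_le.1 h).le
  · exact absurd (cN_cd (not_le.1 h).le) h2

@[simp] theorem rt_P (y x : O) : rt (P y x) = x := by
  unfold rt P
  split_ifs with h h1 h2 h1 h2
  · exact cX_cd h
  · exact absurd (cN_cd h) h1
  · exact absurd (cN_cd h) h1
  · have := cN_cd (n := 1) (not_le.1 h).le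
    rw [this] at h1
    exact absurd h1 one_ne_zero
  · exact cA_cd (not_le.1 h).le
  · exact absurd (cN_cd (not_le.1 h).le) h2

theorem P_inj {y x y' x' : O} (h : P y x = P y' x') : y = y' ∧ x = x' := by
  have h1 := congrArg lf h
  have h2 := congrArg rt h
  rw [lf_P, lf_P] at h1
  rw [rt_P, rt_P] at h2
  exact ⟨h1, h2⟩

theorem lf_le (c : O) : lf c ≤ c := by
  unfold lf
  split_ifs
  · exact cA_le c
  · exact cX_le c
  · exact zero_le

theorem rt_le (c : O) : rt c ≤ c := by
  unfold rt
  split_ifs
  · exact cX_le c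
  · exact cA_le c
  · exact zero_le

theorem le_P_left (y x : O) : y ≤ P y x := by
  have := lf_le (P y x)
  rwa [lf_P] at this

theorem le_P_right (y x : O) : x ≤ P y x := by
  have := rt_le (P y x)
  rwa [rt_P] at this

theorem Cls.P_lt {e : O} (he : Cls e) {y x : O} (hy : y < e) (hx : x < e) : P y x < e := by
  unfold P
  split_ifs with h
  · exact he.cd_lt hy h
  · exact he.cd_lt hx (not_le.1 h).le

/-- the sequence coded by `x` -/
noncomputable def dec : O → ℕ → O
  | x, 0 => lf x
  | x, i + 1 => dec (rt x) i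

/-- `y, v 0, v 1, ...` -/
def cns (y : O) (v : ℕ → O) : ℕ → O
  | 0 => y
  | i + 1 => v i

@[simp] theorem cns_zero (y : O) (v : ℕ → O) : cns y v 0 = y := rfl

@[simp] theorem cns_succ (y : O) (v : ℕ → O) (i : ℕ) : cns y v (i + 1) = v i := rfl

@[simp] theorem dec_P (y x : O) : dec (P y x) = cns y (dec x) := by
  funext i
  cases i with
  | zero => simp [dec]
  | succ i => simp [dec]

theorem dec_le (x : O) (i : ℕ) : dec x i ≤ x := by
  induction i generalizing x with
  | zero => exact lf_le x
  | succ i ih => exact (ih (rt x)).trans (rt_le x)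

@[simp] theorem dec_zero (i : ℕ) : dec 0 i = 0 :=
  le_antisymm (dec_le 0 i) zero_le

/-- finite sequences below a closed ordinal are coded below it -/
theorem exists_dec {e : O} (he : Cls e) (h0 : 0 < e) (v : ℕ → O) (hv : ∀ i, v i < e) (k : ℕ) :
    ∃ x < e, ∀ i < k, dec x i = v i := by
  induction k generalizing v with
  | zero => exact ⟨0, h0, fun i hi => absurd hi (Nat.not_lt_zero _)⟩
  | succ k ih =>
    obtain ⟨x, hx, h⟩ := ih (fun i => v (i + 1)) (fun i => hv (i + 1))
    refine ⟨P (v 0) x, he.P_lt (hv 0) hx, fun i hi => ?_⟩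
    rw [dec_P]
    cases i with
    | zero => rfl
    | succ i => exact h i (Nat.lt_of_succ_lt_succ hi)

/-- the name of the ordinal `ρ` -/
noncomputable def oo (ρ : O) : O := cd ρ 2 0

theorem oo_lt_oo {ρ σ : O} (h : ρ < σ) : oo ρ < oo σ := cd_lt zero_le zero_le (Or.inl h)

theorem oo_inj {ρ σ : O} (h : oo ρ = oo σ) : ρ = σ :=
  (cd_inj zero_le zero_le h).1

theorem le_oo (ρ : O) : ρ ≤ oo ρ := le_cd zero_le

theorem Cls.oo_lt {e : O} (he : Cls e) {ρ : O} (h : ρ < e) : oo ρ < e := he.cd_lt h zero_le

end Pool.Agent.Helper4.WC
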