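import Pool.Agent.Helper4.WC.Rel

set_option autoImplicit false

/-!
# Reflection and comprehension
-/

open Set Ordinal

namespace Pool.Agent.Helper4.WC

/-- one step of the closing-off argument -/
noncomputable def rflStep (G : O → O) (c : O) : O := nx (max c (⨆ x : Iic c, G x.1))

theorem rflStep_gt (G : O → O) (c : O) : c < rflStep G c :=
  (le_max_left _ _).trans_lt (lt_nx _)

theorem rflStep_cls (G : O → O) (c : O) : Cls (rflStep G c) := cls_nx _

theorem rflStep_fun (G : O → O) {c x : O} (h : x ≤ c) : G x < rflStep G c := by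
  have h1 : G x ≤ ⨆ x : Iic c, G x.1 := Ordinal.le_iSup (fun x : Iic c => G x.1) ⟨x, h⟩
  exact (h1.trans (le_max_right _ _)).trans_lt (lt_nx _)

/-- closing off under a function -/
theorem rflClose (G : O → O) (b : O) : ∃ e, b < e ∧ Cls e ∧ ∀ x < e, G x < e := by
  have hle : ∀ n : ℕ, (rflStep G)^[n] b ≤ ⨆ k : ℕ, (rflStep G)^[k] b :=
    fun n => Ordinal.le_iSup (fun k : ℕ => (rflStep G)^[k] b) n
  refine ⟨⨆ k : ℕ, (rflStep G)^[k] b, (rflStep_gt G b).trans_le (hle 1), ?_, ?_⟩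
  · refine cls_of_lim fun x hx => ?_
    obtain ⟨n, hn⟩ := Ordinal.lt_iSup_iff.1 hx
    have h1 := hle (n + 1)
    rw [Function.iterate_succ_apply'] at h1
    exact ⟨rflStep G ((rflStep G)^[n] b), h1, hn.trans (rflStep_gt G _), rflStep_cls G _⟩
  · intro x hx
    obtain ⟨n, hn⟩ := Ordinal.lt_iSup_iff.1 hx
    have h1 := hle (n + 1)
    rw [Function.iterate_succ_apply'] at h1
    exact (rflStep_fun G hn.le).trans_le h1

/-- the closure function of a formula -/
theorem rflAux (φ : Fml) : ∃ G : O → O, ∀ e, Cls e → 0 < e → (∀ x < e, G x < e) →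
    ∀ v : ℕ → O, (∀ i, v i < e) → (Sat (Iio e) E φ v ↔ Sat Set.univ E φ v) := by
  induction φ with
  | lt i j => exact ⟨id, fun e _ _ _ v _ => Iff.rfl⟩
  | mem i j => exact ⟨id, fun e _ _ _ v _ => Iff.rfl⟩
  | pr i j k => exact ⟨id, fun e _ _ _ v _ => Iff.rfl⟩
  | on i j => exact ⟨id, fun e _ _ _ v _ => Iff.rfl⟩
  | bot => exact ⟨id, fun e _ _ _ v _ => Iff.rfl⟩
  | imp φ ψ ih1 ih2 =>
    obtain ⟨G1, h1⟩ := ih1
    obtain ⟨G2, h2⟩ := ih2
    refine ⟨fun x => max (G1 x) (G2 x), fun e he h0 hG v hv => ?_⟩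
    have a1 := h1 e he h0 (fun x hx => (le_max_left _ _).trans_lt (hG x hx)) v hv
    have a2 := h2 e he h0 (fun x hx => (le_max_right _ _).trans_lt (hG x hx)) v hv
    simp only [Sat]
    rw [a1, a2]
  | ex ψ ih =>
    obtain ⟨G1, h1⟩ := ih
    refine ⟨fun x => max (G1 x) (sInf {y | Sat Set.univ E ψ (cns y (dec x))}),
      fun e he h0 hG v hv => ?_⟩
    have a1 : ∀ y < e, (Sat (Iio e) E ψ (cns y v) ↔ Sat Set.univ E ψ (cns y v)) := by
      intro y hy
      refine h1 e he h0 (fun x hx => (le_max_left _ _).trans_lt (hG x hx)) _ fun i => ?_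
      cases i with
      | zero => exact hy
      | succ i => exact hv i
    simp only [Sat]
    constructor
    · rintro ⟨y, hy, hs⟩
      exact ⟨y, Set.mem_univ y, (a1 y hy).1 hs⟩
    · rintro ⟨y, -, hs⟩
      obtain ⟨x, hx, hd⟩ := exists_dec he h0 v hv ψ.bnd
      have key : ∀ y, (Sat Set.univ E ψ (cns y v) ↔ Sat Set.univ E ψ (cns y (dec x))) := by
        intro y
        refine sat_congr ψ fun i hi => ?_
        cases i with
        | zero => rfl
        | succ i => exact (hd i (by omega)).symm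
      have hne : ({y | Sat Set.univ E ψ (cns y (dec x))} : Set O).Nonempty :=
        ⟨y, (key y).1 hs⟩
      have hm := csInf_mem hne
      have hlt : sInf {y | Sat Set.univ E ψ (cns y (dec x))} < e :=
        (le_max_right _ _).trans_lt (hG x hx)
      exact ⟨_, hlt, (a1 _ hlt).2 ((key _).2 hm)⟩

/-- reflection -/
theorem reflect (φ : Fml) (b : O) : ∃ e, b < e ∧ Cls e ∧
    ∀ v : ℕ → O, (∀ i, v i < e) → (Sat (Iio e) E φ v ↔ Sat Set.univ E φ v) := by
  obtain ⟨G, hG⟩ := rflAux φ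
  obtain ⟨e, hb, he, h⟩ := rflClose G b
  exact ⟨e, hb, he, hG e he (zero_le.trans_lt hb) h⟩

end Pool.Agent.Helper4.WC
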