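import Pool.Agent.Helper4.WC.Fml

set_option autoImplicit false

/-!
# The relation `E`
-/

open Set Ordinal

namespace Pool.Agent.Helper4.WC

/-- one step of the recursion: the set with name `c`, in terms of the relation `R` below `cA c` -/
def Estep (c : O) (R : O → O → Prop) (ξ : O) : Prop :=
  (cN c = 2 ∧ ∃ ρ < cA c, ξ = oo ρ) ∨
  (∃ k, cN c = k + 3 ∧ Cls (cA c) ∧ cX c < cA c ∧ ξ < cA c ∧
    Sat (Iio (cA c)) R (form k) (cns ξ (dec (cX c))))

/-- `E ξ c`: the ordinal `ξ` is in the set with name `c` (by recursion on `c`) -/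
noncomputable def E (ξ c : O) : Prop :=
  WellFounded.fix (C := fun _ => O → Prop) (lt_wf : WellFounded ((· < ·) : O → O → Prop))
    (fun c rec ξ => Estep c (fun x y => ∃ h : y < c, y < cA c ∧ rec y h x) ξ) c ξ

theorem rel_unfold {ξ c : O} :
    E ξ c ↔ Estep c (fun x y => ∃ _ : y < c, y < cA c ∧ E x y) ξ := by
  unfold E
  rw [WellFounded.fix_eq]

theorem rel_dec_lt {ξ c : O} (h1 : ξ < cA c) (h2 : cX c < cA c) (i : ℕ) :
    cns ξ (dec (cX c)) i ∈ Iio (cA c) := by
  cases i with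
  | zero => exact h1
  | succ i => exact (dec_le (cX c) i).trans_lt h2

theorem E_iff {ξ c : O} : E ξ c ↔ Estep c E ξ := by
  rw [rel_unfold]
  unfold Estep
  refine or_congr Iff.rfl (exists_congr fun k => ?_)
  refine and_congr_right fun _ => and_congr_right fun _ => and_congr_right fun h2 =>
    and_congr_right fun h1 => ?_
  refine sat_congr_rel (form k) (rel_dec_lt h1 h2) fun x _ y hy => ?_
  exact ⟨fun ⟨_, _, h⟩ => h, fun h => ⟨lt_of_lt_of_le hy (cA_le c), hy, h⟩⟩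

/-- elements are smaller than names -/
theorem E_lt {ξ c : O} (h : E ξ c) : ξ < c := by
  rw [E_iff] at h
  rcases h with ⟨_, ρ, hρ, rfl⟩ | ⟨k, _, _, _, h, _⟩
  · rw [← cd_dec c]
    exact cd_lt zero_le (cX_le_cA c) (Or.inl hρ)
  · exact h.trans_le (cA_le c)

/-- the set with name `c` -/
def Es (c : O) : Set O := {ξ | E ξ c}

@[simp] theorem mem_Es {ξ c : O} : ξ ∈ Es c ↔ E ξ c := Iff.rfl

/-- the least element of the set with name `c` (`0` if it is empty) -/
noncomputable def F (c : O) : O := sInf {ξ | E ξ c}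

theorem F_mem {c : O} (h : ∃ ξ, E ξ c) : E (F c) c :=
  csInf_mem (s := {ξ | E ξ c}) h

theorem F_le {ξ c : O} (h : E ξ c) : F c ≤ ξ :=
  csInf_le' (s := {ξ | E ξ c}) h

theorem F_eq_zero {c : O} (h : ∀ ξ, ¬ E ξ c) : F c = 0 := by
  have h1 : {ξ | E ξ c} = ∅ := by
    ext ξ
    simp [h ξ]
  unfold F
  rw [h1]
  exact Ordinal.sInf_empty

theorem F_le_self (c : O) : F c ≤ c := by
  by_cases h : ∃ ξ, E ξ c
  · exact (E_lt (F_mem h)).le
  · push Not at h
    rw [F_eq_zero h]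
    exact zero_le

theorem F_lt_cA {c : O} (h : ∃ ξ, E ξ c) (h3 : 3 ≤ cN c) : F c < cA c := by
  have h1 := F_mem h
  rw [E_iff] at h1
  rcases h1 with ⟨h2, _⟩ | ⟨k, _, _, _, h, _⟩
  · omega
  · exact h

/-- definable sets have names -/
theorem E_name {e : O} (he : Cls e) (φ : Fml) {x : O} (hx : x < e) {ξ : O} :
    E ξ (cd e (φ.code + 3) x) ↔ ξ < e ∧ Sat (Iio e) E φ (cns ξ (dec x)) := by
  rw [E_iff]
  unfold Estep
  rw [cA_cd hx.le, cN_cd hx.le, cX_cd hx.le]
  constructor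
  · rintro (⟨h, _⟩ | ⟨k, hk, _, _, h1, h2⟩)
    · omega
    · have : k = φ.code := by omega
      subst this
      rw [form_code] at h2
      exact ⟨h1, h2⟩
  · rintro ⟨h1, h2⟩
    refine Or.inr ⟨φ.code, rfl, he, hx, h1, ?_⟩
    rwa [form_code]

/-- the names of the ordinals -/
theorem E_oo {ξ ρ : O} : E ξ (oo ρ) ↔ ∃ σ < ρ, ξ = oo σ := by
  rw [E_iff]
  unfold Estep oo
  rw [cA_cd zero_le, cN_cd zero_le, cX_cd zero_le]
  constructor
  · rintro (⟨_, h⟩ | ⟨k, hk, _⟩)
    · exact h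
    · omega
  · intro h
    exact Or.inl ⟨rfl, h⟩

/-- `S` has a name -/
def IsW (S : Set O) : Prop := ∃ c, Es c = S

/-- `A` is the universe of a structure: all ordinals, or the ordinals below a closed ordinal -/
def Dom (A : Set O) : Prop := A = Set.univ ∨ ∃ e, Cls e ∧ A = Iio e

end Pool.Agent.Helper4.WC
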