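import Pool.Agent.Helper4.WC.NT2
import Pool.Agent.Helper4.WC.NC
import Pool.Agent.Helper4.WC.COMB

set_option autoImplicit false

/-!
# `□(κ)` from witnesses without a limit
-/

open Set Ordinal Cardinal

namespace Pool.Agent.Helper4.WC

open Pool.Agent.Helper4.KSq (IsAcc IsClubIn Square)

theorem square_of_ctx {κ : Cardinal.{0}} (hκ : κ.IsRegular) (hu : ℵ₀ < κ) {X : Ctx}
    (hK : X.K = κ.ord) (hAK : X.A ⊆ Iio X.K) (hA : ∃ a, Es a = X.A) {C : Set O}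
    (hCl : IsClubIn C κ.ord) (hC : ∀ β ∈ C, ∃ c, X.B β (X.A ∩ Iio β) (Es c))
    (hNT : ∀ D, IsClubIn D κ.ord → ∀ (c : O → O) (c' : O),
      (∀ β ∈ D, X.B β (X.A ∩ Iio β) (Es (c β))) →
      (∀ β ∈ D, ∀ ξ < β, (E ξ (c β) ↔ E ξ c')) → False) : Square κ := by
  obtain ⟨D, hD, hN⟩ := Ctx.exists_nice hκ hu hK hAK hA hCl hC
  refine square_of_system hκ hu hD X.C (fun β _ => Ctx.C_sub β)
    (fun β hβ b hb hacc => Ctx.C_closed (hN β hβ) hb hacc) (fun β hβ => Ctx.C_unb_or (hN β hβ))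
    (fun β hβ γ hγ hlt hacc => (Ctx.coh (hN β hβ) (hN γ hγ) hlt hacc).1) ?_
  intro D' hD' hcl hth
  have hT : Ctx.Thr κ X D' := ⟨hκ, hu, hK, hcl, fun β hβ => hN β (hD' hβ), hth⟩
  exact hT.false (hNT D' hcl)

end Pool.Agent.Helper4.WC
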