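import Pool.Agent.Helper4.WC.TB
import Pool.Agent.Helper4.WC.AS5
import Pool.Agent.Helper4.WC.FS

set_option autoImplicit false

/-!
# Points of type A
-/

open Set Ordinal

namespace Pool.Agent.Helper4.WC

open Pool.Agent.Helper4.KSq (IsAcc IsClubIn)

/-- the least location at which `β` is singularised -/
noncomputable def s1 (β : O) : O := sInf {s | ¬ Bd β s}

namespace Ctx

variable (X : Ctx)

noncomputable def base (β : O) : Finset O := {β, X.aa β, X.e0 β, X.e1 β}

/-- finite sets that singularise `β` at the location `s1 β` -/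
def Adm (β : O) (q : Finset O) : Prop :=
  X.base β ⊆ q ∧ (∀ x ∈ q, x < s1 β) ∧ ∃ δ < β, Cof (Hull (s1 β) (Iio δ ∪ (q : Set O))) β

open Classical in
/-- the least such finite set -/
noncomputable def pA (β : O) : Finset O :=
  if h : ∃ q, X.Adm β q ∧ ∀ q', X.Adm β q' → ¬ CLt q' q then Classical.choose h else ∅

variable {X}

theorem not_bd_s1 {β : O} (hA : X.TypeA β) : ¬ Bd β (s1 β) := by
  obtain ⟨s, _, hs⟩ := hA
  exact csInf_mem (s := {s | ¬ Bd β s}) ⟨s, hs⟩

theorem bd_of_lt_s1 {β t : O} (ht : t < s1 β) : Bd β t := by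
  by_contra hcon
  exact absurd (csInf_le' (s := {s | ¬ Bd β s}) hcon) (not_le.2 ht)

theorem s1_eq_of {β t : O} (h1 : ¬ Bd β t) (h2 : ∀ r < t, Bd β r) : s1 β = t := by
  refine le_antisymm (csInf_le' (s := {s | ¬ Bd β s}) h1) ?_
  by_contra hcon
  push Not at hcon
  exact csInf_mem (s := {s | ¬ Bd β s}) ⟨t, h1⟩ (h2 _ hcon)

theorem s1_le_s2 {β : O} (hA : X.TypeA β) : s1 β ≤ X.s2 β := by
  obtain ⟨s, hs2, hs⟩ := hA
  exact (csInf_le' (s := {s | ¬ Bd β s}) hs).trans hs2

theorem e1_lt_s1 {β : O} (h : X.Nice β) (hA : X.TypeA β) : X.e1 β < s1 β := by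
  by_contra hcon
  push Not at hcon
  exact not_bd_s1 hA (h.low _ hcon)

theorem ta1_lt_e0 {β : O} (_h : X.Nice β) : X.aa β < X.e0 β ∧ β < X.e0 β ∧ X.e0 β < X.e1 β :=
  ⟨(le_max_left _ _).trans_lt (lt_nx _), (le_max_right _ _).trans_lt (lt_nx _), lt_nx _⟩

theorem ta1_base_lt {β : O} (h : X.Nice β) (hA : X.TypeA β) : ∀ x ∈ X.base β, x < s1 β := by
  obtain ⟨h1, h2, h3⟩ := ta1_lt_e0 h
  have h4 := e1_lt_s1 h hA
  intro x hx
  simp only [base, Finset.mem_insert, Finset.mem_singleton] at hx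
  rcases hx with rfl | rfl | rfl | rfl
  · exact h2.trans (h3.trans h4)
  · exact h1.trans (h3.trans h4)
  · exact h3.trans h4
  · exact h4

/-- monotonicity of `Bd` in the location fails upwards only -/
theorem Bd.mono {β r s : O} (h : Bd β s) (hr : r ≤ s) : Bd β r := by
  intro δ hδ q
  exact (h δ hδ q).mono (hull_mono hr subset_rfl)

/-- the singularising location is a limit -/
theorem s1_lim {β : O} (h : X.Nice β) (hA : X.TypeA β) : ∀ x < s1 β, ∃ y < s1 β, x < y := by
  by_contra hcon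
  push Not at hcon
  obtain ⟨x, hx, hmax⟩ := hcon
  have hs : s1 β = x + 1 := by
    refine le_antisymm ?_ (Order.add_one_le_of_lt hx)
    by_contra h2
    push Not at h2
    exact absurd (hmax _ h2) (not_le.2 (lt_add_one x))
  have hβx : β ≤ x := by
    by_contra h2
    push Not at h2
    exact absurd (hmax _ ((ta1_lt_e0 h).2.1.trans ((ta1_lt_e0 h).2.2.trans (e1_lt_s1 h hA))))
      (not_le.2 h2)
  apply not_bd_s1 hA
  rw [hs]
  intro δ hδ q
  obtain ⟨b, hb, hb'⟩ := bd_of_lt_s1 hx δ hδ (q ∪ {cA x, cX x, F x})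
  refine ⟨b, hb, fun c hc hcβ => ?_⟩
  rcases hull_succ x _ hc with h3 | h3
  · refine hb' c ?_ hcβ
    refine hull_mono le_rfl ?_ h3
    rintro z ((hz | hz) | hz)
    · exact Or.inl hz
    · exact Or.inr (by
        rw [Finset.coe_union]
        exact Or.inl hz)
    · exact Or.inr (by
        rw [Finset.coe_union]
        refine Or.inr ?_
        simpa using hz)
  · rw [mem_singleton_iff] at h3
    subst h3
    exact absurd hcβ (not_lt.2 hβx)

theorem exists_adm {β : O} (h : X.Nice β) (hA : X.TypeA β) : ∃ q, X.Adm β q := by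
  have h1 := not_bd_s1 hA
  unfold Bd at h1
  push Not at h1
  obtain ⟨δ, hδ, q, hq⟩ := h1
  rw [not_bddIn] at hq
  refine ⟨q.filter (· < s1 β) ∪ X.base β, Finset.subset_union_right, ?_, δ, hδ, ?_⟩
  · intro x hx
    rcases Finset.mem_union.1 hx with hx | hx
    · exact (Finset.mem_filter.1 hx).2
    · exact ta1_base_lt h hA x hx
  · refine hq.mono (hull_le le_rfl fun z hz hzs => mem_hull ?_ hzs)
    rcases hz with hz | hz
    · exact Or.inl hz
    · refine Or.inr ?_
      rw [Finset.mem_coe, Finset.mem_union]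
      exact Or.inl (Finset.mem_filter.2 ⟨hz, hzs⟩)

theorem adm_pA {β : O} (h : X.Nice β) (hA : X.TypeA β) : X.Adm β (X.pA β) := by
  have h1 := cLt_min (exists_adm h hA)
  unfold pA
  rw [dif_pos h1]
  exact (Classical.choose_spec h1).1

theorem pA_min {β : O} (h : X.Nice β) (hA : X.TypeA β) {q : Finset O} (hq : X.Adm β q) :
    ¬ CLt q (X.pA β) := by
  have h1 := cLt_min (exists_adm h hA)
  unfold pA
  rw [dif_pos h1]
  exact (Classical.choose_spec h1).2 q hq

theorem asys {β : O} (h : X.Nice β) (hA : X.TypeA β) : ASys β (s1 β) (X.pA β) := by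
  obtain ⟨h1, h2, h3⟩ := adm_pA h hA
  exact
    { bpos := h.pos
      blim := h.blim
      slim := s1_lim h hA
      mem := h1 (by simp [base])
      sub := h2
      bdd := fun r hr δ hδ => bd_of_lt_s1 hr δ hδ _
      cof := h3 }

end Ctx

end Pool.Agent.Helper4.WC
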