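import Pool.Agent.Helper4.WC.TAg

set_option autoImplicit false

/-!
# Limit points of the canonical club of a point of type A
-/

open Set Ordinal

namespace Pool.Agent.Helper4.WC

open Pool.Agent.Helper4.KSq (IsAcc IsClubIn)

/-- preimage of a finite set -/
theorem ta2_pre {t : O} {j : O → O} (p : Finset O) (h : ∀ y ∈ p, ∃ b < t, j b = y) :
    ∃ q : Finset O, (∀ x ∈ q, x < t) ∧ q.image j = p := by
  classical
  let g : O → O := fun y => if h : ∃ b < t, j b = y then Classical.choose h else 0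
  have hg : ∀ y ∈ p, g y < t ∧ j (g y) = y := by
    intro y hy
    have h1 := h y hy
    have h2 : g y = Classical.choose h1 := dif_pos h1
    rw [h2]
    exact Classical.choose_spec h1
  refine ⟨p.image g, ?_, ?_⟩
  · intro x hx
    obtain ⟨y, hy, rfl⟩ := Finset.mem_image.1 hx
    exact (hg y hy).1
  · ext x
    constructor
    · intro hx
      obtain ⟨z, hz, rfl⟩ := Finset.mem_image.1 hx
      obtain ⟨y, hy, rfl⟩ := Finset.mem_image.1 hz
      rw [(hg y hy).2]
      exact hy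
    · intro hx
      exact Finset.mem_image.2 ⟨g x, Finset.mem_image_of_mem g hx, (hg x hx).2⟩

/-- finitely many elements of the hull at a limit point -/
theorem ta2_fin {β s i : O} {p : Finset O} (h : ASys β s p) (hi : Order.IsSuccLimit i)
    (hβ : (sq β s p i).1 < β) {δ : O} (hδ : δ < (sq β s p i).1) (W : Finset O)
    (hW : ∀ c ∈ W, c ∈ Hull (sq β s p i).2 (Iio (sq β s p i).1 ∪ (p : Set O))) :
    ∃ l < i, δ < (sq β s p l).1 ∧
      ∀ c ∈ W, c ∈ Hull (sq β s p l).2 (Iio (sq β s p l).1 ∪ (p : Set O)) := by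
  classical
  have hb : ∀ l < i, (sq β s p l).1 < β := fun l hl => (h.sq_mono hl.le).trans_lt hβ
  have hm : ∀ {l l' : O}, l ≤ l' → l' < i →
      Hull (sq β s p l).2 (Iio (sq β s p l).1 ∪ (p : Set O)) ⊆
        Hull (sq β s p l').2 (Iio (sq β s p l').1 ∪ (p : Set O)) := by
    intro l l' hl hl'
    exact hull_mono (h.sq_snd_mono hl (hb l' hl'))
      (union_subset_union_left _ (Iio_subset_Iio (h.sq_mono hl)))
  induction W using Finset.induction_on with
  | empty =>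
    obtain ⟨l, hl, hδl⟩ := (h.sq_lim hi hb).1 δ hδ
    exact ⟨l, hl, hδl, fun c hc => absurd hc (Finset.notMem_empty c)⟩
  | insert a W _ ih =>
    obtain ⟨l, hl, hδl, hlW⟩ := ih fun c hc => hW c (Finset.mem_insert_of_mem hc)
    obtain ⟨l', hl', hla⟩ := h.hull_lim hi hb (hW a (Finset.mem_insert_self a W))
    refine ⟨max l l', max_lt hl hl', hδl.trans_le (h.sq_mono (le_max_left l l')), ?_⟩
    intro c hc
    rcases Finset.mem_insert.1 hc with h1 | h1
    · rw [h1]
      exact hm (le_max_right l l') (max_lt hl hl') hla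
    · exact hm (le_max_left l l') (max_lt hl hl') (hlW c h1)

namespace Ctx

/-- the collapse of the hull at the limit point `γ` of the canonical club of `β` -/
structure Pre (X : Ctx) (β i γ t : O) (j : O → O) : Prop where
  nice : X.Nice β
  typeA : X.TypeA β
  nice' : X.Nice γ
  lim : Order.IsSuccLimit i
  eq : (sq β (s1 β) (X.pA β) i).1 = γ
  lt : γ < β
  emb : CEmb t (sq β (s1 β) (X.pA β) i).2 j
  range : ∀ c, (∃ b < t, j b = c) ↔
    c ∈ Hull (sq β (s1 β) (X.pA β) i).2 (Iio γ ∪ (X.pA β : Set O))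

theorem exists_pre {X : Ctx} {β i γ : O} (h : X.Nice β) (hA : X.TypeA β) (hγ : X.Nice γ)
    (hi : Order.IsSuccLimit i) (he : (sq β (s1 β) (X.pA β) i).1 = γ) (hlt : γ < β) :
    ∃ t j, X.Pre β i γ t j := by
  obtain ⟨t, j, hj, hr⟩ := condensation
    (isCl_hull (sq β (s1 β) (X.pA β) i).2 (Iio γ ∪ (X.pA β : Set O)))
  exact ⟨t, j, h, hA, hγ, hi, he, hlt, hj, hr⟩

namespace Pre

variable {X : Ctx} {β i γ t : O} {j : O → O}

theorem ta2_sys (h : X.Pre β i γ t j) : ASys β (s1 β) (X.pA β) := asys h.nice h.typeA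

theorem ta2_hb (h : X.Pre β i γ t j) : (sq β (s1 β) (X.pA β) i).1 < β := by
  rw [h.eq]
  exact h.lt

theorem ta2_lt_snd (h : X.Pre β i γ t j) : β < (sq β (s1 β) (X.pA β) i).2 :=
  (lt_r0 h.ta2_sys.mem).trans_le (h.ta2_sys.r0_le_sq i)

theorem ta2_mem (h : X.Pre β i γ t j) : ∀ x < γ,
    x ∈ Hull (sq β (s1 β) (X.pA β) i).2 (Iio γ ∪ (X.pA β : Set O)) := fun _ hx =>
  mem_hull (Or.inl hx) ((hx.trans h.lt).trans h.ta2_lt_snd)

theorem ta2_mem_top (h : X.Pre β i γ t j) :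
    β ∈ Hull (sq β (s1 β) (X.pA β) i).2 (Iio γ ∪ (X.pA β : Set O)) :=
  mem_hull (Or.inr h.ta2_sys.mem) h.ta2_lt_snd

theorem ta2_snd_lt (h : X.Pre β i γ t j) : (sq β (s1 β) (X.pA β) i).2 < s1 β :=
  h.ta2_sys.sq_snd_lt h.ta2_hb

theorem ta2_pt (h : X.Pre β i γ t j) : γ < t ∧ j γ = β := by
  refine range_pt h.emb h.range h.ta2_mem h.ta2_mem_top h.lt.le fun x hx hxβ => ?_
  have h1 := h.ta2_sys.lim_closed h.lim h.ta2_hb x
  rw [h.eq] at h1
  exact h1 hx hxβ

theorem id (h : X.Pre β i γ t j) : ∀ x < γ, j x = x := fun x hx =>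
  (range_id h.emb h.range h.ta2_mem x hx).2

theorem lt_t (h : X.Pre β i γ t j) : γ < t := h.ta2_pt.1

theorem top (h : X.Pre β i γ t j) : j γ = β := h.ta2_pt.2

theorem ta2_image (h : X.Pre β i γ t j) {δ : O} (hδ : δ ≤ γ) (q : Finset O) :
    j '' (Iio δ ∪ (q : Set O)) = Iio δ ∪ ((q.image j : Finset O) : Set O) := by
  rw [image_union, Finset.coe_image]
  congr 1
  ext x
  constructor
  · rintro ⟨y, hy, rfl⟩
    rw [h.id y (lt_of_lt_of_le hy hδ)]
    exact hy
  · intro hx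
    exact ⟨x, hx, h.id x (lt_of_lt_of_le hx hδ)⟩

/-- elements of the parameters are in the range -/
theorem ta2_pA (h : X.Pre β i γ t j) : ∀ y ∈ X.pA β, ∃ b < t, j b = y := fun y hy =>
  (h.range y).2 (mem_hull (Or.inr hy)
    ((lt_r0 hy).trans_le (h.ta2_sys.r0_le_sq i)))

/-- the point is singularised at `t` -/
theorem not_bd (h : X.Pre β i γ t j) : ¬ Bd γ t := by
  intro hbd
  obtain ⟨q, hq, himg⟩ := ta2_pre (X.pA β) h.ta2_pA
  obtain ⟨δ, hδ, hcof⟩ := h.ta2_sys.lim_cof h.lim h.ta2_hb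
  rw [h.eq] at hδ hcof
  obtain ⟨b, hb, hbnd⟩ := hbd δ hδ q
  obtain ⟨x, hx, hbx, hxγ⟩ := hcof b hb
  have hxt : x < t := hxγ.trans h.lt_t
  have hZ : ∀ z ∈ Iio δ ∪ (q : Set O), z < t := by
    intro z hz
    rcases hz with hz | hz
    · exact (lt_trans hz hδ).trans h.lt_t
    · exact hq z hz
  have h1 := h.emb.hull_iff le_rfl hZ hxt
  rw [h.ta2_image hδ.le, himg, h.id x hxγ, h.emb.cut_top] at h1
  exact absurd (hbnd x (h1.1 hx) hxγ) (not_lt.2 hbx)

/-- the point is not singularised before `t` -/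
theorem bd (h : X.Pre β i γ t j) : ∀ r < t, Bd γ r := by
  classical
  intro r hr δ hδ w
  -- only the elements below `r` matter
  have hsub : Hull r (Iio δ ∪ (w : Set O)) ⊆
      Hull r (Iio δ ∪ ((w.filter (fun z => z < r) : Finset O) : Set O)) := by
    refine hull_le le_rfl fun z hz hzr => mem_hull ?_ hzr
    rcases hz with hz | hz
    · exact Or.inl hz
    · right
      simp only [Finset.coe_filter, mem_ofPred_eq]
      exact ⟨hz, hzr⟩
  have hW : ∀ c ∈ insert (j r) ((w.filter (fun z => z < r)).image j),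
      c ∈ Hull (sq β (s1 β) (X.pA β) i).2
        (Iio (sq β (s1 β) (X.pA β) i).1 ∪ (X.pA β : Set O)) := by
    intro c hc
    rw [h.eq]
    rcases Finset.mem_insert.1 hc with h1 | h1
    · rw [h1]
      exact (h.range _).1 ⟨r, hr, rfl⟩
    · obtain ⟨z, hz, rfl⟩ := Finset.mem_image.1 h1
      exact (h.range _).1 ⟨z, (Finset.mem_filter.1 hz).2.trans hr, rfl⟩
  obtain ⟨l, hl, hδl, hlW⟩ := ta2_fin h.ta2_sys h.lim h.ta2_hb (δ := δ)
    (by rw [h.eq]; exact hδ) _ hW
  have hl1 : l + 1 < i := by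
    have := h.lim.succ_lt hl
    exact this
  have hbl1 : (sq β (s1 β) (X.pA β) (l + 1)).1 < β :=
    (h.ta2_sys.sq_mono hl1.le).trans_lt h.ta2_hb
  refine ⟨(sq β (s1 β) (X.pA β) (l + 1)).1, ?_, ?_⟩
  · have := h.ta2_sys.sq_lt hl1 hbl1
    rwa [h.eq] at this
  · intro x hx hxγ
    have hx1 := hsub hx
    have hemb : MEmb r (j r) j := h.emb.toMEmb.restrict hr.le fun c hc => h.emb.mono r hr c hc
    have hx2 := hemb.hull hx1
    rw [h.id x hxγ] at hx2
    have hjr : j r ∈ Hull (sq β (s1 β) (X.pA β) l).2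
        (Iio (sq β (s1 β) (X.pA β) l).1 ∪ (X.pA β : Set O)) :=
      hlW _ (Finset.mem_insert_self _ _)
    have hx3 : x ∈ Hull (sq β (s1 β) (X.pA β) l).2
        (Iio (sq β (s1 β) (X.pA β) l).1 ∪ (X.pA β : Set O)) := by
      refine hull_le (hull_lt hjr).le ?_ hx2
      rintro _ ⟨y, hy, rfl⟩ hyr
      rcases hy with hy | hy
      · have hyδ : y < δ := hy
        rw [h.id y (hyδ.trans hδ)] at hyr ⊢
        exact mem_hull (Or.inl (hyδ.trans hδl)) (hyr.trans (hull_lt hjr))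
      · exact hlW _ (Finset.mem_insert_of_mem (Finset.mem_image_of_mem j hy))
    exact h.ta2_sys.lim_bdd h.lim h.ta2_hb hl x hx3 (hxγ.trans h.lt)

theorem s1_eq (h : X.Pre β i γ t j) : s1 γ = t := s1_eq_of h.not_bd h.bd

end Pre

end Ctx

end Pool.Agent.Helper4.WC
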