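import Pool.Agent.Helper4.WC.TA2

set_option autoImplicit false

open Set Ordinal

namespace Pool.Agent.Helper4.WC

open Pool.Agent.Helper4.KSq (IsAcc IsClubIn)

namespace Ctx

namespace Pre

variable {X : Ctx} {β i γ t : O} {j : O → O}

theorem ta3_sq_lt (h : X.Pre β i γ t j) : (sq β (s1 β) (X.pA β) i).1 < β := by
  rw [h.eq]
  exact h.lt

theorem ta3_R_lt (h : X.Pre β i γ t j) : (sq β (s1 β) (X.pA β) i).2 < s1 β :=
  (asys h.nice h.typeA).sq_snd_lt h.ta3_sq_lt

theorem ta3_pre (h : X.Pre β i γ t j) {x : O} (hx : x ∈ X.pA β) : ∃ b < t, j b = x := by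
  have h1 : x < (sq β (s1 β) (X.pA β) i).2 :=
    (lt_r0 hx).trans_le ((asys h.nice h.typeA).r0_le_sq i)
  exact (h.range x).2 (mem_hull (Or.inr hx) h1)

theorem ta3_base (h : X.Pre β i γ t j) : X.base β ⊆ X.pA β := (adm_pA h.nice h.typeA).1

theorem par (h : X.Pre β i γ t j) :
    (X.aa γ < t ∧ j (X.aa γ) = X.aa β) ∧ (X.e0 γ < t ∧ j (X.e0 γ) = X.e0 β) ∧
      (X.e1 γ < t ∧ j (X.e1 γ) = X.e1 β) := by
  obtain ⟨a, ha, ja⟩ := h.ta3_pre (x := X.aa β) (h.ta3_base (by simp [base]))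
  obtain ⟨e, he, je⟩ := h.ta3_pre (x := X.e0 β) (h.ta3_base (by simp [base]))
  obtain ⟨e', he', je'⟩ := h.ta3_pre (x := X.e1 β) (h.ta3_base (by simp [base]))
  obtain ⟨h1, h2, h3⟩ := par_low h.nice h.emb.toMEmb h.id h.lt_t h.top ha he he' ja je je'
  rw [h1, h2, h3]
  exact ⟨⟨ha, ja⟩, ⟨he, je⟩, ⟨he', je'⟩⟩

theorem typeA' (h : X.Pre β i γ t j) : X.TypeA γ := by
  refine ⟨t, ?_, h.not_bd⟩
  by_contra hcon
  rw [not_le] at hcon
  have h1 := par_up h.nice h.nice' h.emb.toMEmb h.id h.lt_t h.top h.par.1.2 hcon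
  exact absurd (h1.trans h.ta3_R_lt) (not_lt.2 (s1_le_s2 h.typeA))

theorem ta3_id_image (h : X.Pre β i γ t j) {δ : O} (hδ : δ ≤ γ) : j '' Iio δ = Iio δ := by
  ext x
  constructor
  · rintro ⟨y, hy, rfl⟩
    rw [h.id y (lt_of_lt_of_le hy hδ)]
    exact hy
  · intro hx
    exact ⟨x, hx, h.id x (lt_of_lt_of_le hx hδ)⟩

theorem img (h : X.Pre β i γ t j) : (X.pA γ).image j = X.pA β := by
  classical
  have hA := adm_pA h.nice h.typeA
  have hA' := adm_pA h.nice' h.typeA'
  have hsub : (X.pA β : Set O) ⊆ j '' Iio t := by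
    intro x hx
    obtain ⟨b, hb, hjb⟩ := h.ta3_pre hx
    exact ⟨b, hb, hjb⟩
  obtain ⟨q', hq't, hq'⟩ := Finset.subset_set_image_iff.1 hsub
  have hq'l : ∀ x ∈ q', x < t := fun x hx => hq't hx
  have hinj : ∀ x < t, j x ∈ X.pA β → x ∈ q' := by
    intro x hx hm
    rw [← hq', Finset.mem_image] at hm
    obtain ⟨z, hz, hzx⟩ := hm
    rwa [← h.emb.toMEmb.inj (hq'l z hz) hx hzx]
  obtain ⟨⟨ha, ja⟩, ⟨he, je⟩, ⟨he', je'⟩⟩ := h.par
  have hadm : X.Adm γ q' := by
    refine ⟨?_, ?_, ?_⟩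
    · intro x hx
      simp only [base, Finset.mem_insert, Finset.mem_singleton] at hx
      rcases hx with rfl | rfl | rfl | rfl
      · refine hinj _ h.lt_t ?_
        rw [h.top]
        exact h.ta3_base (by simp [base])
      · refine hinj _ ha ?_
        rw [ja]
        exact h.ta3_base (by simp [base])
      · refine hinj _ he ?_
        rw [je]
        exact h.ta3_base (by simp [base])
      · refine hinj _ he' ?_
        rw [je']
        exact h.ta3_base (by simp [base])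
    · intro x hx
      rw [h.s1_eq]
      exact hq'l x hx
    · obtain ⟨δ, hδ, hcof⟩ := (asys h.nice h.typeA).lim_cof h.lim h.ta3_sq_lt
      rw [h.eq] at hδ hcof
      refine ⟨δ, hδ, ?_⟩
      rw [h.s1_eq]
      intro b hb
      obtain ⟨x, hx, hbx, hxγ⟩ := hcof b hb
      refine ⟨x, ?_, hbx, hxγ⟩
      have himg : j '' (Iio δ ∪ (q' : Set O)) = Iio δ ∪ (X.pA β : Set O) := by
        rw [image_union, h.ta3_id_image hδ.le, ← hq', Finset.coe_image]
      have hxt : x < t := hxγ.trans h.lt_t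
      have hx2 : j x ∈ Hull (sq β (s1 β) (X.pA β) i).2 (j '' (Iio δ ∪ (q' : Set O))) := by
        rw [himg, h.id x hxγ]
        exact hx
      have hx3 := (h.emb.hull_iff le_rfl (Z := Iio δ ∪ (q' : Set O)) (by
        rintro z (hz | hz)
        · exact (lt_trans hz hδ).trans h.lt_t
        · exact hq'l z hz) hxt).1 hx2
      rwa [h.emb.cut_top] at hx3
  have hpl : ∀ x ∈ X.pA γ, x < t := by
    intro x hx
    have := hA'.2.1 x hx
    rwa [h.s1_eq] at this
  rcases cLt_tri (X.pA γ) q' with h1 | h1 | h1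
  · rw [h1]
    exact hq'
  · exfalso
    have hjm : ∀ x ∈ (X.pA γ : Set O) ∪ q', ∀ y ∈ (X.pA γ : Set O) ∪ q', x < y → j x < j y := by
      rintro x _ y hy hxy
      have hyt : y < t := by
        rcases hy with hy | hy
        · exact hpl y hy
        · exact hq'l y hy
      exact h.emb.mono y hyt x hxy
    have h2 := cLt_image hjm h1
    rw [hq'] at h2
    refine pA_min h.nice h.typeA ?_ h2
    have hR := h.ta3_R_lt
    have hws : ∀ c ∈ X.pA β, c ∈ Hull (s1 β) (Iio β ∪ (((X.pA γ).image j : Finset O) : Set O)) := by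
      intro c hc
      rw [← hq', Finset.mem_image] at hc
      obtain ⟨z, hz, rfl⟩ := hc
      have hzt := hq'l z hz
      have h3 := gen_A h.nice' h.typeA' z (by rwa [h.s1_eq])
      rw [h.s1_eq] at h3
      have h4 := h.emb.toMEmb.hull h3
      rw [image_union, h.ta3_id_image le_rfl, ← Finset.coe_image] at h4
      exact hull_mono hR.le (union_subset_union_left _ (Iio_subset_Iio h.lt.le)) h4
    obtain ⟨δ, hδ, h3⟩ := hull_cont_fin h.nice.pos h.nice.blim (X.pA β) hws
    obtain ⟨δ', hδ', hcof⟩ := hA.2.2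
    refine ⟨?_, ?_, max δ δ', max_lt hδ hδ', ?_⟩
    · intro x hx
      simp only [base, Finset.mem_insert, Finset.mem_singleton] at hx
      rw [Finset.mem_image]
      rcases hx with rfl | rfl | rfl | rfl
      · exact ⟨γ, hA'.1 (by simp [base]), h.top⟩
      · exact ⟨X.aa γ, hA'.1 (by simp [base]), ja⟩
      · exact ⟨X.e0 γ, hA'.1 (by simp [base]), je⟩
      · exact ⟨X.e1 γ, hA'.1 (by simp [base]), je'⟩
    · intro x hx
      rw [Finset.mem_image] at hx
      obtain ⟨z, hz, rfl⟩ := hx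
      exact (h.emb.lt z (hpl z hz)).trans hR
    · refine hcof.mono (hull_le le_rfl ?_)
      rintro z (hz | hz) hzs
      · exact mem_hull (Or.inl (mem_Iio.2 (lt_of_lt_of_le (mem_Iio.1 hz) (le_max_right _ _)))) hzs
      · exact hull_mono le_rfl (union_subset_union_left _ (Iio_subset_Iio (le_max_left _ _)))
          (h3 z hz)
  · exact absurd h1 (pA_min h.nice' h.typeA' hadm)

theorem comp (h : X.Pre β i γ t j) : Comp β (s1 β) (X.pA β) i γ t (X.pA γ) j where
  sys := asys h.nice h.typeA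
  sys' := by
    have := asys h.nice' h.typeA'
    rwa [h.s1_eq] at this
  lim := h.lim
  eq := h.eq
  lt := h.lt
  emb := h.emb
  range := h.range
  id := h.id
  top := h.top
  img := h.img

end Pre

end Ctx

end Pool.Agent.Helper4.WC
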