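import Pool.Agent.Helper4.WC.TA1

set_option autoImplicit false

open Set Ordinal

namespace Pool.Agent.Helper4.WC

open Pool.Agent.Helper4.KSq (IsAcc IsClubIn)

namespace Ctx

variable {X : Ctx}

/-- finite subsets of the range have finite preimages -/
theorem tag_pre {t : O} {j : O → O} (p : Finset O) (h : ∀ x ∈ p, ∃ b < t, j b = x) :
    ∃ q : Finset O, (∀ x ∈ q, x < t) ∧ q.image j = p ∧
      ∀ x ∈ p, ∃ b ∈ q, j b = x := by
  classical
  have h' : ∀ x : O, ∃ b, x ∈ p → b < t ∧ j b = x := by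
    intro x
    by_cases hx : x ∈ p
    · obtain ⟨b, hb⟩ := h x hx
      exact ⟨b, fun _ => hb⟩
    · exact ⟨0, fun h => absurd h hx⟩
  choose g hg using h'
  refine ⟨p.image g, ?_, ?_, ?_⟩
  · intro x hx
    obtain ⟨y, hy, rfl⟩ := Finset.mem_image.1 hx
    exact (hg y hy).1
  · ext x
    constructor
    · intro hx
      obtain ⟨y, hy, rfl⟩ := Finset.mem_image.1 hx
      obtain ⟨z, hz, rfl⟩ := Finset.mem_image.1 hy
      rw [(hg z hz).2]
      exact hz
    · intro hx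
      exact Finset.mem_image.2 ⟨g x, Finset.mem_image_of_mem g hx, (hg x hx).2⟩
  · intro x hx
    exact ⟨g x, Finset.mem_image_of_mem g hx, (hg x hx).2⟩

theorem tag_image {j : O → O} {δ : O} {q p : Finset O} (hid : ∀ x < δ, j x = x)
    (hq : q.image j = p) : j '' (Iio δ ∪ (q : Set O)) = Iio δ ∪ (p : Set O) := by
  rw [image_union]
  congr 1
  · ext x
    constructor
    · rintro ⟨y, hy, rfl⟩
      rw [hid y hy]
      exact hy
    · intro hx
      exact ⟨x, hx, hid x hx⟩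
  · rw [← Finset.coe_image, hq]

/-- soundness -/
theorem gen_A {β : O} (h : X.Nice β) (hA : X.TypeA β) :
    ∀ x < s1 β, x ∈ Hull (s1 β) (Iio β ∪ (X.pA β : Set O)) := by
  classical
  obtain ⟨hb1, hb2, hb3⟩ := adm_pA h hA
  have hβp : β ∈ X.pA β := hb1 (by simp [base])
  have hβs : β < s1 β := hb2 _ hβp
  obtain ⟨t, j, hj, hr⟩ := condensation (isCl_hull (s1 β) (Iio β ∪ (X.pA β : Set O)))
  have hX1 : ∀ x < β, x ∈ Hull (s1 β) (Iio β ∪ (X.pA β : Set O)) := fun x hx =>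
    mem_hull (Or.inl hx) (hx.trans hβs)
  have hX2 : ∀ x ∈ X.pA β, x ∈ Hull (s1 β) (Iio β ∪ (X.pA β : Set O)) := fun x hx =>
    mem_hull (Or.inr hx) (hb2 x hx)
  have hid := range_id hj hr hX1
  obtain ⟨hβt, hjβ⟩ := range_pt hj hr hX1 (hX2 β hβp) le_rfl (fun x _ hx => hx)
  have haa : X.aa β ∈ X.pA β := hb1 (by simp [base])
  have he0 : X.e0 β ∈ X.pA β := hb1 (by simp [base])
  have he1 : X.e1 β ∈ X.pA β := hb1 (by simp [base])
  obtain ⟨a, ha, ja⟩ := (hr _).2 (hX2 _ haa)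
  obtain ⟨e, he, je⟩ := (hr _).2 (hX2 _ he0)
  obtain ⟨e', he', je'⟩ := (hr _).2 (hX2 _ he1)
  obtain ⟨p1, p2, p3⟩ := par_low h hj.toMEmb (fun x hx => (hid x hx).2) hβt hjβ ha he he' ja je je'
  obtain ⟨q, hqt, hqj, hqp⟩ := tag_pre (t := t) (j := j) (X.pA β)
    (fun x hx => (hr x).2 (hX2 x hx))
  -- the elements of `base` are fixed
  have hbase : ∀ x ∈ X.base β, x < t ∧ j x = x := by
    intro x hx
    simp only [base, Finset.mem_insert, Finset.mem_singleton] at hx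
    rcases hx with rfl | rfl | rfl | rfl
    · exact ⟨hβt, hjβ⟩
    · rw [← p1] at ja ha
      exact ⟨ha, ja⟩
    · rw [← p2] at je he
      exact ⟨he, je⟩
    · rw [← p3] at je' he'
      exact ⟨he', je'⟩
  have hbq : X.base β ⊆ q := by
    intro x hx
    obtain ⟨b, hb, hbx⟩ := hqp x (hb1 hx)
    have h1 := hj.toMEmb.inj (hqt b hb) (hbase x hx).1 (by rw [hbx, (hbase x hx).2])
    rwa [← h1]
  have hts : t ≤ s1 β := le_of_forall_lt fun c hc => (hj.toMEmb.le_self hc).trans_lt (hj.lt c hc)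
  have hZ : ∀ δ ≤ β, ∀ z ∈ Iio δ ∪ (q : Set O), z < t := by
    intro δ hδ z hz
    rcases hz with hz | hz
    · exact (lt_of_lt_of_le hz hδ).trans hβt
    · exact hqt z hz
  obtain ⟨δ, hδ, hcof⟩ := hb3
  have hcof' : Cof (Hull t (Iio δ ∪ (q : Set O))) β := by
    intro b hb
    obtain ⟨x, hx, hbx, hxβ⟩ := hcof b hb
    refine ⟨x, ?_, hbx, hxβ⟩
    have h1 := hj.hull_iff (r := s1 β) le_rfl (hZ δ hδ.le) (hid x hxβ).1
    rw [hj.cut_top, tag_image (fun y hy => (hid y (lt_trans hy hδ)).2) hqj, (hid x hxβ).2] at h1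
    exact h1.1 hx
  have hst : s1 β ≤ t := by
    refine csInf_le' (s := {s | ¬ Bd β s}) ?_
    intro hbd
    exact (not_bddIn.2 hcof') (hbd δ hδ q)
  have hteq : t = s1 β := le_antisymm hts hst
  have hadm : X.Adm β q := ⟨hbq, fun x hx => (hqt x hx).trans_le hts, δ, hδ, by
    rw [← hteq]
    exact hcof'⟩
  have hqe : q = X.pA β := by
    rcases cLt_of_image (fun x hx y hy hxy => hj.mono y (hqt y hy) x hxy)
      (fun x hx => hj.toMEmb.le_self (hqt x hx)) hqj with h1 | h1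
    · exact h1
    · exact absurd h1 (pA_min h hA hadm)
  intro x hx
  have hxt : x < t := by rwa [hteq]
  have h1 := hj.hull_iff (r := s1 β) le_rfl (hZ β le_rfl) hxt
  rw [hj.cut_top, tag_image (fun y hy => (hid y hy).2) hqj] at h1
  have h2 := h1.1 ((hr _).1 ⟨x, hxt, rfl⟩)
  rwa [hqe, hteq] at h2

end Ctx

end Pool.Agent.Helper4.WC
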