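import Pool.Agent.Helper4.WC.Cty
import Pool.Agent.Helper4.WC.Cnd

set_option autoImplicit false

/-!
# Points of type B
-/

open Set Ordinal

namespace Pool.Agent.Helper4.WC

open Pool.Agent.Helper4.KSq (IsAcc IsClubIn)

namespace Ctx

variable (X : Ctx)

/-- `β` is singularised at a location `≤ s2 β` -/
def TypeA (β : O) : Prop := ∃ s ≤ X.s2 β, ¬ Bd β s

noncomputable def pB (β : O) : Finset O := {β, X.aa β, X.cc β, X.eB β}

/-- the canonical closed set of a point of type B -/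
def CB (β : O) : Set O := {b | b < β ∧ ∀ δ < b, ∃ y < b,
  ∀ x ∈ Hull (X.s2 β) (Iio δ ∪ (X.pB β : Set O)), x < β → x < y}

variable {X}

theorem CB_closed {β b : O} (hb : b < β) (hacc : IsAcc (X.CB β) b) : b ∈ X.CB β := by
  refine ⟨hb, fun δ hδ => ?_⟩
  obtain ⟨c, hc, hδc, hcb⟩ := hacc.2 δ hδ
  obtain ⟨y, hy, h⟩ := hc.2 δ hδc
  exact ⟨y, hy.trans hcb, h⟩

theorem CB_unb_or {β : O} (h : X.Nice β) (hB : ¬ X.TypeA β) :
    (∀ x < β, ∃ b ∈ X.CB β, x < b) ∨ ∃ f : ℕ → O, (∀ n, f n < β) ∧ ∀ x < β, ∃ n, x ≤ f n := by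
  by_cases hunb : ∀ x < β, ∃ b ∈ X.CB β, x < b
  · exact Or.inl hunb
  right
  push Not at hunb
  obtain ⟨x0, hx0, hx0'⟩ := hunb
  have hBd : Bd β (X.s2 β) := by
    by_contra hc
    exact hB ⟨X.s2 β, le_rfl, hc⟩
  have hk : ∀ δ : O, ∃ y : O, δ < β → y < β ∧
      ∀ x ∈ Hull (X.s2 β) (Iio δ ∪ (X.pB β : Set O)), x < β → x < y := by
    intro δ
    by_cases hδ : δ < β
    · obtain ⟨y, hy, hy'⟩ := hBd δ hδ (X.pB β)
      exact ⟨y, fun _ => ⟨hy, hy'⟩⟩
    · exact ⟨0, fun h => (hδ h).elim⟩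
  choose k hk using hk
  let f : ℕ → O := fun n => Nat.rec x0 (fun _ y => max (k y) y + 1) n
  have f0 : f 0 = x0 := rfl
  have fs : ∀ n, f (n + 1) = max (k (f n)) (f n) + 1 := fun n => rfl
  have flt : ∀ n, f n < β := by
    intro n
    induction n with
    | zero => exact hx0
    | succ n ih =>
      rw [fs]
      have h1 : max (k (f n)) (f n) < β := max_lt (hk (f n) ih).1 ih
      obtain ⟨y, hy, hxy⟩ := h.blim _ h1
      exact lt_of_le_of_lt (Order.add_one_le_of_lt hxy) hy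
  have fmono : ∀ n, f n < f (n + 1) := fun n => by
    rw [fs]
    exact Order.lt_add_one_iff.2 (le_max_right _ _)
  refine ⟨f, flt, ?_⟩
  by_contra hc
  push Not at hc
  obtain ⟨y, hy, hfy⟩ := hc
  set b : O := ⨆ n, f n with hb
  have hfb : ∀ n, f n ≤ b := fun n => Ordinal.le_iSup f n
  have hbβ : b < β := lt_of_le_of_lt (Ordinal.iSup_le fun n => (hfy n).le) hy
  have hmemb : b ∈ X.CB β := by
    refine ⟨hbβ, fun δ hδ => ?_⟩
    obtain ⟨n, hn⟩ := Ordinal.lt_iSup_iff.1 hδ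
    refine ⟨f (n + 1), (fmono (n + 1)).trans_le (hfb (n + 1 + 1)), fun x hx hxβ => ?_⟩
    have h1 : x ∈ Hull (X.s2 β) (Iio (f n) ∪ (X.pB β : Set O)) :=
      hull_mono le_rfl (union_subset_union_left _ (Iio_subset_Iio hn.le)) hx
    have h2 := (hk (f n) (flt n)).2 x h1 hxβ
    rw [fs]
    exact h2.trans (Order.lt_add_one_iff.2 (le_max_left _ _))
  exact absurd (hx0' b hmemb) (not_le.2 ((f0 ▸ fmono 0).trans_le (hfb 1)))

/-- soundness -/
theorem gen_B {β : O} (h : X.Nice β) :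
    ∀ x < X.s2 β, x ∈ Hull (X.s2 β) (Iio β ∪ (X.pB β : Set O)) := by
  have s2e : X.eB β < X.s2 β := lt_nx _
  have eBm : max (max (X.aa β) (X.cc β)) β < X.eB β := lt_nx _
  have hβs : β < X.s2 β := ((le_max_right _ _).trans_lt eBm).trans s2e
  have hmem : ∀ z, z ∈ X.pB β ↔ z = β ∨ z = X.aa β ∨ z = X.cc β ∨ z = X.eB β := by
    intro z
    unfold pB
    simp
  have hlt : ∀ z ∈ X.pB β, z < X.s2 β := by
    intro z hz
    rcases (hmem z).1 hz with h | h | h | h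
    · rw [h]
      exact hβs
    · rw [h]
      exact (((le_max_left _ _).trans (le_max_left _ _)).trans_lt eBm).trans s2e
    · rw [h]
      exact (((le_max_right _ _).trans (le_max_left _ _)).trans_lt eBm).trans s2e
    · rw [h]
      exact s2e
  have hsub : ∀ x < β, x ∈ Hull (X.s2 β) (Iio β ∪ (X.pB β : Set O)) := fun x hx =>
    mem_hull (Or.inl hx) (hx.trans hβs)
  have hpar : ∀ z ∈ X.pB β, z ∈ Hull (X.s2 β) (Iio β ∪ (X.pB β : Set O)) := fun z hz =>
    mem_hull (Or.inr hz) (hlt z hz)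
  obtain ⟨t, j, hj, hr⟩ := condensation (isCl_hull (X.s2 β) (Iio β ∪ (X.pB β : Set O)))
  obtain ⟨hβt, htop⟩ := range_pt hj hr hsub (hpar β ((hmem _).2 (Or.inl rfl))) le_rfl
    (fun _ _ hx => hx)
  have hid : ∀ x < β, j x = x := fun x hx => (range_id hj hr hsub x hx).2
  obtain ⟨a, ha, ja⟩ := (hr _).2 (hpar (X.aa β) ((hmem _).2 (Or.inr (Or.inl rfl))))
  obtain ⟨c, hc, jc⟩ := (hr _).2 (hpar (X.cc β) ((hmem _).2 (Or.inr (Or.inr (Or.inl rfl)))))
  obtain ⟨e, he, je⟩ := (hr _).2 (hpar (X.eB β) ((hmem _).2 (Or.inr (Or.inr (Or.inr rfl)))))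
  obtain ⟨h1, h2, h3, h4⟩ := par_mid h hj hid hβt htop ha hc he ja jc je
  subst h4
  have hfix : ∀ z ∈ Iio β ∪ (X.pB β : Set O), j z = z := by
    rintro z (hz | hz)
    · exact hid z hz
    · rcases (hmem z).1 hz with h5 | h5 | h5 | h5
      · rw [h5, htop]
      · rw [h5, h1, ja, h1]
      · rw [h5, h2, jc, h2]
      · rw [h5, h3, je, h3]
  have himg : j '' (Iio β ∪ (X.pB β : Set O)) = Iio β ∪ (X.pB β : Set O) := by
    ext z
    constructor
    · rintro ⟨y, hy, rfl⟩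
      rw [hfix y hy]
      exact hy
    · intro hz
      exact ⟨z, hz, hfix z hz⟩
  intro x hx
  have hZ : ∀ z ∈ Iio β ∪ (X.pB β : Set O), z < X.s2 β := by
    rintro z (hz | hz)
    · exact lt_trans hz hβs
    · exact hlt z hz
  have h6 := (hj.hull_iff (r := X.s2 β) le_rfl hZ hx).1 (by
    rw [himg]
    exact (hr _).1 ⟨x, hx, rfl⟩)
  rwa [hj.cut_top] at h6

end Ctx

end Pool.Agent.Helper4.WC
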