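import Pool.Agent.Helper4.WC.BIS2

set_option autoImplicit false

/-!
# Truth in the class of the named sets is definable
-/

open Set Ordinal

namespace Pool.Agent.Helper4.WC

/-- the element of the class with name `c` -/
noncomputable def vn (c : O) : {x : ZFSet.{0} // NN x} := ⟨val c, c, rfl⟩

theorem exists_vn (x : {x : ZFSet.{0} // NN x}) : ∃ c, vn c = x := by
  obtain ⟨x, c, hc⟩ := x
  exact ⟨c, Subtype.ext hc⟩

theorem exists_vn_seq (v : ℕ → {x : ZFSet.{0} // NN x}) : ∃ w : ℕ → O, ∀ i, vn (w i) = v i := by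
  choose w hw using fun i => exists_vn (v i)
  exact ⟨w, hw⟩

theorem trn_cns (x : O) (v : ℕ → O) :
    (fun i => vn (cns x v i)) = scons (vn x) (fun i => vn (v i)) := by
  funext i
  cases i with
  | zero => rfl
  | succ i => rfl

theorem defU_sat (φ : SFm) : DefU (fun v => φ.Sat (Mem NN) (fun i => vn (v i))) := by
  induction φ with
  | mem i j => exact defU_mem i j
  | eq i j =>
    refine (defU_eq i j).congr fun v => ?_
    show val (v i) = val (v j) ↔ vn (v i) = vn (v j)
    exact ⟨fun h => Subtype.ext h, fun h => congrArg Subtype.val h⟩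
  | bot => exact Abs.fls.defU
  | imp φ ψ ih ih' => exact ih.imp ih'
  | all φ ih =>
    refine ih.all.congr fun v => ?_
    show (∀ y, φ.Sat (Mem NN) (fun i => vn (cns y v i))) ↔
      ∀ x, φ.Sat (Mem NN) (scons x (fun i => vn (v i)))
    constructor
    · intro h x
      obtain ⟨c, rfl⟩ := exists_vn x
      have := h c
      rwa [trn_cns] at this
    · intro h y
      rw [trn_cns]
      exact h (vn y)

/-- separation, in the form used for the axioms: `φ` has the free variable `0` for the element -/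
theorem NN_sep (φ : SFm) (v : ℕ → {x : ZFSet.{0} // NN x}) (b : O) :
    ∃ z : {x : ZFSet.{0} // NN x}, ∀ w, Mem NN w z ↔ (∃ ξ < b, vn ξ = w) ∧
      φ.Sat (Mem NN) (scons w v) := by
  obtain ⟨w, hw⟩ := exists_vn_seq v
  obtain ⟨x, hx, h⟩ := NN_comp (defU_sat φ) w b
  have hv : (fun i => vn (w i)) = v := funext hw
  refine ⟨⟨x, hx⟩, fun u => ?_⟩
  show u.1 ∈ x ↔ _
  rw [h]
  constructor
  · rintro ⟨ξ, hξ, h1, h2⟩
    have h3 : vn ξ = u := Subtype.ext h2
    rw [trn_cns, hv, h3] at h1
    exact ⟨⟨ξ, hξ, h3⟩, h1⟩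
  · rintro ⟨⟨ξ, hξ, h3⟩, h1⟩
    refine ⟨ξ, hξ, ?_, ?_⟩
    · rw [trn_cns, hv, h3]
      exact h1
    · rw [← h3]
      rfl

end Pool.Agent.Helper4.WC
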