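import Mathlib

set_option autoImplicit false

/-!
# Inner models of ZFC, and weakly compact cardinals in them

Formulas of the language of set theory, the axioms of ZFC for a structure `(M, E)`, inner models,
and the partition property `κ → (κ)²₂` in an inner model.
-/

universe v

namespace Pool.Agent.Helper4.WC

/-- formulas of the language of set theory with variables `v 0, v 1, ...`; `all` binds the variable
`0` and shifts the others -/
inductive SFm : Type
  | mem : ℕ → ℕ → SFm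
  | eq : ℕ → ℕ → SFm
  | bot : SFm
  | imp : SFm → SFm → SFm
  | all : SFm → SFm

/-- the sequence `x, v 0, v 1, ...` -/
def scons {M : Type v} (x : M) (v : ℕ → M) : ℕ → M
  | 0 => x
  | i + 1 => v i

/-- truth in `(M, E)` under the assignment `v` -/
def SFm.Sat {M : Type v} (E : M → M → Prop) : SFm → (ℕ → M) → Prop
  | .mem i j, v => E (v i) (v j)
  | .eq i j, v => v i = v j
  | .bot, _ => False
  | .imp φ ψ, v => φ.Sat E v → ψ.Sat E v
  | .all φ, v => ∀ x, φ.Sat E (scons x v)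

/-- `(M, E)` is a model of ZFC -/
structure ZFC {M : Type v} (E : M → M → Prop) : Prop where
  extensionality : ∀ x y, (∀ z, E z x ↔ E z y) → x = y
  foundation : ∀ x, (∃ y, E y x) → ∃ y, E y x ∧ ∀ z, E z y → ¬ E z x
  pairing : ∀ x y, ∃ z, ∀ w, E w z ↔ w = x ∨ w = y
  union : ∀ x, ∃ z, ∀ w, E w z ↔ ∃ y, E y x ∧ E w y
  power : ∀ x, ∃ z, ∀ w, E w z ↔ ∀ u, E u w → E u x
  infinity : ∃ x, (∃ e, (∀ y, ¬ E y e) ∧ E e x) ∧
    ∀ y, E y x → ∃ s, E s x ∧ ∀ w, E w s ↔ E w y ∨ w = y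
  separation : ∀ (φ : SFm) (v : ℕ → M) (a : M), ∃ z, ∀ w, E w z ↔ E w a ∧ φ.Sat E (scons w v)
  replacement : ∀ (φ : SFm) (v : ℕ → M) (a : M),
    (∀ x, E x a → ∃! y, φ.Sat E (scons y (scons x v))) →
      ∃ z, ∀ y, E y z ↔ ∃ x, E x a ∧ φ.Sat E (scons y (scons x v))
  choice : ∀ x, (∀ y, E y x → ∃ z, E z y) →
    (∀ y y' z, E y x → E y' x → E z y → E z y' → y = y') →
      ∃ c, ∀ y, E y x → ∃! z, E z y ∧ E z c

/-- the membership relation of the class `N` -/
def Mem (N : ZFSet.{0} → Prop) (x y : {x : ZFSet.{0} // N x}) : Prop := x.1 ∈ y.1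

/-- `N` is an inner model of ZFC: a transitive class that contains all ordinals and is a model
of ZFC -/
structure IsInnerModel (N : ZFSet.{0} → Prop) : Prop where
  trans : ∀ x y, N x → y ∈ x → N y
  ord : ∀ α : Ordinal.{0}, N α.toZFSet
  zfc : ZFC (Mem N)

/-- the partition property `κ → (κ)²₂` in `N`: for every `R` in `N` there is an unbounded subset `H`
of `κ` in `N` such that all pairs `(α, β)` of elements `α < β` of `H` are in `R`, or none of them
is -/
def PartitionIn (N : ZFSet.{0} → Prop) (κ : Ordinal.{0}) : Prop :=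
  ∀ R, N R → ∃ H, N H ∧ H ⊆ κ.toZFSet ∧ (∀ α < κ, ∃ β < κ, α ≤ β ∧ β.toZFSet ∈ H) ∧
    ((∀ α < κ, ∀ β < κ, α < β → α.toZFSet ∈ H → β.toZFSet ∈ H →
        ZFSet.pair α.toZFSet β.toZFSet ∈ R) ∨
      (∀ α < κ, ∀ β < κ, α < β → α.toZFSet ∈ H → β.toZFSet ∈ H →
        ZFSet.pair α.toZFSet β.toZFSet ∉ R))

end Pool.Agent.Helper4.WC
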