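import Pool.Agent.Helper4.WC.COMP
import Pool.Agent.Helper4.WC.WDefs

set_option autoImplicit false

/-!
# The sets with names
-/

open Set Ordinal

namespace Pool.Agent.Helper4.WC

theorem small_Es (c : O) : Small.{0} (Es c) :=
  small_subset (s := Iio c) (fun _ h => E_lt h : Es c ⊆ Iio c)

/-- the set named by `c` -/
noncomputable def val : O → ZFSet.{0} :=
  WellFounded.fix (C := fun _ => ZFSet.{0}) (lt_wf : WellFounded ((· < ·) : O → O → Prop))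
    fun c rec => haveI := small_Es c; ZFSet.range fun ξ : Es c => rec ξ.1 (E_lt ξ.2)

theorem val_eq (c : O) : val c = haveI := small_Es c; ZFSet.range fun ξ : Es c => val ξ.1 := by
  unfold val
  rw [WellFounded.fix_eq]

theorem mem_val {c : O} {y : ZFSet.{0}} : y ∈ val c ↔ ∃ ξ, E ξ c ∧ val ξ = y := by
  have := small_Es c
  rw [val_eq, ZFSet.mem_range]
  exact ⟨fun ⟨ξ, h⟩ => ⟨ξ.1, ξ.2, h⟩, fun ⟨ξ, h1, h2⟩ => ⟨⟨ξ, h1⟩, h2⟩⟩

theorem val_oo (ρ : O) : val (oo ρ) = ρ.toZFSet := by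
  induction ρ using WellFoundedLT.induction with
  | ind ρ ih =>
    refine ZFSet.ext fun z => ?_
    rw [mem_val, Ordinal.mem_toZFSet_iff]
    constructor
    · rintro ⟨ξ, h1, h2⟩
      obtain ⟨σ, hσ, rfl⟩ := E_oo.1 h1
      exact ⟨σ, hσ, by rw [← ih σ hσ, h2]⟩
    · rintro ⟨σ, hσ, rfl⟩
      exact ⟨oo σ, E_oo.2 ⟨σ, hσ, rfl⟩, ih σ hσ⟩

/-- the class of the sets with names -/
def NN (x : ZFSet.{0}) : Prop := ∃ c, val c = x

theorem NN_trans : ∀ x y, NN x → y ∈ x → NN y := by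
  rintro _ y ⟨c, rfl⟩ hy
  obtain ⟨ξ, -, h⟩ := mem_val.1 hy
  exact ⟨ξ, h⟩

theorem NN_ord (α : Ordinal.{0}) : NN α.toZFSet := ⟨oo α, val_oo α⟩

/-- names of the elements of a set -/
theorem NN_bound (a : ZFSet.{0}) : ∃ b, ∀ y ∈ a, NN y → ∃ ξ < b, val ξ = y := by
  classical
  let f : {y : ZFSet.{0} // y ∈ a} → O := fun y => if h : NN y.1 then h.choose else 0
  have hsm : Small.{0} {y : ZFSet.{0} // y ∈ a} := ZFSet.small_coe a
  have hb : BddAbove (Set.range f) := Ordinal.bddAbove_of_small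
  obtain ⟨b, hb⟩ := hb
  refine ⟨b + 1, fun y hy hN => ⟨f ⟨y, hy⟩, ?_, ?_⟩⟩
  · exact Order.lt_add_one_iff.2 (hb ⟨⟨y, hy⟩, rfl⟩)
  · simp only [f]
    rw [dif_pos hN]
    exact hN.choose_spec

/-- definable subsets -/
theorem NN_comp {Q : (ℕ → O) → Prop} (hQ : DefU Q) (v : ℕ → O) (b : O) :
    ∃ x, NN x ∧ ∀ y, y ∈ x ↔ ∃ ξ < b, Q (cns ξ v) ∧ val ξ = y := by
  obtain ⟨c, hc⟩ := comprehension hQ v b
  refine ⟨val c, ⟨c, rfl⟩, fun y => ?_⟩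
  rw [mem_val]
  constructor
  · rintro ⟨ξ, h1, h2⟩
    have h3 : ξ ∈ Es c := h1
    rw [hc] at h3
    exact ⟨ξ, h3.1, h3.2, h2⟩
  · rintro ⟨ξ, h1, h2, h3⟩
    have h4 : ξ ∈ Es c := by
      rw [hc]
      exact ⟨h1, h2⟩
    exact ⟨ξ, h4, h3⟩

end Pool.Agent.Helper4.WC
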