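import Pool.Agent.Helper4.WC.TRN

set_option autoImplicit false

/-!
# The class of the named sets is a model of ZFC
-/

open Set Ordinal

namespace Pool.Agent.Helper4.WC

theorem zf_ext : ∀ x y : {x : ZFSet.{0} // NN x}, (∀ z, Mem NN z x ↔ Mem NN z y) → x = y := by
  intro x y h
  refine Subtype.ext (ZFSet.ext fun w => ⟨fun hw => ?_, fun hw => ?_⟩)
  · exact (h ⟨w, NN_trans _ _ x.2 hw⟩).mp hw
  · exact (h ⟨w, NN_trans _ _ y.2 hw⟩).mpr hw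

theorem zf_foundation : ∀ x : {x : ZFSet.{0} // NN x}, (∃ y, Mem NN y x) →
    ∃ y, Mem NN y x ∧ ∀ z, Mem NN z y → ¬ Mem NN z x := by
  rintro x ⟨y, hy⟩
  have hx : x.1 ≠ ∅ := by
    intro h
    have hy' : y.1 ∈ x.1 := hy
    rw [h] at hy'
    exact ZFSet.notMem_empty _ hy'
  obtain ⟨w, hw, h⟩ := ZFSet.regularity x.1 hx
  refine ⟨⟨w, NN_trans _ _ x.2 hw⟩, hw, fun z hz hzx => ?_⟩
  have h1 : z.1 ∈ x.1 ∩ w := ZFSet.mem_inter.mpr ⟨hzx, hz⟩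
  rw [h] at h1
  exact ZFSet.notMem_empty _ h1

theorem zf_pairing : ∀ x y : {x : ZFSet.{0} // NN x}, ∃ z, ∀ w, Mem NN w z ↔ w = x ∨ w = y := by
  rintro ⟨x, c, rfl⟩ ⟨y, d, rfl⟩
  obtain ⟨z, hz, h⟩ := NN_comp ((defU_eq 0 1).or (defU_eq 0 2)) (cns c (cns d fun _ => 0))
    (max c d + 1)
  refine ⟨⟨z, hz⟩, fun w => ?_⟩
  have h1 := h w.1
  refine Iff.trans h1 ?_
  constructor
  · rintro ⟨ξ, -, h2, h3⟩
    rcases h2 with h2 | h2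
    · left
      exact Subtype.ext (h3.symm.trans h2)
    · right
      exact Subtype.ext (h3.symm.trans h2)
  · rintro (h2 | h2)
    · refine ⟨c, ?_, Or.inl rfl, ?_⟩
      · exact lt_of_le_of_lt (le_max_left c d) (lt_add_one _)
      · rw [h2]
    · refine ⟨d, ?_, Or.inr rfl, ?_⟩
      · exact lt_of_le_of_lt (le_max_right c d) (lt_add_one _)
      · rw [h2]

theorem zf_union : ∀ x : {x : ZFSet.{0} // NN x}, ∃ z, ∀ w, Mem NN w z ↔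
    ∃ y, Mem NN y x ∧ Mem NN w y := by
  rintro ⟨x, c, rfl⟩
  have hQ : DefU (fun v => ∃ η, E η (v 1) ∧ E (v 0) η) :=
    (DefU.dfu_mem 1 0).exE 1
  obtain ⟨z, hz, h⟩ := NN_comp hQ (cns c fun _ => 0) c
  refine ⟨⟨z, hz⟩, fun w => ?_⟩
  refine Iff.trans (h w.1) ?_
  constructor
  · rintro ⟨ξ, -, ⟨η, h2, h3⟩, h4⟩
    have h2' : E η c := h2
    have h3' : E ξ η := h3
    refine ⟨⟨val η, η, rfl⟩, mem_val.mpr ⟨η, h2', rfl⟩, mem_val.mpr ⟨ξ, h3', h4⟩⟩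
  · rintro ⟨⟨y, hy⟩, h2, h3⟩
    obtain ⟨η, h4, h5⟩ := mem_val.mp (h2 : y ∈ val c)
    have h5' : val η = y := h5
    have h3' : w.1 ∈ y := h3
    rw [← h5'] at h3'
    obtain ⟨ξ, h6, h7⟩ := mem_val.mp h3'
    exact ⟨ξ, (E_lt h6).trans (E_lt h4), ⟨η, h4, h6⟩, h7⟩

theorem zf_infinity : ∃ x : {x : ZFSet.{0} // NN x}, (∃ e, (∀ y, ¬ Mem NN y e) ∧ Mem NN e x) ∧
    ∀ y, Mem NN y x → ∃ s, Mem NN s x ∧ ∀ w, Mem NN w s ↔ Mem NN w y ∨ w = y := by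
  refine ⟨⟨(ω : Ordinal.{0}).toZFSet, NN_ord _⟩, ⟨⟨(0 : Ordinal.{0}).toZFSet, NN_ord _⟩,
    fun y hy => ?_, ?_⟩, fun y hy => ?_⟩
  · have hy' : y.1 ∈ (0 : Ordinal.{0}).toZFSet := hy
    rw [Ordinal.toZFSet_zero] at hy'
    exact ZFSet.notMem_empty _ hy'
  · exact Ordinal.toZFSet_mem_toZFSet_iff.mpr omega0_pos
  · obtain ⟨α, hα, h1⟩ := Ordinal.mem_toZFSet_iff.mp (hy : y.1 ∈ (ω : Ordinal.{0}).toZFSet)
    refine ⟨⟨(α + 1).toZFSet, NN_ord _⟩, ?_, fun w => ?_⟩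
    · exact Ordinal.toZFSet_mem_toZFSet_iff.mpr (isSuccLimit_omega0.add_one_lt hα)
    · have h2 : Mem NN w ⟨(α + 1).toZFSet, NN_ord _⟩ ↔ w.1 ∈ (α + 1).toZFSet := Iff.rfl
      rw [h2, Ordinal.toZFSet_add_one, ZFSet.mem_insert_iff, h1]
      constructor
      · rintro (h | h)
        · exact Or.inr (Subtype.ext h)
        · exact Or.inl h
      · rintro (h | h)
        · exact Or.inr h
        · exact Or.inl (congrArg Subtype.val h)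

end Pool.Agent.Helper4.WC
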